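import Pool.Agent.Helper2.Tate.Count

/-!
# Roots of irreducible polynomials over finite fields
-/

set_option autoImplicit false

open Polynomial

namespace Pool.Agent.Helper2.Tate

variable (F : Type) [Field F] [Fintype F]

/-- The number of the roots of an irreducible polynomial of degree `m` in the extension of degree
`n` is `m` if `m ∣ n`, and `0` otherwise. -/
theorem ncard_roots (D : F[X]) (hD : Irreducible D) (n : ℕ) :
    {c : AlgebraicClosure F | c ∈ Kn (AlgebraicClosure F) (Fintype.card F) n ∧
      aeval c D = 0}.ncard = if D.natDegree ∣ n then D.natDegree else 0 := by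
  classical
  have hsep : D.Separable := PerfectField.separable_of_irreducible hD
  have hD0 : D ≠ 0 := hD.ne_zero
  have hroots : {c : AlgebraicClosure F | aeval c D = 0} =
      ((D.map (algebraMap F (AlgebraicClosure F))).roots.toFinset :
        Set (AlgebraicClosure F)) := by
    ext c
    simp only [Set.mem_ofPred_eq, Finset.mem_coe, Multiset.mem_toFinset]
    rw [mem_roots (Polynomial.map_ne_zero hD0), IsRoot, eval_map, aeval_def]
  by_cases hdvd : D.natDegree ∣ n
  · rw [if_pos hdvd]
    have h1 : {c : AlgebraicClosure F | c ∈ Kn (AlgebraicClosure F) (Fintype.card F) n ∧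
        aeval c D = 0} = {c : AlgebraicClosure F | aeval c D = 0} := by
      ext c
      simp only [Set.mem_ofPred_eq, and_iff_right_iff_imp]
      intro hc
      obtain ⟨E, hE⟩ := hD.natDegree_dvd_iff_dvd_X_pow_card_pow_sub_X.1 hdvd
      have h2 := congrArg (aeval c) hE
      rw [map_mul, hc, zero_mul, map_sub, map_pow, aeval_X, Nat.card_eq_fintype_card] at h2
      exact sub_eq_zero.1 h2
    rw [h1, hroots, Set.ncard_coe_finset, Multiset.toFinset_card_of_nodup
      (Polynomial.nodup_roots (hsep.map)), ← (IsAlgClosed.splits _).natDegree_eq_card_roots,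
      natDegree_map]
  · rw [if_neg hdvd]
    have h1 : {c : AlgebraicClosure F | c ∈ Kn (AlgebraicClosure F) (Fintype.card F) n ∧
        aeval c D = 0} = ∅ := by
      rw [Set.eq_empty_iff_forall_notMem]
      rintro c ⟨hc1, hc2⟩
      apply hdvd
      rw [hD.natDegree_dvd_iff_dvd_X_pow_card_pow_sub_X]
      have h2 : Associated D (minpoly F c) := by
        have h3 : minpoly F c ∣ D := minpoly.dvd F c hc2
        have h4 : Irreducible (minpoly F c) :=
          minpoly.irreducible (Algebra.IsIntegral.isIntegral c)
        exact (h4.associated_of_dvd hD h3).symm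
      refine h2.dvd.trans (minpoly.dvd F c ?_)
      rw [map_sub, map_pow, aeval_X, Nat.card_eq_fintype_card]
      exact sub_eq_zero.2 hc1
    rw [h1, Set.ncard_empty]

omit [Fintype F] in
/-- The roots of two non-associated irreducible polynomials are different. -/
theorem roots_disjoint (D E : F[X]) (hD : Irreducible D) (hE : Irreducible E)
    (hDE : ¬ Associated D E) (c : AlgebraicClosure F) (h1 : aeval c D = 0)
    (h2 : aeval c E = 0) : False := by
  apply hDE
  have h4 : Irreducible (minpoly F c) := minpoly.irreducible (Algebra.IsIntegral.isIntegral c)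
  exact (h4.associated_of_dvd hD (minpoly.dvd F c h1)).symm.trans
    (h4.associated_of_dvd hE (minpoly.dvd F c h2))

/-- The product of two non-associated irreducible polynomials has simple roots. -/
theorem derivative_ne_zero (D E : F[X]) (hD : Irreducible D) (hE : Irreducible E)
    (hDE : ¬ Associated D E) (c : AlgebraicClosure F) (h : aeval c (D * E) = 0) :
    aeval c (derivative (D * E)) ≠ 0 := by
  have key : ∀ D : F[X], Irreducible D → aeval c D = 0 → aeval c (derivative D) ≠ 0 := by
    intro D hD h0 h1
    have hsep : D.Separable := PerfectField.separable_of_irreducible hD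
    obtain ⟨a, b, hab⟩ := hsep
    have h2 := congrArg (aeval c) hab
    rw [map_add, map_mul, map_mul, h0, h1] at h2
    simp at h2
  rw [derivative_mul, map_add, map_mul, map_mul]
  rw [map_mul] at h
  rcases mul_eq_zero.1 h with h1 | h1
  · have h2 : aeval c E ≠ 0 := fun h2 => roots_disjoint F D E hD hE hDE c h1 h2
    rw [h1, zero_mul, add_zero]
    exact mul_ne_zero (key D hD h1) h2
  · have h2 : aeval c D ≠ 0 := fun h2 => roots_disjoint F D E hD hE hDE c h2 h1
    rw [h1, mul_zero, zero_add]
    exact mul_ne_zero h2 (key E hE h1)

/-- The number of roots of a product. -/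
theorem ncard_roots_mul (D E : F[X]) (hD : Irreducible D) (hE : Irreducible E)
    (hDE : ¬ Associated D E) (n : ℕ) (hn : 1 ≤ n) :
    {c : AlgebraicClosure F | c ∈ Kn (AlgebraicClosure F) (Fintype.card F) n ∧
      aeval c (D * E) = 0}.ncard = (if D.natDegree ∣ n then D.natDegree else 0) +
        (if E.natDegree ∣ n then E.natDegree else 0) := by
  classical
  have hfin := Kn_finite (Ω := AlgebraicClosure F) (Fintype.card F) n Fintype.one_lt_card hn
  rw [← ncard_roots F D hD n, ← ncard_roots F E hE n, ← Set.ncard_union_eq ?_
    (hfin.subset (fun c hc => hc.1)) (hfin.subset (fun c hc => hc.1))]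
  · congr 1
    ext c
    simp only [Set.mem_ofPred_eq, map_mul, mul_eq_zero, Set.mem_union]
    tauto
  · rw [Set.disjoint_left]
    rintro c ⟨_, h1⟩ ⟨_, h2⟩
    exact roots_disjoint F D E hD hE hDE c h1 h2

end Pool.Agent.Helper2.Tate
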