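import Pool.Agent.Helper2.Tate.Tower
import Pool.Agent.Helper2.Tate.Roots

/-!
# Irreducibility of Dickson polynomials
-/

set_option autoImplicit false

open Polynomial

namespace Pool.Agent.Helper2.Tate

theorem dickson_natDegree_le {R : Type*} [CommRing R] [Nontrivial R] (n : ℕ) :
    (dickson 1 (1 : R) n).natDegree ≤ n ∧ (dickson 1 (1 : R) (n + 1)).natDegree = n + 1 ∧
      (dickson 1 (1 : R) (n + 1)).Monic := by
  induction n with
  | zero =>
    refine ⟨?_, ?_, ?_⟩
    · rw [dickson_zero]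
      have : (3 - ((1 : ℕ) : R[X])) = C 2 := by
        rw [Nat.cast_one, map_ofNat]; norm_num
      rw [this, natDegree_C]
    · rw [zero_add, dickson_one, natDegree_X]
    · rw [zero_add, dickson_one]; exact monic_X
  | succ n ih =>
    obtain ⟨h1, h2, h3⟩ := ih
    refine ⟨h2.le, ?_, ?_⟩
    · have h4 : (X * dickson 1 (1 : R) (n + 1)).natDegree = n + 2 := by
        rw [mul_comm, natDegree_mul_X h3.ne_zero, h2]
      rw [dickson_add_two, C_1, one_mul, natDegree_sub_eq_left_of_natDegree_lt, h4]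
      rw [h4]; omega
    · rw [dickson_add_two, C_1, one_mul]
      apply (monic_X.mul h3).sub_of_left
      apply degree_lt_degree
      have h4 : (X * dickson 1 (1 : R) (n + 1)).natDegree = n + 2 := by
        rw [mul_comm, natDegree_mul_X h3.ne_zero, h2]
      rw [h4]; omega

theorem dickson_natDegree {R : Type*} [CommRing R] [Nontrivial R] (M : ℕ) (hM : 1 ≤ M) :
    (dickson 1 (1 : R) M).natDegree = M ∧ (dickson 1 (1 : R) M).Monic := by
  obtain ⟨n, rfl⟩ : ∃ n, M = n + 1 := ⟨M - 1, by omega⟩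
  exact (dickson_natDegree_le n).2

variable (F : Type) [Field F] [Fintype F]

theorem mem_range_of_pow_card (x : AlgebraicClosure F) (hx : x ^ Fintype.card F = x) :
    ∃ b : F, algebraMap F (AlgebraicClosure F) b = x := by
  have hi : Irreducible (minpoly F x) := minpoly.irreducible (Algebra.IsIntegral.isIntegral x)
  have h1 : (minpoly F x).natDegree ∣ 1 := by
    rw [hi.natDegree_dvd_iff_dvd_X_pow_card_pow_sub_X]
    apply minpoly.dvd
    rw [map_sub, map_pow, aeval_X, Nat.card_eq_fintype_card, pow_one, hx, sub_self]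
  exact minpoly.natDegree_eq_one_iff.1 (Nat.dvd_one.1 h1)

/-- Irreducibility of the polynomials `D_M - (c + 1 / c)`. -/
theorem irreducible_dickson (M : ℕ) (hM : 1 ≤ M) (hMq : M ∣ Fintype.card F - 1) (c : F)
    (hc0 : c ≠ 0) (hc : ∀ r : ℕ, r.Prime → r ∣ M → ∀ b : F, b ^ r ≠ c) (hc2 : c ^ 2 ≠ 1) :
    Irreducible (dickson 1 (1 : F) M - C (c + c⁻¹)) := by
  set q := Fintype.card F with hq
  have hq2 : 2 ≤ q := Fintype.one_lt_card
  obtain ⟨y, hy⟩ := IsAlgClosed.exists_pow_nat_eq (algebraMap F (AlgebraicClosure F) c)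
    (show 0 < M by omega)
  have hy0 : y ≠ 0 := by
    rintro rfl
    rw [zero_pow (by omega)] at hy
    exact hc0 ((map_eq_zero _).1 hy.symm)
  set z := y + y⁻¹ with hz
  obtain ⟨hdeg, hmon⟩ := dickson_natDegree (R := F) M hM
  have hdegC : (dickson 1 (1 : F) M - C (c + c⁻¹)).natDegree = M := by
    rw [natDegree_sub_C, hdeg]
  have hmonC : (dickson 1 (1 : F) M - C (c + c⁻¹)).Monic := by
    apply hmon.sub_of_left
    refine lt_of_le_of_lt degree_C_le ?_
    rw [degree_eq_natDegree hmon.ne_zero, hdeg]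
    exact_mod_cast hM
  have hroot : aeval z (dickson 1 (1 : F) M - C (c + c⁻¹)) = 0 := by
    rw [map_sub, aeval_C, aeval_def, eval₂_eq_eval_map, map_dickson, map_one, hz,
      dickson_one_one_eval_add_inv y y⁻¹ (mul_inv_cancel₀ hy0), inv_pow, hy, map_add, map_inv₀,
      sub_self]
  have hi : Irreducible (minpoly F z) := minpoly.irreducible (Algebra.IsIntegral.isIntegral z)
  have hdvd : minpoly F z ∣ dickson 1 (1 : F) M - C (c + c⁻¹) := minpoly.dvd F z hroot
  set d := (minpoly F z).natDegree with hd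
  have hzd : z ^ (q ^ d) = z := by
    have h1 : minpoly F z ∣ X ^ (Nat.card F) ^ d - X :=
      hi.natDegree_dvd_iff_dvd_X_pow_card_pow_sub_X.1 dvd_rfl
    have h2 : aeval z (X ^ (Nat.card F) ^ d - X : F[X]) = 0 := by
      obtain ⟨E, hE⟩ := h1
      rw [hE, map_mul, minpoly.aeval, zero_mul]
    rw [map_sub, map_pow, aeval_X, Nat.card_eq_fintype_card] at h2
    exact sub_eq_zero.1 h2
  -- the image of `y`
  have hfr : ∀ x : AlgebraicClosure F, (⇑(frob F))^[d] x = x ^ (q ^ d) :=
    iterate_frob (frob F) (frob_apply F) d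
  have hsum : y ^ (q ^ d) + (y ^ (q ^ d))⁻¹ = y + y⁻¹ := by
    have h1 := hfr z
    rw [hzd, hz, iterate_map_add, hfr, hfr, inv_pow] at h1
    exact h1
  have hy'0 : y ^ (q ^ d) ≠ 0 := pow_ne_zero _ hy0
  have hprod : (y ^ (q ^ d) - y) * (y * y ^ (q ^ d) - 1) = 0 := by
    field_simp at hsum
    linear_combination hsum
  have hcF : (algebraMap F (AlgebraicClosure F) c) ^ (q ^ d) = algebraMap F (AlgebraicClosure F) c := by
    rw [← map_pow, FiniteField.pow_card_pow]
  have hMd : M ∣ d := by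
    rcases mul_eq_zero.1 hprod with h1 | h1
    · -- `y ^ (q ^ d) = y`
      have hyy : y ^ (q ^ d) = y := sub_eq_zero.1 h1
      set ζ := y ^ (q - 1) with hζ
      have hyq : y ^ q = ζ * y := by
        rw [hζ, ← pow_succ]
        congr 1
        omega
      have hcq : (algebraMap F (AlgebraicClosure F) c) ^ (q - 1) = 1 := by
        rw [← map_pow, FiniteField.pow_card_sub_one_eq_one c hc0, map_one]
      have hζM : ζ ^ M = 1 := by
        rw [hζ, ← pow_mul, mul_comm, pow_mul, hy, hcq]
      have hζq : ζ ^ q = ζ := by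
        obtain ⟨s, hs⟩ := hMq
        have h2 : q = M * s + 1 := by omega
        rw [h2, pow_succ, pow_mul, hζM, one_pow, one_mul]
      have hit : ∀ j : ℕ, y ^ (q ^ j) = ζ ^ j * y := by
        intro j
        induction j with
        | zero => simp
        | succ j ih =>
          rw [pow_succ, pow_mul, ih, mul_pow, ← pow_mul, mul_comm j q, pow_mul, hζq, hyq, pow_succ]
          ring
      have hζd : ζ ^ d = 1 := by
        have h2 := hit d
        rw [hyy] at h2
        exact (mul_right_cancel₀ hy0 (by rw [one_mul]; exact h2)).symm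
      have horder : orderOf ζ = M := by
        obtain ⟨o', ho'⟩ := orderOf_dvd_of_pow_eq_one hζM
        by_cases h1' : o' = 1
        · rw [h1', mul_one] at ho'; exact ho'.symm
        · exfalso
          obtain ⟨r, hr, hro⟩ := Nat.exists_prime_and_dvd h1'
          obtain ⟨s, hs⟩ := hro
          have h3 : (y ^ orderOf ζ) ^ q = y ^ orderOf ζ := by
            rw [← pow_mul, mul_comm, pow_mul, hyq, mul_pow, pow_orderOf_eq_one, one_mul]
          obtain ⟨b, hb⟩ := mem_range_of_pow_card F _ h3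
          have h4 : (b ^ s) ^ r = c := by
            apply (algebraMap F (AlgebraicClosure F)).injective
            rw [map_pow, map_pow, hb, ← hy, ho', hs, ← pow_mul, ← pow_mul]
            congr 1
            ring
          exact hc r hr (ho' ▸ hs ▸ ⟨orderOf ζ * s, by ring⟩) _ h4
      rw [← horder]
      exact orderOf_dvd_of_pow_eq_one hζd
    · exfalso
      apply hc2
      have h2 : y * y ^ (q ^ d) = 1 := sub_eq_zero.1 h1
      apply (algebraMap F (AlgebraicClosure F)).injective
      rw [map_pow, map_one]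
      calc (algebraMap F (AlgebraicClosure F) c) ^ 2 =
          algebraMap F (AlgebraicClosure F) c *
            (algebraMap F (AlgebraicClosure F) c) ^ (q ^ d) := by rw [hcF, sq]
        _ = (y * y ^ (q ^ d)) ^ M := by
            rw [← hy, mul_pow, ← pow_mul, ← pow_mul, mul_comm (q ^ d) M]
        _ = 1 := by rw [h2, one_pow]
  have hdM : d ≤ M := by
    rw [← hdegC]; exact natDegree_le_of_dvd hdvd hmonC.ne_zero
  have hMle : M ≤ d := Nat.le_of_dvd (hi.natDegree_pos) hMd
  have heq : dickson 1 (1 : F) M - C (c + c⁻¹) = minpoly F z := by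
    apply eq_of_monic_of_dvd_of_natDegree_le (minpoly.monic (Algebra.IsIntegral.isIntegral z))
      hmonC hdvd
    rw [hdegC]; exact hMle
  rw [heq]
  exact hi

/-- Existence of twin irreducible polynomials which are affine functions of Dickson polynomials. -/
theorem exists_twin (ℓ M : ℕ) (hℓ : 1 ≤ ℓ) (hM : 1 ≤ M) : ∃ (p : ℕ) (_ : Fact p.Prime)
    (α β : ZMod p), ℓ ∣ p - 1 ∧ α ≠ 0 ∧
      (C α * dickson 1 (1 : ZMod p) M + C β).natDegree = M ∧
      Irreducible (C α * dickson 1 (1 : ZMod p) M + C β) ∧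
      Irreducible (C α * dickson 1 (1 : ZMod p) M + C β + 1) := by
  obtain ⟨p, hp, hgt, hmod⟩ := Nat.exists_prime_gt_modEq_one (k := ℓ * M) (2 * M + 4)
    (by positivity)
  have hF := Fact.mk hp
  have hdvd : ℓ * M ∣ p - 1 := (Nat.modEq_iff_dvd' hp.one_lt.le).1 hmod.symm
  have hMp : M ∣ p - 1 := (dvd_mul_left M ℓ).trans hdvd
  obtain ⟨g, hg⟩ := IsCyclic.exists_generator (α := (ZMod p)ˣ)
  have hog : orderOf g = p - 1 := by
    rw [orderOf_eq_card_of_forall_mem_zpowers hg, Nat.card_eq_fintype_card, ZMod.card_units]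
  have hpow : ∀ n : ℕ, 1 ≤ n → n < p - 1 → (g : ZMod p) ^ n ≠ 1 := by
    intro n hn hn2 h
    have h1 : g ^ n = 1 := by
      apply Units.ext
      rw [Units.val_pow_eq_pow_val, h, Units.val_one]
    have h2 := orderOf_dvd_of_pow_eq_one h1
    rw [hog] at h2
    have := Nat.le_of_dvd hn h2
    omega
  set c : ZMod p := (g : ZMod p) with hc
  have hc0 : c ≠ 0 := g.ne_zero
  -- not an `r`-th power
  have hnp : ∀ r : ℕ, r.Prime → r ∣ M → ∀ b : ZMod p, b ^ r ≠ c := by
    intro r hr hrM b hb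
    obtain ⟨s, hs⟩ := hrM.trans hMp
    have hb0 : b ≠ 0 := by
      rintro rfl
      rw [zero_pow hr.ne_zero] at hb
      exact hc0 hb.symm
    have h1 : c ^ s = 1 := by
      rw [← hb, ← pow_mul, ← hs]
      exact ZMod.pow_card_sub_one_eq_one hb0
    have hs1 : 1 ≤ s := by
      rcases Nat.eq_zero_or_pos s with rfl | h
      · omega
      · exact h
    refine hpow s hs1 ?_ h1
    have h2 : 2 * s ≤ r * s := Nat.mul_le_mul_right s hr.two_le
    omega
  set c' : ZMod p := c * c ^ M with hc'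
  have hc'0 : c' ≠ 0 := mul_ne_zero hc0 (pow_ne_zero _ hc0)
  have hnp' : ∀ r : ℕ, r.Prime → r ∣ M → ∀ b : ZMod p, b ^ r ≠ c' := by
    intro r hr hrM b hb
    obtain ⟨s, hs⟩ := hrM
    apply hnp r hr ⟨s, hs⟩ (b / c ^ s)
    rw [div_pow, hb, hc', hs, ← pow_mul, mul_comm s r, mul_div_assoc,
      div_self (pow_ne_zero _ hc0), mul_one]
  have hcard : Fintype.card (ZMod p) = p := ZMod.card p
  have h2 : c ^ 2 ≠ 1 := hpow 2 (by norm_num) (by omega)
  have h2' : c' ^ 2 ≠ 1 := by
    have : c' ^ 2 = c ^ (2 * M + 2) := by rw [hc']; ring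
    rw [this]
    exact hpow _ (by omega) (by omega)
  have i1 := irreducible_dickson (ZMod p) M hM (by rw [hcard]; exact hMp) c hc0 hnp h2
  have i2 := irreducible_dickson (ZMod p) M hM (by rw [hcard]; exact hMp) c' hc'0 hnp' h2'
  -- the two constants are different
  have hne : c + c⁻¹ - (c' + c'⁻¹) ≠ 0 := by
    intro h
    have h3 : (c - c') * (c * c' - 1) = 0 := by
      have h4 : (c + c⁻¹ - (c' + c'⁻¹)) * (c * c') = (c - c') * (c * c' - 1) := by
        field_simp
        ring
      rw [← h4, h, zero_mul]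
    rcases mul_eq_zero.1 h3 with h5 | h5
    · have h6 : c * (1 - c ^ M) = 0 := by
        rw [← h5, hc']; ring
      rcases mul_eq_zero.1 h6 with h7 | h7
      · exact hc0 h7
      · exact hpow M hM (by omega) (sub_eq_zero.1 h7).symm
    · have h6 : c ^ (M + 2) = 1 := by
        rw [← sub_eq_zero, ← h5, hc']; ring
      exact hpow (M + 2) (by omega) (by omega) h6
  set α : ZMod p := (c + c⁻¹ - (c' + c'⁻¹))⁻¹ with hα
  have hα0 : α ≠ 0 := inv_ne_zero hne
  have e1 : C α * dickson 1 (1 : ZMod p) M + C (- (α * (c + c⁻¹))) =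
      C α * (dickson 1 (1 : ZMod p) M - C (c + c⁻¹)) := by
    rw [C_neg, C_mul]; ring
  have e2 : C α * dickson 1 (1 : ZMod p) M + C (- (α * (c + c⁻¹))) + 1 =
      C α * (dickson 1 (1 : ZMod p) M - C (c' + c'⁻¹)) := by
    have h3 : (1 : (ZMod p)[X]) = C (α * (c + c⁻¹ - (c' + c'⁻¹))) := by
      rw [hα, inv_mul_cancel₀ hne, C_1]
    rw [h3, C_neg, C_mul, C_mul, C_sub]; ring
  have hu : IsUnit (C α : (ZMod p)[X]) := isUnit_C.2 (isUnit_iff_ne_zero.2 hα0)
  refine ⟨p, hF, α, - (α * (c + c⁻¹)), (dvd_mul_right ℓ M).trans hdvd, hα0, ?_, ?_, ?_⟩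
  · rw [natDegree_add_C, natDegree_C_mul hα0]
    exact (dickson_natDegree M hM).1
  · rw [e1]
    exact (irreducible_isUnit_mul hu).2 i1
  · rw [e2]
    exact (irreducible_isUnit_mul hu).2 i2

end Pool.Agent.Helper2.Tate
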