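import Pool.Agent.Helper2.Tate.Cong

/-!
# The order of vanishing modulo `ℓ` for the explicit family
-/

set_option autoImplicit false

open Polynomial

namespace Pool.Agent.Helper2.Tate

/-- the sum of the `n`-th powers of the `m`-th roots of unity -/
def cnt (m n : ℕ) : ℤ := if m ∣ n then m else 0

theorem LD_cyc (m : ℕ) (hm : 1 ≤ m) : LD (((1 - X ^ m : ℤ[X])) : PowerSeries ℤ)
    (PowerSeries.mk (fun n => if n = 0 then 0 else cnt m n)) := by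
  unfold LD
  have h1 : (((1 - X ^ m : ℤ[X])) : PowerSeries ℤ) = 1 - PowerSeries.X ^ m := by simp
  rw [h1]
  have h2 : PowerSeries.X * PowerSeries.derivative ℤ (1 - (PowerSeries.X : PowerSeries ℤ) ^ m) =
      - (PowerSeries.C (m : ℤ) * PowerSeries.X ^ m) := by
    obtain ⟨k, rfl⟩ : ∃ k, m = k + 1 := ⟨m - 1, by omega⟩
    rw [map_sub, Derivation.leibniz_pow, PowerSeries.derivative_X, Derivation.map_one_eq_zero]
    simp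
    ring
  rw [h2, sub_mul, one_mul]
  congr 1
  ext n
  rw [map_sub, PowerSeries.coeff_C_mul, PowerSeries.coeff_X_pow, PowerSeries.coeff_X_pow_mul',
    PowerSeries.coeff_mk]
  rcases Nat.lt_or_ge n m with hlt | hge
  · rw [if_neg (show ¬ n = m by omega), if_neg (show ¬ m ≤ n by omega)]
    rcases Nat.eq_zero_or_pos n with rfl | hn
    · simp
    · rw [if_neg (show ¬ n = 0 by omega)]
      unfold cnt
      rw [if_neg (Nat.not_dvd_of_pos_of_lt hn hlt)]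
      simp
  · rw [if_pos hge, PowerSeries.coeff_mk, if_neg (show ¬ n = 0 by omega)]
    by_cases h : n = m
    · subst h
      simp [cnt]
    · rw [if_neg h, if_neg (show ¬ n - m = 0 by omega)]
      unfold cnt
      have : m ∣ n - m ↔ m ∣ n := by
        rw [Nat.dvd_sub_iff_left hge dvd_rfl]
      simp only [this]
      ring

theorem cyc_factor (κ : Type*) [Field κ] (m : ℕ) (hm : (m : κ) ≠ 0) :
    ∃ S : κ[X], (1 - X ^ m : κ[X]) = (1 - X) * S ∧ S.eval 1 ≠ 0 := by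
  refine ⟨∑ i ∈ Finset.range m, X ^ i, ?_, ?_⟩
  · rw [mul_neg_geom_sum]
  · simpa [eval_finsetSum] using hm

/-- The factorization modulo `ℓ` of the polynomial of the second cohomology group of a surface of
the explicit family. -/
theorem family_factor (ℓ : ℕ) [hℓ : Fact ℓ.Prime] (q : ℕ) (hq1 : 1 ≤ q) (hq : ℓ ∣ q - 1)
    (N : ℕ) (hN : 1 ≤ N) (QY : ℤ[X]) (hY : QY.Monic) (m₁ m₂ e₁ e₂ : ℕ)
    (hm₁ : ¬ ℓ ∣ m₁) (hm₂ : ¬ ℓ ∣ m₂) (he₁ : ¬ ℓ ∣ e₁) (he₂ : ¬ ℓ ∣ e₂)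
    (a t : ℕ → ℤ)
    (ha : ∀ n, 1 ≤ n → powerSum QY n = a n)
    (ht : ∀ n, 1 ≤ n → (ℓ : ℤ) ^ (padicValNat ℓ n) ∣ t n)
    (hrel : ∀ n, 1 ≤ n → a n = (ℓ - 1) * (1 + (q : ℤ) ^ (2 * n)) + ℓ * (q : ℤ) ^ n -
      ℓ * (ℓ - 1) * N * (1 + (q : ℤ) ^ n) + (ℓ - 1) ^ 2 * N * (cnt m₁ n + cnt m₂ n) +
      (ℓ - 1) * (N - 1) * (cnt e₁ n + cnt e₂ n) - ℓ * t n) :
    ∃ (S₁ S₂ T₁ T₂ : (ZMod ℓ)[X]) (b c : ℕ),
      ((1 - X ^ m₁ : (ZMod ℓ)[X]) = (1 - X) * S₁ ∧ S₁.eval 1 ≠ 0) ∧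
      ((1 - X ^ m₂ : (ZMod ℓ)[X]) = (1 - X) * S₂ ∧ S₂.eval 1 ≠ 0) ∧
      ((1 - X ^ e₁ : (ZMod ℓ)[X]) = (1 - X) * T₁ ∧ T₁.eval 1 ≠ 0) ∧
      ((1 - X ^ e₂ : (ZMod ℓ)[X]) = (1 - X) * T₂ ∧ T₂.eval 1 ≠ 0) ∧
      QY.reverse.map (Int.castRingHom (ZMod ℓ)) =
        (1 - X) ^ ℓ * ((S₁ * S₂) ^ b * (T₁ * T₂) ^ c) := by
  have pos : ∀ m : ℕ, ¬ ℓ ∣ m → 1 ≤ m := by
    intro m hm
    rcases Nat.eq_zero_or_pos m with rfl | h
    · exact absurd (dvd_zero _) hm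
    · exact h
  have hcastne : ∀ m : ℕ, ¬ ℓ ∣ m → (m : ZMod ℓ) ≠ 0 := by
    intro m hm h
    rw [ZMod.natCast_eq_zero_iff] at h
    exact hm h
  obtain ⟨S₁, hS₁, hS₁'⟩ := cyc_factor (ZMod ℓ) m₁ (hcastne m₁ hm₁)
  obtain ⟨S₂, hS₂, hS₂'⟩ := cyc_factor (ZMod ℓ) m₂ (hcastne m₂ hm₂)
  obtain ⟨T₁, hT₁, hT₁'⟩ := cyc_factor (ZMod ℓ) e₁ (hcastne e₁ he₁)
  obtain ⟨T₂, hT₂, hT₂'⟩ := cyc_factor (ZMod ℓ) e₂ (hcastne e₂ he₂)
  have hq' := cast_q ℓ q hq1 hq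
  obtain ⟨l, hl⟩ : ∃ l, ℓ = l + 1 := ⟨ℓ - 1, by have := hℓ.out.one_le; omega⟩
  obtain ⟨M, hM⟩ : ∃ M, N = M + 1 := ⟨N - 1, by omega⟩
  have hlz : (ℓ : ℤ) - 1 = (l : ℤ) := by rw [hl]; push_cast; ring
  have hMz : (N : ℤ) - 1 = (M : ℤ) := by rw [hM]; push_cast; ring
  set L : ℤ[X] := QY.reverse * ((1 - C (1 : ℤ) * X) * (1 - C (q : ℤ) * X)) ^ (ℓ * l * N) with hL
  set G : ℤ[X] := (1 - C (1 : ℤ) * X) ^ l * (1 - C ((q : ℤ) ^ 2) * X) ^ l *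
    (1 - C (q : ℤ) * X) ^ ℓ * ((1 - X ^ m₁) * (1 - X ^ m₂)) ^ (l ^ 2 * N) *
    ((1 - X ^ e₁) * (1 - X ^ e₂)) ^ (l * M) with hG
  have hLL : LD (L : PowerSeries ℤ) (PowerSeries.mk (fun n => if n = 0 then 0 else a n) +
      (ℓ * l * N) • (ps {(1 : ℤ)} + ps {(q : ℤ)})) := by
    rw [hL, Polynomial.coe_mul, Polynomial.coe_pow, Polynomial.coe_mul]
    exact (LD_reverse QY hY a ha).mul (((LD_single _).mul (LD_single _)).pow _)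
  have hLG : LD (G : PowerSeries ℤ) (l • ps {(1 : ℤ)} + l • ps {(q : ℤ) ^ 2} +
      ℓ • ps {(q : ℤ)} +
      (l ^ 2 * N) • (PowerSeries.mk (fun n => if n = 0 then 0 else cnt m₁ n) +
        PowerSeries.mk (fun n => if n = 0 then 0 else cnt m₂ n)) +
      (l * M) • (PowerSeries.mk (fun n => if n = 0 then 0 else cnt e₁ n) +
        PowerSeries.mk (fun n => if n = 0 then 0 else cnt e₂ n))) := by
    rw [hG]
    simp only [Polynomial.coe_mul, Polynomial.coe_pow]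
    exact (((((LD_single _).pow _).mul ((LD_single _).pow _)).mul ((LD_single _).pow _)).mul
      (((LD_cyc m₁ (pos _ hm₁)).mul (LD_cyc m₂ (pos _ hm₂))).pow _)).mul
      (((LD_cyc e₁ (pos _ he₁)).mul (LD_cyc e₂ (pos _ he₂))).pow _)
  have c0 : ∀ (p : ℤ[X]) (k : ℕ), p.coeff 0 = 1 → (p ^ k).coeff 0 = 1 := by
    intro p k hp
    rw [coeff_zero_eq_eval_zero, eval_pow, ← coeff_zero_eq_eval_zero, hp, one_pow]
  have c1 : ∀ z : ℤ, (1 - C z * X : ℤ[X]).coeff 0 = 1 := by intro z; simp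
  have c2 : ∀ m : ℕ, 1 ≤ m → (1 - X ^ m : ℤ[X]).coeff 0 = 1 := by
    intro m hm
    rw [coeff_sub, coeff_one_zero, coeff_X_pow, if_neg (show ¬ 0 = m by omega), sub_zero]
  have c3 : ∀ p r : ℤ[X], p.coeff 0 = 1 → r.coeff 0 = 1 → (p * r).coeff 0 = 1 := by
    intro p r hp hr
    rw [mul_coeff_zero, hp, hr, one_mul]
  have hL0 : L.coeff 0 = 1 := by
    rw [hL]
    exact c3 _ _ (coeff_zero_reverse_monic QY hY) (c0 _ _ (c3 _ _ (c1 _) (c1 _)))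
  have hG0 : G.coeff 0 = 1 := by
    rw [hG]
    exact c3 _ _ (c3 _ _ (c3 _ _ (c3 _ _ (c0 _ _ (c1 _)) (c0 _ _ (c1 _))) (c0 _ _ (c1 _)))
      (c0 _ _ (c3 _ _ (c2 _ (pos _ hm₁)) (c2 _ (pos _ hm₂)))))
      (c0 _ _ (c3 _ _ (c2 _ (pos _ he₁)) (c2 _ (pos _ he₂))))
  have hcong := mod_identity (ℓ := ℓ) L G hL0 hG0 _ _ t hLL hLG (by
      ext n
      unfold ps
      simp only [map_sub, map_add, map_nsmul, PowerSeries.coeff_C_mul, PowerSeries.coeff_mk]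
      simp only [nsmul_eq_mul]
      rcases Nat.eq_zero_or_pos n with rfl | hn
      · simp
      · simp only [if_neg (show ¬ n = 0 by omega), Multiset.map_singleton,
          Multiset.sum_singleton]
        rw [hrel n hn, pow_mul, hlz, hMz, one_pow]
        push_cast
        ring) ht
  have hmap : L.map (Int.castRingHom (ZMod ℓ)) = G.map (Int.castRingHom (ZMod ℓ)) := by
    ext n
    rw [coeff_map, coeff_map, ← sub_eq_zero, ← map_sub, eq_intCast,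
      ZMod.intCast_zmod_eq_zero_iff_dvd]
    exact hcong n
  have m1 : ∀ z : ℤ, (z : ZMod ℓ) = 1 →
      (1 - C z * X : ℤ[X]).map (Int.castRingHom (ZMod ℓ)) = 1 - X := by
    intro z hz
    rw [Polynomial.map_sub, Polynomial.map_one, Polynomial.map_mul, Polynomial.map_C,
      Polynomial.map_X]
    have : (Int.castRingHom (ZMod ℓ)) z = 1 := hz
    rw [this, map_one, one_mul]
  have m2 : ∀ m : ℕ, (1 - X ^ m : ℤ[X]).map (Int.castRingHom (ZMod ℓ)) = 1 - X ^ m := by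
    intro m
    rw [Polynomial.map_sub, Polynomial.map_one, Polynomial.map_pow, Polynomial.map_X]
  have hq2 : (((q : ℤ) ^ 2 : ℤ) : ZMod ℓ) = 1 := by
    rw [Int.cast_pow, hq', one_pow]
  rw [hL, hG] at hmap
  simp only [Polynomial.map_mul, Polynomial.map_pow] at hmap
  rw [m1 _ hq', m1 _ (by rw [Int.cast_one]), m1 _ hq2, m2, m2, m2, m2, hS₁, hS₂, hT₁, hT₂] at hmap
  have h7 : (1 - X : (ZMod ℓ)[X]) = pr {(1 : ZMod ℓ)} := by unfold pr; simp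
  have h8 := rootMultiplicity_pr ({(1 : ZMod ℓ)} : Multiset (ZMod ℓ))
  rw [← h7] at h8
  obtain ⟨h8a, h8b⟩ := h8
  have hfin : QY.reverse.map (Int.castRingHom (ZMod ℓ)) =
      (1 - X) ^ ℓ * ((S₁ * S₂) ^ (l ^ 2 * N) * (T₁ * T₂) ^ (l * M)) := by
    apply mul_right_cancel₀ (pow_ne_zero (ℓ * l * N) (mul_ne_zero h8b h8b))
    rw [hmap]
    have e1 : ∀ (p R U : (ZMod ℓ)[X]), p ^ l * p ^ l * p ^ ℓ * (p * S₁ * (p * S₂)) ^ (l ^ 2 * N) *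
        (p * T₁ * (p * T₂)) ^ (l * M) = p ^ (l + l + ℓ + 2 * (l ^ 2 * N) + 2 * (l * M)) *
        ((S₁ * S₂) ^ (l ^ 2 * N) * (T₁ * T₂) ^ (l * M)) := by
      intro p R U
      have h1 : p * S₁ * (p * S₂) = p ^ 2 * (S₁ * S₂) := by ring
      have h2 : p * T₁ * (p * T₂) = p ^ 2 * (T₁ * T₂) := by ring
      rw [h1, h2, mul_pow (p ^ 2) (S₁ * S₂), mul_pow (p ^ 2) (T₁ * T₂), ← pow_mul, ← pow_mul]
      simp only [pow_add]
      ring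
    have e2 : l + l + ℓ + 2 * (l ^ 2 * N) + 2 * (l * M) = ℓ + 2 * (ℓ * l * N) := by
      rw [hl, hM]; ring
    rw [e1 _ 1 1, e2, pow_add, ← pow_two, ← pow_mul]
    ring
  exact ⟨S₁, S₂, T₁, T₂, _, _, ⟨hS₁, hS₁'⟩, ⟨hS₂, hS₂'⟩, ⟨hT₁, hT₁'⟩, ⟨hT₂, hT₂'⟩, hfin⟩

theorem root_cyc {κ : Type*} [Field κ] (m e : ℕ) (hme : Nat.Coprime m e) (z : κ) (hz : z ^ m = 1)
    (he : (z⁻¹) ^ e = 1) : z = 1 := by
  have h1 : z ^ e = 1 := by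
    rw [inv_pow, inv_eq_one] at he
    exact he
  have h2 : orderOf z ∣ Nat.gcd m e := Nat.dvd_gcd (orderOf_dvd_of_pow_eq_one hz)
    (orderOf_dvd_of_pow_eq_one h1)
  rw [hme] at h2
  exact orderOf_eq_one_iff.1 (Nat.dvd_one.1 h2)

/-- The bound of the multiplicity for all extensions of degree prime to the four degrees. -/
theorem family_bound (ℓ : ℕ) [hℓ : Fact ℓ.Prime] (q : ℕ) (hq1 : 1 ≤ q) (hq : ℓ ∣ q - 1)
    (QY : ℤ[X]) (hY : QY.Monic) (m₁ m₂ e₁ e₂ : ℕ)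
    (h : ∃ (S₁ S₂ T₁ T₂ : (ZMod ℓ)[X]) (b c : ℕ),
      ((1 - X ^ m₁ : (ZMod ℓ)[X]) = (1 - X) * S₁ ∧ S₁.eval 1 ≠ 0) ∧
      ((1 - X ^ m₂ : (ZMod ℓ)[X]) = (1 - X) * S₂ ∧ S₂.eval 1 ≠ 0) ∧
      ((1 - X ^ e₁ : (ZMod ℓ)[X]) = (1 - X) * T₁ ∧ T₁.eval 1 ≠ 0) ∧
      ((1 - X ^ e₂ : (ZMod ℓ)[X]) = (1 - X) * T₂ ∧ T₂.eval 1 ≠ 0) ∧
      QY.reverse.map (Int.castRingHom (ZMod ℓ)) =
        (1 - X) ^ ℓ * ((S₁ * S₂) ^ b * (T₁ * T₂) ^ c))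
    (m : ℕ) (hm : 1 ≤ m) (hm₁ : Nat.Coprime m m₁) (hm₂ : Nat.Coprime m m₂)
    (he₁ : Nat.Coprime m e₁) (he₂ : Nat.Coprime m e₂) : mult q QY m ≤ ℓ := by
  obtain ⟨S₁, S₂, T₁, T₂, b, c, ⟨hS₁, hS₁'⟩, ⟨hS₂, hS₂'⟩, ⟨hT₁, hT₁'⟩, ⟨hT₂, hT₂'⟩, hfin⟩ := h
  have h7 : (1 - X : (ZMod ℓ)[X]) = pr {(1 : ZMod ℓ)} := by unfold pr; simp
  have h8 := rootMultiplicity_pr ({(1 : ZMod ℓ)} : Multiset (ZMod ℓ))
  rw [← h7] at h8
  obtain ⟨h8a, h8b⟩ := h8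
  have hR : ((S₁ * S₂) ^ b * (T₁ * T₂) ^ c).eval 1 ≠ 0 := by
    rw [eval_mul, eval_pow, eval_pow, eval_mul, eval_mul]
    exact mul_ne_zero (pow_ne_zero _ (mul_ne_zero hS₁' hS₂'))
      (pow_ne_zero _ (mul_ne_zero hT₁' hT₂'))
  have hR0 : ((S₁ * S₂) ^ b * (T₁ * T₂) ^ c) ≠ 0 := by
    intro h
    rw [h, eval_zero] at hR
    exact hR rfl
  have hrm : (QY.reverse.map (Int.castRingHom (ZMod ℓ))).rootMultiplicity 1 = ℓ := by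
    rw [hfin, rootMultiplicity_mul (mul_ne_zero (pow_ne_zero _ h8b) hR0), ← count_roots,
      roots_pow, Multiset.count_nsmul, count_roots, h8a, rootMultiplicity_eq_zero hR]
    simp
  conv_rhs => rw [← hrm]
  refine mult_le_of ℓ q hq1 hq QY hY m ?_ hm
  intro κ _ _ z hz h0
  rw [hfin] at h0
  simp only [map_mul, map_pow, map_sub, map_one, aeval_X] at h0
  have hcyc : ∀ (e : ℕ) (S : (ZMod ℓ)[X]), (1 - X ^ e : (ZMod ℓ)[X]) = (1 - X) * S →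
      Nat.Coprime m e → aeval z⁻¹ S = 0 → z = 1 := by
    intro e S hS hme hS0
    apply root_cyc m e hme z hz
    have h1 := congrArg (aeval z⁻¹) hS
    rw [map_mul, hS0, mul_zero, map_sub, map_pow, map_one, aeval_X] at h1
    exact (sub_eq_zero.1 h1).symm
  rcases mul_eq_zero.1 h0 with h1 | h1
  · have h2 := eq_zero_of_pow_eq_zero h1
    have h3 : z⁻¹ = 1 := (sub_eq_zero.1 h2).symm
    exact inv_eq_one.1 h3
  · rcases mul_eq_zero.1 h1 with h2 | h2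
    · have h3 := eq_zero_of_pow_eq_zero h2
      rcases mul_eq_zero.1 h3 with h4 | h4
      · exact hcyc m₁ S₁ hS₁ hm₁ h4
      · exact hcyc m₂ S₂ hS₂ hm₂ h4
    · have h3 := eq_zero_of_pow_eq_zero h2
      rcases mul_eq_zero.1 h3 with h4 | h4
      · exact hcyc e₁ T₁ hT₁ he₁ h4
      · exact hcyc e₂ T₂ hT₂ he₂ h4

end Pool.Agent.Helper2.Tate
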