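import Pool.Agent.Helper2.Tate.Exp

/-!
# Eigenvalues and congruences of polynomials
-/

set_option autoImplicit false

open Polynomial

namespace Pool.Agent.Helper2.Tate

/-- the logarithmic derivative relation `X F' = - F a` -/
def LD {R : Type*} [CommRing R] (F : PowerSeries R) (a : PowerSeries R) : Prop :=
  PowerSeries.X * PowerSeries.derivative R F = - (F * a)

theorem LD.mul {R : Type*} [CommRing R] {F G a b : PowerSeries R} (hF : LD F a) (hG : LD G b) :
    LD (F * G) (a + b) := by
  unfold LD at *
  rw [Derivation.leibniz, smul_eq_mul, smul_eq_mul]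
  calc PowerSeries.X * (F * PowerSeries.derivative R G + G * PowerSeries.derivative R F)
      = F * (PowerSeries.X * PowerSeries.derivative R G) +
        G * (PowerSeries.X * PowerSeries.derivative R F) := by ring
    _ = _ := by rw [hF, hG]; ring

theorem LD.one {R : Type*} [CommRing R] : LD (1 : PowerSeries R) 0 := by
  unfold LD; simp

theorem LD.pow {R : Type*} [CommRing R] {F a : PowerSeries R} (hF : LD F a) (k : ℕ) :
    LD (F ^ k) (k • a) := by
  induction k with
  | zero => simpa using LD.one
  | succ k ih =>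
    rw [pow_succ, succ_nsmul]
    exact ih.mul hF

/-- the series of the power sums of a multiset, from the first one on -/
noncomputable def ps {R : Type*} [CommRing R] (A : Multiset R) : PowerSeries R :=
  PowerSeries.mk (fun n => if n = 0 then 0 else (A.map (fun α => α ^ n)).sum)

/-- `∏ (1 - α X)` -/
noncomputable def pr {R : Type*} [CommRing R] (A : Multiset R) : R[X] :=
  (A.map (fun α => (1 - C α * X : R[X]))).prod

theorem ps_cons {R : Type*} [CommRing R] (α : R) (A : Multiset R) :
    ps (α ::ₘ A) = ps {α} + ps A := by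
  unfold ps
  ext n
  simp only [PowerSeries.coeff_mk, map_add]
  split
  · simp
  · simp

theorem pr_cons {R : Type*} [CommRing R] (α : R) (A : Multiset R) :
    pr (α ::ₘ A) = (1 - C α * X) * pr A := by
  unfold pr; simp

theorem LD_single {R : Type*} [CommRing R] (α : R) :
    LD (((1 - C α * X : R[X])) : PowerSeries R) (ps {α}) := by
  have h1 : (((1 - C α * X : R[X])) : PowerSeries R) = 1 - PowerSeries.C α * PowerSeries.X := by
    simp
  have hps : ps {α} = PowerSeries.C α * PowerSeries.X +
      PowerSeries.C α * PowerSeries.X * ps {α} := by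
    ext n
    rcases n with _ | n
    · simp [ps]
    · rw [map_add, mul_assoc, PowerSeries.coeff_C_mul, PowerSeries.coeff_C_mul,
        PowerSeries.coeff_succ_X_mul, PowerSeries.coeff_X]
      unfold ps
      rw [PowerSeries.coeff_mk, PowerSeries.coeff_mk]
      rcases n with _ | n
      · simp
      · simp only [Multiset.map_singleton, Multiset.sum_singleton]
        simp
        ring
  have hd : PowerSeries.derivative R (1 - PowerSeries.C α * PowerSeries.X) = - PowerSeries.C α := by
    rw [map_sub, Derivation.leibniz, PowerSeries.derivative_C, PowerSeries.derivative_X,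
      Derivation.map_one_eq_zero]
    simp
  unfold LD
  rw [h1, hd]
  linear_combination hps

theorem LD_pr {R : Type*} [CommRing R] (A : Multiset R) :
    LD ((pr A : R[X]) : PowerSeries R) (ps A) := by
  induction A using Multiset.induction_on with
  | empty =>
    have h1 : (pr (0 : Multiset R)) = 1 := by unfold pr; simp
    have h2 : ps (0 : Multiset R) = 0 := by
      unfold ps; ext n; simp
    rw [h1, h2, Polynomial.coe_one]; exact LD.one
  | cons α A ih =>
    rw [pr_cons, ps_cons, Polynomial.coe_mul]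
    exact (LD_single α).mul ih

theorem map_reverse' {R S : Type*} [CommRing R] [CommRing S] (f : R →+* S)
    (hf : Function.Injective f) (p : R[X]) : (p.map f).reverse = p.reverse.map f := by
  ext n
  rw [coeff_reverse, coeff_map, coeff_map, coeff_reverse, natDegree_map_eq_of_injective hf]

theorem reverse_prod (A : Multiset ℂ) :
    ((A.map (fun α => X - C α)).prod).reverse = pr A := by
  induction A using Multiset.induction_on with
  | empty =>
    unfold pr
    simpa using reverse_C (1 : ℂ)
  | cons α A ih =>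
    rw [Multiset.map_cons, Multiset.prod_cons, reverse_mul_of_domain, ih, pr_cons]
    congr 1
    ext n
    rw [coeff_reverse, natDegree_X_sub_C]
    rcases n with _ | n
    · simp [revAt]
    · rcases n with _ | n
      · rw [coeff_sub, coeff_sub, coeff_C_mul, coeff_X_one, coeff_one]
        simp [revAt]
      · rw [revAt_eq_self_of_lt (by omega)]
        simp [coeff_X, coeff_one]

/-- the reversed polynomial of a monic integral polynomial -/
theorem reverse_map (Q : ℤ[X]) (hQ : Q.Monic) :
    Q.reverse.map (Int.castRingHom ℂ) = pr (Q.map (Int.castRingHom ℂ)).roots := by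
  rw [← map_reverse' _ (RingHom.injective_int (Int.castRingHom ℂ)), ← reverse_prod,
    ← (IsAlgClosed.splits (Q.map (Int.castRingHom ℂ))).eq_prod_roots_of_monic (hQ.map _)]

theorem reverse_eval_one (Q : ℤ[X]) : Q.reverse.eval 1 = Q.eval 1 := by
  have : Invertible (1 : ℤ) := invertibleOne
  have h := eval₂_reverse_mul_pow (RingHom.id ℤ) 1 Q
  simpa [eval₂_id] using h

theorem coeff_zero_reverse_monic (Q : ℤ[X]) (hQ : Q.Monic) : Q.reverse.coeff 0 = 1 := by
  rw [coeff_zero_reverse, hQ.leadingCoeff]

/-- LD for the reversed integral polynomial -/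
theorem LD_reverse (Q : ℤ[X]) (hQ : Q.Monic) (s : ℕ → ℤ)
    (hs : ∀ n, 1 ≤ n → (((Q.map (Int.castRingHom ℂ)).roots.map (fun α => α ^ n)).sum : ℂ) = s n) :
    LD ((Q.reverse : ℤ[X]) : PowerSeries ℤ) (PowerSeries.mk (fun n => if n = 0 then 0 else s n)) := by
  have h1 := LD_pr (Q.map (Int.castRingHom ℂ)).roots
  rw [← reverse_map Q hQ] at h1
  unfold LD at *
  have hinj : Function.Injective (PowerSeries.map (Int.castRingHom ℂ)) :=
    PowerSeries.map_injective _ (RingHom.injective_int (Int.castRingHom ℂ))
  apply hinj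
  rw [map_mul, map_neg, map_mul, PowerSeries.map_X]
  have h2 : PowerSeries.map (Int.castRingHom ℂ) (PowerSeries.derivative ℤ (Q.reverse : ℤ[X])) =
      PowerSeries.derivative ℂ ((Q.reverse.map (Int.castRingHom ℂ) : ℂ[X]) : PowerSeries ℂ) := by
    ext n
    rw [PowerSeries.coeff_map, PowerSeries.coeff_derivative, PowerSeries.coeff_derivative,
      Polynomial.coeff_coe, Polynomial.coeff_coe, coeff_map]
    simp
  have h3 : PowerSeries.map (Int.castRingHom ℂ) ((Q.reverse : ℤ[X]) : PowerSeries ℤ) =
      ((Q.reverse.map (Int.castRingHom ℂ) : ℂ[X]) : PowerSeries ℂ) := by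
    ext n
    rw [PowerSeries.coeff_map, Polynomial.coeff_coe, Polynomial.coeff_coe, coeff_map]
  have h4 : PowerSeries.map (Int.castRingHom ℂ)
      (PowerSeries.mk (fun n => if n = 0 then 0 else s n)) =
      ps (Q.map (Int.castRingHom ℂ)).roots := by
    unfold ps
    ext n
    rw [PowerSeries.coeff_map, PowerSeries.coeff_mk, PowerSeries.coeff_mk]
    rcases Nat.eq_zero_or_pos n with rfl | hn
    · simp
    · rw [if_neg (by omega), if_neg (by omega), hs n hn]; simp
  rw [h2, h3, h4, h1]

/-- the congruence of two integral polynomials from their power sums -/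
theorem mod_identity {ℓ : ℕ} [Fact ℓ.Prime] (F G : ℤ[X]) (hF0 : F.coeff 0 = 1)
    (hG0 : G.coeff 0 = 1) (a g : PowerSeries ℤ) (t : ℕ → ℤ)
    (hF : LD (F : PowerSeries ℤ) a) (hG : LD (G : PowerSeries ℤ) g)
    (hag : a = g - PowerSeries.C (ℓ : ℤ) * PowerSeries.mk (fun n => if n = 0 then 0 else t n))
    (ht : ∀ n, 1 ≤ n → (ℓ : ℤ) ^ (padicValNat ℓ n) ∣ t n) (n : ℕ) :
    (ℓ : ℤ) ∣ F.coeff n - G.coeff n := by
  obtain ⟨G', hG'⟩ : ∃ G' : PowerSeries ℤ, (G : PowerSeries ℤ) * G' = 1 := by
    have : IsUnit (G : PowerSeries ℤ) := by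
      rw [PowerSeries.isUnit_iff_constantCoeff, ← PowerSeries.coeff_zero_eq_constantCoeff_apply,
        Polynomial.coeff_coe, hG0]
      exact isUnit_one
    exact this.exists_right_inv
  set H : PowerSeries ℤ := (F : PowerSeries ℤ) * G' with hH
  have hFH : (F : PowerSeries ℤ) = H * G := by
    rw [hH, mul_assoc, mul_comm G', hG', mul_one]
  have h0 : PowerSeries.constantCoeff H = 1 := by
    have h1 := congrArg PowerSeries.constantCoeff hFH
    rw [map_mul, ← PowerSeries.coeff_zero_eq_constantCoeff_apply,
      ← PowerSeries.coeff_zero_eq_constantCoeff_apply (G : PowerSeries ℤ), Polynomial.coeff_coe,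
      Polynomial.coeff_coe, hF0, hG0, mul_one] at h1
    exact h1.symm
  have hHd : PowerSeries.X * PowerSeries.derivative ℤ H =
      H * (PowerSeries.C (ℓ : ℤ) * PowerSeries.mk (fun n => if n = 0 then 0 else t n)) := by
    unfold LD at hF hG
    rw [hFH, Derivation.leibniz, smul_eq_mul, smul_eq_mul, hag] at hF
    -- multiply by the inverse of `G`
    have h1 : PowerSeries.X * PowerSeries.derivative ℤ H * (G : PowerSeries ℤ) =
        H * (PowerSeries.C (ℓ : ℤ) * PowerSeries.mk (fun n => if n = 0 then 0 else t n)) *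
          (G : PowerSeries ℤ) := by
      linear_combination hF - H * hG
    calc PowerSeries.X * PowerSeries.derivative ℤ H =
        PowerSeries.X * PowerSeries.derivative ℤ H * ((G : PowerSeries ℤ) * G') := by
          rw [hG', mul_one]
      _ = (PowerSeries.X * PowerSeries.derivative ℤ H * (G : PowerSeries ℤ)) * G' := by ring
      _ = _ := by rw [h1, mul_assoc, hG', mul_one]
  have hdvd := exp_dvd t ht H h0 hHd
  -- conclusion
  obtain ⟨K, hK⟩ : ∃ K : PowerSeries ℤ, H = 1 + PowerSeries.C (ℓ : ℤ) * K := by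
    choose k hk using hdvd
    refine ⟨PowerSeries.mk (fun n => if h : 1 ≤ n then k n h else 0), ?_⟩
    ext m
    rw [map_add, PowerSeries.coeff_C_mul, PowerSeries.coeff_mk, PowerSeries.coeff_one]
    rcases Nat.eq_zero_or_pos m with rfl | hm
    · simpa using h0
    · rw [if_neg (by omega), dif_pos (show 1 ≤ m from hm), zero_add, ← hk m hm]
  have h2 : (F : PowerSeries ℤ) - (G : PowerSeries ℤ) = PowerSeries.C (ℓ : ℤ) * (K * G) := by
    rw [hFH, hK]; ring
  have h3 := congrArg (PowerSeries.coeff n) h2
  rw [map_sub, PowerSeries.coeff_C_mul, Polynomial.coeff_coe, Polynomial.coeff_coe] at h3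
  rw [h3]
  exact dvd_mul_right _ _

/-- an ideal above `ℓ` in the ring of algebraic integers -/
theorem exists_reduction (ℓ : ℕ) [hℓ : Fact ℓ.Prime] : ∃ (κ : Type) (_ : Field κ)
    (r : integralClosure ℤ ℂ →+* κ), r (ℓ : integralClosure ℤ ℂ) = 0 := by
  have hnu : ¬ IsUnit ((ℓ : ℕ) : integralClosure ℤ ℂ) := by
    intro hu
    obtain ⟨x, hx⟩ := hu.exists_right_inv
    have h1 : (ℓ : ℂ) * (x : ℂ) = 1 := by
      have := congrArg (fun z : integralClosure ℤ ℂ => (z : ℂ)) hx
      simpa using this
    have hℓ0 : (ℓ : ℂ) ≠ 0 := by exact_mod_cast hℓ.out.ne_zero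
    have h2 : (x : ℂ) = algebraMap ℚ ℂ (1 / ℓ) := by
      rw [map_div₀, map_one, map_natCast]
      field_simp
      rw [mul_comm]; exact h1
    have h3 : IsIntegral ℤ (x : ℂ) := x.2
    rw [h2, isIntegral_algebraMap_iff (algebraMap ℚ ℂ).injective] at h3
    obtain ⟨m, hm⟩ := IsIntegrallyClosed.isIntegral_iff.1 h3
    have h4 : (m : ℚ) * ℓ = 1 := by
      have : (m : ℚ) = 1 / ℓ := by simpa using hm
      rw [this]
      have : (ℓ : ℚ) ≠ 0 := by exact_mod_cast hℓ.out.ne_zero
      field_simp
    have h5 : m * (ℓ : ℤ) = 1 := by exact_mod_cast h4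
    have h6 : (ℓ : ℤ) ∣ 1 := ⟨m, by rw [mul_comm]; exact h5.symm⟩
    have h7 : ℓ ∣ 1 := by exact_mod_cast h6
    exact hℓ.out.one_lt.ne' (Nat.dvd_one.1 h7)
  obtain ⟨I, hI, hI2⟩ := exists_max_ideal_of_mem_nonunits hnu
  exact ⟨_, Ideal.Quotient.field I, Ideal.Quotient.mk I, Ideal.Quotient.eq_zero_iff_mem.2 hI2⟩

theorem rootMultiplicity_pr {κ : Type*} [Field κ] (A : Multiset κ) [DecidableEq κ] :
    (pr A).rootMultiplicity 1 = A.count 1 ∧ pr A ≠ 0 := by
  induction A using Multiset.induction_on with
  | empty =>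
    have h1 : pr (0 : Multiset κ) = 1 := by unfold pr; simp
    rw [h1]
    refine ⟨?_, one_ne_zero⟩
    simp
  | cons α A ih =>
    obtain ⟨ih1, ih2⟩ := ih
    have h0 : (1 - C α * X : κ[X]) ≠ 0 := by
      intro h
      have := congrArg (fun p => coeff p 0) h
      simp at this
    rw [pr_cons]
    refine ⟨?_, mul_ne_zero h0 ih2⟩
    rw [rootMultiplicity_mul (mul_ne_zero h0 ih2), ih1]
    by_cases hα : α = 1
    · subst hα
      have h1 : (1 - C (1 : κ) * X : κ[X]) = C (-1) * (X - C 1) := by simp
      rw [h1, rootMultiplicity_mul (by rw [← h1]; exact h0), rootMultiplicity_X_sub_C_self,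
        rootMultiplicity_C, Multiset.count_cons_self]
      ring
    · rw [Multiset.count_cons_of_ne (Ne.symm hα), rootMultiplicity_eq_zero, zero_add]
      rw [IsRoot]
      simp only [eval_sub, eval_one, eval_mul, eval_C, eval_X, mul_one]
      intro h
      exact hα (sub_eq_zero.1 h).symm

end Pool.Agent.Helper2.Tate
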