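import Mathlib

/-!
# Cyclic coverings over a finite field: definitions

`F` is a finite field with `q` elements. A closed subset of the projective space of dimension `r - 1`
over `F` is given by a set `S` of forms in `r` variables; `points F S n` is the set of its points
over the extension of degree `n` of `F`. For a form `f` of degree `ℓ * d` the set of points over
this extension of the cyclic covering `w ^ ℓ = f` (`w` of weight `d`) is `coverPoints F ℓ S f n`.
Points of projective space are represented by their unique representative whose last nonzero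
coordinate is `1`.
-/

set_option autoImplicit false

namespace Pool.Agent.Helper2.Tate

/-- The last nonzero coordinate of `P` is `1`. -/
def Normalized {Ω : Type} [Field Ω] {r : ℕ} (P : Fin r → Ω) : Prop :=
  ∃ i, P i = 1 ∧ ∀ j, i < j → P j = 0

variable (F : Type) [Field F] [Fintype F]

/-- The element `c` of the algebraic closure of `F` lies in the extension of degree `n` of `F`. -/
def RatOver (n : ℕ) (c : AlgebraicClosure F) : Prop := c ^ (Fintype.card F ^ n) = c

/-- The points over the extension of degree `n` of `F` of the projective set `S = 0`. -/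
def points {r : ℕ} (S : Set (MvPolynomial (Fin r) F)) (n : ℕ) : Set (Fin r → AlgebraicClosure F) :=
  {P | Normalized P ∧ (∀ i, RatOver F n (P i)) ∧ ∀ g ∈ S, MvPolynomial.aeval P g = 0}

/-- The points over the extension of degree `n` of `F` of the covering `w ^ ℓ = f` of the
projective set `S = 0`. -/
def coverPoints {r : ℕ} (ℓ : ℕ) (S : Set (MvPolynomial (Fin r) F)) (f : MvPolynomial (Fin r) F)
    (n : ℕ) : Set ((Fin r → AlgebraicClosure F) × AlgebraicClosure F) :=
  {x | x.1 ∈ points F S n ∧ RatOver F n x.2 ∧ x.2 ^ ℓ = MvPolynomial.aeval x.1 f}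

omit F [Field F] [Fintype F] in
/-- The sum of the `n`-th powers of the complex roots of an integral polynomial. -/
noncomputable def powerSum (Q : Polynomial ℤ) (n : ℕ) : ℂ :=
  ((Q.map (Int.castRingHom ℂ)).roots.map (fun α => α ^ n)).sum

/-- `Q` is the characteristic polynomial of the Frobenius on the first cohomology group of a smooth
projective curve over the field with `q` elements having `c n` points over the extension of degree
`n`: the curve has `1 + q ^ n - (sum of the n-th powers of the roots of Q)` points. -/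
def IsFrobOne (q : ℕ) (c : ℕ → ℕ) (Q : Polynomial ℤ) : Prop :=
  Q.Monic ∧ ∀ n : ℕ, 1 ≤ n → (c n : ℂ) = 1 + (q : ℂ) ^ n - powerSum Q n

/-- `Q` is the characteristic polynomial of the Frobenius on the second cohomology group of a smooth
projective surface (with vanishing first cohomology group) over the field with `q` elements having
`c n` points over the extension of degree `n`: the surface has
`1 + q ^ (2 n) + (sum of the n-th powers of the roots of Q)` points. -/
def IsFrobTwo (q : ℕ) (c : ℕ → ℕ) (Q : Polynomial ℤ) : Prop :=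
  Q.Monic ∧ ∀ n : ℕ, 1 ≤ n → (c n : ℂ) = 1 + (q : ℂ) ^ (2 * n) + powerSum Q n

/-- The number of complex roots `α` of `Q`, with multiplicity, such that `α ^ m = q ^ m`. If `Q` is
the characteristic polynomial of the Frobenius on the second cohomology group of a surface over the
field with `q` elements then this is the multiplicity of `q ^ m` as an eigenvalue of the Frobenius
of the surface over the extension of degree `m`. -/
noncomputable def mult (q : ℕ) (Q : Polynomial ℤ) (m : ℕ) : ℕ := by
  classical exact ((Q.map (Int.castRingHom ℂ)).roots.filter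
    (fun α => α ^ m = (q : ℂ) ^ m)).card

/-- The plane curve `f = 0` is smooth. -/
def SmoothCurve (f : MvPolynomial (Fin 3) F) : Prop :=
  ∀ P : Fin 3 → AlgebraicClosure F, P ≠ 0 → MvPolynomial.aeval P f = 0 →
    ∃ i, MvPolynomial.aeval P (MvPolynomial.pderiv i f) ≠ 0

/-- The curves `C_ζ : g = 0, w = ζ v` (`ζ ^ ℓ = 1`) on the surface `w ^ ℓ = g u + v ^ ℓ` in the
weighted projective space with weights `1, 1, 1, d` are independent in the following sense: for
every `ζ₀`, every form `h` of positive degree (over the algebraic closure) vanishes at a point of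
the surface which lies on none of the curves `C_ζ` with `ζ ≠ ζ₀`. -/
def OffCurves (ℓ d : ℕ) (g u v : MvPolynomial (Fin 3) F) : Prop :=
  ∀ ζ₀ : AlgebraicClosure F, ζ₀ ^ ℓ = 1 → ∀ m : ℕ, 0 < m →
    ∀ h : MvPolynomial (Fin 4) (AlgebraicClosure F),
      MvPolynomial.IsWeightedHomogeneous ![1, 1, 1, d] h m →
      ∃ (P : Fin 3 → AlgebraicClosure F) (w : AlgebraicClosure F), P ≠ 0 ∧
        w ^ ℓ = MvPolynomial.aeval P (g * u + v ^ ℓ) ∧
        MvPolynomial.aeval ![P 0, P 1, P 2, w] h = 0 ∧
        ∀ ζ : AlgebraicClosure F, ζ ^ ℓ = 1 → ζ ≠ ζ₀ →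
          ¬ (MvPolynomial.aeval P g = 0 ∧ w = ζ * MvPolynomial.aeval P v)

section Forms

variable {F : Type} [Field F]

/-- The form of degree `m` in the last two of the three variables whose dehomogenization is the
polynomial `a` (of degree at most `m`). -/
noncomputable def hom (m : ℕ) (a : Polynomial F) : MvPolynomial (Fin 3) F :=
  ∑ i ∈ Finset.range (m + 1), MvPolynomial.C (a.coeff i) *
    (MvPolynomial.X 1 ^ i * MvPolynomial.X 2 ^ (m - i))

/-- The form `v = x ^ N + a(y, z)`, `N = ℓ ^ k`. -/
noncomputable def formV (ℓ k : ℕ) (a : Polynomial F) : MvPolynomial (Fin 3) F :=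
  MvPolynomial.X 0 ^ (ℓ ^ k) + hom (ℓ ^ k) a

/-- The branch form `f = (x ^ N + a(y, z)) ^ ℓ - D₁(y, z) D₂(y, z)`, `N = ℓ ^ k`. -/
noncomputable def formF (ℓ k : ℕ) (a D₁ D₂ : Polynomial F) : MvPolynomial (Fin 3) F :=
  hom D₁.natDegree D₁ * (- hom D₂.natDegree D₂) + formV ℓ k a ^ ℓ

/-- Admissible data for the explicit family. -/
structure Admissible (ℓ k : ℕ) (a D₁ D₂ B₁ B₂ : Polynomial F) : Prop where
  deg_a : a.natDegree ≤ ℓ ^ k
  irr_D₁ : Irreducible D₁
  irr_D₂ : Irreducible D₂
  irr_B₁ : Irreducible B₁
  irr_B₂ : Irreducible B₂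
  ndvd_D₁ : ¬ ℓ ∣ D₁.natDegree
  ndvd_D₂ : ¬ ℓ ∣ D₂.natDegree
  ndvd_B₁ : ¬ ℓ ∣ B₁.natDegree
  ndvd_B₂ : ¬ ℓ ∣ B₂.natDegree
  deg_D : D₁.natDegree + D₂.natDegree = ℓ ^ (k + 1)
  deg_B : B₁.natDegree + B₂.natDegree = ℓ ^ (k + 1)
  nassoc_D : ¬ Associated D₁ D₂
  nassoc_B : ¬ Associated B₁ B₂
  eq : a ^ ℓ = D₁ * D₂ + B₁ * B₂

end Forms

end Pool.Agent.Helper2.Tate
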