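import Pool.Agent.Helper2.Tate.Poly
import Pool.Agent.Helper2.Tate.Defs

/-!
# Congruences of characteristic polynomials
-/

set_option autoImplicit false

open Polynomial

namespace Pool.Agent.Helper2.Tate

/-- The number of roots `q ζ` with `ζ ^ m = 1` is bounded by the multiplicity of the
root `1` modulo `ℓ` if there are no other `m`-th roots of unity among the roots modulo `ℓ`. -/
theorem mult_le_of (ℓ : ℕ) [hℓ : Fact ℓ.Prime] (q : ℕ) (hq1 : 1 ≤ q) (hq : ℓ ∣ q - 1)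
    (Q : ℤ[X]) (hQ : Q.Monic) (m : ℕ)
    (hroot : ∀ (κ : Type) [Field κ] [Algebra (ZMod ℓ) κ] (z : κ), z ^ m = 1 →
      aeval z⁻¹ (Q.reverse.map (Int.castRingHom (ZMod ℓ))) = 0 → z = 1) (hm : 1 ≤ m) :
    mult q Q m ≤ (Q.reverse.map (Int.castRingHom (ZMod ℓ))).rootMultiplicity 1 := by
  classical
  obtain ⟨κ, _, r, hr⟩ := exists_reduction ℓ
  have hchar : CharP κ ℓ := by
    have h12 : (ℓ : κ) = 0 := by simpa using hr
    exact (CharP.charP_iff_prime_eq_zero hℓ.out).2 h12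
  let _ : Algebra (ZMod ℓ) κ := ZMod.algebra κ ℓ
  set ρ : ℤ →+* κ := r.comp (Int.castRingHom _) with hρ
  -- lifting the roots
  have hint : ∀ α ∈ (Q.map (Int.castRingHom ℂ)).roots, α ∈ integralClosure ℤ ℂ := by
    intro α hα
    rw [mem_roots (hQ.map _).ne_zero, IsRoot, eval_map] at hα
    exact ⟨Q, hQ, hα⟩
  obtain ⟨A, hA⟩ : ∃ A : Multiset (integralClosure ℤ ℂ),
      A.map (fun z : integralClosure ℤ ℂ => (z : ℂ)) = (Q.map (Int.castRingHom ℂ)).roots :=
    ⟨(Q.map (Int.castRingHom ℂ)).roots.pmap (fun α h => ⟨α, h⟩) hint, by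
      rw [Multiset.map_pmap]
      simp only
      rw [Multiset.pmap_eq_map, Multiset.map_id']⟩
  have hmapr : Q.reverse.map (Int.castRingHom (integralClosure ℤ ℂ)) = pr A := by
    have hinj : Function.Injective (Polynomial.map (algebraMap (integralClosure ℤ ℂ) ℂ)) :=
      map_injective _ Subtype.val_injective
    apply hinj
    rw [Polynomial.map_map]
    have h3 : (algebraMap (integralClosure ℤ ℂ) ℂ).comp (Int.castRingHom _) =
        Int.castRingHom ℂ := RingHom.ext_int _ _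
    rw [h3, reverse_map Q hQ, ← hA]
    unfold pr
    rw [Polynomial.map_multiset_prod, Multiset.map_map, Multiset.map_map]
    congr 1
    apply Multiset.map_congr rfl
    intro z _
    simp
  have hFκ : Q.reverse.map ρ = pr (A.map r) := by
    rw [hρ, ← Polynomial.map_map, hmapr]
    unfold pr
    rw [Polynomial.map_multiset_prod, Multiset.map_map, Multiset.map_map]
    congr 1
    apply Multiset.map_congr rfl
    intro z _
    simp
  have hρ2 : ρ = (algebraMap (ZMod ℓ) κ).comp (Int.castRingHom (ZMod ℓ)) := RingHom.ext_int _ _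
  have hcount : (A.map r).count 1 =
      (Q.reverse.map (Int.castRingHom (ZMod ℓ))).rootMultiplicity 1 := by
    rw [← (rootMultiplicity_pr (A.map r)).1, ← hFκ,
      Polynomial.eq_rootMultiplicity_map (algebraMap (ZMod ℓ) κ).injective, Polynomial.map_map,
      map_one, hρ2]
  rw [← hcount]
  unfold mult
  rw [← hA, Multiset.count, Multiset.countP_map, Multiset.filter_map, Multiset.card_map]
  apply Multiset.card_le_card
  rw [Multiset.le_filter]
  refine ⟨Multiset.filter_le _ _, ?_⟩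
  intro z hz
  rw [Multiset.mem_filter] at hz
  obtain ⟨hzA, hz⟩ := hz
  simp only [Function.comp] at hz
  have h9 : z ^ m = (q : integralClosure ℤ ℂ) ^ m := by
    apply Subtype.ext
    simpa using hz
  have h10 := congrArg r h9
  rw [map_pow, map_pow] at h10
  have h11 : r (q : integralClosure ℤ ℂ) = 1 := by
    obtain ⟨k, hk⟩ := hq
    have h1 : q = ℓ * k + 1 := by omega
    rw [map_natCast, h1]
    push_cast
    rw [CharP.cast_eq_zero κ ℓ]; ring
  rw [h11, one_pow] at h10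
  have hz0 : r z ≠ 0 := by
    intro h
    rw [h, zero_pow (by omega)] at h10
    exact zero_ne_one h10
  refine (hroot κ (r z) h10 ?_).symm
  rw [aeval_def, eval₂_eq_eval_map, Polynomial.map_map, ← hρ2, hFκ]
  unfold pr
  rw [eval_multiset_prod, Multiset.map_map]
  apply Multiset.prod_eq_zero
  rw [Multiset.mem_map]
  refine ⟨r z, Multiset.mem_map_of_mem r hzA, ?_⟩
  simp [hz0]

theorem pow_eq_one_of_char {κ : Type*} [Field κ] (ℓ : ℕ) [hℓ : Fact ℓ.Prime] [CharP κ ℓ] (j : ℕ)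
    (z : κ) (hz : z ^ (ℓ ^ j) = 1) : z = 1 := by
  have h13 : (z - 1) ^ (ℓ ^ j) = 0 := by
    rw [sub_pow_char_pow, one_pow, hz, sub_self]
  have h14 := (pow_eq_zero_iff (pow_pos hℓ.out.pos j).ne').1 h13
  exact sub_eq_zero.1 h14

/-- The number of roots `q ζ` with `ζ` of `ℓ`-power order is bounded by the multiplicity of the
root `1` modulo `ℓ`. -/
theorem mult_le (ℓ : ℕ) [hℓ : Fact ℓ.Prime] (q : ℕ) (hq1 : 1 ≤ q) (hq : ℓ ∣ q - 1)
    (Q : ℤ[X]) (hQ : Q.Monic) (j : ℕ) :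
    mult q Q (ℓ ^ j) ≤ (Q.reverse.map (Int.castRingHom (ZMod ℓ))).rootMultiplicity 1 := by
  refine mult_le_of ℓ q hq1 hq Q hQ (ℓ ^ j) ?_ (Nat.one_le_pow _ _ hℓ.out.pos)
  intro κ _ _ z hz _
  have : CharP κ ℓ := charP_of_injective_algebraMap' (ZMod ℓ) ℓ
  exact pow_eq_one_of_char ℓ j z hz

theorem cast_q (ℓ : ℕ) (q : ℕ) (hq1 : 1 ≤ q) (hq : ℓ ∣ q - 1) : ((q : ℤ) : ZMod ℓ) = 1 := by
  obtain ⟨k, hk⟩ := hq
  have h1 : q = ℓ * k + 1 := by omega
  rw [h1]
  push_cast
  rw [ZMod.natCast_self]; ring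

/-- reversal does not change the multiplicity of the root `1` -/
theorem rootMultiplicity_reverse (ℓ : ℕ) [hℓ : Fact ℓ.Prime] (Q : ℤ[X]) (hQ : Q.Monic) :
    (Q.reverse.map (Int.castRingHom (ZMod ℓ))).rootMultiplicity 1 =
      (Q.map (Int.castRingHom (ZMod ℓ))).rootMultiplicity 1 := by
  have h1 : Q.reverse.map (Int.castRingHom (ZMod ℓ)) =
      (Q.map (Int.castRingHom (ZMod ℓ))).reverse := by
    ext n
    rw [coeff_reverse, coeff_map, coeff_map, coeff_reverse, hQ.natDegree_map]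
  rw [h1]
  set p := Q.map (Int.castRingHom (ZMod ℓ)) with hp
  have hp0 : p ≠ 0 := (hQ.map _).ne_zero
  obtain ⟨s, hs, hs2⟩ := exists_eq_pow_rootMultiplicity_mul_and_not_dvd p hp0 1
  have hr1 : (X - C (1 : ZMod ℓ)).reverse = pr {(1 : ZMod ℓ)} := by
    unfold pr
    ext n
    rw [coeff_reverse, natDegree_X_sub_C]
    rcases n with _ | n
    · simp [revAt]
      rw [Polynomial.coeff_one]
      simp
    · rcases n with _ | n
      · rw [Multiset.map_singleton, Multiset.prod_singleton, coeff_sub, coeff_sub, coeff_C_mul,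
          coeff_X_one]
        simp [revAt, coeff_one]
      · rw [revAt_eq_self_of_lt (by omega)]
        simp [coeff_X, coeff_one]
  have hrp : ∀ k : ℕ, ((X - C (1 : ZMod ℓ)) ^ k).reverse = (pr {(1 : ZMod ℓ)}) ^ k := by
    intro k
    induction k with
    | zero => simpa using reverse_C (1 : ZMod ℓ)
    | succ k ih => rw [pow_succ, reverse_mul_of_domain, ih, hr1, pow_succ]
  have hse : s.reverse.eval 1 = s.eval 1 := by
    have : Invertible (1 : ZMod ℓ) := invertibleOne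
    have h := eval₂_reverse_mul_pow (RingHom.id (ZMod ℓ)) 1 s
    simpa [eval₂_id] using h
  have hs1 : s.eval 1 ≠ 0 := by
    intro h
    exact hs2 (dvd_iff_isRoot.2 h)
  have hs0 : s.reverse ≠ 0 := by
    intro h
    rw [h] at hse
    simp at hse
    exact hs1 hse.symm
  obtain ⟨k, hk⟩ : ∃ k, k = p.rootMultiplicity 1 := ⟨_, rfl⟩
  rw [← hk] at hs ⊢
  rw [hs, reverse_mul_of_domain, hrp]
  have h8 := rootMultiplicity_pr ({(1 : ZMod ℓ)} : Multiset (ZMod ℓ))
  rw [rootMultiplicity_mul (mul_ne_zero (pow_ne_zero _ h8.2) hs0), ← count_roots, roots_pow,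
    Multiset.count_nsmul, count_roots, h8.1, rootMultiplicity_eq_zero (by rw [IsRoot, hse]; exact hs1)]
  simp

/-- The congruence of characteristic polynomials. -/
theorem congruence (ℓ : ℕ) [hℓ : Fact ℓ.Prime] (q : ℕ) (hq1 : 1 ≤ q) (hq : ℓ ∣ q - 1)
    (QX QB QY : ℤ[X]) (hX : QX.Monic) (hB : QB.Monic) (hY : QY.Monic) (g s a t : ℕ → ℤ)
    (hg : ∀ n, 1 ≤ n → powerSum QX n = g n)
    (hs : ∀ n, 1 ≤ n → powerSum QB n = s n)
    (ha : ∀ n, 1 ≤ n → powerSum QY n = a n)
    (ht : ∀ n, 1 ≤ n → (ℓ : ℤ) ^ (padicValNat ℓ n) ∣ t n)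
    (hrel : ∀ n, 1 ≤ n → a n = (ℓ - 1) * (q : ℤ) ^ (2 * n) - (ℓ - 1) * (q : ℤ) ^ n +
      (ℓ - 1) * s n + ℓ * g n - ℓ * t n) :
    QY.reverse.map (Int.castRingHom (ZMod ℓ)) =
      (QX.reverse.map (Int.castRingHom (ZMod ℓ))) ^ ℓ *
        (QB.reverse.map (Int.castRingHom (ZMod ℓ))) ^ (ℓ - 1) := by
  have hℓ1 : 1 ≤ ℓ := hℓ.out.one_le
  set L : ℤ[X] := QY.reverse * (1 - C (q : ℤ) * X) ^ (ℓ - 1) with hL
  set G : ℤ[X] := (1 - C ((q : ℤ) ^ 2) * X) ^ (ℓ - 1) * QB.reverse ^ (ℓ - 1) *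
    QX.reverse ^ ℓ with hG
  have hLL : LD (L : PowerSeries ℤ) (PowerSeries.mk (fun n => if n = 0 then 0 else a n) +
      (ℓ - 1) • ps {(q : ℤ)}) := by
    rw [hL, Polynomial.coe_mul, Polynomial.coe_pow]
    exact (LD_reverse QY hY a ha).mul ((LD_single _).pow _)
  have hLG : LD (G : PowerSeries ℤ) ((ℓ - 1) • ps {(q : ℤ) ^ 2} +
      (ℓ - 1) • PowerSeries.mk (fun n => if n = 0 then 0 else s n) +
      ℓ • PowerSeries.mk (fun n => if n = 0 then 0 else g n)) := by
    rw [hG, Polynomial.coe_mul, Polynomial.coe_mul, Polynomial.coe_pow, Polynomial.coe_pow,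
      Polynomial.coe_pow]
    exact (((LD_single _).pow _).mul ((LD_reverse QB hB s hs).pow _)).mul
      ((LD_reverse QX hX g hg).pow _)
  have c0 : ∀ (p : ℤ[X]) (k : ℕ), p.coeff 0 = 1 → (p ^ k).coeff 0 = 1 := by
    intro p k hp
    rw [coeff_zero_eq_eval_zero, eval_pow, ← coeff_zero_eq_eval_zero, hp, one_pow]
  have c1 : ∀ z : ℤ, (1 - C z * X : ℤ[X]).coeff 0 = 1 := by intro z; simp
  have hL0 : L.coeff 0 = 1 := by
    rw [hL, mul_coeff_zero, coeff_zero_reverse_monic QY hY, c0 _ _ (c1 _), mul_one]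
  have hG0 : G.coeff 0 = 1 := by
    rw [hG, mul_coeff_zero, mul_coeff_zero, c0 _ _ (c1 _),
      c0 _ _ (coeff_zero_reverse_monic QB hB), c0 _ _ (coeff_zero_reverse_monic QX hX)]
    norm_num
  have hcast : ((ℓ - 1 : ℕ) : ℤ) = (ℓ : ℤ) - 1 := by push_cast [Nat.cast_sub hℓ1]; ring
  have hcong := mod_identity (ℓ := ℓ) L G hL0 hG0 _ _ t hLL hLG (by
      ext n
      unfold ps
      rw [map_sub, map_add, map_add, map_add, map_nsmul, map_nsmul, map_nsmul, map_nsmul,
        PowerSeries.coeff_C_mul,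
        PowerSeries.coeff_mk, PowerSeries.coeff_mk, PowerSeries.coeff_mk, PowerSeries.coeff_mk,
        PowerSeries.coeff_mk, PowerSeries.coeff_mk, nsmul_eq_mul, nsmul_eq_mul, nsmul_eq_mul,
        nsmul_eq_mul, hcast]
      rcases Nat.eq_zero_or_pos n with rfl | hn
      · simp
      · simp only [if_neg (show ¬ n = 0 by omega), Multiset.map_singleton,
          Multiset.sum_singleton]
        rw [hrel n hn, pow_mul]
        ring) ht
  have hmap : L.map (Int.castRingHom (ZMod ℓ)) = G.map (Int.castRingHom (ZMod ℓ)) := by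
    ext n
    rw [coeff_map, coeff_map, ← sub_eq_zero, ← map_sub, eq_intCast,
      ZMod.intCast_zmod_eq_zero_iff_dvd]
    exact hcong n
  have hq' := cast_q ℓ q hq1 hq
  have m1 : ∀ z : ℤ, (z : ZMod ℓ) = 1 →
      (1 - C z * X : ℤ[X]).map (Int.castRingHom (ZMod ℓ)) = 1 - X := by
    intro z hz
    rw [Polynomial.map_sub, Polynomial.map_one, Polynomial.map_mul, Polynomial.map_C,
      Polynomial.map_X]
    have : (Int.castRingHom (ZMod ℓ)) z = 1 := hz
    rw [this, map_one, one_mul]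
  have hq2 : (((q : ℤ) ^ 2 : ℤ) : ZMod ℓ) = 1 := by
    rw [Int.cast_pow, hq', one_pow]
  rw [hL, hG, Polynomial.map_mul, Polynomial.map_mul, Polynomial.map_mul, Polynomial.map_pow,
    Polynomial.map_pow, Polynomial.map_pow, Polynomial.map_pow, m1 _ hq', m1 _ hq2] at hmap
  have h7 : (1 - X : (ZMod ℓ)[X]) = pr {(1 : ZMod ℓ)} := by unfold pr; simp
  have h8 := (rootMultiplicity_pr ({(1 : ZMod ℓ)} : Multiset (ZMod ℓ))).2
  rw [← h7] at h8
  apply mul_right_cancel₀ (pow_ne_zero (ℓ - 1) h8)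
  rw [hmap]
  ring

end Pool.Agent.Helper2.Tate
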