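import Pool.Agent.Helper2.Tate.LDefs
import Pool.Agent.Helper2.Tate.Cong

/-!
# Conjugation and reduction of polynomials with coefficients in `ℤ[ζ_ℓ]`
-/

set_option autoImplicit false

open Polynomial

namespace Pool.Agent.Helper2.Tate

theorem ratAlg_eq : (DivisionRing.toRatAlgebra : Algebra ℚ (AlgebraicClosure ℚ)) =
    AlgebraicClosure.instAlgebra ℚ := Subsingleton.elim _ _

theorem isAlgQ : Algebra.IsAlgebraic ℚ (AlgebraicClosure ℚ) := by
  rw [ratAlg_eq]
  exact AlgebraicClosure.isAlgebraic ℚ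

theorem normalQ : Normal ℚ (AlgebraicClosure ℚ) := by
  have := isAlgQ
  have h : IsAlgClosure ℚ (AlgebraicClosure ℚ) := ⟨inferInstance, inferInstance⟩
  exact IsAlgClosure.normal ℚ (AlgebraicClosure ℚ)

/-- An automorphism raising the roots of unity of order `ℓ` to the power `j`. -/
theorem exists_conj (ℓ : ℕ) (hℓ : ℓ.Prime) (j : ℕ) (hj : 1 ≤ j) (hjℓ : j < ℓ) :
    ∃ σ : AlgebraicClosure ℚ ≃ₐ[ℚ] AlgebraicClosure ℚ,
      ∀ z : AlgebraicClosure ℚ, z ^ ℓ = 1 → σ z = z ^ j := by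
  have : NeZero ℓ := ⟨hℓ.ne_zero⟩
  have : NeZero (ℓ : AlgebraicClosure ℚ) := ⟨by exact_mod_cast hℓ.ne_zero⟩
  obtain ⟨ζ, hζ⟩ := HasEnoughRootsOfUnity.exists_primitiveRoot (AlgebraicClosure ℚ) ℓ
  have hζj : IsPrimitiveRoot (ζ ^ j) ℓ := by
    apply hζ.pow_of_coprime
    exact ((Nat.Prime.coprime_iff_not_dvd hℓ).2 (Nat.not_dvd_of_pos_of_lt hj hjℓ)).symm
  have h : IsConjRoot ℚ (ζ ^ j) ζ := by
    rw [isConjRoot_def, ← cyclotomic_eq_minpoly_rat hζ hℓ.pos,
      ← cyclotomic_eq_minpoly_rat hζj hℓ.pos]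
  have := normalQ
  obtain ⟨σ, hσ⟩ := h.exists_algEquiv
  refine ⟨σ, fun z hz => ?_⟩
  obtain ⟨k, _, rfl⟩ := hζ.eq_pow_of_pow_eq_one hz
  rw [map_pow, hσ, ← pow_mul, ← pow_mul, mul_comm]

theorem isIntegral_of_closure (ℓ : ℕ) (hℓ : ℓ.Prime) (x : AlgebraicClosure ℚ)
    (hx : x ∈ Subring.closure {z : AlgebraicClosure ℚ | z ^ ℓ = 1}) : IsIntegral ℤ x := by
  have h : Subring.closure {z : AlgebraicClosure ℚ | z ^ ℓ = 1} ≤
      (integralClosure ℤ (AlgebraicClosure ℚ)).toSubring := by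
    rw [Subring.closure_le]
    intro z hz
    have hz' : z ^ ℓ = 1 := hz
    exact ⟨X ^ ℓ - 1, monic_X_pow_sub_C 1 hℓ.ne_zero, by
      simp only [eval₂_sub, eval₂_pow, eval₂_X, eval₂_one]
      rw [hz', sub_self]⟩
  exact h hx

/-- Reduction of algebraic integers. -/
theorem exists_red (ℓ : ℕ) [hℓ : Fact ℓ.Prime] : ∃ (κ : Type) (_ : Field κ)
    (_ : integralClosure ℤ (AlgebraicClosure ℚ) →+* κ), CharP κ ℓ := by
  obtain ⟨κ, hκ, r, hr⟩ := exists_reduction ℓ
  have := isAlgQ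
  have ι : AlgebraicClosure ℚ →ₐ[ℚ] ℂ := IsAlgClosed.lift
  have ι' : AlgebraicClosure ℚ →ₐ[ℤ] ℂ := ι.restrictScalars ℤ
  refine ⟨κ, hκ, r.comp (ι'.mapIntegralClosure : _ →+* _), ?_⟩
  have h12 : (ℓ : κ) = 0 := by simpa using hr
  exact (CharP.charP_iff_prime_eq_zero hℓ.out).2 h12

/-- A lift of an automorphism to the algebraic integers. -/
noncomputable def intAut (σ : AlgebraicClosure ℚ ≃ₐ[ℚ] AlgebraicClosure ℚ) :
    integralClosure ℤ (AlgebraicClosure ℚ) →+* integralClosure ℤ (AlgebraicClosure ℚ) :=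
  (((σ : AlgebraicClosure ℚ →ₐ[ℚ] AlgebraicClosure ℚ).restrictScalars ℤ).mapIntegralClosure :
    _ →+* _)

theorem coe_intAut (σ : AlgebraicClosure ℚ ≃ₐ[ℚ] AlgebraicClosure ℚ)
    (x : integralClosure ℤ (AlgebraicClosure ℚ)) :
    ((intAut σ x : integralClosure ℤ (AlgebraicClosure ℚ)) : AlgebraicClosure ℚ) =
      σ (x : AlgebraicClosure ℚ) := rfl

/-- Conjugation acts trivially on `ℤ[ζ_ℓ]` modulo `ℓ`. -/
theorem red_conj (ℓ : ℕ) [hℓ : Fact ℓ.Prime] {κ : Type} [Field κ] [CharP κ ℓ]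
    (r : integralClosure ℤ (AlgebraicClosure ℚ) →+* κ)
    (σ : AlgebraicClosure ℚ ≃ₐ[ℚ] AlgebraicClosure ℚ)
    (x : integralClosure ℤ (AlgebraicClosure ℚ))
    (hx : (x : AlgebraicClosure ℚ) ∈ Subring.closure {z : AlgebraicClosure ℚ | z ^ ℓ = 1}) :
    r (intAut σ x) = r x := by
  set s : Set (integralClosure ℤ (AlgebraicClosure ℚ)) := {x | x ^ ℓ = 1} with hs
  have himg : (algebraMap (integralClosure ℤ (AlgebraicClosure ℚ)) (AlgebraicClosure ℚ)) '' s =
      {z : AlgebraicClosure ℚ | z ^ ℓ = 1} := by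
    ext z
    constructor
    · rintro ⟨y, hy, rfl⟩
      have hy' : y ^ ℓ = 1 := hy
      have := congrArg (algebraMap (integralClosure ℤ (AlgebraicClosure ℚ))
        (AlgebraicClosure ℚ)) hy'
      rw [map_pow, map_one] at this
      exact this
    · intro hz
      refine ⟨⟨z, isIntegral_of_closure ℓ hℓ.out z (Subring.subset_closure hz)⟩, ?_, rfl⟩
      apply Subtype.ext
      exact hz
  have hmem : x ∈ Subring.closure s := by
    have h1 := RingHom.map_closure
      (algebraMap (integralClosure ℤ (AlgebraicClosure ℚ)) (AlgebraicClosure ℚ)) s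
    rw [himg] at h1
    rw [← h1, Subring.mem_map] at hx
    obtain ⟨y, hy, hyx⟩ := hx
    have : y = x := Subtype.ext hyx
    rwa [← this]
  have heq : Set.EqOn (r.comp (intAut σ)) r s := by
    intro y hy
    have hy1 : y ^ ℓ = 1 := hy
    have h1 : r y = 1 := by
      apply pow_eq_one_of_char ℓ 1
      rw [pow_one, ← map_pow, hy1, map_one]
    have h2 : (r.comp (intAut σ)) y = 1 := by
      apply pow_eq_one_of_char ℓ 1
      rw [pow_one, ← map_pow, hy1, map_one]
    rw [h1, h2]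
  exact RingHom.eqOn_set_closure heq hmem

theorem reverse_prod' {κ : Type*} [Field κ] (A : Multiset κ) :
    ((A.map (fun α => X - C α)).prod).reverse = pr A := by
  induction A using Multiset.induction_on with
  | empty =>
    unfold pr
    simpa using reverse_C (1 : κ)
  | cons α A ih =>
    rw [Multiset.map_cons, Multiset.prod_cons, reverse_mul_of_domain, ih, pr_cons]
    congr 1
    ext n
    rw [coeff_reverse, natDegree_X_sub_C]
    rcases n with _ | n
    · simp [revAt]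
    · rcases n with _ | n
      · rw [coeff_sub, coeff_sub, coeff_C_mul, coeff_X_one, coeff_one]
        simp [revAt]
      · rw [revAt_eq_self_of_lt (by omega)]
        simp [coeff_X, coeff_one]

theorem reverse_eq_pr (R : (AlgebraicClosure ℚ)[X]) (hR : R.Monic) : R.reverse = pr R.roots := by
  conv_lhs => rw [(IsAlgClosed.splits R).eq_prod_roots_of_monic hR]
  exact reverse_prod' _

theorem pr_map {R S : Type*} [CommRing R] [CommRing S] (f : R →+* S) (A : Multiset R) :
    (pr A).map f = pr (A.map f) := by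
  unfold pr
  rw [Polynomial.map_multiset_prod, Multiset.map_map, Multiset.map_map]
  congr 1
  apply Multiset.map_congr rfl
  intro z _
  simp

theorem pr_add {R : Type*} [CommRing R] (A B : Multiset R) : pr (A + B) = pr A * pr B := by
  unfold pr
  rw [Multiset.map_add, Multiset.prod_add]

/-- The roots of a monic polynomial with coefficients in `ℤ[ζ_ℓ]` lift to algebraic integers, and
conjugation does not change the number of the ones that are `1` modulo `ℓ`. -/
theorem exists_lift (ℓ : ℕ) [hℓ : Fact ℓ.Prime] (R : (AlgebraicClosure ℚ)[X]) (hR : R.Monic)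
    (hc : ∀ i, R.coeff i ∈ Subring.closure {z : AlgebraicClosure ℚ | z ^ ℓ = 1}) :
    ∃ A : Multiset (integralClosure ℤ (AlgebraicClosure ℚ)),
      A.map (algebraMap _ (AlgebraicClosure ℚ)) = R.roots ∧
      ∀ {κ : Type} [Field κ] [CharP κ ℓ] (r : integralClosure ℤ (AlgebraicClosure ℚ) →+* κ)
        (σ : AlgebraicClosure ℚ ≃ₐ[ℚ] AlgebraicClosure ℚ),
        pr ((A.map (intAut σ)).map r) = pr (A.map r) := by
  have hinj : Function.Injective (algebraMap (integralClosure ℤ (AlgebraicClosure ℚ))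
    (AlgebraicClosure ℚ)) := Subtype.val_injective
  have hlift : R ∈ lifts (algebraMap (integralClosure ℤ (AlgebraicClosure ℚ))
      (AlgebraicClosure ℚ)) := by
    rw [lifts_iff_coeff_lifts]
    intro i
    exact ⟨⟨R.coeff i, isIntegral_of_closure ℓ hℓ.out _ (hc i)⟩, rfl⟩
  obtain ⟨R', hR', _, hR'm⟩ := lifts_and_natDegree_eq_and_monic hlift hR
  have hint : ∀ α ∈ R.roots, α ∈ integralClosure ℤ (AlgebraicClosure ℚ) := by
    intro α hα
    rw [mem_roots hR.ne_zero, IsRoot, ← hR', eval_map] at hα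
    have h1 : IsIntegral (integralClosure ℤ (AlgebraicClosure ℚ)) α := ⟨R', hR'm, hα⟩
    exact isIntegral_trans α h1
  obtain ⟨A, hA⟩ : ∃ A : Multiset (integralClosure ℤ (AlgebraicClosure ℚ)),
      A.map (algebraMap _ (AlgebraicClosure ℚ)) = R.roots :=
    ⟨R.roots.pmap (fun α h => ⟨α, h⟩) hint, by
      rw [Multiset.map_pmap]
      change R.roots.pmap (fun α _ => α) _ = _
      rw [Multiset.pmap_eq_map, Multiset.map_id']⟩
  refine ⟨A, hA, ?_⟩
  intro κ _ _ r σ
  have hprA : pr A = R'.reverse := by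
    apply map_injective _ hinj
    rw [pr_map, hA, ← map_reverse' _ hinj, hR', reverse_eq_pr R hR]
  rw [← pr_map, ← pr_map, ← pr_map, hprA, Polynomial.map_map]
  ext i
  rw [coeff_map, coeff_map]
  have hci : ((R'.reverse.coeff i : integralClosure ℤ (AlgebraicClosure ℚ)) :
      AlgebraicClosure ℚ) ∈ Subring.closure {z : AlgebraicClosure ℚ | z ^ ℓ = 1} := by
    have h1 : ((R'.reverse.coeff i : integralClosure ℤ (AlgebraicClosure ℚ)) :
        AlgebraicClosure ℚ) = R.reverse.coeff i := by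
      rw [← hR', map_reverse' _ hinj, coeff_map]
      rfl
    rw [h1, coeff_reverse]
    exact hc _
  exact red_conj ℓ r σ _ hci

end Pool.Agent.Helper2.Tate
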