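import Pool.Agent.Helper2.Tate.Surface

/-!
# Points of the line and of the plane
-/

set_option autoImplicit false

open Function MvPolynomial

namespace Pool.Agent.Helper2.Tate

section Basic

variable {Ω : Type} [Field Ω] [IsAlgClosed Ω]

theorem ncard_Kn (p : ℕ) [CharP Ω p] (q n : ℕ) (hq : 2 ≤ q) (hpq : p ∣ q) (hn : 1 ≤ n) :
    (Kn Ω q n).ncard = q ^ n := by
  classical
  have hd : 1 < q ^ n := Nat.one_lt_pow (by omega) (by omega)
  have h0 : (Polynomial.X ^ (q ^ n) - Polynomial.X : Polynomial Ω) ≠ 0 :=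
    FiniteField.X_pow_card_sub_X_ne_zero Ω hd
  have hsep : (Polynomial.X ^ (q ^ n) - Polynomial.X : Polynomial Ω).Separable :=
    galois_poly_separable p (q ^ n) (hpq.trans (dvd_pow_self q (by omega)))
  have h1 : Kn Ω q n = ((Polynomial.X ^ (q ^ n) - Polynomial.X : Polynomial Ω).roots.toFinset :
      Set Ω) := by
    ext c
    simp only [Finset.mem_coe, Multiset.mem_toFinset]
    rw [Polynomial.mem_roots h0]
    simp only [Polynomial.IsRoot, Polynomial.eval_sub, Polynomial.eval_pow, Polynomial.eval_X]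
    exact sub_eq_zero.symm
  rw [h1, Set.ncard_coe_finset, Multiset.toFinset_card_of_nodup (Polynomial.nodup_roots hsep),
    ← (IsAlgClosed.splits _).natDegree_eq_card_roots,
    FiniteField.X_pow_card_sub_X_natDegree_eq Ω hd]

/-- the points of the plane -/
theorem ncard_plane (p : ℕ) [CharP Ω p] (q n : ℕ) (hq : 2 ≤ q) (hpq : p ∣ q) (hn : 1 ≤ n) :
    {P : Fin 3 → Ω | Normalized P ∧ ∀ i, P i ∈ Kn Ω q n}.ncard = 1 + q ^ n + q ^ (2 * n) ∧
    {P : Fin 3 → Ω | Normalized P ∧ ∀ i, P i ∈ Kn Ω q n}.Finite := by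
  classical
  have hKf := Kn_finite (Ω := Ω) q n hq hn
  set K := hKf.toFinset with hK
  have hKc : K.card = q ^ n := by
    rw [hK, ← Set.ncard_eq_toFinset_card _ hKf, ncard_Kn p q n hq hpq hn]
  have h0K : (0 : Ω) ∈ Kn Ω q n := by
    change (0 : Ω) ^ (q ^ n) = 0
    rw [zero_pow (pow_ne_zero _ (by omega))]
  have h1K : (1 : Ω) ∈ Kn Ω q n := one_pow _
  have h1 : {P : Fin 3 → Ω | Normalized P ∧ ∀ i, P i ∈ Kn Ω q n} =
      (((K ×ˢ K).image (fun x => (![x.1, x.2, 1] : Fin 3 → Ω)) ∪
        (K.image (fun x => (![x, 1, 0] : Fin 3 → Ω)) ∪ {![1, 0, 0]}) : Finset (Fin 3 → Ω)) :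
        Set (Fin 3 → Ω)) := by
    ext P
    simp only [Finset.coe_union, Finset.coe_image, Set.mem_union, Set.mem_image, Finset.mem_coe,
      Finset.mem_product, hK, Set.Finite.mem_toFinset, Finset.coe_singleton,
      Set.mem_singleton_iff, Set.mem_ofPred_eq, Prod.exists]
    constructor
    · rintro ⟨⟨i, hi, hj⟩, hP⟩
      fin_cases i
      · right; right
        have h2 := hj 1 (by decide)
        have h3 := hj 2 (by decide)
        funext k
        fin_cases k
        · exact hi
        · exact h2
        · exact h3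
      · right; left
        have h3 := hj 2 (by decide)
        refine ⟨P 0, hP 0, ?_⟩
        funext k
        fin_cases k
        · rfl
        · exact hi.symm
        · exact h3.symm
      · left
        refine ⟨P 0, P 1, ⟨hP 0, hP 1⟩, ?_⟩
        funext k
        fin_cases k
        · rfl
        · rfl
        · exact hi.symm
    · rintro (⟨x, y, ⟨hx, hy⟩, rfl⟩ | ⟨x, hx, rfl⟩ | rfl)
      · refine ⟨⟨2, rfl, fun j hj => ?_⟩, fun i => ?_⟩
        · fin_cases j <;> simp at hj
        · fin_cases i
          · exact hx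
          · exact hy
          · exact h1K
      · refine ⟨⟨1, rfl, fun j hj => ?_⟩, fun i => ?_⟩
        · fin_cases j
          · simp at hj
          · simp at hj
          · rfl
        · fin_cases i
          · exact hx
          · exact h1K
          · exact h0K
      · refine ⟨⟨0, rfl, fun j hj => ?_⟩, fun i => ?_⟩
        · fin_cases j
          · simp at hj
          · rfl
          · rfl
        · fin_cases i
          · exact h1K
          · exact h0K
          · exact h0K
  refine ⟨?_, by rw [h1]; exact Finset.finite_toSet _⟩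
  rw [h1, Set.ncard_coe_finset, Finset.card_union_of_disjoint, Finset.card_union_of_disjoint,
    Finset.card_image_of_injective, Finset.card_image_of_injective, Finset.card_product,
    Finset.card_singleton, hKc]
  · ring
  · intro x y hxy
    exact congrFun hxy 0
  · rintro ⟨x1, x2⟩ ⟨y1, y2⟩ hxy
    exact Prod.ext (congrFun hxy 0) (congrFun hxy 1)
  · rw [Finset.disjoint_singleton_right, Finset.mem_image]
    rintro ⟨x, _, hx⟩
    have := congrFun hx 1
    simp at this
  · rw [Finset.disjoint_left]
    intro P hP hP2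
    rw [Finset.mem_image] at hP
    obtain ⟨x, _, rfl⟩ := hP
    rw [Finset.mem_union, Finset.mem_image, Finset.mem_singleton] at hP2
    rcases hP2 with ⟨y, _, hy⟩ | hy
    · have := congrFun hy 2
      simp at this
    · have := congrFun hy 2
      simp at this

/-- the points of the line -/
theorem ncard_line (p : ℕ) [CharP Ω p] (q n : ℕ) (hq : 2 ≤ q) (hpq : p ∣ q) (hn : 1 ≤ n) :
    {P : Fin 2 → Ω | Normalized P ∧ ∀ i, P i ∈ Kn Ω q n}.ncard = 1 + q ^ n ∧
    {P : Fin 2 → Ω | Normalized P ∧ ∀ i, P i ∈ Kn Ω q n}.Finite := by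
  classical
  have hKf := Kn_finite (Ω := Ω) q n hq hn
  set K := hKf.toFinset with hK
  have hKc : K.card = q ^ n := by
    rw [hK, ← Set.ncard_eq_toFinset_card _ hKf, ncard_Kn p q n hq hpq hn]
  have h0K : (0 : Ω) ∈ Kn Ω q n := by
    change (0 : Ω) ^ (q ^ n) = 0
    rw [zero_pow (pow_ne_zero _ (by omega))]
  have h1K : (1 : Ω) ∈ Kn Ω q n := one_pow _
  have h1 : {P : Fin 2 → Ω | Normalized P ∧ ∀ i, P i ∈ Kn Ω q n} =
      ((K.image (fun x => (![x, 1] : Fin 2 → Ω)) ∪ {![1, 0]} : Finset (Fin 2 → Ω)) :
        Set (Fin 2 → Ω)) := by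
    ext P
    simp only [Finset.coe_union, Finset.coe_image, Set.mem_union, Set.mem_image, Finset.mem_coe,
      hK, Set.Finite.mem_toFinset, Finset.coe_singleton,
      Set.mem_singleton_iff, Set.mem_ofPred_eq]
    constructor
    · rintro ⟨⟨i, hi, hj⟩, hP⟩
      fin_cases i
      · right
        have h2 := hj 1 (by decide)
        funext k
        fin_cases k
        · exact hi
        · exact h2
      · left
        refine ⟨P 0, hP 0, ?_⟩
        funext k
        fin_cases k
        · rfl
        · exact hi.symm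
    · rintro (⟨x, hx, rfl⟩ | rfl)
      · refine ⟨⟨1, rfl, fun j hj => ?_⟩, fun i => ?_⟩
        · fin_cases j <;> simp at hj
        · fin_cases i
          · exact hx
          · exact h1K
      · refine ⟨⟨0, rfl, fun j hj => ?_⟩, fun i => ?_⟩
        · fin_cases j
          · simp at hj
          · rfl
        · fin_cases i
          · exact h1K
          · exact h0K
  refine ⟨?_, by rw [h1]; exact Finset.finite_toSet _⟩
  rw [h1, Set.ncard_coe_finset, Finset.card_union_of_disjoint,
    Finset.card_image_of_injective, Finset.card_singleton, hKc]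
  · ring
  · intro x y hxy
    exact congrFun hxy 0
  · rw [Finset.disjoint_singleton_right, Finset.mem_image]
    rintro ⟨x, _, hx⟩
    have := congrFun hx 1
    simp at this

end Basic

variable (F : Type) [Field F] [Fintype F]

theorem ncard_points_empty (n : ℕ) (hn : 1 ≤ n) :
    (points F (∅ : Set (MvPolynomial (Fin 3) F)) n).ncard =
      1 + Fintype.card F ^ n + Fintype.card F ^ (2 * n) := by
  obtain ⟨p, hp, hpq, hpΩ⟩ := exists_charP F
  rw [← (ncard_plane (Ω := AlgebraicClosure F) p (Fintype.card F) n Fintype.one_lt_card hpq hn).1]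
  congr 1
  ext P
  simp only [points, Set.mem_empty_iff_false, false_imp_iff, implies_true, and_true]
  rfl

/-- The second cohomology group of the plane. -/
theorem isFrobTwo_plane : IsFrobTwo (Fintype.card F)
    (fun n => (points F (∅ : Set (MvPolynomial (Fin 3) F)) n).ncard)
    (Polynomial.X - Polynomial.C (Fintype.card F : ℤ)) := by
  refine ⟨Polynomial.monic_X_sub_C _, fun n hn => ?_⟩
  simp only [ncard_points_empty F n hn]
  unfold powerSum
  rw [Polynomial.map_sub, Polynomial.map_X, Polynomial.map_C, Polynomial.roots_X_sub_C]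
  simp
  ring

/-- The multiplicity bound for cyclic planes. -/
theorem plane_mult_le (ℓ : ℕ) (hℓ : ℓ.Prime) (hq : ℓ ∣ Fintype.card F - 1)
    (f : MvPolynomial (Fin 3) F) (QB QY : Polynomial ℤ)
    (hB : IsFrobOne (Fintype.card F) (fun n => (points F {f} n).ncard) QB)
    (hY : IsFrobTwo (Fintype.card F) (fun n => (coverPoints F ℓ ∅ f n).ncard) QY)
    (hJ : ¬ (ℓ : ℤ) ∣ QB.eval 1) (j : ℕ) :
    mult (Fintype.card F) QY (ℓ ^ j) ≤ ℓ := by
  have hF := Fact.mk hℓ
  have hB' : IsFrobOne (Fintype.card F) (fun n => (points F (insert f ∅) n).ncard) QB := by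
    simpa using hB
  have h1 := cover_mult_le F ℓ hℓ hq ∅ f _ QB QY (isFrobTwo_plane F) hB' hY hJ j
  have h2 : (((Polynomial.X - Polynomial.C (Fintype.card F : ℤ)) : Polynomial ℤ).map
      (Int.castRingHom (ZMod ℓ))).rootMultiplicity 1 = 1 := by
    have h3 := cast_q ℓ (Fintype.card F) Fintype.card_pos hq
    rw [Polynomial.map_sub, Polynomial.map_X, Polynomial.map_C]
    have h4 : (Int.castRingHom (ZMod ℓ)) (Fintype.card F : ℤ) = 1 := h3
    rw [h4, Polynomial.rootMultiplicity_X_sub_C_self]
  rw [h2, mul_one] at h1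
  exact h1

end Pool.Agent.Helper2.Tate
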