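import Pool.Agent.Helper2.Tate.Defs
import Pool.Agent.Helper41.Eggert.Zero

/-!
# The curves `g = 0, w = ζ v` on the surface `w ^ ℓ = g u + v ^ ℓ`
-/

set_option autoImplicit false

open MvPolynomial

namespace Pool.Agent.Helper2.Tate

variable (F : Type) [Field F]

/-- Every form `h` of positive degree vanishes at a point of the surface `w ^ ℓ = g u + v ^ ℓ` which
lies on none of the curves `g = 0, w = ζ v` with `ζ ≠ ζ₀`. -/
theorem exists_zero_off_curves (ℓ : ℕ) (hℓ : ℓ.Prime) (d e : ℕ) (hd : 0 < d)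
    (g u v : MvPolynomial (Fin 3) F) (hu : u.IsHomogeneous e) (he : 0 < e)
    (hv : v.IsHomogeneous d) (hs : SmoothCurve F (g * u + v ^ ℓ))
    (ζ₀ : AlgebraicClosure F) (hζ₀ : ζ₀ ^ ℓ = 1) (m : ℕ) (hm : 0 < m)
    (h : MvPolynomial (Fin 4) (AlgebraicClosure F))
    (hh : IsWeightedHomogeneous ![1, 1, 1, d] h m) :
    ∃ (P : Fin 3 → AlgebraicClosure F) (w : AlgebraicClosure F), P ≠ 0 ∧
      w ^ ℓ = aeval P (g * u + v ^ ℓ) ∧ aeval ![P 0, P 1, P 2, w] h = 0 ∧
      ∀ ζ : AlgebraicClosure F, ζ ^ ℓ = 1 → ζ ≠ ζ₀ → ¬ (aeval P g = 0 ∧ w = ζ * aeval P v) := by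
  classical
  set u' : MvPolynomial (Fin 3) (AlgebraicClosure F) := MvPolynomial.map (algebraMap F (AlgebraicClosure F)) u with hu'
  set v' : MvPolynomial (Fin 3) (AlgebraicClosure F) := MvPolynomial.map (algebraMap F (AlgebraicClosure F)) v with hv'
  set h' : MvPolynomial (Fin 3) (AlgebraicClosure F) := aeval ![X 0, X 1, X 2, C ζ₀ * v'] h with hh'
  have ev' : ∀ P : Fin 3 → (AlgebraicClosure F), ∀ p : MvPolynomial (Fin 3) F,
      eval P (MvPolynomial.map (algebraMap F (AlgebraicClosure F)) p) = aeval P p := by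
    intro P p
    rw [eval_map, aeval_def]
  have hzero : ∀ (p : MvPolynomial (Fin 3) F) (k : ℕ), p.IsHomogeneous k → 0 < k →
      aeval (0 : Fin 3 → (AlgebraicClosure F)) p = 0 := by
    intro p k hp hk
    have : constantCoeff p = 0 := by
      have h2 := hp.coeff_eq_zero (d := 0) (by simp; omega)
      exact h2
    rw [aeval_zero, this, map_zero]
  have evh' : ∀ P : Fin 3 → (AlgebraicClosure F), eval P h' = aeval ![P 0, P 1, P 2, ζ₀ * aeval P v] h := by
    intro P
    have h1 := MvPolynomial.comp_aeval_apply (R := (AlgebraicClosure F))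
      (![X 0, X 1, X 2, C ζ₀ * v'] : Fin 4 → MvPolynomial (Fin 3) (AlgebraicClosure F))
      (MvPolynomial.aeval P : MvPolynomial (Fin 3) (AlgebraicClosure F) →ₐ[(AlgebraicClosure F)] (AlgebraicClosure F)) h
    have h2 : eval P h' = (MvPolynomial.aeval P : MvPolynomial (Fin 3) (AlgebraicClosure F) →ₐ[(AlgebraicClosure F)] (AlgebraicClosure F)) h' := by
      rw [aeval_eq_eval]
    rw [h2, hh', h1]
    congr 2
    funext i
    fin_cases i
    · simp
    · simp
    · simp
    · simp [← ev' P v, ← hv']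
  obtain ⟨c, hc0, hc⟩ := Helper41.Eggert.exists_ne_zero_common_zero
    ({u', h'} : Finset (MvPolynomial (Fin 3) (AlgebraicClosure F)))
    (lt_of_le_of_lt (Finset.card_insert_le _ _) (by simp))
    (by
      intro p hp
      rw [Finset.mem_insert, Finset.mem_singleton] at hp
      rcases hp with rfl | rfl
      · rw [hu', ev', hzero u e hu he]
      · rw [evh', hzero v d hv hd, mul_zero]
        have h0 : (![(0 : Fin 3 → (AlgebraicClosure F)) 0, (0 : Fin 3 → (AlgebraicClosure F)) 1, (0 : Fin 3 → (AlgebraicClosure F)) 2, 0] : Fin 4 → (AlgebraicClosure F)) = 0 := by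
          funext i; fin_cases i <;> rfl
        rw [h0, aeval_zero]
        have h1 : constantCoeff h = 0 := by
          by_contra hne
          have := hh (d := 0) hne
          simp at this
          omega
        rw [h1, map_zero])
  have hcu : aeval c u = 0 := by
    rw [← ev', ← hu']; exact hc u' (by simp)
  have hch : aeval ![c 0, c 1, c 2, ζ₀ * aeval c v] h = 0 := by
    rw [← evh']; exact hc h' (by simp)
  refine ⟨c, ζ₀ * aeval c v, hc0, ?_, hch, ?_⟩
  · rw [map_add, map_mul, map_pow, hcu, mul_zero, zero_add, mul_pow, hζ₀, one_mul]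
  · rintro ζ _ hne ⟨hg, hw⟩
    have hv0 : aeval c v = 0 := by
      have : (ζ₀ - ζ) * aeval c v = 0 := by rw [sub_mul, hw, sub_self]
      rcases mul_eq_zero.1 this with h1 | h1
      · exact absurd (sub_eq_zero.1 h1).symm hne
      · exact h1
    obtain ⟨i, hi⟩ := hs c hc0 (by
      rw [map_add, map_mul, map_pow, hg, hv0, zero_mul, zero_pow hℓ.ne_zero, add_zero])
    apply hi
    rw [map_add, Derivation.leibniz, Derivation.leibniz_pow, map_add, map_add]
    simp only [smul_eq_mul, nsmul_eq_mul, map_mul, map_pow, hg, hcu, hv0, zero_mul]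
    rw [zero_pow (by have := hℓ.two_le; omega)]
    ring

theorem offCurves (ℓ : ℕ) (hℓ : ℓ.Prime) (d e : ℕ) (hd : 0 < d)
    (g u v : MvPolynomial (Fin 3) F) (hu : u.IsHomogeneous e) (he : 0 < e)
    (hv : v.IsHomogeneous d) (hs : SmoothCurve F (g * u + v ^ ℓ)) : OffCurves F ℓ d g u v :=
  fun ζ₀ hζ₀ m hm h hh =>
    exists_zero_off_curves F ℓ hℓ d e hd g u v hu he hv hs ζ₀ hζ₀ m hm h hh

end Pool.Agent.Helper2.Tate
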