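import Pool.Agent.Helper2.Tate.Plane
import Pool.Agent.Helper2.Tate.Divisors

/-!
# The multiplicity bound for all extensions
-/

set_option autoImplicit false

open Polynomial

namespace Pool.Agent.Helper2.Tate

/-- The degree of `q ξ` over the rational numbers, `ξ` a primitive `n`-th root of unity. -/
theorem totient_le (q n : ℕ) (hq : 1 ≤ q) (hn : 0 < n) (ξ : ℂ) (hξ : IsPrimitiveRoot ξ n)
    (Q : ℤ[X]) (hQ : Q.Monic) (h0 : aeval ((q : ℂ) * ξ) Q = 0) : n.totient ≤ Q.natDegree := by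
  have hq0 : (q : ℚ) ≠ 0 := by
    have : q ≠ 0 := by omega
    exact_mod_cast this
  set P : ℚ[X] := (Q.map (Int.castRingHom ℚ)).comp (C (q : ℚ) * X) with hP
  have hdeg : P.natDegree = Q.natDegree := by
    rw [hP, natDegree_comp, hQ.natDegree_map, natDegree_C_mul_X _ hq0, mul_one]
  have hP0 : P ≠ 0 := by
    intro h
    have h1 : (Q.map (Int.castRingHom ℚ)).comp (C (q : ℚ) * X) = 0 := h
    rcases comp_eq_zero_iff.1 h1 with h2 | h2
    · exact (hQ.map _).ne_zero h2
    · have h3 := congrArg (fun p => coeff p 1) h2.2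
      simp at h3
      exact hq0 (by exact_mod_cast h3)
  have hz : aeval ξ P = 0 := by
    rw [hP, aeval_comp, map_mul, aeval_C, aeval_X]
    have h1 : algebraMap ℚ ℂ (q : ℚ) = (q : ℂ) := by simp
    rw [h1]
    change aeval ((q : ℂ) * ξ) (Q.map (algebraMap ℤ ℚ)) = 0
    rw [aeval_map_algebraMap]
    exact h0
  have hdvd : minpoly ℚ ξ ∣ P := minpoly.dvd ℚ ξ hz
  rw [← cyclotomic_eq_minpoly_rat hξ hn] at hdvd
  have h2 := natDegree_le_of_dvd hdvd hP0
  rwa [natDegree_cyclotomic, hdeg] at h2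

/-- The bound of the multiplicity over all extensions. -/
theorem mult_le_all (ℓ : ℕ) [hℓ : Fact ℓ.Prime] (q : ℕ) (hq1 : 1 ≤ q) (hq : ℓ ∣ q - 1)
    (Q : ℤ[X]) (hQ : Q.Monic) (R : (ZMod ℓ)[X]) (k e : ℕ)
    (hfac : Q.reverse.map (Int.castRingHom (ZMod ℓ)) = (1 - X) ^ k * R ^ e)
    (hcop : ∀ n : ℕ, 1 < n → ¬ ℓ ∣ n → n.totient ≤ Q.natDegree →
      ∀ (κ : Type) [Field κ] [Algebra (ZMod ℓ) κ] (z : κ), IsPrimitiveRoot z n →
        aeval z⁻¹ R ≠ 0) (m : ℕ) (hm : 1 ≤ m) :
    mult q Q m ≤ (Q.reverse.map (Int.castRingHom (ZMod ℓ))).rootMultiplicity 1 := by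
  classical
  obtain ⟨κ, _, r, hr⟩ := exists_reduction ℓ
  have hchar : CharP κ ℓ := by
    have h12 : (ℓ : κ) = 0 := by simpa using hr
    exact (CharP.charP_iff_prime_eq_zero hℓ.out).2 h12
  let _ : Algebra (ZMod ℓ) κ := ZMod.algebra κ ℓ
  set ρ : ℤ →+* κ := r.comp (Int.castRingHom _) with hρ
  have hint : ∀ α ∈ (Q.map (Int.castRingHom ℂ)).roots, α ∈ integralClosure ℤ ℂ := by
    intro α hα
    rw [mem_roots (hQ.map _).ne_zero, IsRoot, eval_map] at hα
    exact ⟨Q, hQ, hα⟩
  obtain ⟨A, hA⟩ : ∃ A : Multiset (integralClosure ℤ ℂ),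
      A.map (fun z : integralClosure ℤ ℂ => (z : ℂ)) = (Q.map (Int.castRingHom ℂ)).roots :=
    ⟨(Q.map (Int.castRingHom ℂ)).roots.pmap (fun α h => ⟨α, h⟩) hint, by
      rw [Multiset.map_pmap]
      simp only
      rw [Multiset.pmap_eq_map, Multiset.map_id']⟩
  have hmapr : Q.reverse.map (Int.castRingHom (integralClosure ℤ ℂ)) = pr A := by
    have hinj : Function.Injective (Polynomial.map (algebraMap (integralClosure ℤ ℂ) ℂ)) :=
      map_injective _ Subtype.val_injective
    apply hinj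
    rw [Polynomial.map_map]
    have h3 : (algebraMap (integralClosure ℤ ℂ) ℂ).comp (Int.castRingHom _) =
        Int.castRingHom ℂ := RingHom.ext_int _ _
    rw [h3, reverse_map Q hQ, ← hA]
    unfold pr
    rw [Polynomial.map_multiset_prod, Multiset.map_map, Multiset.map_map]
    congr 1
    apply Multiset.map_congr rfl
    intro z _
    simp
  have hFκ : Q.reverse.map ρ = pr (A.map r) := by
    rw [hρ, ← Polynomial.map_map, hmapr]
    unfold pr
    rw [Polynomial.map_multiset_prod, Multiset.map_map, Multiset.map_map]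
    congr 1
    apply Multiset.map_congr rfl
    intro z _
    simp
  have hρ2 : ρ = (algebraMap (ZMod ℓ) κ).comp (Int.castRingHom (ZMod ℓ)) := RingHom.ext_int _ _
  have hcount : (A.map r).count 1 =
      (Q.reverse.map (Int.castRingHom (ZMod ℓ))).rootMultiplicity 1 := by
    rw [← (rootMultiplicity_pr (A.map r)).1, ← hFκ,
      Polynomial.eq_rootMultiplicity_map (algebraMap (ZMod ℓ) κ).injective, Polynomial.map_map,
      map_one, hρ2]
  rw [← hcount]
  unfold mult
  rw [← hA, Multiset.count, Multiset.countP_map, Multiset.filter_map, Multiset.card_map]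
  apply Multiset.card_le_card
  rw [Multiset.le_filter]
  refine ⟨Multiset.filter_le _ _, ?_⟩
  intro z hz
  rw [Multiset.mem_filter] at hz
  obtain ⟨hzA, hz⟩ := hz
  simp only [Function.comp] at hz
  have hq0 : (q : ℂ) ≠ 0 := by
    have : q ≠ 0 := by omega
    exact_mod_cast this
  -- the root of unity
  set ξ : ℂ := (z : ℂ) / q with hξ
  have hξm : ξ ^ m = 1 := by
    rw [hξ, div_pow, hz, div_self (pow_ne_zero _ hq0)]
  set n := orderOf ξ with hn
  have hn0 : 0 < n := orderOf_pos_iff.2 (isOfFinOrder_iff_pow_eq_one.2 ⟨m, hm, hξm⟩)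
  have hξp : IsPrimitiveRoot ξ n := IsPrimitiveRoot.orderOf ξ
  have hzξ : (z : ℂ) = (q : ℂ) * ξ := by
    rw [hξ, mul_div_cancel₀ _ hq0]
  have hzroot : aeval ((q : ℂ) * ξ) Q = 0 := by
    rw [← hzξ]
    have h1 : (z : ℂ) ∈ (Q.map (Int.castRingHom ℂ)).roots := by
      rw [← hA]
      exact Multiset.mem_map_of_mem _ hzA
    rw [mem_roots (hQ.map _).ne_zero, IsRoot, eval_map] at h1
    rw [aeval_def]
    exact h1
  have htot := totient_le q n hq1 hn0 ξ hξp Q hQ hzroot
  -- the reduction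
  have h9 : z ^ n = (q : integralClosure ℤ ℂ) ^ n := by
    apply Subtype.ext
    have h1 : (z : ℂ) ^ n = (q : ℂ) ^ n := by
      rw [hzξ, mul_pow, hξp.pow_eq_one, mul_one]
    simpa using h1
  have h10 := congrArg r h9
  rw [map_pow, map_pow] at h10
  have h11 : r (q : integralClosure ℤ ℂ) = 1 := by
    obtain ⟨k, hk⟩ := hq
    have h1 : q = ℓ * k + 1 := by omega
    rw [map_natCast, h1]
    push_cast
    rw [CharP.cast_eq_zero κ ℓ]; ring
  rw [h11, one_pow] at h10
  set y := r z with hy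
  have hy0 : y ≠ 0 := by
    intro h
    rw [h, zero_pow (by omega)] at h10
    exact zero_ne_one h10
  have hydvd : orderOf y ∣ n := orderOf_dvd_of_pow_eq_one h10
  have hyord0 : 0 < orderOf y := Nat.pos_of_dvd_of_pos hydvd hn0
  have hynd : ¬ ℓ ∣ orderOf y := by
    rintro ⟨s, hs⟩
    have h1 : (y ^ s) ^ (ℓ ^ 1) = 1 := by
      rw [pow_one, ← pow_mul, mul_comm, ← hs, pow_orderOf_eq_one]
    have h2 := pow_eq_one_of_char ℓ 1 (y ^ s) h1
    have h3 := Nat.le_of_dvd (by
      rcases Nat.eq_zero_or_pos s with rfl | h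
      · omega
      · exact h) (orderOf_dvd_of_pow_eq_one h2)
    have h4 := hℓ.out.two_le
    have h5 : 2 * s ≤ ℓ * s := Nat.mul_le_mul_right s h4
    have h6 : 0 < s := by
      rcases Nat.eq_zero_or_pos s with rfl | h
      · omega
      · exact h
    omega
  have hytot : (orderOf y).totient ≤ Q.natDegree :=
    (Nat.le_of_dvd (Nat.totient_pos.2 hn0) (Nat.totient_dvd_of_dvd hydvd)).trans htot
  by_contra hy1
  have hy1' : y ≠ 1 := fun h => hy1 h.symm
  have hyord1 : 1 < orderOf y := by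
    have : orderOf y ≠ 1 := fun h => hy1' (orderOf_eq_one_iff.1 h)
    omega
  apply hcop (orderOf y) hyord1 hynd hytot κ y (IsPrimitiveRoot.orderOf y)
  have hroot : aeval y⁻¹ (Q.reverse.map (Int.castRingHom (ZMod ℓ))) = 0 := by
    rw [aeval_def, eval₂_eq_eval_map, Polynomial.map_map, ← hρ2, hFκ]
    unfold pr
    rw [eval_multiset_prod, Multiset.map_map]
    apply Multiset.prod_eq_zero
    rw [Multiset.mem_map]
    refine ⟨r z, Multiset.mem_map_of_mem r hzA, ?_⟩
    rw [← hy]
    simp [hy0]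
  rw [hfac, map_mul, map_pow, map_pow, map_sub, map_one, aeval_X] at hroot
  rcases mul_eq_zero.1 hroot with h1 | h1
  · have h2 := eq_zero_of_pow_eq_zero h1
    exact absurd (inv_eq_one.1 (sub_eq_zero.1 h2).symm) hy1'
  · exact eq_zero_of_pow_eq_zero h1

theorem reverse_X_sub_C (a : ℤ) : (X - C a : ℤ[X]).reverse = 1 - C a * X := by
  ext n
  rw [coeff_reverse, natDegree_X_sub_C, coeff_sub, coeff_sub, coeff_C_mul, coeff_X, coeff_C,
    coeff_one, coeff_X]
  rcases n with _ | n
  · have : revAt 1 0 = 1 := by rw [revAt_le (by omega)]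
    rw [this]
    norm_num
  · rcases n with _ | n
    · have : revAt 1 (0 + 1) = 0 := by rw [revAt_le (by omega)]
      rw [this]
      norm_num
    · have : revAt 1 (n + 1 + 1) = n + 1 + 1 := revAt_eq_self_of_lt (by omega)
      rw [this]
      norm_num

variable (F : Type) [Field F] [Fintype F]

/-- The congruence for cyclic planes. -/
theorem plane_congruence (ℓ : ℕ) (hℓ : ℓ.Prime) (hq : ℓ ∣ Fintype.card F - 1)
    (f : MvPolynomial (Fin 3) F) (QB QY : Polynomial ℤ)
    (hB : IsFrobOne (Fintype.card F) (fun n => (points F {f} n).ncard) QB)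
    (hY : IsFrobTwo (Fintype.card F) (fun n => (coverPoints F ℓ ∅ f n).ncard) QY) :
    QY.reverse.map (Int.castRingHom (ZMod ℓ)) =
      (1 - X) ^ ℓ * (QB.reverse.map (Int.castRingHom (ZMod ℓ))) ^ (ℓ - 1) := by
  have hF := Fact.mk hℓ
  have hB' : IsFrobOne (Fintype.card F) (fun n => (points F (insert f ∅) n).ncard) QB := by
    simpa using hB
  rw [cover_congruence F ℓ hℓ hq ∅ f _ QB QY (isFrobTwo_plane F) hB' hY, reverse_X_sub_C]
  congr 2
  rw [Polynomial.map_sub, Polynomial.map_one, Polynomial.map_mul, Polynomial.map_C,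
    Polynomial.map_X]
  have : (Int.castRingHom (ZMod ℓ)) (Fintype.card F : ℤ) = 1 :=
    cast_q ℓ (Fintype.card F) Fintype.card_pos hq
  rw [this, C_1, one_mul]

/-- The order of vanishing at `1` modulo `ℓ`. -/
theorem plane_order (ℓ : ℕ) (hℓ : ℓ.Prime) (hq : ℓ ∣ Fintype.card F - 1)
    (f : MvPolynomial (Fin 3) F) (QB QY : Polynomial ℤ)
    (hB : IsFrobOne (Fintype.card F) (fun n => (points F {f} n).ncard) QB)
    (hY : IsFrobTwo (Fintype.card F) (fun n => (coverPoints F ℓ ∅ f n).ncard) QY) :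
    (QY.reverse.map (Int.castRingHom (ZMod ℓ))).rootMultiplicity 1 =
      ℓ + (ℓ - 1) * (QB.map (Int.castRingHom (ZMod ℓ))).rootMultiplicity 1 := by
  have hF := Fact.mk hℓ
  have h7 : (1 - X : (ZMod ℓ)[X]) = pr {(1 : ZMod ℓ)} := by unfold pr; simp
  have h8 := rootMultiplicity_pr ({(1 : ZMod ℓ)} : Multiset (ZMod ℓ))
  rw [← h7] at h8
  obtain ⟨h8a, h8b⟩ := h8
  have hne : QB.reverse.map (Int.castRingHom (ZMod ℓ)) ≠ 0 := by
    intro h
    have h1 := congrArg (fun p => Polynomial.coeff p 0) h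
    simp only [Polynomial.coeff_map, coeff_zero_reverse_monic QB hB.1, map_one,
      Polynomial.coeff_zero] at h1
    exact one_ne_zero h1
  rw [plane_congruence F ℓ hℓ hq f QB QY hB hY,
    rootMultiplicity_mul (mul_ne_zero (pow_ne_zero _ h8b) (pow_ne_zero _ hne)), ← count_roots,
    ← count_roots, roots_pow, roots_pow, Multiset.count_nsmul, Multiset.count_nsmul, count_roots,
    count_roots, h8a, rootMultiplicity_reverse ℓ QB hB.1]
  simp

/-- The bound for all extensions of the base field. -/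
theorem plane_mult_le_all (ℓ : ℕ) (hℓ : ℓ.Prime) (hq : ℓ ∣ Fintype.card F - 1)
    (f : MvPolynomial (Fin 3) F) (QB QY : Polynomial ℤ)
    (hB : IsFrobOne (Fintype.card F) (fun n => (points F {f} n).ncard) QB)
    (hY : IsFrobTwo (Fintype.card F) (fun n => (coverPoints F ℓ ∅ f n).ncard) QY)
    (hcop : ∀ n : ℕ, 0 < n → ¬ ℓ ∣ n → n.totient ≤ QY.natDegree →
      IsCoprime (cyclotomic n (ZMod ℓ)) (QB.map (Int.castRingHom (ZMod ℓ))))
    (m : ℕ) (hm : 1 ≤ m) : mult (Fintype.card F) QY m ≤ ℓ := by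
  have hF := Fact.mk hℓ
  have hnat : 0 < QY.natDegree := by
    by_contra h
    have h1 : QY.natDegree = 0 := by omega
    have h2 : QY = 1 := hY.1.natDegree_eq_zero.1 h1
    have h3 := plane_order F ℓ hℓ hq f QB QY hB hY
    rw [h2] at h3
    have h4 : ((1 : ℤ[X]).reverse.map (Int.castRingHom (ZMod ℓ))) = 1 := by
      have : (1 : ℤ[X]).reverse = 1 := by
        have := reverse_C (1 : ℤ)
        simpa using this
      rw [this, Polynomial.map_one]
    rw [h4] at h3
    have h5 : (1 : (ZMod ℓ)[X]).rootMultiplicity 1 = 0 := by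
      apply rootMultiplicity_eq_zero
      simp [IsRoot]
    rw [h5] at h3
    have := hℓ.two_le
    omega
  have h1 : (QB.map (Int.castRingHom (ZMod ℓ))).rootMultiplicity 1 = 0 := by
    apply rootMultiplicity_eq_zero
    intro h
    have h2 := hcop 1 one_pos (fun h => hℓ.one_lt.ne' (Nat.dvd_one.1 h))
      (by rw [Nat.totient_one]; exact hnat)
    obtain ⟨u, v, huv⟩ := h2
    have h3 := congrArg (Polynomial.eval 1) huv
    rw [IsRoot] at h
    rw [eval_add, eval_mul, eval_mul, h, cyclotomic_one, eval_one] at h3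
    simp at h3
  have h2 := plane_order F ℓ hℓ hq f QB QY hB hY
  rw [h1, mul_zero, add_zero] at h2
  conv_rhs => rw [← h2]
  refine mult_le_all ℓ (Fintype.card F) Fintype.card_pos hq QY hY.1 _ ℓ (ℓ - 1)
    (plane_congruence F ℓ hℓ hq f QB QY hB hY) ?_ m hm
  intro n hn hnd htot κ _ _ z hz h0
  have hz0 : z ≠ 0 := hz.ne_zero (by omega)
  have hchar : CharP κ ℓ := charP_of_injective_algebraMap' (ZMod ℓ) ℓ
  have hn' : (n : κ) ≠ 0 := by
    intro h
    rw [CharP.cast_eq_zero_iff κ ℓ] at h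
    exact hnd h
  have hne : NeZero (n : κ) := ⟨hn'⟩
  obtain ⟨u, v, huv⟩ := hcop n (by omega) hnd htot
  have h3 := congrArg (aeval z) huv
  have h4 : aeval z (cyclotomic n (ZMod ℓ)) = 0 := by
    rw [aeval_def, eval₂_eq_eval_map, map_cyclotomic]
    exact (isRoot_cyclotomic_iff.2 hz)
  have h5 : aeval z (QB.map (Int.castRingHom (ZMod ℓ))) = 0 := by
    have h6 : QB.reverse.map (Int.castRingHom (ZMod ℓ)) =
        (QB.map (Int.castRingHom (ZMod ℓ))).reverse := by
      ext n
      rw [coeff_reverse, coeff_map, coeff_map, coeff_reverse, hB.1.natDegree_map]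
    rw [h6, aeval_def] at h0
    have : Invertible z := invertibleOfNonzero hz0
    rw [aeval_def]
    have h7 := (eval₂_reverse_eq_zero_iff (algebraMap (ZMod ℓ) κ) z
      (QB.map (Int.castRingHom (ZMod ℓ)))).1
    apply h7
    rw [invOf_eq_inv]
    exact h0
  rw [map_add, map_mul, map_mul, h4, h5, mul_zero, mul_zero, add_zero, map_one] at h3
  exact zero_ne_one h3

end Pool.Agent.Helper2.Tate
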