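import Pool.Agent.Helper2.Tate.Family

/-!
# The bound of the multiplicity and the smoothness for the explicit family
-/

set_option autoImplicit false

open Function MvPolynomial

namespace Pool.Agent.Helper2.Tate

variable (F : Type) [Field F] [Fintype F]

theorem cnt_cast (m n : ℕ) : (((if m ∣ n then m else 0 : ℕ)) : ℤ) = cnt m n := by
  unfold cnt
  split <;> simp

variable {F} in
omit [Fintype F] in
theorem Admissible.coeff {ℓ k : ℕ} {a D₁ D₂ B₁ B₂ : Polynomial F}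
    (h : Admissible ℓ k a D₁ D₂ B₁ B₂) :
    a.coeff (ℓ ^ k) ^ ℓ - D₁.leadingCoeff * D₂.leadingCoeff =
      B₁.leadingCoeff * B₂.leadingCoeff := by
  have h1 := congrArg (fun p => Polynomial.coeff p (ℓ ^ (k + 1))) h.eq
  have h2 := Polynomial.coeff_pow_of_natDegree_le (m := ℓ) h.deg_a
  have h3 : ℓ * ℓ ^ k = ℓ ^ (k + 1) := by ring
  rw [h3] at h2
  have h4 := Polynomial.coeff_mul_degree_add_degree D₁ D₂
  have h5 := Polynomial.coeff_mul_degree_add_degree B₁ B₂
  rw [h.deg_D] at h4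
  rw [h.deg_B] at h5
  simp only [Polynomial.coeff_add] at h1
  rw [h2, h4, h5] at h1
  rw [h1]; ring

variable (ℓ k : ℕ) (a D₁ D₂ B₁ B₂ : Polynomial F)

theorem zer_delta (h : Admissible ℓ k a D₁ D₂ B₁ B₂) (n : ℕ) (hn : 1 ≤ n) :
    ((zer F (fun P => ev F D₁.natDegree D₁ P * ev F D₂.natDegree D₂ P) n).ncard : ℤ) =
      cnt D₁.natDegree n + cnt D₂.natDegree n := by
  rw [zer_ncard F _ (D₁ * D₂), ncard_roots_mul F D₁ D₂ h.irr_D₁ h.irr_D₂ h.nassoc_D n hn]
  · push_cast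
    rw [← cnt_cast, ← cnt_cast]
    push_cast
    rfl
  · intro c
    rw [ev_one F _ _ le_rfl, ev_one F _ _ le_rfl, map_mul]
  · rw [ev_inf, ev_inf]
    exact mul_ne_zero
      ((map_ne_zero _).2 (Polynomial.leadingCoeff_ne_zero.2 h.irr_D₁.ne_zero))
      ((map_ne_zero _).2 (Polynomial.leadingCoeff_ne_zero.2 h.irr_D₂.ne_zero))

theorem zer_b (h : Admissible ℓ k a D₁ D₂ B₁ B₂) (n : ℕ) (hn : 1 ≤ n) :
    ((zer F (fun P => ev F (ℓ ^ k) a P ^ ℓ -
      ev F D₁.natDegree D₁ P * ev F D₂.natDegree D₂ P) n).ncard : ℤ) =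
      cnt B₁.natDegree n + cnt B₂.natDegree n := by
  rw [zer_ncard F _ (B₁ * B₂), ncard_roots_mul F B₁ B₂ h.irr_B₁ h.irr_B₂ h.nassoc_B n hn]
  · push_cast
    rw [← cnt_cast, ← cnt_cast]
    push_cast
    rfl
  · intro c
    rw [ev_one F _ _ le_rfl, ev_one F _ _ le_rfl, ev_one F _ _ h.deg_a]
    have h1 := congrArg (Polynomial.aeval c) h.eq
    rw [map_pow, map_add, map_mul] at h1
    rw [h1]; ring
  · rw [ev_inf, ev_inf, ev_inf, ← map_pow, ← map_mul, ← map_sub, Polynomial.coeff_natDegree,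
      Polynomial.coeff_natDegree, h.coeff]
    exact (map_ne_zero _).2 (mul_ne_zero (Polynomial.leadingCoeff_ne_zero.2 h.irr_B₁.ne_zero)
      (Polynomial.leadingCoeff_ne_zero.2 h.irr_B₂.ne_zero))

/-- The bound of the multiplicity for the explicit family. -/
theorem family_mult_le (hℓ : ℓ.Prime) (hq : ℓ ∣ Fintype.card F - 1)
    (h : Admissible ℓ k a D₁ D₂ B₁ B₂) (QY : Polynomial ℤ)
    (hY : IsFrobTwo (Fintype.card F)
      (fun n => (coverPoints F ℓ ∅ (formF ℓ k a D₁ D₂) n).ncard) QY)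
    (m : ℕ) (hm : 1 ≤ m) (hm₁ : Nat.Coprime m D₁.natDegree) (hm₂ : Nat.Coprime m D₂.natDegree)
    (he₁ : Nat.Coprime m B₁.natDegree) (he₂ : Nat.Coprime m B₂.natDegree) :
    mult (Fintype.card F) QY m ≤ ℓ := by
  have hF := Fact.mk hℓ
  refine family_bound ℓ (Fintype.card F) Fintype.card_pos hq QY hY.1 D₁.natDegree D₂.natDegree
    B₁.natDegree B₂.natDegree ?_ m hm hm₁ hm₂ he₁ he₂
  have h1 := fun n (hn : 1 ≤ n) => count_cover F ℓ hℓ hq ∅ (formF ℓ k a D₁ D₂) n hn
  have hA := ev_equi F (ℓ ^ k) a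
  have hδ : Equi F (fun P => ev F D₁.natDegree D₁ P * ev F D₂.natDegree D₂ P) := by
    intro P
    change ev F D₁.natDegree D₁ (Frob F 2 P) * ev F D₂.natDegree D₂ (Frob F 2 P) = _
    rw [ev_equi, ev_equi, map_mul]
  have h2 := fun n (hn : 1 ≤ n) => curve_count F ℓ (ev F (ℓ ^ k) a)
    (fun P => ev F D₁.natDegree D₁ P * ev F D₂.natDegree D₂ P) hℓ hq hA hδ k n hn
  choose! t ht hct using h1
  choose! s hs hcs using h2
  refine family_factor ℓ (Fintype.card F) Fintype.card_pos hq (ℓ ^ k)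
    (Nat.one_le_pow _ _ hℓ.pos) QY hY.1 D₁.natDegree D₂.natDegree B₁.natDegree B₂.natDegree
    h.ndvd_D₁ h.ndvd_D₂ h.ndvd_B₁ h.ndvd_B₂
    (fun n => ((coverPoints F ℓ ∅ (formF ℓ k a D₁ D₂) n).ncard : ℤ) - 1 -
      (Fintype.card F : ℤ) ^ (2 * n))
    (fun n => (t n : ℤ) - (ℓ - 1) * s n) ?_ ?_ ?_
  · intro n hn
    have := hY.2 n hn
    push_cast
    rw [this]; ring
  · intro n hn
    exact dvd_sub (by exact_mod_cast ht n hn) (dvd_mul_of_dvd_right (hs n hn) _)
  · intro n hn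
    have e1 : (points F (insert (formF ℓ k a D₁ D₂) ∅) n).ncard =
        (curve F ℓ (ev F (ℓ ^ k) a)
          (fun P => ev F D₁.natDegree D₁ P * ev F D₂.natDegree D₂ P) k n).ncard := by
      rw [← points_formF F ℓ k a D₁ D₂ B₁ B₂ hℓ h n]
      simp
    rw [hct n hn, e1, hcs n hn, ncard_points_empty F n hn, zer_delta F ℓ k a D₁ D₂ B₁ B₂ h n hn,
      zer_b F ℓ k a D₁ D₂ B₁ B₂ h n hn]
    push_cast
    ring

omit [Fintype F] in
theorem formV_isHomogeneous : (formV ℓ k a).IsHomogeneous (ℓ ^ k) := by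
  unfold formV
  apply IsHomogeneous.add
  · have := (isHomogeneous_X F (0 : Fin 3)).pow (ℓ ^ k)
    simpa using this
  · exact hom_isHomogeneous _ _

theorem family_smooth (hℓ : ℓ.Prime) (hq : ℓ ∣ Fintype.card F - 1)
    (h : Admissible ℓ k a D₁ D₂ B₁ B₂) : SmoothCurve F (formF ℓ k a D₁ D₂) := by
  intro P hP hf
  have hℓ0 := cast_ne_zero F ℓ hℓ hq
  have hN : 1 ≤ ℓ ^ k := Nat.one_le_pow _ _ hℓ.pos
  have hN0 : ((ℓ ^ k : ℕ) : AlgebraicClosure F) ≠ 0 := by
    rw [Nat.cast_pow]; exact pow_ne_zero _ hℓ0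
  by_contra hcon
  push Not at hcon
  -- the derivative with respect to the first variable
  have d0 : pderiv 0 (formF ℓ k a D₁ D₂) =
      ((ℓ : ℕ) : MvPolynomial (Fin 3) F) * formV ℓ k a ^ (ℓ - 1) *
      (((ℓ ^ k : ℕ) : MvPolynomial (Fin 3) F) * X 0 ^ (ℓ ^ k - 1)) := by
    unfold formF formV
    rw [map_add, pderiv_mul, map_neg, pderiv_zero_hom, pderiv_zero_hom, pderiv_pow, map_add,
      pderiv_pow, pderiv_zero_hom, pderiv_X_self]
    ring
  have hx := hcon 0
  rw [d0] at hx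
  simp only [map_mul, map_pow, map_natCast, aeval_X] at hx
  have hx2 : aeval P (formV ℓ k a) = 0 ∨ (P 0 = 0) := by
    rcases mul_eq_zero.1 hx with h1 | h1
    · rcases mul_eq_zero.1 h1 with h2 | h2
      · exact absurd h2 hℓ0
      · exact Or.inl (eq_zero_of_pow_eq_zero h2)
    · rcases mul_eq_zero.1 h1 with h2 | h2
      · exact absurd h2 hN0
      · exact Or.inr (eq_zero_of_pow_eq_zero h2)
  have hfe : aeval P (formF ℓ k a D₁ D₂) = (aeval P (formV ℓ k a)) ^ ℓ -
      aeval P (hom D₁.natDegree D₁) * aeval P (hom D₂.natDegree D₂) := by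
    unfold formF
    rw [map_add, map_mul, map_neg, map_pow]; ring
  have hve : aeval P (formV ℓ k a) = P 0 ^ (ℓ ^ k) + aeval P (hom (ℓ ^ k) a) := by
    unfold formV
    rw [map_add, map_pow, aeval_X]
  by_cases hz : P 2 = 0
  · -- points at infinity
    have hl₁ := Polynomial.leadingCoeff_ne_zero.2 h.irr_D₁.ne_zero
    have hl₂ := Polynomial.leadingCoeff_ne_zero.2 h.irr_D₂.ne_zero
    have hl₃ := Polynomial.leadingCoeff_ne_zero.2 h.irr_B₁.ne_zero
    have hl₄ := Polynomial.leadingCoeff_ne_zero.2 h.irr_B₂.ne_zero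
    have g1 := aeval_hom_zero D₁.natDegree D₁ P hz
    have g2 := aeval_hom_zero D₂.natDegree D₂ P hz
    have g3 := aeval_hom_zero (ℓ ^ k) a P hz
    have hy : P 1 ≠ 0 := by
      intro hy
      rw [hy, zero_pow (by omega), mul_zero] at g3
      rw [hy, zero_pow h.irr_D₁.natDegree_pos.ne', mul_zero] at g1
      rw [hfe, hve, g1, g3, zero_mul, sub_zero, add_zero] at hf
      have h0 : P 0 = 0 := eq_zero_of_pow_eq_zero (eq_zero_of_pow_eq_zero hf)
      apply hP
      funext i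
      fin_cases i
      · exact h0
      · exact hy
      · exact hz
    rcases hx2 with h1 | h1
    · rw [hfe, h1, zero_pow hℓ.ne_zero, zero_sub, neg_eq_zero, g1, g2] at hf
      exact (mul_ne_zero (mul_ne_zero ((map_ne_zero _).2 hl₁) (pow_ne_zero _ hy))
        (mul_ne_zero ((map_ne_zero _).2 hl₂) (pow_ne_zero _ hy))) hf
    · rw [hfe, hve, h1, zero_pow (by omega), zero_add, g1, g2, g3] at hf
      have h2 : algebraMap F (AlgebraicClosure F) (a.coeff (ℓ ^ k) ^ ℓ -
          D₁.leadingCoeff * D₂.leadingCoeff) * P 1 ^ (ℓ ^ (k + 1)) = 0 := by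
        rw [map_sub, map_pow, map_mul, ← hf]
        have e1 : P 1 ^ (ℓ ^ (k + 1)) = (P 1 ^ (ℓ ^ k)) ^ ℓ := by
          rw [← pow_mul, ← pow_succ]
        have e2 : P 1 ^ (ℓ ^ (k + 1)) = P 1 ^ D₁.natDegree * P 1 ^ D₂.natDegree := by
          rw [← pow_add, h.deg_D]
        rw [sub_mul]
        conv_lhs => rw [e2]
        rw [Polynomial.coeff_natDegree, Polynomial.coeff_natDegree, mul_pow, ← e1, e2]
        ring
      rw [h.coeff] at h2
      exact (mul_ne_zero ((map_ne_zero _).2 (mul_ne_zero hl₃ hl₄)) (pow_ne_zero _ hy)) h2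
  · -- finite points
    have g1 := aeval_hom_ne D₁.natDegree D₁ le_rfl P hz
    have g2 := aeval_hom_ne D₂.natDegree D₂ le_rfl P hz
    have g3 := aeval_hom_ne (ℓ ^ k) a h.deg_a P hz
    have k1 := aeval_pderiv_hom D₁.natDegree h.irr_D₁.natDegree_pos D₁ le_rfl P hz
    have k2 := aeval_pderiv_hom D₂.natDegree h.irr_D₂.natDegree_pos D₂ le_rfl P hz
    have k3 := aeval_pderiv_hom (ℓ ^ k) hN a h.deg_a P hz
    set c := P 1 / P 2 with hc
    have d1 : aeval P (pderiv 1 (formF ℓ k a D₁ D₂)) = ℓ * aeval P (formV ℓ k a) ^ (ℓ - 1) *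
        aeval P (pderiv 1 (hom (ℓ ^ k) a)) -
        (aeval P (pderiv 1 (hom D₁.natDegree D₁)) * aeval P (hom D₂.natDegree D₂) +
          aeval P (hom D₁.natDegree D₁) * aeval P (pderiv 1 (hom D₂.natDegree D₂))) := by
      have : pderiv 1 (formF ℓ k a D₁ D₂) =
          ((ℓ : ℕ) : MvPolynomial (Fin 3) F) * formV ℓ k a ^ (ℓ - 1) *
          pderiv 1 (hom (ℓ ^ k) a) -
          (pderiv 1 (hom D₁.natDegree D₁) * hom D₂.natDegree D₂ +
            hom D₁.natDegree D₁ * pderiv 1 (hom D₂.natDegree D₂)) := by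
        unfold formF formV
        rw [map_add, pderiv_mul, map_neg, pderiv_pow, map_add, pderiv_pow,
          pderiv_X_of_ne (by decide)]
        ring
      rw [this]
      simp only [map_sub, map_add, map_mul, map_pow, map_natCast]
    have hy := hcon 1
    have hy2 : P 2 * aeval P (pderiv 1 (formF ℓ k a D₁ D₂)) = ℓ * aeval P (formV ℓ k a) ^ (ℓ - 1) *
        (P 2 ^ (ℓ ^ k) * Polynomial.aeval c (Polynomial.derivative a)) -
        P 2 ^ (ℓ ^ (k + 1)) * Polynomial.aeval c (Polynomial.derivative (D₁ * D₂)) := by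
      rw [d1, Polynomial.derivative_mul, map_add, map_mul, map_mul, ← k3, g1, g2, ← h.deg_D,
        pow_add]
      linear_combination (- (P 2 ^ D₂.natDegree * Polynomial.aeval c D₂)) * k1 -
        (P 2 ^ D₁.natDegree * Polynomial.aeval c D₁) * k2
    rw [hy, mul_zero] at hy2
    have hDe : aeval P (hom D₁.natDegree D₁) * aeval P (hom D₂.natDegree D₂) =
        P 2 ^ (ℓ ^ (k + 1)) * Polynomial.aeval c (D₁ * D₂) := by
      rw [g1, g2, ← h.deg_D, pow_add, map_mul]; ring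
    rcases hx2 with h1 | h1
    · rw [hfe, h1, zero_pow hℓ.ne_zero, zero_sub, neg_eq_zero, hDe] at hf
      rw [h1, zero_pow (by have := hℓ.two_le; omega)] at hy2
      have h2 : Polynomial.aeval c (D₁ * D₂) = 0 := by
        rcases mul_eq_zero.1 hf with h3 | h3
        · exact absurd h3 (pow_ne_zero _ hz)
        · exact h3
      have h4 := derivative_ne_zero F D₁ D₂ h.irr_D₁ h.irr_D₂ h.nassoc_D c h2
      have h5 : P 2 ^ (ℓ ^ (k + 1)) *
          Polynomial.aeval c (Polynomial.derivative (D₁ * D₂)) = 0 := by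
        linear_combination hy2
      exact (mul_ne_zero (pow_ne_zero _ hz) h4) h5
    · rw [h1, zero_pow (by omega), zero_add, g3] at hve
      rw [hfe, hDe, hve] at hf
      have e1 : (P 2 ^ (ℓ ^ k)) ^ ℓ = P 2 ^ (ℓ ^ (k + 1)) := by
        rw [← pow_mul, ← pow_succ]
      have h2 : Polynomial.aeval c (B₁ * B₂) = 0 := by
        have h3 := congrArg (Polynomial.aeval c) h.eq
        rw [map_pow, map_add] at h3
        have h4 : P 2 ^ (ℓ ^ (k + 1)) * Polynomial.aeval c (B₁ * B₂) = 0 := by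
          rw [← hf, mul_pow, e1, h3]; ring
        rcases mul_eq_zero.1 h4 with h5 | h5
        · exact absurd h5 (pow_ne_zero _ hz)
        · exact h5
      have h4 := derivative_ne_zero F B₁ B₂ h.irr_B₁ h.irr_B₂ h.nassoc_B c h2
      have h6 := congrArg (fun p => Polynomial.aeval c (Polynomial.derivative p)) h.eq
      simp only [Polynomial.derivative_pow, Polynomial.derivative_add, map_add, map_mul, map_pow,
        map_natCast] at h6
      have h5 : P 2 ^ (ℓ ^ (k + 1)) *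
          Polynomial.aeval c (Polynomial.derivative (B₁ * B₂)) = 0 := by
        rw [hve] at hy2
        have e2 : (P 2 ^ (ℓ ^ k) * Polynomial.aeval c a) ^ (ℓ - 1) * P 2 ^ (ℓ ^ k) =
            P 2 ^ (ℓ ^ (k + 1)) * Polynomial.aeval c a ^ (ℓ - 1) := by
          rw [mul_pow, ← e1]
          obtain ⟨l, hl⟩ : ∃ l, ℓ = l + 1 := ⟨ℓ - 1, by have := hℓ.two_le; omega⟩
          have e3 : ℓ - 1 = l := by omega
          rw [e3]
          conv_rhs => rw [show (P 2 ^ ℓ ^ k) ^ ℓ = (P 2 ^ ℓ ^ k) ^ (l + 1) by rw [← hl]]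
          rw [pow_succ]; ring
        linear_combination (- (P 2 ^ (ℓ ^ (k + 1)))) * h6 - hy2 -
          (ℓ * Polynomial.aeval c (Polynomial.derivative a)) * e2
      exact (mul_ne_zero (pow_ne_zero _ hz) h4) h5

end Pool.Agent.Helper2.Tate
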