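import Pool.Agent.Helper2.Tate.Bound

/-!
# The class number of the branch curves of the explicit family is prime to `ℓ`
-/

set_option autoImplicit false

open Polynomial

namespace Pool.Agent.Helper2.Tate

theorem class_number_aux (ℓ : ℕ) [hℓ : Fact ℓ.Prime] (q : ℕ) (hq1 : 1 ≤ q) (hq : ℓ ∣ q - 1)
    (N : ℕ) (hN : 1 ≤ N) (QB : ℤ[X]) (hB : QB.Monic) (m₁ m₂ e₁ e₂ : ℕ)
    (hm₁ : ¬ ℓ ∣ m₁) (hm₂ : ¬ ℓ ∣ m₂) (he₁ : ¬ ℓ ∣ e₁) (he₂ : ¬ ℓ ∣ e₂)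
    (b t : ℕ → ℤ)
    (hb : ∀ n, 1 ≤ n → powerSum QB n = b n)
    (ht : ∀ n, 1 ≤ n → (ℓ : ℤ) ^ (padicValNat ℓ n) ∣ t n)
    (hrel : ∀ n, 1 ≤ n → b n = 1 + (q : ℤ) ^ n - N * (ℓ * (1 + (q : ℤ) ^ n) -
      (ℓ - 1) * (cnt m₁ n + cnt m₂ n)) + (N - 1) * (cnt e₁ n + cnt e₂ n) - ℓ * t n) :
    ¬ (ℓ : ℤ) ∣ QB.eval 1 := by
  have pos : ∀ m : ℕ, ¬ ℓ ∣ m → 1 ≤ m := by
    intro m hm
    rcases Nat.eq_zero_or_pos m with rfl | h
    · exact absurd (dvd_zero _) hm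
    · exact h
  have hcastne : ∀ m : ℕ, ¬ ℓ ∣ m → (m : ZMod ℓ) ≠ 0 := by
    intro m hm h
    rw [ZMod.natCast_eq_zero_iff] at h
    exact hm h
  obtain ⟨S₁, hS₁, hS₁'⟩ := cyc_factor (ZMod ℓ) m₁ (hcastne m₁ hm₁)
  obtain ⟨S₂, hS₂, hS₂'⟩ := cyc_factor (ZMod ℓ) m₂ (hcastne m₂ hm₂)
  obtain ⟨T₁, hT₁, hT₁'⟩ := cyc_factor (ZMod ℓ) e₁ (hcastne e₁ he₁)
  obtain ⟨T₂, hT₂, hT₂'⟩ := cyc_factor (ZMod ℓ) e₂ (hcastne e₂ he₂)
  have hq' := cast_q ℓ q hq1 hq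
  obtain ⟨l, hl⟩ : ∃ l, ℓ = l + 1 := ⟨ℓ - 1, by have := hℓ.out.one_le; omega⟩
  obtain ⟨M, hM⟩ : ∃ M, N = M + 1 := ⟨N - 1, by omega⟩
  have hlz : (ℓ : ℤ) - 1 = (l : ℤ) := by rw [hl]; push_cast; ring
  have hMz : (N : ℤ) - 1 = (M : ℤ) := by rw [hM]; push_cast; ring
  set K : ℕ := N * l + M with hK
  have hKz : (K : ℤ) = N * ℓ - 1 := by
    rw [hK]; push_cast; rw [← hlz, ← hMz]; ring
  set L : ℤ[X] := QB.reverse * ((1 - C (1 : ℤ) * X) * (1 - C (q : ℤ) * X)) ^ K with hL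
  set G : ℤ[X] := ((1 - X ^ m₁) * (1 - X ^ m₂)) ^ (N * l) *
    ((1 - X ^ e₁) * (1 - X ^ e₂)) ^ M with hG
  have hLL : LD (L : PowerSeries ℤ) (PowerSeries.mk (fun n => if n = 0 then 0 else b n) +
      K • (ps {(1 : ℤ)} + ps {(q : ℤ)})) := by
    rw [hL, Polynomial.coe_mul, Polynomial.coe_pow, Polynomial.coe_mul]
    exact (LD_reverse QB hB b hb).mul (((LD_single _).mul (LD_single _)).pow _)
  have hLG : LD (G : PowerSeries ℤ) (
      (N * l) • (PowerSeries.mk (fun n => if n = 0 then 0 else cnt m₁ n) +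
        PowerSeries.mk (fun n => if n = 0 then 0 else cnt m₂ n)) +
      M • (PowerSeries.mk (fun n => if n = 0 then 0 else cnt e₁ n) +
        PowerSeries.mk (fun n => if n = 0 then 0 else cnt e₂ n))) := by
    rw [hG]
    simp only [Polynomial.coe_mul, Polynomial.coe_pow]
    exact (((LD_cyc m₁ (pos _ hm₁)).mul (LD_cyc m₂ (pos _ hm₂))).pow _).mul
      (((LD_cyc e₁ (pos _ he₁)).mul (LD_cyc e₂ (pos _ he₂))).pow _)
  have c0 : ∀ (p : ℤ[X]) (k : ℕ), p.coeff 0 = 1 → (p ^ k).coeff 0 = 1 := by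
    intro p k hp
    rw [coeff_zero_eq_eval_zero, eval_pow, ← coeff_zero_eq_eval_zero, hp, one_pow]
  have c1 : ∀ z : ℤ, (1 - C z * X : ℤ[X]).coeff 0 = 1 := by intro z; simp
  have c2 : ∀ m : ℕ, 1 ≤ m → (1 - X ^ m : ℤ[X]).coeff 0 = 1 := by
    intro m hm
    rw [coeff_sub, coeff_one_zero, coeff_X_pow, if_neg (show ¬ 0 = m by omega), sub_zero]
  have c3 : ∀ p r : ℤ[X], p.coeff 0 = 1 → r.coeff 0 = 1 → (p * r).coeff 0 = 1 := by
    intro p r hp hr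
    rw [mul_coeff_zero, hp, hr, one_mul]
  have hL0 : L.coeff 0 = 1 := by
    rw [hL]
    exact c3 _ _ (coeff_zero_reverse_monic QB hB) (c0 _ _ (c3 _ _ (c1 _) (c1 _)))
  have hG0 : G.coeff 0 = 1 := by
    rw [hG]
    exact c3 _ _ (c0 _ _ (c3 _ _ (c2 _ (pos _ hm₁)) (c2 _ (pos _ hm₂))))
      (c0 _ _ (c3 _ _ (c2 _ (pos _ he₁)) (c2 _ (pos _ he₂))))
  have hcong := mod_identity (ℓ := ℓ) L G hL0 hG0 _ _ t hLL hLG (by
      ext n
      unfold ps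
      simp only [map_sub, map_add, map_nsmul, PowerSeries.coeff_C_mul, PowerSeries.coeff_mk]
      simp only [nsmul_eq_mul]
      rcases Nat.eq_zero_or_pos n with rfl | hn
      · simp
      · simp only [if_neg (show ¬ n = 0 by omega), Multiset.map_singleton,
          Multiset.sum_singleton]
        rw [hrel n hn, hKz, hlz, hMz, one_pow]
        push_cast
        ring) ht
  have hmap : L.map (Int.castRingHom (ZMod ℓ)) = G.map (Int.castRingHom (ZMod ℓ)) := by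
    ext n
    rw [coeff_map, coeff_map, ← sub_eq_zero, ← map_sub, eq_intCast,
      ZMod.intCast_zmod_eq_zero_iff_dvd]
    exact hcong n
  have m1 : ∀ z : ℤ, (z : ZMod ℓ) = 1 →
      (1 - C z * X : ℤ[X]).map (Int.castRingHom (ZMod ℓ)) = 1 - X := by
    intro z hz
    rw [Polynomial.map_sub, Polynomial.map_one, Polynomial.map_mul, Polynomial.map_C,
      Polynomial.map_X]
    have : (Int.castRingHom (ZMod ℓ)) z = 1 := hz
    rw [this, map_one, one_mul]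
  have m2 : ∀ m : ℕ, (1 - X ^ m : ℤ[X]).map (Int.castRingHom (ZMod ℓ)) = 1 - X ^ m := by
    intro m
    rw [Polynomial.map_sub, Polynomial.map_one, Polynomial.map_pow, Polynomial.map_X]
  rw [hL, hG] at hmap
  simp only [Polynomial.map_mul, Polynomial.map_pow] at hmap
  rw [m1 _ hq', m1 _ (by rw [Int.cast_one]), m2, m2, m2, m2, hS₁, hS₂, hT₁, hT₂] at hmap
  have h7 : (1 - X : (ZMod ℓ)[X]) = pr {(1 : ZMod ℓ)} := by unfold pr; simp
  have h8 := rootMultiplicity_pr ({(1 : ZMod ℓ)} : Multiset (ZMod ℓ))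
  rw [← h7] at h8
  obtain ⟨h8a, h8b⟩ := h8
  have hfin : QB.reverse.map (Int.castRingHom (ZMod ℓ)) =
      (S₁ * S₂) ^ (N * l) * (T₁ * T₂) ^ M := by
    apply mul_right_cancel₀ (pow_ne_zero K (mul_ne_zero h8b h8b))
    rw [hmap]
    have e1 : ∀ (p : (ZMod ℓ)[X]), (p * S₁ * (p * S₂)) ^ (N * l) *
        (p * T₁ * (p * T₂)) ^ M = (S₁ * S₂) ^ (N * l) * (T₁ * T₂) ^ M *
        (p * p) ^ (N * l + M) := by
      intro p
      have h1 : p * S₁ * (p * S₂) = (S₁ * S₂) * (p * p) := by ring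
      have h2 : p * T₁ * (p * T₂) = (T₁ * T₂) * (p * p) := by ring
      rw [h1, h2, mul_pow (S₁ * S₂) (p * p), mul_pow (T₁ * T₂) (p * p), pow_add]
      ring
    exact e1 _
  intro hdvd
  have hev : (QB.reverse.map (Int.castRingHom (ZMod ℓ))).eval 1 = 0 := by
    rw [Polynomial.eval_one_map, reverse_eval_one, eq_intCast, ZMod.intCast_zmod_eq_zero_iff_dvd]
    exact hdvd
  rw [hfin, eval_mul, eval_pow, eval_pow, eval_mul, eval_mul] at hev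
  exact (mul_ne_zero (pow_ne_zero _ (mul_ne_zero hS₁' hS₂'))
      (pow_ne_zero _ (mul_ne_zero hT₁' hT₂'))) hev

variable (F : Type) [Field F] [Fintype F]

theorem class_number (ℓ k : ℕ) (a D₁ D₂ B₁ B₂ : F[X]) (hℓ : ℓ.Prime)
    (hq : ℓ ∣ Fintype.card F - 1)
    (h : Admissible ℓ k a D₁ D₂ B₁ B₂) (QB : ℤ[X])
    (hB : IsFrobOne (Fintype.card F)
      (fun n => (points F {formF ℓ k a D₁ D₂} n).ncard) QB) : ¬ (ℓ : ℤ) ∣ QB.eval 1 := by
  have hF := Fact.mk hℓ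
  have hA := ev_equi F (ℓ ^ k) a
  have hδ : Equi F (fun P => ev F D₁.natDegree D₁ P * ev F D₂.natDegree D₂ P) := by
    intro P
    change ev F D₁.natDegree D₁ (Frob F 2 P) * ev F D₂.natDegree D₂ (Frob F 2 P) = _
    rw [ev_equi, ev_equi, map_mul]
  have h2 := fun n (hn : 1 ≤ n) => curve_count F ℓ (ev F (ℓ ^ k) a)
    (fun P => ev F D₁.natDegree D₁ P * ev F D₂.natDegree D₂ P) hℓ hq hA hδ k n hn
  choose! s hs hcs using h2
  refine class_number_aux ℓ (Fintype.card F) Fintype.card_pos hq (ℓ ^ k)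
    (Nat.one_le_pow _ _ hℓ.pos) QB hB.1 D₁.natDegree D₂.natDegree B₁.natDegree B₂.natDegree
    h.ndvd_D₁ h.ndvd_D₂ h.ndvd_B₁ h.ndvd_B₂
    (fun n => 1 + (Fintype.card F : ℤ) ^ n - ((points F {formF ℓ k a D₁ D₂} n).ncard : ℤ))
    (fun n => - s n) ?_ ?_ ?_
  · intro n hn
    have := hB.2 n hn
    push_cast
    rw [this]; ring
  · intro n hn
    exact (dvd_neg).2 (hs n hn)
  · intro n hn
    rw [points_formF F ℓ k a D₁ D₂ B₁ B₂ hℓ h n, hcs n hn,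
      zer_delta F ℓ k a D₁ D₂ B₁ B₂ h n hn, zer_b F ℓ k a D₁ D₂ B₁ B₂ h n hn]
    push_cast
    ring

end Pool.Agent.Helper2.Tate
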