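import Pool.Agent.Helper2.Tate.PsInj
import Pool.Agent.Helper2.Tate.Defs

/-!
# Conjugate roots have the same multiplicity
-/

set_option autoImplicit false

open Polynomial

namespace Pool.Agent.Helper2.Tate

theorem card_filter_mem {α : Type*} [DecidableEq α] (T : Finset α) (R : Multiset α) :
    (R.filter (fun a => a ∈ T)).card = ∑ a ∈ T, R.count a := by
  induction R using Multiset.induction_on with
  | empty => simp
  | cons b R ih =>
    simp only [Multiset.count_cons, Finset.sum_add_distrib, ← ih, Finset.sum_ite_eq']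
    by_cases hb : b ∈ T
    · rw [Multiset.filter_cons_of_pos _ hb, Multiset.card_cons, if_pos hb]
    · rw [Multiset.filter_cons_of_neg _ hb, if_neg hb, add_zero]

theorem rootMultiplicity_conj (Q : ℚ[X]) (hQ : Q ≠ 0) (a b : ℂ) (ha : IsIntegral ℚ a)
    (hab : minpoly ℚ a = minpoly ℚ b) :
    (Q.map (algebraMap ℚ ℂ)).rootMultiplicity a = (Q.map (algebraMap ℚ ℂ)).rootMultiplicity b := by
  have hirr := minpoly.irreducible ha
  have hfin : FiniteMultiplicity (minpoly ℚ a) Q :=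
    finiteMultiplicity_of_degree_pos_of_monic
      (natDegree_pos_iff_degree_pos.1 (minpoly.natDegree_pos ha)) (minpoly.monic ha) hQ
  obtain ⟨S, hS, hnd⟩ := hfin.exists_eq_pow_mul_and_not_dvd
  set m := multiplicity (minpoly ℚ a) Q with hm
  have key : ∀ c : ℂ, minpoly ℚ c = minpoly ℚ a →
      (Q.map (algebraMap ℚ ℂ)).rootMultiplicity c = m := by
    intro c hc
    have hint : IsIntegral ℚ c := by
      by_contra h
      have h1 := minpoly.eq_zero h
      rw [hc] at h1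
      exact minpoly.ne_zero ha h1
    have hp0 : (minpoly ℚ a).map (algebraMap ℚ ℂ) ≠ 0 :=
      Polynomial.map_ne_zero (minpoly.ne_zero ha)
    have hS0 : S ≠ 0 := by
      rintro rfl
      exact hnd (dvd_zero _)
    have hSc : (S.map (algebraMap ℚ ℂ)).rootMultiplicity c = 0 := by
      apply rootMultiplicity_eq_zero
      intro h
      apply hnd
      rw [← hc]
      apply minpoly.dvd
      rwa [IsRoot, eval_map, ← aeval_def] at h
    have hone : ((minpoly ℚ a).map (algebraMap ℚ ℂ)).rootMultiplicity c = 1 := by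
      apply le_antisymm
      · apply rootMultiplicity_le_one_of_separable
        exact (hirr.separable).map
      · rw [Nat.one_le_iff_ne_zero, Ne, rootMultiplicity_eq_zero_iff]
        push Not
        refine ⟨?_, hp0⟩
        rw [← hc, IsRoot, eval_map, ← aeval_def]
        exact minpoly.aeval ℚ c
    rw [hS, Polynomial.map_mul, Polynomial.map_pow,
      rootMultiplicity_mul (mul_ne_zero (pow_ne_zero _ hp0) (Polynomial.map_ne_zero hS0)), hSc,
      ← count_roots, roots_pow, Multiset.count_nsmul, count_roots, hone]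
    simp
  rw [key a rfl, key b hab.symm]

theorem minpoly_conj (ℓ q : ℕ) (hℓ : ℓ.Prime) (ζ : ℂ) (hζ : IsPrimitiveRoot ζ ℓ) (s : ℕ)
    (hs : 1 ≤ s) (hsℓ : s < ℓ) : minpoly ℚ ((q : ℂ) * ζ ^ s) = minpoly ℚ ((q : ℂ) * ζ) := by
  have hζs : IsPrimitiveRoot (ζ ^ s) ℓ := by
    apply hζ.pow_of_coprime
    exact ((Nat.Prime.coprime_iff_not_dvd hℓ).2 (Nat.not_dvd_of_pos_of_lt hs hsℓ)).symm
  have hint : ∀ ξ : ℂ, IsPrimitiveRoot ξ ℓ → IsIntegral ℚ ((q : ℂ) * ξ) := by
    intro ξ hξ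
    have h1 : IsIntegral ℤ ξ := hξ.isIntegral hℓ.pos
    have h2 : IsIntegral ℚ ξ := IsIntegral.tower_top h1
    have h3 : IsIntegral ℚ ((q : ℂ)) := by
      have : (q : ℂ) = algebraMap ℚ ℂ q := by simp
      rw [this]; exact isIntegral_algebraMap
    exact h3.mul h2
  -- the minimal polynomial of `q ζ` vanishes at `q ζ ^ s`
  have hzero : aeval ((q : ℂ) * ζ ^ s) (minpoly ℚ ((q : ℂ) * ζ)) = 0 := by
    have h1 : aeval ζ ((minpoly ℚ ((q : ℂ) * ζ)).comp (C (q : ℚ) * X)) = 0 := by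
      rw [aeval_comp, map_mul, aeval_C, aeval_X]
      have : algebraMap ℚ ℂ (q : ℚ) = (q : ℂ) := by simp
      rw [this]
      exact minpoly.aeval ℚ _
    have h2 : minpoly ℚ ζ ∣ (minpoly ℚ ((q : ℂ) * ζ)).comp (C (q : ℚ) * X) :=
      minpoly.dvd ℚ ζ h1
    rw [← cyclotomic_eq_minpoly_rat hζ hℓ.pos, cyclotomic_eq_minpoly_rat hζs hℓ.pos] at h2
    obtain ⟨E, hE⟩ := h2
    have h3 : aeval (ζ ^ s) ((minpoly ℚ ((q : ℂ) * ζ)).comp (C (q : ℚ) * X)) = 0 := by
      rw [hE, map_mul, minpoly.aeval, zero_mul]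
    rw [aeval_comp, map_mul, aeval_C, aeval_X] at h3
    have : algebraMap ℚ ℂ (q : ℚ) = (q : ℂ) := by simp
    rw [this] at h3
    exact h3
  exact (minpoly.eq_of_irreducible_of_monic (minpoly.irreducible (hint ζ hζ)) hzero
    (minpoly.monic (hint ζ hζ))).symm

theorem mult_one (q : ℕ) (Q : ℤ[X]) : mult q Q 1 = (Q.map (Int.castRingHom ℂ)).roots.count (q : ℂ) := by
  classical
  unfold mult
  rw [Multiset.count_eq_card_filter_eq]
  congr 1
  apply Multiset.filter_congr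
  intro α _
  rw [pow_one, pow_one, eq_comm]

theorem mult_eq_sum (ℓ q : ℕ) (hℓ : ℓ.Prime) (hq : 1 ≤ q) (Q : ℤ[X]) (ζ : ℂ)
    (hζ : IsPrimitiveRoot ζ ℓ) : mult q Q ℓ =
      ∑ s ∈ Finset.range ℓ, (Q.map (Int.castRingHom ℂ)).roots.count ((q : ℂ) * ζ ^ s) := by
  classical
  have hq0 : (q : ℂ) ≠ 0 := by
    have : q ≠ 0 := by omega
    exact_mod_cast this
  set R := (Q.map (Int.castRingHom ℂ)).roots with hR
  unfold mult
  have h3 : ∀ α : ℂ, α ^ ℓ = (q : ℂ) ^ ℓ ↔ ∃ s ∈ Finset.range ℓ, (q : ℂ) * ζ ^ s = α := by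
    intro α
    constructor
    · intro h
      have h4 : (α / q) ^ ℓ = 1 := by
        rw [div_pow, h, div_self (pow_ne_zero _ hq0)]
      have : NeZero ℓ := ⟨hℓ.ne_zero⟩
      obtain ⟨s, hs, hs'⟩ := hζ.eq_pow_of_pow_eq_one h4
      refine ⟨s, Finset.mem_range.2 hs, ?_⟩
      rw [hs', mul_div_cancel₀ _ hq0]
    · rintro ⟨s, _, rfl⟩
      rw [mul_pow, ← pow_mul, mul_comm s, pow_mul, hζ.pow_eq_one, one_pow, mul_one]
  have hinj : Set.InjOn (fun s : ℕ => (q : ℂ) * ζ ^ s) (Finset.range ℓ) := by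
    intro s hs t ht hst
    have := mul_left_cancel₀ hq0 hst
    exact hζ.pow_inj (Finset.mem_range.1 hs) (Finset.mem_range.1 ht) this
  have h5 : ∑ s ∈ Finset.range ℓ, R.count ((q : ℂ) * ζ ^ s) =
      ∑ α ∈ (Finset.range ℓ).image (fun s : ℕ => (q : ℂ) * ζ ^ s), R.count α := by
    rw [Finset.sum_image hinj]
  rw [h5]
  have h6 : Multiset.filter (fun α => α ^ ℓ = (q : ℂ) ^ ℓ) R =
      Multiset.filter (fun α => α ∈ (Finset.range ℓ).image (fun s : ℕ => (q : ℂ) * ζ ^ s)) R := by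
    apply Multiset.filter_congr
    intro α _
    rw [h3, Finset.mem_image]
  rw [h6, card_filter_mem]

/-- The number of roots `α` with `α ^ ℓ = q ^ ℓ`. -/
theorem mult_conj (ℓ q : ℕ) (hℓ : ℓ.Prime) (hq : 1 ≤ q) (Q : ℤ[X]) (hQ : Q.Monic) :
    ∃ M : ℕ, mult q Q ℓ = mult q Q 1 + (ℓ - 1) * M := by
  classical
  obtain ⟨ζ, hζ⟩ : ∃ ζ : ℂ, IsPrimitiveRoot ζ ℓ :=
    ⟨_, Complex.isPrimitiveRoot_exp ℓ hℓ.ne_zero⟩
  have hq0 : (q : ℂ) ≠ 0 := by
    have : q ≠ 0 := by omega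
    exact_mod_cast this
  have h1 := mult_one q Q
  have h2 := mult_eq_sum ℓ q hℓ hq Q ζ hζ
  set R := (Q.map (Int.castRingHom ℂ)).roots with hR
  have hmap : Q.map (Int.castRingHom ℂ) = (Q.map (Int.castRingHom ℚ)).map (algebraMap ℚ ℂ) := by
    rw [Polynomial.map_map]
    congr 1
  have hcount : ∀ s, 1 ≤ s → s < ℓ → R.count ((q : ℂ) * ζ ^ s) = R.count ((q : ℂ) * ζ) := by
    intro s hs hs'
    rw [hR, count_roots, count_roots, hmap]
    have hm := minpoly_conj ℓ q hℓ ζ hζ s hs hs'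
    apply rootMultiplicity_conj _ ((hQ.map _).ne_zero)
    · have h1 : IsIntegral ℚ (ζ ^ s) := IsIntegral.tower_top ((hζ.isIntegral hℓ.pos).pow s)
      have h3 : IsIntegral ℚ ((q : ℂ)) := by
        have : (q : ℂ) = algebraMap ℚ ℂ q := by simp
        rw [this]; exact isIntegral_algebraMap
      exact h3.mul h1
    · exact hm
  refine ⟨R.count ((q : ℂ) * ζ), ?_⟩
  rw [h1, h2]
  obtain ⟨l, hl⟩ : ∃ l, ℓ = l + 1 := ⟨ℓ - 1, by have := hℓ.pos; omega⟩
  rw [hl, Finset.sum_range_succ', pow_zero, mul_one, Nat.add_sub_cancel, add_comm]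
  congr 1
  rw [Finset.sum_congr rfl (fun s hs => hcount (s + 1) (by omega)
    (by rw [hl]; have := Finset.mem_range.1 hs; omega)), Finset.sum_const, Finset.card_range,
    smul_eq_mul]

end Pool.Agent.Helper2.Tate
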