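import Mathlib

/-!
# Counting points of Kummer coverings
-/

set_option autoImplicit false

open Function

namespace Pool.Agent.Helper2.Tate

/-- If all orbits of a permutation have length divisible by `N` then so has the set. -/
theorem dvd_card_of_minimalPeriod {S : Type*} [Finite S] (σ : Equiv.Perm S) (N : ℕ)
    (h : ∀ x, N ∣ minimalPeriod σ x) : N ∣ Nat.card S := by
  classical
  have e := MulAction.selfEquivSigmaOrbits (Subgroup.zpowers σ) S
  have : Fintype (MulAction.orbitRel.Quotient (Subgroup.zpowers σ) S) := Fintype.ofFinite _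
  rw [Nat.card_congr e, Nat.card_sigma]
  apply Finset.dvd_sum
  intro ω _
  have := Fintype.ofFinite (MulAction.orbit (Subgroup.zpowers σ) (Quotient.out ω))
  have h1 := MulAction.minimalPeriod_eq_card (a := σ) (b := (Quotient.out ω : S))
  rw [Nat.card_eq_fintype_card, ← h1]
  exact h _

theorem pow_dvd_of_dvd_not_dvd {ℓ : ℕ} (hℓ : ℓ.Prime) (n m : ℕ) (hn : n ≠ 0) (h1 : m ∣ n)
    (h2 : ℓ ∣ n → ¬ m ∣ n / ℓ) : ℓ ^ padicValNat ℓ n ∣ m := by
  have := Fact.mk hℓ
  have hm : m ≠ 0 := fun h => hn (by rw [h] at h1; exact zero_dvd_iff.1 h1)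
  rw [padicValNat_dvd_iff_le hm]
  by_contra hcon
  push Not at hcon
  have hd : ℓ ∣ n := by
    by_contra hnd
    rw [padicValNat.eq_zero_of_not_dvd hnd] at hcon
    omega
  apply h2 hd
  obtain ⟨k, hk⟩ := h1
  have hk0 : k ≠ 0 := by rintro rfl; simp at hk; exact hn hk
  have h3 : padicValNat ℓ n = padicValNat ℓ m + padicValNat ℓ k := by
    rw [hk, padicValNat.mul hm hk0]
  have h4 : ℓ ∣ k := by
    by_contra hnd
    rw [padicValNat.eq_zero_of_not_dvd hnd] at h3
    omega
  obtain ⟨k', rfl⟩ := h4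
  refine ⟨k', ?_⟩
  rw [hk, show m * (ℓ * k') = ℓ * (m * k') by ring, Nat.mul_div_cancel_left _ hℓ.pos]

/-- Divisibility of the number of points of a set on which the power `Φ ^ n` is trivial but
`Φ ^ (n / ℓ)` has no fixed points. -/
theorem pow_dvd_ncard {α : Type*} (ℓ : ℕ) (hℓ : ℓ.Prime) (Φ : α → α) (n : ℕ) (hn : 1 ≤ n)
    (T : Set α) (hfin : T.Finite) (hT : ∀ x ∈ T, Φ x ∈ T) (h1 : ∀ x ∈ T, Φ^[n] x = x)
    (h2 : ℓ ∣ n → ∀ x ∈ T, Φ^[n / ℓ] x ≠ x) : ℓ ^ padicValNat ℓ n ∣ T.ncard := by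
  have : Finite T := hfin
  have hit : ∀ (k : ℕ) (x : T), (((fun y : T => (⟨Φ y, hT y y.2⟩ : T))^[k] x : T) : α) =
      Φ^[k] (x : α) := by
    intro k
    induction k with
    | zero => intro x; rfl
    | succ k ih => intro x; rw [iterate_succ_apply, iterate_succ_apply, ih]
  have hid : (fun y : T => (⟨Φ y, hT y y.2⟩ : T))^[n] = id := by
    funext x
    apply Subtype.ext
    rw [hit, h1 x x.2]; rfl
  have hbij : Bijective (fun y : T => (⟨Φ y, hT y y.2⟩ : T)) := by
    obtain ⟨n', rfl⟩ : ∃ n', n = n' + 1 := ⟨n - 1, by omega⟩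
    constructor
    · intro x y hxy
      have h3 : (fun y : T => (⟨Φ y, hT y y.2⟩ : T))^[n' + 1] x =
          (fun y : T => (⟨Φ y, hT y y.2⟩ : T))^[n' + 1] y := by
        rw [iterate_succ_apply, iterate_succ_apply]
        exact congrArg _ hxy
      rw [hid] at h3; exact h3
    · intro x
      refine ⟨(fun y : T => (⟨Φ y, hT y y.2⟩ : T))^[n'] x, ?_⟩
      have h3 := congrFun hid x
      rw [iterate_succ_apply'] at h3; exact h3
  have key := dvd_card_of_minimalPeriod (Equiv.ofBijective _ hbij) (ℓ ^ padicValNat ℓ n) (by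
    intro x
    apply pow_dvd_of_dvd_not_dvd hℓ n _ (by omega)
    · apply IsPeriodicPt.minimalPeriod_dvd
      unfold IsPeriodicPt IsFixedPt
      exact congrFun hid x
    · intro hd hdvd
      have h3 : IsPeriodicPt (Equiv.ofBijective _ hbij) (n / ℓ) x :=
        (isPeriodicPt_iff_minimalPeriod_dvd).2 hdvd
      apply h2 hd x x.2
      have h4 := congrArg (fun z : T => (z : α)) h3
      simp only [Equiv.coe_ofBijective] at h4
      rw [hit] at h4
      exact h4)
  rwa [Nat.card_coe_set_eq] at key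

variable {Ω : Type*} [Field Ω] [IsAlgClosed Ω]

/-- The elements of the extension of degree `n` of the field with `q` elements. -/
def Kn (Ω : Type*) [Field Ω] (q n : ℕ) : Set Ω := {c | c ^ (q ^ n) = c}

omit [IsAlgClosed Ω] in
theorem Kn_finite (q n : ℕ) (hq : 2 ≤ q) (hn : 1 ≤ n) : (Kn Ω q n).Finite := by
  classical
  have hd : 1 < q ^ n := Nat.one_lt_pow (by omega) (by omega)
  have h0 : (Polynomial.X ^ (q ^ n) - Polynomial.X : Polynomial Ω) ≠ 0 :=
    FiniteField.X_pow_card_sub_X_ne_zero Ω hd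
  refine Set.Finite.subset (Polynomial.X ^ (q ^ n) - Polynomial.X : Polynomial Ω).roots.toFinset.finite_toSet ?_
  intro c hc
  simp only [Finset.mem_coe, Multiset.mem_toFinset]
  rw [Polynomial.mem_roots h0]
  simp only [Polynomial.IsRoot, Polynomial.eval_sub, Polynomial.eval_pow, Polynomial.eval_X]
  exact sub_eq_zero.2 hc

omit [IsAlgClosed Ω] in
theorem iterate_frob {q : ℕ} (φ : Ω →+* Ω) (hφ : ∀ c, φ c = c ^ q) (n : ℕ) (c : Ω) :
    (⇑φ)^[n] c = c ^ (q ^ n) := by
  induction n generalizing c with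
  | zero => simp
  | succ n ih => rw [iterate_succ_apply, ih, hφ, ← pow_mul, pow_succ']

/-- Counting points of the Kummer covering `w ^ ℓ = h`. -/
theorem kummer {α : Type*} (ℓ q : ℕ) (hℓ : ℓ.Prime) (hq2 : 2 ≤ q) (hq : ℓ ∣ q - 1)
    (hℓΩ : (ℓ : Ω) ≠ 0)
    (φ : Ω →+* Ω) (hφ : ∀ c, φ c = c ^ q) (Φ : α → α) (V : Set α) (hV : ∀ P ∈ V, Φ P ∈ V)
    (h : α → Ω) (hh : ∀ P ∈ V, h (Φ P) = φ (h P)) (n : ℕ) (hn : 1 ≤ n)
    (hfin : {P | P ∈ V ∧ Φ^[n] P = P}.Finite) :
    ∃ t : ℕ, ℓ ^ padicValNat ℓ n ∣ t ∧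
      ({x : α × Ω | (x.1 ∈ V ∧ Φ^[n] x.1 = x.1) ∧ x.2 ∈ Kn Ω q n ∧ x.2 ^ ℓ = h x.1}.ncard : ℤ) =
        ({P | (P ∈ V ∧ Φ^[n] P = P) ∧ h P = 0}.ncard : ℤ) +
        ℓ * (({P | P ∈ V ∧ Φ^[n] P = P}.ncard : ℤ) -
          ({P | (P ∈ V ∧ Φ^[n] P = P) ∧ h P = 0}.ncard : ℤ)) - ℓ * t := by
  classical
  have := Fact.mk hℓ
  have : NeZero (ℓ : Ω) := ⟨hℓΩ⟩
  have hKf := Kn_finite (Ω := Ω) q n hq2 hn
  obtain ⟨ζ, hζ⟩ : ∃ ζ : Ω, IsPrimitiveRoot ζ ℓ :=
    HasEnoughRootsOfUnity.exists_primitiveRoot Ω ℓ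
  -- roots of unity are fixed by the Frobenius
  have hroot : ∀ u : Ω, u ^ ℓ = 1 → ∀ k, u ^ (q ^ k) = u := by
    intro u hu k
    have h1 : ∀ k, ℓ ∣ q ^ k - 1 := by
      intro k
      exact hq.trans (Nat.sub_one_dvd_pow_sub_one q k)
    obtain ⟨m, hm⟩ := h1 k
    have h2 : q ^ k = ℓ * m + 1 := by
      have : 1 ≤ q ^ k := Nat.one_le_pow _ _ (by omega)
      omega
    rw [h2, pow_succ, pow_mul, hu, one_pow, one_mul]
  have hVΦ : ∀ k, ∀ P ∈ V, Φ^[k] P ∈ V := by
    intro k
    induction k with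
    | zero => intro P hP; exact hP
    | succ k ih => intro P hP; rw [iterate_succ_apply]; exact ih _ (hV P hP)
  have hhk : ∀ k, ∀ P ∈ V, h (Φ^[k] P) = (h P) ^ (q ^ k) := by
    intro k
    induction k with
    | zero => intro P _; simp
    | succ k ih =>
      intro P hP
      rw [iterate_succ_apply, ih _ (hV P hP), hh P hP, hφ, ← pow_mul, pow_succ']
  set T : Set α := {P | (P ∈ V ∧ Φ^[n] P = P) ∧ ¬ ∃ w ∈ Kn Ω q n, w ^ ℓ = h P} with hT
  have hTfin : T.Finite := hfin.subset (fun P hP => hP.1)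
  refine ⟨T.ncard, ?_, ?_⟩
  · apply pow_dvd_ncard ℓ hℓ Φ n hn T hTfin
    · rintro P ⟨⟨hP1, hP2⟩, hP3⟩
      refine ⟨⟨hV P hP1, ?_⟩, ?_⟩
      · rw [← iterate_succ_apply, iterate_succ_apply', hP2]
      · rintro ⟨w, hw, hw2⟩
        apply hP3
        -- apply the inverse of the Frobenius
        obtain ⟨n', rfl⟩ : ∃ n', n = n' + 1 := ⟨n - 1, by omega⟩
        refine ⟨w ^ (q ^ n'), ?_, ?_⟩
        · unfold Kn at hw ⊢
          simp only [Set.mem_ofPred_eq] at hw ⊢
          rw [← pow_mul, mul_comm, pow_mul, hw]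
        · rw [← pow_mul, mul_comm, pow_mul, hw2, hh P hP1, hφ, ← pow_mul, ← pow_succ',
            ← hhk (n' + 1) P hP1, hP2]
    · rintro P ⟨⟨_, hP2⟩, _⟩; exact hP2
    · rintro hd P ⟨⟨hP1, hP2⟩, hP3⟩ hfix
      apply hP3
      obtain ⟨w, hw⟩ := IsAlgClosed.exists_pow_nat_eq (h P) hℓ.pos
      refine ⟨w, ?_, hw⟩
      by_cases hw0 : w = 0
      · rw [hw0]
        unfold Kn
        simp only [Set.mem_ofPred_eq]
        rw [zero_pow (pow_ne_zero _ (by omega))]
      · set m := n / ℓ with hm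
        have hnm : n = m * ℓ := by rw [hm]; exact (Nat.div_mul_cancel hd).symm
        have h1 : (w ^ (q ^ m)) ^ ℓ = w ^ ℓ := by
          rw [← pow_mul, mul_comm, pow_mul, hw, ← hhk m P hP1, hfix]
        set u := w ^ (q ^ m) / w with hu
        have hu1 : u ^ ℓ = 1 := by
          rw [hu, div_pow, h1, div_self (pow_ne_zero _ hw0)]
        have hwu : w ^ (q ^ m) = u * w := by rw [hu, div_mul_cancel₀ _ hw0]
        have h2 : ∀ k : ℕ, w ^ (q ^ (m * k)) = u ^ k * w := by
          intro k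
          induction k with
          | zero => simp
          | succ k ih =>
            rw [mul_add, mul_one, pow_add, pow_mul, ih, mul_pow, hwu, ← pow_mul, mul_comm k,
              pow_mul, hroot u hu1 m, pow_succ]
            ring
        change w ^ (q ^ n) = w
        rw [hnm, h2 ℓ, hu1, one_mul]
  · -- counting the fibres
    set VF := hfin.toFinset with hVF
    set KF := hKf.toFinset with hKF
    have hW : {x : α × Ω | (x.1 ∈ V ∧ Φ^[n] x.1 = x.1) ∧ x.2 ∈ Kn Ω q n ∧ x.2 ^ ℓ = h x.1} =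
        ((VF ×ˢ KF).filter (fun x => x.2 ^ ℓ = h x.1) : Finset (α × Ω)) := by
      ext x
      simp only [Finset.coe_filter, Finset.mem_product, hVF, hKF, Set.Finite.mem_toFinset,
        Set.mem_ofPred_eq]
      tauto
    have hZ : {P | (P ∈ V ∧ Φ^[n] P = P) ∧ h P = 0} = (VF.filter (fun P => h P = 0) : Finset α) := by
      ext x
      simp only [Finset.coe_filter, hVF, Set.Finite.mem_toFinset, Set.mem_ofPred_eq]
    have hT' : T = (VF.filter (fun P => ¬ ∃ w ∈ Kn Ω q n, w ^ ℓ = h P) : Finset α) := by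
      ext x
      simp only [hT, Finset.coe_filter, hVF, Set.Finite.mem_toFinset, Set.mem_ofPred_eq]
    have hV' : {P | P ∈ V ∧ Φ^[n] P = P} = (VF : Set α) := by
      ext x
      simp only [hVF, Set.Finite.coe_toFinset]
    rw [hW, hZ, hT', hV', Set.ncard_coe_finset, Set.ncard_coe_finset, Set.ncard_coe_finset,
      Set.ncard_coe_finset]
    have h3 : ((VF ×ˢ KF).filter (fun x => x.2 ^ ℓ = h x.1)).card =
        ∑ P ∈ VF, (KF.filter (fun w => w ^ ℓ = h P)).card := by
      rw [Finset.card_filter, Finset.sum_product]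
      apply Finset.sum_congr rfl
      intro P _
      rw [Finset.card_filter]
    have h4 : ∀ P ∈ VF, ((KF.filter (fun w => w ^ ℓ = h P)).card : ℤ) =
        (if h P = 0 then (1 : ℤ) else 0) + ℓ * (1 - (if h P = 0 then (1 : ℤ) else 0)) -
        ℓ * (if (¬ ∃ w ∈ Kn Ω q n, w ^ ℓ = h P) then (1 : ℤ) else 0) := by
      intro P hP
      by_cases hP0 : h P = 0
      · have h5 : KF.filter (fun w => w ^ ℓ = h P) = {0} := by
          ext w
          simp only [Finset.mem_filter, hKF, Set.Finite.mem_toFinset, Finset.mem_singleton, hP0]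
          constructor
          · rintro ⟨_, hw⟩; exact (pow_eq_zero_iff hℓ.ne_zero).1 hw
          · rintro rfl
            refine ⟨?_, zero_pow hℓ.ne_zero⟩
            change (0 : Ω) ^ (q ^ n) = 0
            rw [zero_pow (pow_ne_zero _ (by omega))]
        have h6 : ∃ w ∈ Kn Ω q n, w ^ ℓ = h P := by
          refine ⟨0, ?_, by rw [hP0, zero_pow hℓ.ne_zero]⟩
          change (0 : Ω) ^ (q ^ n) = 0
          rw [zero_pow (pow_ne_zero _ (by omega))]
        rw [h5, Finset.card_singleton, if_pos hP0, if_neg (not_not.2 h6)]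
        simp
      · by_cases h6 : ∃ w ∈ Kn Ω q n, w ^ ℓ = h P
        · obtain ⟨w0, hw0, hw0'⟩ := h6
          have h5 : KF.filter (fun w => w ^ ℓ = h P) = (Polynomial.nthRoots ℓ (h P)).toFinset := by
            ext w
            simp only [Finset.mem_filter, hKF, Set.Finite.mem_toFinset, Multiset.mem_toFinset,
              Polynomial.mem_nthRoots hℓ.pos]
            constructor
            · exact fun h => h.2
            · intro hw
              refine ⟨?_, hw⟩
              have hw00 : w0 ≠ 0 := by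
                rintro rfl
                rw [zero_pow hℓ.ne_zero] at hw0'
                exact hP0 hw0'.symm
              have h7 : (w / w0) ^ ℓ = 1 := by
                rw [div_pow, hw, hw0', div_self hP0]
              have h8 := hroot _ h7 n
              change w ^ (q ^ n) = w
              have h9 : w0 ^ (q ^ n) = w0 := hw0
              rw [div_pow, h9] at h8
              field_simp at h8
              exact h8
          have h10 : (∃ α_1 : Ω, α_1 ^ ℓ = h P) := ⟨w0, hw0'⟩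
          rw [h5, Multiset.toFinset_card_of_nodup (hζ.nthRoots_nodup hP0), hζ.card_nthRoots,
            if_pos h10, if_neg hP0, if_neg (not_not.2 ⟨w0, hw0, hw0'⟩)]
          simp
        · have h5 : KF.filter (fun w => w ^ ℓ = h P) = ∅ := by
            ext w
            simp only [Finset.mem_filter, hKF, Set.Finite.mem_toFinset, Finset.notMem_empty,
              iff_false]
            rintro ⟨hw, hw2⟩
            exact h6 ⟨w, hw, hw2⟩
          rw [h5, Finset.card_empty, if_neg hP0, if_pos h6]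
          simp
    rw [h3]
    push_cast
    rw [Finset.sum_congr rfl h4, Finset.sum_sub_distrib, Finset.sum_add_distrib,
      ← Finset.mul_sum, ← Finset.mul_sum, Finset.sum_sub_distrib, Finset.sum_const,
      Finset.card_filter, Finset.card_filter]
    push_cast
    simp

end Pool.Agent.Helper2.Tate
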