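import Mathlib

/-!
# An exponential congruence

If `t n` is divisible by the `ℓ`-part of `n` for all `n ≥ 1` and `H` is an integral power series with
constant term `1` and logarithmic derivative `ℓ * ∑ t n X ^ n`, then `H` is `1` modulo `ℓ`.
-/

set_option autoImplicit false

open PowerSeries

namespace Pool.Agent.Helper2.Tate

variable {ℓ : ℕ} [hℓ : Fact ℓ.Prime]

theorem exists_div (n : ℕ) (hn : n ≠ 0) (w : ℕ) (hw : padicValNat ℓ n ≤ w) (s : ℤ_[ℓ]) :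
    ∃ c : ℤ_[ℓ], (n : ℤ_[ℓ]) * ((ℓ : ℤ_[ℓ]) ^ (w - padicValNat ℓ n) * c) = (ℓ : ℤ_[ℓ]) ^ w * s := by
  obtain ⟨m, hm⟩ : ℓ ^ padicValNat ℓ n ∣ n := pow_padicValNat_dvd
  have hnm : ¬ ℓ ∣ m := by
    rintro ⟨k, hk⟩
    apply pow_succ_padicValNat_not_dvd (p := ℓ) hn
    refine ⟨k, ?_⟩
    rw [pow_succ, mul_assoc, ← hk]
    exact hm
  have hu : IsUnit (m : ℤ_[ℓ]) := by
    rw [PadicInt.isUnit_iff, PadicInt.norm_natCast_eq_one_iff]
    exact (Nat.Prime.coprime_iff_not_dvd hℓ.out).2 hnm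
  obtain ⟨u, hu⟩ := hu
  refine ⟨(u⁻¹ : (ℤ_[ℓ])ˣ) * s, ?_⟩
  have h1 : (n : ℤ_[ℓ]) = (ℓ : ℤ_[ℓ]) ^ padicValNat ℓ n * u := by
    rw [hu]; conv_lhs => rw [hm]
    push_cast; rfl
  have h3 : (ℓ : ℤ_[ℓ]) ^ w = (ℓ : ℤ_[ℓ]) ^ padicValNat ℓ n * (ℓ : ℤ_[ℓ]) ^ (w - padicValNat ℓ n) := by
    rw [← pow_add]; congr 1; omega
  rw [h3, h1]
  calc (ℓ : ℤ_[ℓ]) ^ padicValNat ℓ n * u * ((ℓ : ℤ_[ℓ]) ^ (w - padicValNat ℓ n) * ((u⁻¹ : (ℤ_[ℓ])ˣ) * s))
      = (ℓ : ℤ_[ℓ]) ^ padicValNat ℓ n * (ℓ : ℤ_[ℓ]) ^ (w - padicValNat ℓ n) *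
        (((u : ℤ_[ℓ]) * (u⁻¹ : (ℤ_[ℓ])ˣ)) * s) := by ring
    _ = _ := by rw [Units.mul_inv, one_mul]

/-- the coefficients `ℓ ^ j / j!` -/
theorem exists_expCoeff (ℓ : ℕ) [hℓ : Fact ℓ.Prime] : ∃ e : ℕ → ℤ_[ℓ],
    (∀ j, (j.factorial : ℤ_[ℓ]) * e j = (ℓ : ℤ_[ℓ]) ^ j) ∧ ∀ j, 1 ≤ j → (ℓ : ℤ_[ℓ]) ∣ e j := by
  have key : ∀ j : ℕ, ∃ e : ℤ_[ℓ], (j.factorial : ℤ_[ℓ]) * e = (ℓ : ℤ_[ℓ]) ^ j ∧
      (1 ≤ j → (ℓ : ℤ_[ℓ]) ∣ e) := by
    intro j
    rcases Nat.eq_zero_or_pos j with rfl | hj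
    · exact ⟨1, by simp, by intro h; omega⟩
    · have hv := padicValNat_factorial_lt_of_ne_zero ℓ (n := j) (by omega)
      obtain ⟨c, hc⟩ := exists_div (ℓ := ℓ) j.factorial (Nat.factorial_ne_zero j) j hv.le 1
      refine ⟨_, by rw [hc, mul_one], fun _ => ?_⟩
      have : (ℓ : ℤ_[ℓ]) ∣ (ℓ : ℤ_[ℓ]) ^ (j - padicValNat ℓ j.factorial) :=
        dvd_pow_self _ (by omega)
      exact this.mul_right _
  choose e he using key
  exact ⟨e, fun j => (he j).1, fun j => (he j).2⟩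

theorem exp_dvd (t : ℕ → ℤ) (ht : ∀ n, 1 ≤ n → (ℓ : ℤ) ^ (padicValNat ℓ n) ∣ t n) (H : ℤ⟦X⟧)
    (h0 : constantCoeff H = 1)
    (hH : X * d⁄dX ℤ H = H * (C (ℓ : ℤ) * PowerSeries.mk (fun n => if n = 0 then 0 else t n))) :
    ∀ n, 1 ≤ n → (ℓ : ℤ) ∣ coeff n H := by
  intro M hM
  obtain ⟨e, he, hed⟩ := exists_expCoeff ℓ
  -- the logarithm divided by `ℓ`
  have hc : ∀ n : ℕ, ∃ c : ℤ_[ℓ], (n : ℤ_[ℓ]) * c = (if n = 0 then 0 else t n : ℤ) ∧
      (n = 0 → c = 0) := by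
    intro n
    rcases Nat.eq_zero_or_pos n with rfl | hn
    · exact ⟨0, by simp, fun _ => rfl⟩
    · obtain ⟨s, hs⟩ := ht n hn
      obtain ⟨c, hc⟩ := exists_div (ℓ := ℓ) n (by omega) (padicValNat ℓ n) le_rfl (s : ℤ_[ℓ])
      refine ⟨(ℓ : ℤ_[ℓ]) ^ (padicValNat ℓ n - padicValNat ℓ n) * c, ?_, fun h => by omega⟩
      rw [hc, if_neg (by omega), hs]; push_cast; rfl
  choose c hc hc0 using hc
  set y : ℤ_[ℓ]⟦X⟧ := PowerSeries.mk c with hy
  set τ : ℤ_[ℓ]⟦X⟧ := PowerSeries.mk (fun n => ((if n = 0 then 0 else t n : ℤ) : ℤ_[ℓ])) with hτ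
  have hyτ : X * d⁄dX ℤ_[ℓ] y = τ := by
    ext n
    rcases n with _ | n
    · simp [hτ]
    · rw [coeff_succ_X_mul, coeff_derivative, hy, coeff_mk, hτ, coeff_mk, ← hc (n + 1)]
      push_cast; ring
  have hy0 : X ∣ y := by
    rw [X_dvd_iff, hy, ← coeff_zero_eq_constantCoeff_apply, coeff_mk]; exact hc0 0 rfl
  set H' : ℤ_[ℓ]⟦X⟧ := PowerSeries.map (Int.castRingHom ℤ_[ℓ]) H with hH'
  have hH'e : X * d⁄dX ℤ_[ℓ] H' = H' * (C (ℓ : ℤ_[ℓ]) * τ) := by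
    have h1 := congrArg (PowerSeries.map (Int.castRingHom ℤ_[ℓ])) hH
    rw [map_mul, map_mul, map_mul, map_X] at h1
    have h2 : PowerSeries.map (Int.castRingHom ℤ_[ℓ]) (d⁄dX ℤ H) = d⁄dX ℤ_[ℓ] H' := by
      ext n
      rw [coeff_map, coeff_derivative, coeff_derivative, hH', coeff_map]
      simp
    have h3 : PowerSeries.map (Int.castRingHom ℤ_[ℓ])
        (PowerSeries.mk (fun n => if n = 0 then 0 else t n)) = τ := by
      ext n
      rw [coeff_map, coeff_mk, hτ, coeff_mk]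
      simp
    rw [h2, h3] at h1
    rw [h1]
    congr 2
    simp
  set E : ℤ_[ℓ]⟦X⟧ := ∑ j ∈ Finset.range (M + 1), C (e j) * y ^ j with hE
  -- derivative of the truncated exponential
  have hje : ∀ j : ℕ, ((j + 1 : ℕ) : ℤ_[ℓ]) * e (j + 1) = (ℓ : ℤ_[ℓ]) * e j := by
    intro j
    have h1 := he (j + 1)
    have h2 := he j
    have h3 : (j.factorial : ℤ_[ℓ]) ≠ 0 := by
      exact_mod_cast Nat.factorial_ne_zero j
    apply mul_left_cancel₀ h3
    rw [Nat.factorial_succ] at h1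
    push_cast at h1 ⊢
    calc (j.factorial : ℤ_[ℓ]) * ((j + 1) * e (j + 1)) = (j + 1) * j.factorial * e (j + 1) := by ring
      _ = (ℓ : ℤ_[ℓ]) ^ (j + 1) := h1
      _ = ℓ * (ℓ : ℤ_[ℓ]) ^ j := by ring
      _ = ℓ * (j.factorial * e j) := by rw [h2]
      _ = _ := by ring
  have hEd : X * d⁄dX ℤ_[ℓ] E = (E - C (e M) * y ^ M) * (C (ℓ : ℤ_[ℓ]) * τ) := by
    have h1 : ∀ K : ℕ, X * d⁄dX ℤ_[ℓ] (∑ j ∈ Finset.range (K + 1), C (e j) * y ^ j) =
        (∑ j ∈ Finset.range K, C (e j) * y ^ j) * (C (ℓ : ℤ_[ℓ]) * τ) := by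
      intro K
      induction K with
      | zero => simp
      | succ K ih =>
        rw [Finset.sum_range_succ, map_add, mul_add, ih, Finset.sum_range_succ, add_mul]
        congr 1
        rw [Derivation.leibniz, Derivation.leibniz_pow]
        simp only [smul_eq_mul, nsmul_eq_mul, derivative_C, mul_zero, add_zero,
          Nat.add_sub_cancel]
        calc X * (C (e (K + 1)) * (((K + 1 : ℕ) : ℤ_[ℓ]⟦X⟧) * (y ^ K * d⁄dX ℤ_[ℓ] y)))
            = (((K + 1 : ℕ) : ℤ_[ℓ]⟦X⟧) * C (e (K + 1))) * y ^ K * (X * d⁄dX ℤ_[ℓ] y) := by ring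
          _ = C (e K) * y ^ K * (C (ℓ : ℤ_[ℓ]) * τ) := by
              rw [hyτ]
              have : (((K + 1 : ℕ) : ℤ_[ℓ]⟦X⟧) * C (e (K + 1))) = C (ℓ : ℤ_[ℓ]) * C (e K) := by
                rw [← map_mul, ← hje K, map_mul]
                congr 1
              rw [this]; ring
    rw [hE, h1 M, Finset.sum_range_succ, add_sub_cancel_right]
  -- comparison
  have hD : ∀ k ≤ M, coeff k (H' - E) = 0 := by
    intro k
    induction k using Nat.strong_induction_on with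
    | _ k ih =>
      intro hk
      rcases Nat.eq_zero_or_pos k with rfl | hk0
      · rw [map_sub, coeff_zero_eq_constantCoeff_apply, coeff_zero_eq_constantCoeff_apply, hH',
          hE, map_sum, ← coeff_zero_eq_constantCoeff_apply, coeff_map,
          coeff_zero_eq_constantCoeff_apply, h0]
        have hyc : constantCoeff y = 0 := X_dvd_iff.1 hy0
        rw [Finset.sum_range_succ']
        simp only [map_mul, map_pow, hyc, constantCoeff_C]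
        have : e 0 = 1 := by simpa using he 0
        simp [this]
      · have h1 : X * d⁄dX ℤ_[ℓ] (H' - E) = (H' - E) * (C (ℓ : ℤ_[ℓ]) * τ) +
            C (e M) * y ^ M * (C (ℓ : ℤ_[ℓ]) * τ) := by
          rw [map_sub, mul_sub, hH'e, hEd]; ring
        obtain ⟨k', rfl⟩ : ∃ k', k = k' + 1 := ⟨k - 1, by omega⟩
        have h2 := congrArg (coeff (k' + 1)) h1
        rw [coeff_succ_X_mul, coeff_derivative, map_add] at h2
        have h3 : coeff (k' + 1) (C (e M) * y ^ M * (C (ℓ : ℤ_[ℓ]) * τ)) = 0 := by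
          obtain ⟨z, hz⟩ := hy0
          have h4 : C (e M) * y ^ M * (C (ℓ : ℤ_[ℓ]) * τ) =
              X ^ (M + 1) * (C (e M) * z ^ M * (C (ℓ : ℤ_[ℓ]) * d⁄dX ℤ_[ℓ] y)) := by
            rw [← hyτ, hz]; ring
          rw [h4, coeff_X_pow_mul', if_neg (by omega)]
        have h5 : coeff (k' + 1) ((H' - E) * (C (ℓ : ℤ_[ℓ]) * τ)) = 0 := by
          rw [coeff_mul]
          apply Finset.sum_eq_zero
          rintro ⟨i, j⟩ hij
          replace hij := Finset.HasAntidiagonal.mem_antidiagonal.1 hij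
          simp only at hij
          rcases Nat.eq_zero_or_pos j with hj | hj
          · subst hj
            have : coeff 0 (C (ℓ : ℤ_[ℓ]) * τ) = 0 := by
              rw [coeff_C_mul, hτ, coeff_mk]; simp
            rw [this, mul_zero]
          · rw [ih i (by omega) (by omega), zero_mul]
        rw [h3, h5, add_zero] at h2
        have h6 : ((k' : ℤ_[ℓ]) + 1) ≠ 0 := by exact_mod_cast Nat.succ_ne_zero k'
        exact (mul_eq_zero.1 h2).resolve_right h6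
  have h1 := hD M le_rfl
  rw [map_sub, sub_eq_zero] at h1
  have h2 : (ℓ : ℤ_[ℓ]) ∣ coeff M E := by
    rw [hE, map_sum, Finset.sum_range_succ']
    apply dvd_add
    · apply Finset.dvd_sum
      intro j _
      rw [coeff_C_mul]
      exact (hed (j + 1) (by omega)).mul_right _
    · rw [pow_zero, mul_one, coeff_C, if_neg (by omega)]
      exact dvd_zero _
  rw [← h1, hH', coeff_map] at h2
  have h3 := (PadicInt.pow_p_dvd_int_iff (p := ℓ) 1 (coeff M H)).1 (by simpa using h2)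
  simpa using h3

end Pool.Agent.Helper2.Tate
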