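import Pool.Agent.Helper2.Tate.Defs

/-!
# Binary forms
-/

set_option autoImplicit false

open MvPolynomial

namespace Pool.Agent.Helper2.Tate

section Hom

variable {F : Type} [Field F]

theorem hom_isHomogeneous (m : ℕ) (a : Polynomial F) : (hom m a).IsHomogeneous m := by
  unfold hom
  apply IsHomogeneous.sum
  intro i hi
  rw [Finset.mem_range] at hi
  have h1 : (X 1 ^ i * X 2 ^ (m - i) : MvPolynomial (Fin 3) F).IsHomogeneous (i + (m - i)) := by
    have := ((isHomogeneous_X F (1 : Fin 3)).pow i).mul ((isHomogeneous_X F (2 : Fin 3)).pow (m - i))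
    simpa using this
  have h2 := (isHomogeneous_C (Fin 3) (a.coeff i)).mul h1
  have h3 : 0 + (i + (m - i)) = m := by omega
  rwa [h3] at h2

variable {Ω : Type} [Field Ω] [Algebra F Ω]

theorem aeval_hom (m : ℕ) (a : Polynomial F) (P : Fin 3 → Ω) :
    aeval P (hom m a) = ∑ i ∈ Finset.range (m + 1),
      algebraMap F Ω (a.coeff i) * (P 1 ^ i * P 2 ^ (m - i)) := by
  unfold hom
  simp

theorem aeval_hom_one (m : ℕ) (a : Polynomial F) (ha : a.natDegree ≤ m) (P : Fin 3 → Ω)
    (hP : P 2 = 1) : aeval P (hom m a) = Polynomial.aeval (P 1) a := by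
  rw [aeval_hom, Polynomial.aeval_eq_sum_range' (show a.natDegree < m + 1 by omega)]
  apply Finset.sum_congr rfl
  intro i _
  rw [hP, one_pow, mul_one, Algebra.smul_def]

theorem aeval_hom_zero (m : ℕ) (a : Polynomial F) (P : Fin 3 → Ω)
    (hP : P 2 = 0) : aeval P (hom m a) = algebraMap F Ω (a.coeff m) * P 1 ^ m := by
  rw [aeval_hom, Finset.sum_range_succ, Finset.sum_eq_zero, zero_add, Nat.sub_self, pow_zero,
    mul_one]
  intro i hi
  rw [Finset.mem_range] at hi
  rw [hP, zero_pow (by omega), mul_zero, mul_zero]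

theorem aeval_hom_ne (m : ℕ) (a : Polynomial F) (ha : a.natDegree ≤ m) (P : Fin 3 → Ω)
    (hP : P 2 ≠ 0) : aeval P (hom m a) = P 2 ^ m * Polynomial.aeval (P 1 / P 2) a := by
  rw [aeval_hom, Polynomial.aeval_eq_sum_range' (show a.natDegree < m + 1 by omega),
    Finset.mul_sum]
  apply Finset.sum_congr rfl
  intro i hi
  rw [Finset.mem_range] at hi
  obtain ⟨j, rfl⟩ : ∃ j, m = i + j := ⟨m - i, by omega⟩
  rw [Algebra.smul_def, div_pow, Nat.add_sub_cancel_left]
  field_simp
  ring

theorem pderiv_zero_hom (m : ℕ) (a : Polynomial F) : pderiv 0 (hom m a) = 0 := by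
  unfold hom
  rw [map_sum]
  apply Finset.sum_eq_zero
  intro i _
  rw [pderiv_C_mul, pderiv_mul, pderiv_pow, pderiv_pow, pderiv_X_of_ne (by decide),
    pderiv_X_of_ne (by decide)]
  simp

theorem aeval_pderiv_hom (m : ℕ) (hm : 1 ≤ m) (a : Polynomial F) (ha : a.natDegree ≤ m)
    (P : Fin 3 → Ω) (hP : P 2 ≠ 0) : P 2 * aeval P (pderiv 1 (hom m a)) =
      P 2 ^ m * Polynomial.aeval (P 1 / P 2) (Polynomial.derivative a) := by
  have h1 : pderiv 1 (hom m a) = ∑ i ∈ Finset.range (m + 1),
      C (a.coeff i) * (((i : ℕ) : MvPolynomial (Fin 3) F) * X 1 ^ (i - 1) * X 2 ^ (m - i)) := by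
    unfold hom
    rw [map_sum]
    apply Finset.sum_congr rfl
    intro i _
    rw [pderiv_C_mul, pderiv_mul, pderiv_pow, pderiv_pow, pderiv_X_self,
      pderiv_X_of_ne (by decide)]
    simp
  have h2 : Polynomial.aeval (P 1 / P 2) (Polynomial.derivative a) =
      ∑ i ∈ Finset.range (m + 1), algebraMap F Ω (a.coeff i) * (i * (P 1 / P 2) ^ (i - 1)) := by
    conv_lhs => rw [a.as_sum_range' (m + 1) (by omega)]
    rw [map_sum, map_sum]
    apply Finset.sum_congr rfl
    intro i _
    rw [Polynomial.derivative_monomial, Polynomial.aeval_monomial, map_mul, map_natCast]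
    ring
  rw [h1, h2, map_sum, Finset.mul_sum, Finset.mul_sum]
  apply Finset.sum_congr rfl
  intro i hi
  rw [Finset.mem_range] at hi
  rcases i with _ | i
  · simp
  · obtain ⟨j, rfl⟩ : ∃ j, m = i + 1 + j := ⟨m - (i + 1), by omega⟩
    simp only [map_mul, map_pow, algHom_C, aeval_X, map_natCast, Nat.add_sub_cancel_left,
      Nat.add_sub_cancel, div_pow]
    field_simp
    ring

end Hom

end Pool.Agent.Helper2.Tate
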