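import Pool.Agent.Helper2.Tate.Tower
import Pool.Agent.Helper2.Tate.Hom
import Pool.Agent.Helper2.Tate.Roots
import Pool.Agent.Helper2.Tate.Order

/-!
# The explicit family of cyclic planes
-/

set_option autoImplicit false

open Function MvPolynomial

namespace Pool.Agent.Helper2.Tate

variable (F : Type) [Field F] [Fintype F]

/-- the value of a binary form at a point of the line -/
noncomputable def ev (m : ℕ) (a : Polynomial F) (P : Fin 2 → AlgebraicClosure F) :
    AlgebraicClosure F := aeval ![0, P 0, P 1] (hom m a)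

omit [Fintype F] in
theorem ev_eq (m : ℕ) (a : Polynomial F) (x : AlgebraicClosure F)
    (P : Fin 2 → AlgebraicClosure F) : aeval ![x, P 0, P 1] (hom m a) = ev F m a P := by
  unfold ev
  rw [aeval_hom, aeval_hom]
  rfl

theorem ev_equi (m : ℕ) (a : Polynomial F) : Equi F (ev F m a) := by
  intro P
  unfold ev
  rw [← frob_aeval]
  congr 2
  funext i
  fin_cases i
  · simp
  · rfl
  · rfl

omit [Fintype F] in
theorem ev_one (m : ℕ) (a : Polynomial F) (ha : a.natDegree ≤ m) (c : AlgebraicClosure F) :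
    ev F m a ![c, 1] = Polynomial.aeval c a := by
  unfold ev
  rw [aeval_hom_one m a ha _ rfl]
  rfl

omit [Fintype F] in
theorem ev_inf (m : ℕ) (a : Polynomial F) :
    ev F m a ![1, 0] = algebraMap F (AlgebraicClosure F) (a.coeff m) := by
  unfold ev
  rw [aeval_hom_zero m a _ rfl]
  simp

theorem zer_ncard (h : (Fin 2 → AlgebraicClosure F) → AlgebraicClosure F) (T : Polynomial F)
    (h1 : ∀ c, h ![c, 1] = Polynomial.aeval c T) (h2 : h ![1, 0] ≠ 0) (n : ℕ) :
    (zer F h n).ncard = {c : AlgebraicClosure F | c ∈ Kn (AlgebraicClosure F) (Fintype.card F) n ∧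
      Polynomial.aeval c T = 0}.ncard := by
  have hinj : Injective (fun c : AlgebraicClosure F => (![c, 1] : Fin 2 → AlgebraicClosure F)) := by
    intro c d hcd
    exact congrFun hcd 0
  rw [← Set.ncard_image_of_injective _ hinj]
  congr 1
  ext P
  simp only [zer, Set.mem_ofPred_eq, Set.mem_image]
  constructor
  · rintro ⟨⟨i, hi, hj⟩, h3, h4⟩
    fin_cases i
    · exfalso
      apply h2
      have h5 : P = ![1, 0] := by
        funext k
        fin_cases k
        · exact hi
        · exact hj 1 (by decide)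
      rw [← h5]; exact h4
    · have h5 : P = ![P 0, 1] := by
        funext k
        fin_cases k
        · rfl
        · exact hi
      refine ⟨P 0, ⟨h3 0, ?_⟩, h5.symm⟩
      rw [← h1, ← h5]; exact h4
  · rintro ⟨c, ⟨hc, hc2⟩, rfl⟩
    refine ⟨⟨1, rfl, fun j hj => ?_⟩, fun i => ?_, ?_⟩
    · fin_cases j <;> simp at hj
    · fin_cases i
      · exact hc
      · exact one_pow _
    · rw [h1]; exact hc2

variable (ℓ k : ℕ) (a D₁ D₂ B₁ B₂ : Polynomial F)

theorem aeval_formF (x : AlgebraicClosure F) (P : Fin 2 → AlgebraicClosure F) :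
    aeval ![x, P 0, P 1] (formF ℓ k a D₁ D₂) = (x ^ (ℓ ^ k) + ev F (ℓ ^ k) a P) ^ ℓ -
      ev F D₁.natDegree D₁ P * ev F D₂.natDegree D₂ P := by
  unfold formF formV
  rw [map_add, map_mul, map_neg, map_pow, map_add, map_pow, aeval_X, ev_eq, ev_eq, ev_eq]
  simp only [Matrix.cons_val_zero]
  ring

theorem points_formF (hℓ : ℓ.Prime) (h : Admissible ℓ k a D₁ D₂ B₁ B₂) (n : ℕ) :
    (points F {formF ℓ k a D₁ D₂} n).ncard = (curve F ℓ (ev F (ℓ ^ k) a)
      (fun P => ev F D₁.natDegree D₁ P * ev F D₂.natDegree D₂ P) k n).ncard := by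
  have hinj : Injective (fun x : (Fin 2 → AlgebraicClosure F) × AlgebraicClosure F =>
      (![x.2, x.1 0, x.1 1] : Fin 3 → AlgebraicClosure F)) := by
    rintro ⟨P, x⟩ ⟨P', x'⟩ h
    have h0 := congrFun h 0
    have h1 := congrFun h 1
    have h2 := congrFun h 2
    simp at h0 h1 h2
    refine Prod.ext ?_ h0
    funext i
    fin_cases i
    · exact h1
    · exact h2
  rw [← Set.ncard_image_of_injective _ hinj]
  congr 1
  ext Q
  simp only [points, curve, Set.mem_ofPred_eq, Set.mem_image, Set.mem_singleton_iff,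
    forall_eq]
  constructor
  · rintro ⟨⟨i, hi, hj⟩, h3, h4⟩
    have h5 : Q = ![Q 0, Q 1, Q 2] := by
      funext k
      fin_cases k <;> rfl
    have h6 := aeval_formF F ℓ k a D₁ D₂ (Q 0) ![Q 1, Q 2]
    have h7 : (![Q 0, ![Q 1, Q 2] 0, ![Q 1, Q 2] 1] : Fin 3 → AlgebraicClosure F) = Q := by
      funext k
      fin_cases k <;> rfl
    rw [h7, h4] at h6
    refine ⟨(![Q 1, Q 2], Q 0), ⟨?_, ?_, h3 0, ?_⟩, h7⟩
    · fin_cases i
      · exfalso
        have h1 : Q 1 = 0 := hj 1 (by decide)
        have h2 : Q 2 = 0 := hj 2 (by decide)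
        have h0 : Q 0 = 1 := hi
        have hz : ∀ (m : ℕ) (p : Polynomial F), 1 ≤ m → ev F m p ![Q 1, Q 2] = 0 := by
          intro m p hm
          unfold ev
          rw [aeval_hom_zero m p _ (by simpa using h2)]
          simp [h1, show m ≠ 0 by omega]
        rw [hz _ _ (Nat.one_le_pow _ _ hℓ.pos), hz _ D₁ h.irr_D₁.natDegree_pos, h0] at h6
        simp at h6
      · refine ⟨0, hi, fun j hj' => ?_⟩
        fin_cases j
        · simp at hj'
        · exact hj 2 (by decide)
      · refine ⟨1, hi, fun j hj' => ?_⟩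
        fin_cases j <;> simp at hj'
    · intro i
      fin_cases i
      · exact h3 1
      · exact h3 2
    · exact (sub_eq_zero.1 h6.symm)
  · rintro ⟨⟨P, x⟩, ⟨⟨i, hi, hj⟩, h2, h3, h4⟩, rfl⟩
    refine ⟨⟨i.succ, ?_, ?_⟩, ?_, ?_⟩
    · fin_cases i
      · exact hi
      · exact hi
    · intro j
      refine Fin.cases ?_ (fun j => ?_) j
      · intro hj'; exact absurd hj' (by simp)
      · intro hj'
        have := hj j (Fin.succ_lt_succ_iff.1 hj')
        fin_cases j
        · exact this
        · exact this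
    · intro j
      fin_cases j
      · exact h3
      · exact h2 0
      · exact h2 1
    · rw [aeval_formF]
      exact sub_eq_zero.2 h4

end Pool.Agent.Helper2.Tate
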