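import Pool.Agent.Helper2.Tate.LDefs

/-!
# Cyclic coverings of varieties of even dimension: definitions
-/

set_option autoImplicit false

namespace Pool.Agent.Helper2.Tate

/-- The monic integral polynomials `P` and `Q` are such that `c n` is the sum of the `n`-th powers
of the roots of `P` minus the one for `Q`, for all `n ≥ 1`. -/
def IsVirtualFrob (c : ℕ → ℤ) (P Q : Polynomial ℤ) : Prop :=
  P.Monic ∧ Q.Monic ∧ ∀ n : ℕ, 1 ≤ n → (c n : ℂ) = powerSum P n - powerSum Q n

variable (F : Type) [Field F] [Fintype F]

/-- The number of points over the extension of degree `n` of `F` of the complement of `f = 0` in the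
projective set `S = 0`. -/
noncomputable def openCount {r : ℕ} (S : Set (MvPolynomial (Fin r) F))
    (f : MvPolynomial (Fin r) F) (n : ℕ) : ℤ :=
  (points F S n).ncard - (points F (insert f S) n).ncard

/-- The number of points over the extension of degree `n` of `F` of the covering `w ^ ℓ = f` of the
projective set `S = 0` minus the one of `S = 0`. -/
noncomputable def newCount {r : ℕ} (ℓ : ℕ) (S : Set (MvPolynomial (Fin r) F))
    (f : MvPolynomial (Fin r) F) (n : ℕ) : ℤ :=
  (coverPoints F ℓ S f n).ncard - (points F S n).ncard

end Pool.Agent.Helper2.Tate
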