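import Pool.Agent.Helper2.Tate.GMain

/-!
# Cyclic coverings of varieties of even dimension: the theorems
-/

set_option autoImplicit false

open Polynomial

namespace Pool.Agent.Helper2.Tate

variable (F : Type) [Field F] [Fintype F]

/-- The fibres of `c ↦ u / χ(c)`. -/
theorem g_card_fibre_le (ℓ : ℕ) (hℓ : ℓ.Prime) (χ : MulChar F (AlgebraicClosure ℚ))
    (hχ : orderOf χ = ℓ) (e : ℕ) (he : Fintype.card F - 1 = ℓ * e) (u : ℕ) (hu : u ≠ 0)
    [DecidableEq F] [DecidableEq (AlgebraicClosure ℚ)] (b : AlgebraicClosure ℚ) :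
    ((Finset.univ.erase (0 : F)).filter
      (fun c => (u : AlgebraicClosure ℚ) * (χ c)⁻¹ = b)).card ≤ e := by
  classical
  have hq2 : 2 ≤ Fintype.card F := Fintype.one_lt_card
  have hq0 : (Fintype.card F : AlgebraicClosure ℚ) ≠ 0 := by
    have : Fintype.card F ≠ 0 := by omega
    exact_mod_cast this
  have hu0 : (u : AlgebraicClosure ℚ) ≠ 0 := by exact_mod_cast hu
  refine le_trans (Finset.card_le_card ?_) (card_fibre_le F ℓ hℓ χ hχ e he
    ((Fintype.card F : AlgebraicClosure ℚ) * ((u : AlgebraicClosure ℚ)⁻¹ * b)))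
  intro c hc
  rw [Finset.mem_filter] at hc ⊢
  refine ⟨hc.1, ?_⟩
  rw [← hc.2, ← mul_assoc (u : AlgebraicClosure ℚ)⁻¹, inv_mul_cancel₀ hu0, one_mul]

/-- The sum over the twists. -/
theorem g_sum_count_le (ℓ : ℕ) (hℓ : ℓ.Prime) (χ : MulChar F (AlgebraicClosure ℚ))
    (hχ : orderOf χ = ℓ) (e : ℕ) (he : Fintype.card F - 1 = ℓ * e) (u : ℕ) (hu : u ≠ 0)
    (AO : Multiset (integralClosure ℤ (AlgebraicClosure ℚ)))
    {κ : Type} [Field κ] [hκ : CharP κ ℓ] [DecidableEq κ] [DecidableEq F]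
    [DecidableEq (AlgebraicClosure ℚ)] (huκ : (u : κ) = 1)
    (red : integralClosure ℤ (AlgebraicClosure ℚ) →+* κ) :
    ∑ c ∈ Finset.univ.erase (0 : F), (AO.map (algebraMap _ (AlgebraicClosure ℚ))).count
      ((u : AlgebraicClosure ℚ) * (χ c)⁻¹) ≤ e * (AO.map red).count 1 := by
  classical
  have hF := Fact.mk hℓ
  set B := AO.map (algebraMap (integralClosure ℤ (AlgebraicClosure ℚ)) (AlgebraicClosure ℚ))
    with hB
  rw [Finset.sum_comp (fun b => B.count b)
    (fun c : F => (u : AlgebraicClosure ℚ) * (χ c)⁻¹)]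
  set I := (Finset.univ.erase (0 : F)).image
    (fun c : F => (u : AlgebraicClosure ℚ) * (χ c)⁻¹) with hI
  calc ∑ b ∈ I, ((Finset.univ.erase (0 : F)).filter
        (fun c => (u : AlgebraicClosure ℚ) * (χ c)⁻¹ = b)).card • B.count b
      ≤ ∑ b ∈ I, e * B.count b := by
        apply Finset.sum_le_sum
        intro b _
        rw [smul_eq_mul]
        exact Nat.mul_le_mul_right _ (g_card_fibre_le F ℓ hℓ χ hχ e he u hu b)
    _ = e * ∑ b ∈ I, B.count b := by rw [Finset.mul_sum]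
    _ ≤ e * (AO.map red).count 1 := by
        apply Nat.mul_le_mul_left
        rw [← card_filter_mem, hB, Multiset.filter_map, Multiset.card_map, Multiset.count,
          Multiset.countP_map]
        apply Multiset.card_le_card
        apply Multiset.monotone_filter_right
        intro x hx
        simp only [Function.comp] at hx
        rw [hI, Finset.mem_image] at hx
        obtain ⟨c, hc, hcx⟩ := hx
        have hc0 : c ≠ 0 := (Finset.mem_erase.1 hc).1
        have hχc : (χ c) ^ ℓ = 1 := by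
          rw [← MulChar.pow_apply' _ hℓ.ne_zero, ← hχ, pow_orderOf_eq_one, MulChar.one_apply]
          exact IsUnit.mk0 _ hc0
        have h9 : x ^ ℓ = (u : integralClosure ℤ (AlgebraicClosure ℚ)) ^ ℓ := by
          apply Subtype.ext
          have h10 : ((x : integralClosure ℤ (AlgebraicClosure ℚ)) : AlgebraicClosure ℚ) =
              (u : AlgebraicClosure ℚ) * (χ c)⁻¹ := hcx.symm
          push_cast
          rw [h10, mul_pow, inv_pow, hχc, inv_one, mul_one]
        have h11 : red (u : integralClosure ℤ (AlgebraicClosure ℚ)) = 1 := by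
          rw [map_natCast, huκ]
        have h12 := congrArg red h9
        rw [map_pow, map_pow, h11, one_pow] at h12
        exact (pow_eq_one_of_char ℓ 1 (red x) (by rw [pow_one]; exact h12)).symm

/-- The number of roots of the `L`-polynomial which are `1` modulo `ℓ`. -/
theorem g_nu_eq (ℓ : ℕ) (hℓ : ℓ.Prime) (χ : MulChar F (AlgebraicClosure ℚ))
    (hχ : orderOf χ = ℓ) {r : ℕ} (S : Set (MvPolynomial (Fin r) F)) (f : MvPolynomial (Fin r) F)
    (E₁ E₂ QS Q₁ : ℤ[X]) (R : (AlgebraicClosure ℚ)[X])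
    (hU : IsVirtualFrob (openCount F S f) E₁ E₂)
    (hQ : IsVirtualFrob (newCount F ℓ S (MvPolynomial.C 1 * f)) Q₁ QS)
    (hR : IsLPolynomial F ℓ χ S f R)
    (AO : Multiset (integralClosure ℤ (AlgebraicClosure ℚ)))
    (hAO : AO.map (algebraMap _ (AlgebraicClosure ℚ)) = R.roots)
    {κ : Type} [Field κ] [hκ : CharP κ ℓ] [DecidableEq κ]
    (red : integralClosure ℤ (AlgebraicClosure ℚ) →+* κ)
    (hconj : ∀ σ : AlgebraicClosure ℚ ≃ₐ[ℚ] AlgebraicClosure ℚ,
        pr ((AO.map (intAut σ)).map red) = pr (AO.map red)) :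
    (AO.map red).count 1 + ordOne ℓ E₂ = ordOne ℓ E₁ := by
  classical
  have hF := Fact.mk hℓ
  let _ : Algebra (ZMod ℓ) κ := ZMod.algebra κ ℓ
  have h1 := g_lpoly_eq F ℓ hℓ χ hχ S f E₁ E₂ QS Q₁ R hU hQ hR AO hAO red hconj
  have hρ2 : (algebraMap (ZMod ℓ) κ).comp (Int.castRingHom (ZMod ℓ)) = Int.castRingHom κ :=
    RingHom.ext_int _ _
  rw [← hρ2, ← Polynomial.map_map, ← Polynomial.map_map] at h1
  have h2 := congrArg (fun p => Polynomial.rootMultiplicity 1 p) h1
  have hmap : ∀ Q : ℤ[X], Q.Monic →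
      ((Q.reverse.map (Int.castRingHom (ZMod ℓ))).map (algebraMap (ZMod ℓ) κ)).rootMultiplicity 1 =
        ordOne ℓ Q := by
    intro Q hQ
    rw [← ordOne_reverse ℓ Q hQ,
      Polynomial.eq_rootMultiplicity_map (algebraMap (ZMod ℓ) κ).injective, map_one]
  have h7 := rootMultiplicity_pr (AO.map red)
  have hne : (E₂.reverse.map (Int.castRingHom (ZMod ℓ))).map (algebraMap (ZMod ℓ) κ) ≠ 0 :=
    Polynomial.map_ne_zero (reverse_map_ne_zero ℓ E₂ hU.2.1)
  rw [rootMultiplicity_mul (mul_ne_zero h7.2 hne), h7.1, hmap E₁ hU.1, hmap E₂ hU.2.1] at h2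
  exact h2

theorem openCount_scale {r : ℕ} (S : Set (MvPolynomial (Fin r) F)) (f : MvPolynomial (Fin r) F)
    (c : F) (hc : c ≠ 0) : openCount F S (MvPolynomial.C c * f) = openCount F S f := by
  funext n
  unfold openCount
  rw [points_scale F S f c hc n]

omit [Field F] in
theorem pow_sub_one_dvd (ℓ : ℕ) (hq : ℓ ∣ Fintype.card F - 1) (e : ℕ) :
    ℓ ∣ Fintype.card F ^ e - 1 := hq.trans (Nat.sub_one_dvd_pow_sub_one _ e)

theorem pow_cast_one (ℓ : ℕ) (hq : ℓ ∣ Fintype.card F - 1) (e : ℕ) {κ : Type} [Field κ]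
    [CharP κ ℓ] : ((Fintype.card F ^ e : ℕ) : κ) = 1 := by
  have hq2 : 2 ≤ Fintype.card F := Fintype.one_lt_card
  obtain ⟨s, hs⟩ := pow_sub_one_dvd F ℓ hq e
  have h1 : 1 ≤ Fintype.card F ^ e := Nat.one_le_pow _ _ (by omega)
  have h2 : Fintype.card F ^ e = ℓ * s + 1 := by omega
  rw [h2]
  push_cast
  rw [CharP.cast_eq_zero κ ℓ]; ring

/-- The theorem on twists. -/
theorem g_twists (ℓ : ℕ) (hℓ : ℓ.Prime) (χ : MulChar F (AlgebraicClosure ℚ))
    (hχ : orderOf χ = ℓ) {r : ℕ} (S : Set (MvPolynomial (Fin r) F)) (f : MvPolynomial (Fin r) F)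
    (E₁ E₂ QS : ℤ[X]) (Q : F → ℤ[X]) (R : (AlgebraicClosure ℚ)[X])
    (hU : IsVirtualFrob (openCount F S f) E₁ E₂)
    (hQ : ∀ c : F, c ≠ 0 → IsVirtualFrob (newCount F ℓ S (MvPolynomial.C c * f)) (Q c) QS)
    (hR : IsLPolynomial F ℓ χ S f R) (e : ℕ) :
    ∃ (N : F → ℕ) (o : ℕ), o + ordOne ℓ E₂ = ordOne ℓ E₁ ∧
      (∀ c : F, c ≠ 0 → mult (Fintype.card F ^ e) (Q c) 1 =
        mult (Fintype.card F ^ e) QS 1 + (ℓ - 1) * N c) ∧
      ℓ * ∑ c : F, N c ≤ (Fintype.card F - 1) * o ∧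
      ℓ * {c : F | c ≠ 0 ∧
        mult (Fintype.card F ^ e) (Q c) 1 ≠ mult (Fintype.card F ^ e) QS 1}.ncard ≤
        (Fintype.card F - 1) * o ∧
      ∀ c : F, c ≠ 0 → ∀ j : ℕ,
        mult (Fintype.card F ^ e) (Q c) (ℓ ^ j) ≤ ordOne ℓ QS + (ℓ - 1) * o := by
  classical
  have hF := Fact.mk hℓ
  have hq2 : 2 ≤ Fintype.card F := Fintype.one_lt_card
  have hq : ℓ ∣ Fintype.card F - 1 := hχ ▸ MulChar.orderOf_dvd_card_sub_one F χ
  have hu1 : 1 ≤ Fintype.card F ^ e := Nat.one_le_pow _ _ (by omega)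
  obtain ⟨s, hs⟩ := id hq
  obtain ⟨AO, hAO, hconj⟩ := exists_lift ℓ R hR.1 hR.2.1
  obtain ⟨κ, _, red, hκ⟩ := exists_red ℓ
  have hnu := g_nu_eq F ℓ hℓ χ hχ S f E₁ E₂ QS (Q 1) R hU (hQ 1 one_ne_zero) hR AO hAO red
    (fun σ => hconj red σ)
  have hsum := g_sum_count_le F ℓ hℓ χ hχ s hs (Fintype.card F ^ e) (by omega) AO
    (pow_cast_one F ℓ hq e) red
  rw [hAO] at hsum
  set N : F → ℕ := fun c => if c = 0 then 0 else
    R.roots.count (((Fintype.card F ^ e : ℕ) : AlgebraicClosure ℚ) * (χ c)⁻¹) with hN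
  have hN1 : ∀ c : F, c ≠ 0 → mult (Fintype.card F ^ e) (Q c) 1 =
      mult (Fintype.card F ^ e) QS 1 + (ℓ - 1) * N c := by
    intro c hc
    rw [g_mult_twist F ℓ hℓ χ hχ S f QS (Q c) R c hc (hQ c hc) hR _ (by omega), hN]
    simp only
    rw [if_neg hc]
  have hN2 : ∑ c : F, N c = ∑ c ∈ Finset.univ.erase (0 : F),
      R.roots.count (((Fintype.card F ^ e : ℕ) : AlgebraicClosure ℚ) * (χ c)⁻¹) := by
    rw [← Finset.add_sum_erase Finset.univ N (Finset.mem_univ 0)]
    have : N 0 = 0 := by rw [hN]; simp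
    rw [this, zero_add]
    apply Finset.sum_congr rfl
    intro c hc
    rw [hN]
    simp only
    rw [if_neg (Finset.mem_erase.1 hc).1]
  have hN3 : ℓ * ∑ c : F, N c ≤ (Fintype.card F - 1) * (AO.map red).count 1 := by
    rw [hN2, hs, mul_assoc]
    exact Nat.mul_le_mul_left _ hsum
  refine ⟨N, (AO.map red).count 1, hnu, hN1, hN3, ?_, ?_⟩
  · refine le_trans (Nat.mul_le_mul_left _ ?_) hN3
    have h1 : {c : F | c ≠ 0 ∧
        mult (Fintype.card F ^ e) (Q c) 1 ≠ mult (Fintype.card F ^ e) QS 1} =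
        (((Finset.univ : Finset F).filter (fun c => c ≠ 0 ∧
          mult (Fintype.card F ^ e) (Q c) 1 ≠ mult (Fintype.card F ^ e) QS 1) : Finset F) :
          Set F) := by
      ext c; simp
    rw [h1, Set.ncard_coe_finset, Finset.card_eq_sum_ones, Finset.sum_filter]
    apply Finset.sum_le_sum
    intro c _
    split
    · rename_i hc
      rw [hN1 c hc.1] at hc
      by_contra h
      have h2 : N c = 0 := by omega
      rw [h2] at hc
      exact hc.2 (by ring)
    · exact Nat.zero_le _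
  · intro c hc j
    refine (mult_le ℓ (Fintype.card F ^ e) hu1 (pow_sub_one_dvd F ℓ hq e) (Q c)
      (hQ c hc).1 j).trans ?_
    have h1 := g_cover_poly F ℓ hℓ hq S (MvPolynomial.C c * f) E₁ E₂ QS (Q c)
      (by rw [openCount_scale F S f c hc]; exact hU) (hQ c hc)
    have h2 := congrArg (fun p => Polynomial.rootMultiplicity 1 p) h1
    rw [rootMultiplicity_mul (mul_ne_zero (reverse_map_ne_zero ℓ _ (hQ c hc).1)
        (pow_ne_zero _ (reverse_map_ne_zero ℓ E₂ hU.2.1))),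
      rootMultiplicity_mul (mul_ne_zero (reverse_map_ne_zero ℓ QS (hQ c hc).2.1)
        (pow_ne_zero _ (reverse_map_ne_zero ℓ E₁ hU.1))), rootMultiplicity_pow',
      rootMultiplicity_pow', ordOne_reverse ℓ E₂ hU.2.1,
      ordOne_reverse ℓ QS (hQ c hc).2.1, ordOne_reverse ℓ E₁ hU.1, ← hnu, mul_add] at h2
    omega

/-- The theorem on all extensions. -/
theorem g_all (ℓ : ℕ) (hℓ : ℓ.Prime) (χ : MulChar F (AlgebraicClosure ℚ))
    (hχ : orderOf χ = ℓ) {r : ℕ} (S : Set (MvPolynomial (Fin r) F)) (f : MvPolynomial (Fin r) F)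
    (E₁ E₂ QS : ℤ[X]) (Q : F → ℤ[X]) (R : (AlgebraicClosure ℚ)[X])
    (hU : IsVirtualFrob (openCount F S f) E₁ E₂)
    (hQ : ∀ c : F, c ≠ 0 → IsVirtualFrob (newCount F ℓ S (MvPolynomial.C c * f)) (Q c) QS)
    (hR : IsLPolynomial F ℓ χ S f R)
    (hcyc : ∀ n : ℕ, 2 ≤ n → ¬ ℓ ∣ n →
      ¬ (cyclotomic n (ZMod ℓ) * E₂.reverse.map (Int.castRingHom (ZMod ℓ)) ∣
        E₁.reverse.map (Int.castRingHom (ZMod ℓ)))) (e : ℕ) :
    ∃ o : ℕ, o + ordOne ℓ E₂ = ordOne ℓ E₁ ∧
      ∀ c : F, c ≠ 0 → ∀ m : ℕ, 1 ≤ m →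
        mult (Fintype.card F ^ e) (Q c) m ≤ mult (Fintype.card F ^ e) QS m + (ℓ - 1) * o := by
  classical
  have hF := Fact.mk hℓ
  have hq2 : 2 ≤ Fintype.card F := Fintype.one_lt_card
  have hq : ℓ ∣ Fintype.card F - 1 := hχ ▸ MulChar.orderOf_dvd_card_sub_one F χ
  have hu1 : 1 ≤ Fintype.card F ^ e := Nat.one_le_pow _ _ (by omega)
  set u := Fintype.card F ^ e with hu
  have hu0 : (u : AlgebraicClosure ℚ) ≠ 0 := by
    have : u ≠ 0 := by omega
    exact_mod_cast this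
  obtain ⟨AO, hAO, hconj⟩ := exists_lift ℓ R hR.1 hR.2.1
  obtain ⟨κ, _, red, hκ⟩ := exists_red ℓ
  let _ : Algebra (ZMod ℓ) κ := ZMod.algebra κ ℓ
  have hnu := g_nu_eq F ℓ hℓ χ hχ S f E₁ E₂ QS (Q 1) R hU (hQ 1 one_ne_zero) hR AO hAO red
    (fun σ => hconj red σ)
  have hlp := g_lpoly_eq F ℓ hℓ χ hχ S f E₁ E₂ QS (Q 1) R hU (hQ 1 one_ne_zero) hR AO hAO red
    (fun σ => hconj red σ)
  have huκ : (u : κ) = 1 := pow_cast_one F ℓ hq e
  obtain ⟨σ, hσ⟩ := exists_sigma ℓ hℓ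
  refine ⟨(AO.map red).count 1, hnu, ?_⟩
  have hroots : ∀ M : ℕ, 1 ≤ M → (R.roots.filter
      (fun α => α ^ M = (u : AlgebraicClosure ℚ) ^ M)).card ≤ (AO.map red).count 1 := by
    intro M hM
    rw [← hAO, Multiset.filter_map, Multiset.card_map, Multiset.count, Multiset.countP_map]
    apply Multiset.card_le_card
    rw [Multiset.le_filter]
    refine ⟨Multiset.filter_le _ _, ?_⟩
    intro x hx
    rw [Multiset.mem_filter] at hx
    obtain ⟨hxA, hxM⟩ := hx
    rcases cyclotomic_dvd ℓ red u (by omega) huκ R hR.1 hR.2.1 AO hAO x hxA M hM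
      hxM with h | ⟨n, hn2, hnℓ, hdvd⟩
    · exact h.symm
    · exfalso
      apply hcyc n hn2 hnℓ
      have hρ2 : (algebraMap (ZMod ℓ) κ).comp (Int.castRingHom (ZMod ℓ)) = Int.castRingHom κ :=
        RingHom.ext_int _ _
      rw [← map_dvd_map' (algebraMap (ZMod ℓ) κ), Polynomial.map_mul,
        map_cyclotomic, Polynomial.map_map, Polynomial.map_map, hρ2, ← hlp]
      exact mul_dvd_mul_right hdvd _
  intro c hc m hm
  have hχc : (χ c) ^ ℓ = 1 := by
    rw [← MulChar.pow_apply' _ hℓ.ne_zero, ← hχ, pow_orderOf_eq_one, MulChar.one_apply]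
    exact IsUnit.mk0 _ hc
  rw [mult_rt_card, mult_rt_card]
  have h1 : (rt (Q c)).filter (fun α => α ^ m = (u : AlgebraicClosure ℚ) ^ m) =
      (rt QS + ∑ j ∈ Finset.range (ℓ - 1),
        R.roots.map (fun α => (χ ^ (j + 1)) c * σ j α)).filter
          (fun α => α ^ m = (u : AlgebraicClosure ℚ) ^ m) := by
    ext z
    rw [Multiset.count_filter, Multiset.count_filter]
    split
    · rename_i hz
      apply ps_count _ _ (g_count_twist F ℓ hℓ χ hχ S f QS (Q c) R c hc (hQ c hc) hR σ hσ)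
      rintro rfl
      rw [zero_pow (by omega)] at hz
      exact pow_ne_zero _ hu0 hz.symm
    · rfl
  have hsumf : ∀ (s : Finset ℕ) (B : ℕ → Multiset (AlgebraicClosure ℚ)),
      ((∑ j ∈ s, B j).filter (fun α => α ^ m = (u : AlgebraicClosure ℚ) ^ m)).card =
      ∑ j ∈ s, ((B j).filter (fun α => α ^ m = (u : AlgebraicClosure ℚ) ^ m)).card := by
    intro s B
    induction s using Finset.induction_on with
    | empty => simp
    | insert j s hj ih =>
      rw [Finset.sum_insert hj, Finset.sum_insert hj, Multiset.filter_add, Multiset.card_add, ih]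
  rw [h1, Multiset.filter_add, Multiset.card_add, hsumf]
  apply Nat.add_le_add_left
  calc ∑ j ∈ Finset.range (ℓ - 1), ((R.roots.map (fun α => (χ ^ (j + 1)) c * σ j α)).filter
        (fun α => α ^ m = (u : AlgebraicClosure ℚ) ^ m)).card
      ≤ ∑ _j ∈ Finset.range (ℓ - 1), (AO.map red).count 1 := by
        apply Finset.sum_le_sum
        intro j hj
        rw [Multiset.filter_map, Multiset.card_map]
        refine le_trans ?_ (hroots (m * ℓ) (Nat.mul_pos hm hℓ.pos))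
        apply Multiset.card_le_card
        apply Multiset.monotone_filter_right
        intro α hα
        simp only [Function.comp] at hα
        have h2 := congrArg (fun x => x ^ ℓ) hα
        rw [← pow_mul, ← pow_mul, mul_pow, MulChar.pow_apply' _ (by omega : j + 1 ≠ 0),
          ← pow_mul, mul_comm m ℓ, ← mul_assoc, mul_comm (j + 1) ℓ, mul_assoc ℓ, pow_mul (χ c), hχc,
          one_pow, one_mul, ← map_pow] at h2
        have h3 : σ j (α ^ (ℓ * m)) = σ j ((u : AlgebraicClosure ℚ) ^ (ℓ * m)) := by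
          rw [h2, map_pow, map_natCast]
        rw [mul_comm m ℓ]
        exact (σ j).injective h3
    _ = (ℓ - 1) * (AO.map red).count 1 := by
        rw [Finset.sum_const, Finset.card_range, smul_eq_mul]

end Pool.Agent.Helper2.Tate
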