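import Pool.Agent.Helper2.Tate.LAll

/-!
# All extensions of the base field: the bound
-/

set_option autoImplicit false

open Polynomial

namespace Pool.Agent.Helper2.Tate

theorem pow_modEq {M : Type*} [Monoid M] (w : M) (N a b : ℕ) (hw : w ^ N = 1)
    (h : a ≡ b [MOD N]) : w ^ a = w ^ b := by
  rw [pow_eq_pow_mod a hw, pow_eq_pow_mod b hw]
  congr 1

/-- Conjugates over `ℤ[ζ_ℓ]` of a root. -/
theorem root_of_conj (ℓ : ℕ) (R : (AlgebraicClosure ℚ)[X]) (hR : R.Monic)
    (hc : ∀ i, R.coeff i ∈ Subring.closure {z : AlgebraicClosure ℚ | z ^ ℓ = 1})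
    (σ : AlgebraicClosure ℚ ≃ₐ[ℚ] AlgebraicClosure ℚ)
    (hσ : ∀ z : AlgebraicClosure ℚ, z ^ ℓ = 1 → σ z = z) (x : AlgebraicClosure ℚ)
    (hx : x ∈ R.roots) : σ x ∈ R.roots := by
  have h1 : Set.EqOn (σ : AlgebraicClosure ℚ →+* AlgebraicClosure ℚ)
      (RingHom.id (AlgebraicClosure ℚ)) {z : AlgebraicClosure ℚ | z ^ ℓ = 1} := by
    intro z hz
    exact hσ z hz
  have h2 : R.map (σ : AlgebraicClosure ℚ →+* AlgebraicClosure ℚ) = R := by
    ext i
    rw [coeff_map]
    exact RingHom.eqOn_set_closure h1 (hc i)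
  rw [mem_roots hR.ne_zero] at hx ⊢
  have h3 := hx.map (f := (σ : AlgebraicClosure ℚ →+* AlgebraicClosure ℚ))
  rw [h2] at h3
  exact h3

theorem cyclotomic_dvd (ℓ : ℕ) [hℓ : Fact ℓ.Prime] {κ : Type} [Field κ] [CharP κ ℓ]
    (red : integralClosure ℤ (AlgebraicClosure ℚ) →+* κ) (q : ℕ) (hq0 : q ≠ 0)
    (hq : (q : κ) = 1) (R : (AlgebraicClosure ℚ)[X]) (hR : R.Monic)
    (hc : ∀ i, R.coeff i ∈ Subring.closure {z : AlgebraicClosure ℚ | z ^ ℓ = 1})
    (AO : Multiset (integralClosure ℤ (AlgebraicClosure ℚ)))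
    (hAO : AO.map (algebraMap _ (AlgebraicClosure ℚ)) = R.roots)
    (x : integralClosure ℤ (AlgebraicClosure ℚ)) (hx : x ∈ AO) (M : ℕ) (hM : 0 < M)
    (hxM : (x : AlgebraicClosure ℚ) ^ M = (q : AlgebraicClosure ℚ) ^ M) :
    red x = 1 ∨ ∃ n, 2 ≤ n ∧ ¬ ℓ ∣ n ∧ cyclotomic n κ ∣ pr (AO.map red) := by
  classical
  have hqQ : (q : AlgebraicClosure ℚ) ≠ 0 := by exact_mod_cast hq0
  set ζ : AlgebraicClosure ℚ := (x : AlgebraicClosure ℚ) / q with hζ
  have hζM : ζ ^ M = 1 := by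
    rw [hζ, div_pow, hxM, div_self (pow_ne_zero _ hqQ)]
  have hζint : IsIntegral ℤ ζ := by
    refine ⟨X ^ M - 1, monic_X_pow_sub_C 1 hM.ne', ?_⟩
    simp only [eval₂_sub, eval₂_pow, eval₂_X, eval₂_one]
    rw [hζM, sub_self]
  have hxζ : (x : AlgebraicClosure ℚ) = q * ζ := by
    rw [hζ, mul_div_cancel₀ _ hqQ]
  set ζO : integralClosure ℤ (AlgebraicClosure ℚ) := ⟨ζ, hζint⟩ with hζO
  have hxO : x = (q : integralClosure ℤ (AlgebraicClosure ℚ)) * ζO := by
    apply Subtype.ext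
    push_cast
    exact hxζ
  have hζOM : ζO ^ M = 1 := by
    apply Subtype.ext
    push_cast
    exact hζM
  set z : κ := red ζO with hz
  have hredx : red x = z := by
    rw [hxO, map_mul, map_natCast, hq, one_mul]
  have hzM : z ^ M = 1 := by
    rw [hz, ← map_pow, hζOM, map_one]
  set n := orderOf z with hn
  have hnM : n ∣ M := orderOf_dvd_of_pow_eq_one hzM
  have hn0 : 0 < n := Nat.pos_of_dvd_of_pos hnM hM
  have hnℓ : ¬ ℓ ∣ n := by
    rintro ⟨s, hs⟩
    have h1 : (z ^ s) ^ (ℓ ^ 1) = 1 := by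
      rw [pow_one, ← pow_mul, mul_comm, ← hs, hn, pow_orderOf_eq_one]
    have h2 := pow_eq_one_of_char ℓ 1 (z ^ s) h1
    have hs0 : 0 < s := by
      rcases Nat.eq_zero_or_pos s with h | h
      · rw [h, mul_zero] at hs; omega
      · exact h
    have h3 := Nat.le_of_dvd hs0 (orderOf_dvd_of_pow_eq_one h2)
    rw [← hn, hs] at h3
    have h4 := hℓ.out.two_le
    have h5 : 2 * s ≤ ℓ * s := Nat.mul_le_mul_right s h4
    omega
  rcases Nat.lt_or_ge n 2 with hn2 | hn2
  · left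
    rw [hredx]
    have : orderOf z = 1 := by omega
    exact orderOf_eq_one_iff.1 this
  · right
    refine ⟨n, hn2, hnℓ, ?_⟩
    have hzp : IsPrimitiveRoot z n := IsPrimitiveRoot.orderOf z
    rw [cyclotomic_eq_prod_X_sub_primitiveRoots hzp]
    have hp0 : pr (AO.map red) ≠ 0 := by
      intro h
      have := pr_coeff_zero' (AO.map red)
      rw [h, coeff_zero] at this
      exact zero_ne_one this
    have hmem : ∀ μ ∈ primitiveRoots n κ, μ ∈ (pr (AO.map red)).roots := by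
      intro μ hμ
      rw [mem_primitiveRoots hn0] at hμ
      have hμi : IsPrimitiveRoot μ⁻¹ n := hμ.inv
      have : NeZero n := ⟨hn0.ne'⟩
      obtain ⟨k, _, hk, hzk⟩ := (hzp.isPrimitiveRoot_iff).1 hμi
      obtain ⟨t, ht1, ht2, ht3⟩ := exists_exponent ℓ n (ℓ * M) k hℓ.out hnℓ
        (Nat.mul_pos hℓ.out.pos hM) (Nat.mul_dvd_mul_left ℓ hnM) hk
      obtain ⟨σ, hσ⟩ := exists_conj_pow (ℓ * M) (Nat.mul_pos hℓ.out.pos hM) t ht1
      have hσℓ : ∀ w : AlgebraicClosure ℚ, w ^ ℓ = 1 → σ w = w := by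
        intro w hw
        rw [hσ w (by rw [pow_mul, hw, one_pow])]
        rw [pow_modEq w ℓ t 1 hw ht2, pow_one]
      have hxR : (x : AlgebraicClosure ℚ) ∈ R.roots := by
        rw [← hAO]
        exact Multiset.mem_map_of_mem (algebraMap _ (AlgebraicClosure ℚ)) hx
      have h1 := root_of_conj ℓ R hR hc σ hσℓ _ hxR
      rw [← hAO] at h1
      obtain ⟨y, hy, hyσ⟩ := Multiset.mem_map.1 h1
      have hyO : y = (q : integralClosure ℤ (AlgebraicClosure ℚ)) * ζO ^ t := by
        apply Subtype.ext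
        push_cast
        have h2 : (y : AlgebraicClosure ℚ) = σ (x : AlgebraicClosure ℚ) := hyσ
        rw [h2, hxζ, map_mul, map_natCast, hσ ζ (by
          rw [mul_comm, pow_mul, hζM, one_pow])]
      have hredy : red y = μ⁻¹ := by
        rw [hyO, map_mul, map_natCast, hq, one_mul, map_pow, ← hzk, ← hz]
        exact pow_modEq z n t k (pow_orderOf_eq_one z) ht3
      rw [mem_roots hp0, IsRoot]
      unfold pr
      rw [eval_multiset_prod, Multiset.map_map]
      apply Multiset.prod_eq_zero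
      rw [Multiset.mem_map]
      refine ⟨red y, Multiset.mem_map_of_mem red hy, ?_⟩
      have hμ0 : μ ≠ 0 := hμ.ne_zero hn0.ne'
      simp [hredy, hμ0]
    have h3 : (primitiveRoots n κ).val ≤ (pr (AO.map red)).roots :=
      (Multiset.le_iff_subset (primitiveRoots n κ).nodup).2 (fun μ hμ => hmem μ hμ)
    exact (Multiset.prod_X_sub_C_dvd_iff_le_roots hp0 _).2 h3

theorem mult_rt_card (q : ℕ) (Q : ℤ[X]) (m : ℕ) [DecidableEq (AlgebraicClosure ℚ)] :
    mult q Q m = ((rt Q).filter (fun α => α ^ m = (q : AlgebraicClosure ℚ) ^ m)).card := by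
  classical
  obtain ⟨ι⟩ := exists_embedding
  unfold mult
  rw [roots_rt ι, Multiset.filter_map, Multiset.card_map]
  congr 1
  apply Multiset.filter_congr
  intro α _
  have h1 : (q : ℂ) = ι (q : AlgebraicClosure ℚ) := by simp
  simp only [Function.comp]
  rw [h1, ← map_pow, ← map_pow]
  exact ι.injective.eq_iff

variable (F : Type) [Field F] [Fintype F]

/-- The bound for all extensions. -/
theorem all_extensions (ℓ : ℕ) (hℓ : ℓ.Prime) (χ : MulChar F (AlgebraicClosure ℚ))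
    (hχ : orderOf χ = ℓ) {r : ℕ} (S : Set (MvPolynomial (Fin r) F)) (f : MvPolynomial (Fin r) F)
    (A QS QB : ℤ[X]) (Q : F → ℤ[X]) (R : (AlgebraicClosure ℚ)[X])
    (hS : IsFrobSurface (Fintype.card F) (fun n => (points F S n).ncard) QS A)
    (hB : IsFrobOne (Fintype.card F) (fun n => (points F (insert f S) n).ncard) QB)
    (hQ : ∀ c : F, c ≠ 0 → IsFrobSurface (Fintype.card F)
      (fun n => (coverPoints F ℓ S (MvPolynomial.C c * f) n).ncard) (Q c) A)
    (hR : IsLPolynomial F ℓ χ S f R)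
    (hcyc : ∀ n : ℕ, 2 ≤ n → ¬ ℓ ∣ n →
      ¬ (cyclotomic n (ZMod ℓ) * A.reverse.map (Int.castRingHom (ZMod ℓ)) ∣
        QS.reverse.map (Int.castRingHom (ZMod ℓ)) * QB.reverse.map (Int.castRingHom (ZMod ℓ)))) :
    ∃ o : ℕ, o + ordOne ℓ A = ordOne ℓ QS + ordOne ℓ QB ∧
      ∀ c : F, c ≠ 0 → ∀ m : ℕ, 1 ≤ m →
        mult (Fintype.card F) (Q c) m ≤ mult (Fintype.card F) QS m + (ℓ - 1) * o := by
  classical
  have hF := Fact.mk hℓ
  have hq2 : 2 ≤ Fintype.card F := Fintype.one_lt_card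
  have hq0 : (Fintype.card F : AlgebraicClosure ℚ) ≠ 0 := by
    have : Fintype.card F ≠ 0 := by omega
    exact_mod_cast this
  have hq : ℓ ∣ Fintype.card F - 1 := hχ ▸ MulChar.orderOf_dvd_card_sub_one F χ
  obtain ⟨AO, hAO, hconj⟩ := exists_lift ℓ R hR.1 hR.2.1
  obtain ⟨κ, _, red, hκ⟩ := exists_red ℓ
  let _ : Algebra (ZMod ℓ) κ := ZMod.algebra κ ℓ
  have hnu := nu_eq F ℓ hℓ χ hχ S f A QS QB (Q 1) R hS hB (hQ 1 one_ne_zero) hR AO hAO red
    (fun σ => hconj red σ)
  have hlp := lpoly_eq F ℓ hℓ χ hχ S f A QS QB (Q 1) R hS hB (hQ 1 one_ne_zero) hR AO hAO red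
    (fun σ => hconj red σ)
  have hqκ : (Fintype.card F : κ) = 1 := by
    obtain ⟨e, he⟩ := hq
    have h1 : Fintype.card F = ℓ * e + 1 := by omega
    rw [h1]
    push_cast
    rw [CharP.cast_eq_zero κ ℓ]; ring
  have hσ : ∀ j : ℕ, ∃ σ : AlgebraicClosure ℚ ≃ₐ[ℚ] AlgebraicClosure ℚ, j < ℓ - 1 →
      ∀ z : AlgebraicClosure ℚ, z ^ ℓ = 1 → σ z = z ^ (j + 1) := by
    intro j
    by_cases hj : j < ℓ - 1
    · obtain ⟨σ, hσ⟩ := exists_conj ℓ hℓ (j + 1) (by omega) (by omega)
      exact ⟨σ, fun _ => hσ⟩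
    · exact ⟨AlgEquiv.refl, fun h => absurd h hj⟩
  choose σ hσ using hσ
  refine ⟨(AO.map red).count 1, hnu, ?_⟩
  -- the roots of the `L`-polynomial
  have hroots : ∀ M : ℕ, 1 ≤ M → (R.roots.filter
      (fun α => α ^ M = (Fintype.card F : AlgebraicClosure ℚ) ^ M)).card ≤
        (AO.map red).count 1 := by
    intro M hM
    rw [← hAO, Multiset.filter_map, Multiset.card_map, Multiset.count, Multiset.countP_map]
    apply Multiset.card_le_card
    rw [Multiset.le_filter]
    refine ⟨Multiset.filter_le _ _, ?_⟩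
    intro x hx
    rw [Multiset.mem_filter] at hx
    obtain ⟨hxA, hxM⟩ := hx
    rcases cyclotomic_dvd ℓ red (Fintype.card F) (by omega) hqκ R hR.1 hR.2.1 AO hAO x hxA M hM
      hxM with h | ⟨n, hn2, hnℓ, hdvd⟩
    · exact h.symm
    · exfalso
      apply hcyc n hn2 hnℓ
      have hρ2 : (algebraMap (ZMod ℓ) κ).comp (Int.castRingHom (ZMod ℓ)) = Int.castRingHom κ :=
        RingHom.ext_int _ _
      rw [← map_dvd_map' (algebraMap (ZMod ℓ) κ), Polynomial.map_mul, Polynomial.map_mul,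
        map_cyclotomic, Polynomial.map_map, Polynomial.map_map, Polynomial.map_map, hρ2, ← hlp]
      exact mul_dvd_mul_right hdvd _
  intro c hc m hm
  have hχc : (χ c) ^ ℓ = 1 := by
    rw [← MulChar.pow_apply' _ hℓ.ne_zero, ← hχ, pow_orderOf_eq_one, MulChar.one_apply]
    exact IsUnit.mk0 _ hc
  rw [mult_rt_card, mult_rt_card]
  have h1 : (rt (Q c)).filter (fun α => α ^ m = (Fintype.card F : AlgebraicClosure ℚ) ^ m) =
      (rt QS + ∑ j ∈ Finset.range (ℓ - 1),
        R.roots.map (fun α => (χ ^ (j + 1)) c * σ j α)).filter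
          (fun α => α ^ m = (Fintype.card F : AlgebraicClosure ℚ) ^ m) := by
    ext z
    rw [Multiset.count_filter, Multiset.count_filter]
    split
    · rename_i hz
      apply ps_count _ _ (count_twist F ℓ hℓ χ hχ S f A QS (Q c) R c hc hS (hQ c hc) hR σ hσ)
      rintro rfl
      rw [zero_pow (by omega)] at hz
      exact pow_ne_zero _ hq0 hz.symm
    · rfl
  have hsumf : ∀ (s : Finset ℕ) (B : ℕ → Multiset (AlgebraicClosure ℚ)),
      ((∑ j ∈ s, B j).filter
        (fun α => α ^ m = (Fintype.card F : AlgebraicClosure ℚ) ^ m)).card =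
      ∑ j ∈ s, ((B j).filter
        (fun α => α ^ m = (Fintype.card F : AlgebraicClosure ℚ) ^ m)).card := by
    intro s B
    induction s using Finset.induction_on with
    | empty => simp
    | insert j s hj ih =>
      rw [Finset.sum_insert hj, Finset.sum_insert hj, Multiset.filter_add, Multiset.card_add, ih]
  rw [h1, Multiset.filter_add, Multiset.card_add, hsumf]
  apply Nat.add_le_add_left
  calc ∑ j ∈ Finset.range (ℓ - 1), ((R.roots.map (fun α => (χ ^ (j + 1)) c * σ j α)).filter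
        (fun α => α ^ m = (Fintype.card F : AlgebraicClosure ℚ) ^ m)).card
      ≤ ∑ _j ∈ Finset.range (ℓ - 1), (AO.map red).count 1 := by
        apply Finset.sum_le_sum
        intro j hj
        rw [Multiset.filter_map, Multiset.card_map]
        refine le_trans ?_ (hroots (m * ℓ) (Nat.mul_pos hm hℓ.pos))
        apply Multiset.card_le_card
        apply Multiset.monotone_filter_right
        intro α hα
        simp only [Function.comp] at hα
        have h2 := congrArg (fun x => x ^ ℓ) hα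
        rw [← pow_mul, ← pow_mul, mul_pow, MulChar.pow_apply' _ (by omega : j + 1 ≠ 0),
          ← pow_mul, mul_comm m ℓ, ← mul_assoc, mul_comm (j + 1) ℓ, mul_assoc ℓ, pow_mul (χ c), hχc,
          one_pow, one_mul, ← map_pow] at h2
        have h3 : σ j (α ^ (ℓ * m)) =
            σ j ((Fintype.card F : AlgebraicClosure ℚ) ^ (ℓ * m)) := by
          rw [h2, map_pow, map_natCast]
        rw [mul_comm m ℓ]
        exact (σ j).injective h3
    _ = (ℓ - 1) * (AO.map red).count 1 := by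
        rw [Finset.sum_const, Finset.card_range, smul_eq_mul]

end Pool.Agent.Helper2.Tate
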