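import Pool.Agent.Helper2.Tate.GDefs
import Pool.Agent.Helper2.Tate.LAll2

/-!
# Cyclic coverings of varieties of even dimension
-/

set_option autoImplicit false

open Polynomial

namespace Pool.Agent.Helper2.Tate

variable (F : Type) [Field F] [Fintype F]

theorem g_sums_eq (ℓ : ℕ) (hℓ : ℓ.Prime) (χ : MulChar F (AlgebraicClosure ℚ))
    (hχ : orderOf χ = ℓ) {r : ℕ} (S : Set (MvPolynomial (Fin r) F)) (f : MvPolynomial (Fin r) F)
    (QS Qc : ℤ[X]) (c : F) (hc : c ≠ 0)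
    (hQ : IsVirtualFrob (newCount F ℓ S (MvPolynomial.C c * f)) Qc QS) (n : ℕ) (hn : 1 ≤ n) :
    ((rt Qc).map (fun α => α ^ n)).sum = ((rt QS).map (fun α => α ^ n)).sum +
      ∑ j ∈ Finset.range (ℓ - 1), ((χ ^ (j + 1)) c) ^ n * charSum F (χ ^ (j + 1)) S f n := by
  obtain ⟨ι⟩ := exists_embedding
  apply ι.injective
  rw [map_add, ← powerSum_rt, ← powerSum_rt]
  have h2 := hQ.2.2 n hn
  unfold newCount at h2
  push_cast at h2
  have h3 := congrArg ι (cover_charSum F ℓ hℓ χ hχ S f n hn c hc)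
  rw [map_add, map_natCast, map_natCast] at h3
  linear_combination h3 - h2

/-- The eigenvalues for a twist. -/
theorem g_count_twist (ℓ : ℕ) (hℓ : ℓ.Prime) (χ : MulChar F (AlgebraicClosure ℚ))
    (hχ : orderOf χ = ℓ) {r : ℕ} (S : Set (MvPolynomial (Fin r) F)) (f : MvPolynomial (Fin r) F)
    (QS Qc : ℤ[X]) (R : (AlgebraicClosure ℚ)[X]) (c : F) (hc : c ≠ 0)
    (hQ : IsVirtualFrob (newCount F ℓ S (MvPolynomial.C c * f)) Qc QS)
    (hR : IsLPolynomial F ℓ χ S f R) (σ : ℕ → AlgebraicClosure ℚ ≃ₐ[ℚ] AlgebraicClosure ℚ)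
    (hσ : ∀ j < ℓ - 1, ∀ z : AlgebraicClosure ℚ, z ^ ℓ = 1 → σ j z = z ^ (j + 1)) :
    ∀ n : ℕ, 1 ≤ n → ((rt Qc).map (fun α => α ^ n)).sum =
      ((rt QS + ∑ j ∈ Finset.range (ℓ - 1),
        R.roots.map (fun α => (χ ^ (j + 1)) c * σ j α)).map (fun α => α ^ n)).sum := by
  intro n hn
  rw [g_sums_eq F ℓ hℓ χ hχ S f QS Qc c hc hQ n hn, Multiset.map_add, Multiset.sum_add]
  congr 1
  have h1 : ∀ (s : Finset ℕ) (B : ℕ → Multiset (AlgebraicClosure ℚ)),
      ((∑ j ∈ s, B j).map (fun α => α ^ n)).sum = ∑ j ∈ s, ((B j).map (fun α => α ^ n)).sum := by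
    intro s B
    induction s using Finset.induction_on with
    | empty => simp
    | insert j s hj ih =>
      rw [Finset.sum_insert hj, Finset.sum_insert hj, Multiset.map_add, Multiset.sum_add, ih]
  rw [h1]
  apply Finset.sum_congr rfl
  intro j hj
  rw [conj_charSum F ℓ hℓ χ hχ S f n j (σ j) (hσ j (Finset.mem_range.1 hj)), hR.2.2 n hn,
    map_multiset_sum, Multiset.map_map, Multiset.map_map, ← Multiset.sum_map_mul_left]
  congr 1
  apply Multiset.map_congr rfl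
  intro α _
  simp [mul_pow]

theorem exists_sigma (ℓ : ℕ) (hℓ : ℓ.Prime) :
    ∃ σ : ℕ → AlgebraicClosure ℚ ≃ₐ[ℚ] AlgebraicClosure ℚ, ∀ j < ℓ - 1,
      ∀ z : AlgebraicClosure ℚ, z ^ ℓ = 1 → σ j z = z ^ (j + 1) := by
  have hσ : ∀ j : ℕ, ∃ σ : AlgebraicClosure ℚ ≃ₐ[ℚ] AlgebraicClosure ℚ, j < ℓ - 1 →
      ∀ z : AlgebraicClosure ℚ, z ^ ℓ = 1 → σ z = z ^ (j + 1) := by
    intro j
    by_cases hj : j < ℓ - 1
    · obtain ⟨σ, hσ⟩ := exists_conj ℓ hℓ (j + 1) (by omega) (by omega)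
      exact ⟨σ, fun _ => hσ⟩
    · exact ⟨AlgEquiv.refl, fun h => absurd h hj⟩
  choose σ hσ using hσ
  exact ⟨σ, fun j hj => hσ j hj⟩

theorem mult_one_rt (u : ℕ) (Q : ℤ[X]) [DecidableEq (AlgebraicClosure ℚ)] :
    mult u Q 1 = (rt Q).count (u : AlgebraicClosure ℚ) := mult_rt u Q

/-- The multiplicity of `u` for a twist. -/
theorem g_mult_twist (ℓ : ℕ) (hℓ : ℓ.Prime) (χ : MulChar F (AlgebraicClosure ℚ))
    (hχ : orderOf χ = ℓ) {r : ℕ} (S : Set (MvPolynomial (Fin r) F)) (f : MvPolynomial (Fin r) F)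
    (QS Qc : ℤ[X]) (R : (AlgebraicClosure ℚ)[X]) (c : F) (hc : c ≠ 0)
    (hQ : IsVirtualFrob (newCount F ℓ S (MvPolynomial.C c * f)) Qc QS)
    (hR : IsLPolynomial F ℓ χ S f R) (u : ℕ) (hu : u ≠ 0) [DecidableEq (AlgebraicClosure ℚ)] :
    mult u Qc 1 = mult u QS 1 +
      (ℓ - 1) * R.roots.count ((u : AlgebraicClosure ℚ) * (χ c)⁻¹) := by
  obtain ⟨σ, hσ⟩ := exists_sigma ℓ hℓ
  have hq0 : (u : AlgebraicClosure ℚ) ≠ 0 := by exact_mod_cast hu
  have h1 := ps_count _ _ (g_count_twist F ℓ hℓ χ hχ S f QS Qc R c hc hQ hR σ hσ)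
    (u : AlgebraicClosure ℚ) hq0
  rw [mult_rt, mult_rt, h1, Multiset.count_add, Multiset.count_sum']
  congr 1
  have hχc : (χ c) ^ ℓ = 1 := by
    rw [← MulChar.pow_apply' _ hℓ.ne_zero, ← hχ, pow_orderOf_eq_one, MulChar.one_apply]
    exact IsUnit.mk0 _ hc
  have hχ0 : χ c ≠ 0 := by
    intro h
    rw [h, zero_pow hℓ.ne_zero] at hχc
    exact zero_ne_one hχc
  have h2 : ∀ j ∈ Finset.range (ℓ - 1), Multiset.count (u : AlgebraicClosure ℚ)
      (R.roots.map (fun α => (χ ^ (j + 1)) c * σ j α)) =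
      R.roots.count ((u : AlgebraicClosure ℚ) * (χ c)⁻¹) := by
    intro j hj
    have hne : (χ ^ (j + 1)) c ≠ 0 := by
      rw [MulChar.pow_apply' _ (by omega : j + 1 ≠ 0)]
      exact pow_ne_zero _ hχ0
    have hinj : Function.Injective (fun α : AlgebraicClosure ℚ => (χ ^ (j + 1)) c * σ j α) := by
      intro α β h
      exact (σ j).injective (mul_left_cancel₀ hne h)
    have h3 : (u : AlgebraicClosure ℚ) = (fun α : AlgebraicClosure ℚ =>
        (χ ^ (j + 1)) c * σ j α) ((u : AlgebraicClosure ℚ) * (χ c)⁻¹) := by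
      change _ = (χ ^ (j + 1)) c * σ j ((u : AlgebraicClosure ℚ) * (χ c)⁻¹)
      rw [map_mul, map_natCast, map_inv₀, hσ j (Finset.mem_range.1 hj) _ hχc,
        MulChar.pow_apply' _ (by omega : j + 1 ≠ 0)]
      field_simp
    conv_lhs => rw [h3]
    exact Multiset.count_map_eq_count' _ _ hinj _
  rw [Finset.sum_congr rfl h2, Finset.sum_const, Finset.card_range, smul_eq_mul]

/-- The congruence. -/
theorem g_cover_poly (ℓ : ℕ) (hℓ : ℓ.Prime) (hq : ℓ ∣ Fintype.card F - 1) {r : ℕ}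
    (S : Set (MvPolynomial (Fin r) F)) (f : MvPolynomial (Fin r) F) (E₁ E₂ QS QY : ℤ[X])
    (hU : IsVirtualFrob (openCount F S f) E₁ E₂)
    (hY : IsVirtualFrob (newCount F ℓ S f) QY QS) :
    QY.reverse.map (Int.castRingHom (ZMod ℓ)) *
      (E₂.reverse.map (Int.castRingHom (ZMod ℓ))) ^ (ℓ - 1) =
      QS.reverse.map (Int.castRingHom (ZMod ℓ)) *
        (E₁.reverse.map (Int.castRingHom (ZMod ℓ))) ^ (ℓ - 1) := by
  have hF := Fact.mk hℓ
  obtain ⟨hE₁, hE₂, hUc⟩ := hU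
  obtain ⟨hYm, hSm, hYc⟩ := hY
  have hcount := count_cover F ℓ hℓ hq S f
  choose! t ht hct using hcount
  obtain ⟨s₁, hs₁⟩ := exists_int_powerSum E₁ hE₁
  obtain ⟨s₂, hs₂⟩ := exists_int_powerSum E₂ hE₂
  obtain ⟨sS, hsS⟩ := exists_int_powerSum QS hSm
  obtain ⟨sY, hsY⟩ := exists_int_powerSum QY hYm
  have hL : LD ((QY.reverse * E₂.reverse ^ (ℓ - 1) : ℤ[X]) : PowerSeries ℤ)
      (PowerSeries.mk (fun n => if n = 0 then 0 else sY n) +
        (ℓ - 1) • PowerSeries.mk (fun n => if n = 0 then 0 else s₂ n)) := by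
    rw [Polynomial.coe_mul, Polynomial.coe_pow]
    exact (LD_reverse QY hYm sY hsY).mul ((LD_reverse E₂ hE₂ s₂ hs₂).pow _)
  have hG : LD ((QS.reverse * E₁.reverse ^ (ℓ - 1) : ℤ[X]) : PowerSeries ℤ)
      (PowerSeries.mk (fun n => if n = 0 then 0 else sS n) +
        (ℓ - 1) • PowerSeries.mk (fun n => if n = 0 then 0 else s₁ n)) := by
    rw [Polynomial.coe_mul, Polynomial.coe_pow]
    exact (LD_reverse QS hSm sS hsS).mul ((LD_reverse E₁ hE₁ s₁ hs₁).pow _)
  have c0 : ∀ (p : ℤ[X]) (k : ℕ), p.coeff 0 = 1 → (p ^ k).coeff 0 = 1 := by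
    intro p k hp
    rw [coeff_zero_eq_eval_zero, eval_pow, ← coeff_zero_eq_eval_zero, hp, one_pow]
  have hL0 : (QY.reverse * E₂.reverse ^ (ℓ - 1)).coeff 0 = 1 := by
    rw [mul_coeff_zero, coeff_zero_reverse_monic QY hYm,
      c0 _ _ (coeff_zero_reverse_monic E₂ hE₂), mul_one]
  have hG0 : (QS.reverse * E₁.reverse ^ (ℓ - 1)).coeff 0 = 1 := by
    rw [mul_coeff_zero, coeff_zero_reverse_monic QS hSm,
      c0 _ _ (coeff_zero_reverse_monic E₁ hE₁), mul_one]
  have hcast : ((ℓ - 1 : ℕ) : ℤ) = (ℓ : ℤ) - 1 := by push_cast [Nat.cast_sub hℓ.one_le]; ring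
  have hrel : ∀ n, 1 ≤ n → sY n + ((ℓ : ℤ) - 1) * s₂ n = sS n + ((ℓ : ℤ) - 1) * s₁ n - ℓ * t n := by
    intro n hn
    have h1 := hUc n hn
    have h2 := hYc n hn
    rw [hs₁ n hn, hs₂ n hn] at h1
    rw [hsY n hn, hsS n hn] at h2
    have h1' : openCount F S f n = s₁ n - s₂ n := by exact_mod_cast h1
    have h2' : newCount F ℓ S f n = sY n - sS n := by exact_mod_cast h2
    unfold openCount at h1'
    unfold newCount at h2'
    have h3 := hct n hn
    rw [h3] at h2'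
    linear_combination -h2' + ((ℓ : ℤ) - 1) * h1'
  have hcong := mod_identity (ℓ := ℓ) _ _ hL0 hG0 _ _ (fun n => (t n : ℤ)) hL hG (by
      ext n
      rw [map_sub, map_add, map_add, map_nsmul, map_nsmul,
        PowerSeries.coeff_C_mul,
        PowerSeries.coeff_mk, PowerSeries.coeff_mk, PowerSeries.coeff_mk, PowerSeries.coeff_mk,
        PowerSeries.coeff_mk, nsmul_eq_mul, nsmul_eq_mul, hcast]
      rcases Nat.eq_zero_or_pos n with rfl | hn
      · simp
      · simp only [if_neg (show ¬ n = 0 by omega)]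
        exact hrel n hn) (fun n hn => by exact_mod_cast ht n hn)
  have hmap : (QY.reverse * E₂.reverse ^ (ℓ - 1)).map (Int.castRingHom (ZMod ℓ)) =
      (QS.reverse * E₁.reverse ^ (ℓ - 1)).map (Int.castRingHom (ZMod ℓ)) := by
    ext n
    rw [coeff_map, coeff_map, ← sub_eq_zero, ← map_sub, eq_intCast,
      ZMod.intCast_zmod_eq_zero_iff_dvd]
    exact hcong n
  rw [Polynomial.map_mul, Polynomial.map_mul, Polynomial.map_pow, Polynomial.map_pow] at hmap
  exact hmap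

/-- The reduction of the `L`-polynomial. -/
theorem g_lpoly_eq (ℓ : ℕ) (hℓ : ℓ.Prime) (χ : MulChar F (AlgebraicClosure ℚ))
    (hχ : orderOf χ = ℓ) {r : ℕ} (S : Set (MvPolynomial (Fin r) F)) (f : MvPolynomial (Fin r) F)
    (E₁ E₂ QS Q₁ : ℤ[X]) (R : (AlgebraicClosure ℚ)[X])
    (hU : IsVirtualFrob (openCount F S f) E₁ E₂)
    (hQ : IsVirtualFrob (newCount F ℓ S (MvPolynomial.C 1 * f)) Q₁ QS)
    (hR : IsLPolynomial F ℓ χ S f R)
    (AO : Multiset (integralClosure ℤ (AlgebraicClosure ℚ)))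
    (hAO : AO.map (algebraMap _ (AlgebraicClosure ℚ)) = R.roots)
    {κ : Type} [Field κ] [hκ : CharP κ ℓ]
    (red : integralClosure ℤ (AlgebraicClosure ℚ) →+* κ)
    (hconj : ∀ σ : AlgebraicClosure ℚ ≃ₐ[ℚ] AlgebraicClosure ℚ,
        pr ((AO.map (intAut σ)).map red) = pr (AO.map red)) :
    pr (AO.map red) * E₂.reverse.map (Int.castRingHom κ) =
      E₁.reverse.map (Int.castRingHom κ) := by
  classical
  have hF := Fact.mk hℓ
  have hq : ℓ ∣ Fintype.card F - 1 := hχ ▸ MulChar.orderOf_dvd_card_sub_one F χ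
  let _ : Algebra (ZMod ℓ) κ := ZMod.algebra κ ℓ
  obtain ⟨σ, hσ⟩ := exists_sigma ℓ hℓ
  have h1 := g_count_twist F ℓ hℓ χ hχ S f QS Q₁ R 1 one_ne_zero hQ hR σ hσ
  have h2 : rt QS + ∑ j ∈ Finset.range (ℓ - 1),
        R.roots.map (fun α => (χ ^ (j + 1)) 1 * σ j α) =
      rt QS + ∑ j ∈ Finset.range (ℓ - 1), R.roots.map (fun α => σ j α) := by
    congr 1
    apply Finset.sum_congr rfl
    intro j _
    apply Multiset.map_congr rfl
    intro α _
    rw [MulChar.map_one, one_mul]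
  rw [h2] at h1
  have hps : ps (rt Q₁) = ps (rt QS + ∑ j ∈ Finset.range (ℓ - 1),
      R.roots.map (fun α => σ j α)) := by
    unfold ps
    ext n
    rw [PowerSeries.coeff_mk, PowerSeries.coeff_mk]
    rcases Nat.eq_zero_or_pos n with rfl | hn
    · simp
    · rw [if_neg (by omega), if_neg (by omega), h1 n hn]
  have h3 : pr (rt Q₁) = pr (rt QS) * ∏ j ∈ Finset.range (ℓ - 1),
      pr (R.roots.map (fun α => σ j α)) := by
    rw [← pr_sum, ← pr_add]
    exact LD_unique _ _ (pr_coeff_zero _) (pr_coeff_zero _) (ps (rt Q₁)) (LD_pr _)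
      (by rw [hps]; exact LD_pr _)
  rw [← reverse_rt Q₁ hQ.1, ← reverse_rt QS hQ.2.1] at h3
  have hinj : Function.Injective (algebraMap (integralClosure ℤ (AlgebraicClosure ℚ))
    (AlgebraicClosure ℚ)) := Subtype.val_injective
  have h4 : Q₁.reverse.map (Int.castRingHom (integralClosure ℤ (AlgebraicClosure ℚ))) =
      QS.reverse.map (Int.castRingHom (integralClosure ℤ (AlgebraicClosure ℚ))) *
        ∏ j ∈ Finset.range (ℓ - 1), pr (AO.map (intAut (σ j))) := by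
    apply map_injective _ hinj
    have hc : (algebraMap (integralClosure ℤ (AlgebraicClosure ℚ)) (AlgebraicClosure ℚ)).comp
        (Int.castRingHom (integralClosure ℤ (AlgebraicClosure ℚ))) =
        Int.castRingHom (AlgebraicClosure ℚ) := RingHom.ext_int _ _
    rw [Polynomial.map_mul, Polynomial.map_prod, Polynomial.map_map, Polynomial.map_map, hc, h3]
    congr 1
    apply Finset.prod_congr rfl
    intro j _
    rw [pr_map, ← hAO, Multiset.map_map, Multiset.map_map]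
    rfl
  have h5 := congrArg (Polynomial.map red) h4
  have hρ : red.comp (Int.castRingHom (integralClosure ℤ (AlgebraicClosure ℚ))) =
      Int.castRingHom κ := RingHom.ext_int _ _
  rw [Polynomial.map_mul, Polynomial.map_prod, Polynomial.map_map, Polynomial.map_map, hρ,
    Finset.prod_congr rfl (fun j _ => by
      rw [pr_map, hconj (σ j)]), Finset.prod_const, Finset.card_range] at h5
  have hQ' : IsVirtualFrob (newCount F ℓ S f) Q₁ QS := by
    have : MvPolynomial.C 1 * f = f := by simp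
    rwa [this] at hQ
  have h8 := congrArg (Polynomial.map (algebraMap (ZMod ℓ) κ))
    (g_cover_poly F ℓ hℓ hq S f E₁ E₂ QS Q₁ hU hQ')
  have hρ2 : (algebraMap (ZMod ℓ) κ).comp (Int.castRingHom (ZMod ℓ)) = Int.castRingHom κ :=
    RingHom.ext_int _ _
  rw [Polynomial.map_mul, Polynomial.map_mul, Polynomial.map_pow, Polynomial.map_pow,
    Polynomial.map_map, Polynomial.map_map, Polynomial.map_map,
    Polynomial.map_map, hρ2, h5] at h8
  have hQS0 : QS.reverse.map (Int.castRingHom κ) ≠ 0 := by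
    rw [← hρ2, ← Polynomial.map_map]
    exact Polynomial.map_ne_zero (reverse_map_ne_zero ℓ QS hQ.2.1)
  have h9 : (pr (AO.map red) * E₂.reverse.map (Int.castRingHom κ)) ^ (ℓ - 1) =
      (E₁.reverse.map (Int.castRingHom κ)) ^ (ℓ - 1) := by
    rw [mul_pow]
    apply mul_left_cancel₀ hQS0
    linear_combination h8
  have c0 : ∀ Q : ℤ[X], Q.Monic → (Q.reverse.map (Int.castRingHom κ)).coeff 0 = 1 := by
    intro Q hQ
    rw [Polynomial.coeff_map, coeff_zero_reverse_monic Q hQ, map_one]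
  apply eq_of_pow_eq _ _ _ _ (ℓ - 1) _ h9
  · rw [mul_coeff_zero, pr_coeff_zero', c0 E₂ hU.2.1, one_mul]
  · exact c0 E₁ hU.1
  · rw [Nat.cast_sub hℓ.one_le, CharP.cast_eq_zero κ ℓ]
    simp

end Pool.Agent.Helper2.Tate
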