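import Pool.Agent.Helper2.Tate.LFinal

/-!
# All extensions of the base field
-/

set_option autoImplicit false

open Polynomial

namespace Pool.Agent.Helper2.Tate

/-- An automorphism raising the roots of unity of order dividing `N` to the power `t`. -/
theorem exists_conj_pow (N : ℕ) (hN : 0 < N) (t : ℕ) (ht : t.Coprime N) :
    ∃ σ : AlgebraicClosure ℚ ≃ₐ[ℚ] AlgebraicClosure ℚ,
      ∀ z : AlgebraicClosure ℚ, z ^ N = 1 → σ z = z ^ t := by
  have : NeZero N := ⟨hN.ne'⟩
  have : NeZero (N : AlgebraicClosure ℚ) := ⟨by exact_mod_cast hN.ne'⟩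
  obtain ⟨ζ, hζ⟩ := HasEnoughRootsOfUnity.exists_primitiveRoot (AlgebraicClosure ℚ) N
  have hζj : IsPrimitiveRoot (ζ ^ t) N := hζ.pow_of_coprime t ht
  have h : IsConjRoot ℚ (ζ ^ t) ζ := by
    rw [isConjRoot_def, ← cyclotomic_eq_minpoly_rat hζ hN,
      ← cyclotomic_eq_minpoly_rat hζj hN]
  have := normalQ
  obtain ⟨σ, hσ⟩ := h.exists_algEquiv
  refine ⟨σ, fun z hz => ?_⟩
  obtain ⟨k, _, rfl⟩ := hζ.eq_pow_of_pow_eq_one hz
  rw [map_pow, hσ, ← pow_mul, ← pow_mul, mul_comm]

/-- An exponent which is `1` modulo `ℓ` and `k` modulo `n` and prime to `M`. -/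
theorem exists_exponent (ℓ n M k : ℕ) (hℓ : ℓ.Prime) (hn : ¬ ℓ ∣ n) (hM : 0 < M)
    (hℓM : ℓ * n ∣ M) (hk : k.Coprime n) :
    ∃ t : ℕ, t.Coprime M ∧ t ≡ 1 [MOD ℓ] ∧ t ≡ k [MOD n] := by
  have hn0 : 0 < n := by
    rcases Nat.eq_zero_or_pos n with rfl | h
    · exact absurd (dvd_zero _) hn
    · exact h
  have hcop : Nat.Coprime ℓ n := (Nat.Prime.coprime_iff_not_dvd hℓ).2 hn
  obtain ⟨t₀, h1, h2⟩ := Nat.chineseRemainder hcop 1 k
  have h3 : t₀.Coprime (ℓ * n) := by
    apply Nat.Coprime.mul_right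
    · rw [Nat.Coprime, h1.gcd_eq, Nat.gcd_one_left]
    · rw [Nat.Coprime, h2.gcd_eq]; exact hk
  have : NeZero M := ⟨hM.ne'⟩
  have : NeZero (ℓ * n) := ⟨(Nat.mul_pos hℓ.pos hn0).ne'⟩
  obtain ⟨u, hu⟩ := ZMod.unitsMap_surjective hℓM (ZMod.unitOfCoprime t₀ h3)
  have h4 : (((u : ZMod M).val : ℕ) : ZMod (ℓ * n)) = t₀ := by
    have h5 := congrArg (fun x : (ZMod (ℓ * n))ˣ => (x : ZMod (ℓ * n))) hu
    simp only [ZMod.unitsMap_val, ZMod.coe_unitOfCoprime] at h5
    rw [← h5, ZMod.natCast_val]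
  have h5 : (u : ZMod M).val ≡ t₀ [MOD ℓ * n] := (ZMod.natCast_eq_natCast_iff _ _ _).1 h4
  exact ⟨(u : ZMod M).val, ZMod.val_coe_unit_coprime u, (h5.of_mul_right n).trans h1,
    (h5.of_mul_left ℓ).trans h2⟩

variable (F : Type) [Field F] [Fintype F]

/-- The congruence of characteristic polynomials. -/
theorem cover_poly (ℓ : ℕ) (hℓ : ℓ.Prime) (hq : ℓ ∣ Fintype.card F - 1) {r : ℕ}
    (S : Set (MvPolynomial (Fin r) F)) (f : MvPolynomial (Fin r) F) (A QS QB QY : ℤ[X])
    (hS : IsFrobSurface (Fintype.card F) (fun n => (points F S n).ncard) QS A)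
    (hB : IsFrobOne (Fintype.card F) (fun n => (points F (insert f S) n).ncard) QB)
    (hY : IsFrobSurface (Fintype.card F) (fun n => (coverPoints F ℓ S f n).ncard) QY A) :
    QY.reverse.map (Int.castRingHom (ZMod ℓ)) *
      (A.reverse.map (Int.castRingHom (ZMod ℓ))) ^ (ℓ - 1) =
      (QS.reverse.map (Int.castRingHom (ZMod ℓ))) ^ ℓ *
        (QB.reverse.map (Int.castRingHom (ZMod ℓ))) ^ (ℓ - 1) := by
  have hF := Fact.mk hℓ
  have hq2 : 2 ≤ Fintype.card F := Fintype.one_lt_card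
  obtain ⟨hSm, hAm, hSc⟩ := hS
  obtain ⟨hBm, hBc⟩ := hB
  obtain ⟨hYm, _, hYc⟩ := hY
  have hcount := count_cover F ℓ hℓ hq S f
  choose! t ht hct using hcount
  set q := Fintype.card F with hqdef
  have hApow : (A ^ (ℓ - 1)).Monic := hAm.pow _
  have hprod : ∀ n, powerSum (QY * A ^ (ℓ - 1)) n = powerSum QY n + (ℓ - 1) * powerSum A n := by
    intro n
    unfold powerSum
    rw [Polynomial.map_mul, roots_mul ((hYm.map _).mul (hApow.map _)).ne_zero,
      Polynomial.map_pow, roots_pow, Multiset.map_add, Multiset.sum_add, Multiset.map_nsmul,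
      Multiset.sum_nsmul, nsmul_eq_mul, Nat.cast_sub hℓ.one_le]
    push_cast
    ring
  obtain ⟨sA, hsA⟩ := exists_int_powerSum A hAm
  have key := congruence ℓ q (by omega) hq QS QB (QY * A ^ (ℓ - 1)) hSm hBm (hYm.mul hApow)
    (fun n => ((points F S n).ncard : ℤ) - 1 - (q : ℤ) ^ (2 * n) + sA n)
    (fun n => 1 + (q : ℤ) ^ n - ((points F (insert f S) n).ncard : ℤ))
    (fun n => ((coverPoints F ℓ S f n).ncard : ℤ) - 1 - (q : ℤ) ^ (2 * n) + ℓ * sA n)
    (fun n => (t n : ℤ)) (by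
      intro n hn
      have := hSc n hn
      simp only at this
      push_cast
      rw [this, hsA n hn]; ring) (by
      intro n hn
      have := hBc n hn
      simp only at this
      push_cast
      rw [this]; ring) (by
      intro n hn
      have := hYc n hn
      simp only at this
      push_cast
      rw [hprod, this, hsA n hn]; ring) (by
      intro n hn
      exact_mod_cast ht n hn) (by
      intro n hn
      rw [hct n hn]
      ring)
  have hrevpow : ∀ k : ℕ, (A ^ k).reverse = A.reverse ^ k := by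
    intro k
    induction k with
    | zero => simpa using reverse_C (1 : ℤ)
    | succ k ih => rw [pow_succ, reverse_mul_of_domain, ih, pow_succ]
  rw [reverse_mul_of_domain, Polynomial.map_mul, hrevpow, Polynomial.map_pow] at key
  exact key

/-- Uniqueness of roots of polynomials with constant term `1`. -/
theorem eq_of_pow_eq {κ : Type*} [Field κ] (a b : κ[X]) (ha : a.coeff 0 = 1)
    (hb : b.coeff 0 = 1) (k : ℕ) (hk : (k : κ) ≠ 0) (h : a ^ k = b ^ k) : a = b := by
  have h1 := (Commute.all a b).geom_sum₂_mul k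
  rw [h, sub_self] at h1
  rcases mul_eq_zero.1 h1 with h2 | h2
  · exfalso
    apply hk
    have h3 := congrArg (fun p => Polynomial.eval 0 p) h2
    simp only [eval_finsetSum, eval_mul, eval_pow, eval_zero] at h3
    rw [coeff_zero_eq_eval_zero] at ha hb
    rw [ha, hb] at h3
    simpa using h3
  · exact sub_eq_zero.1 h2

theorem pr_coeff_zero' {R : Type*} [CommRing R] (A : Multiset R) : (pr A).coeff 0 = 1 := by
  induction A using Multiset.induction_on with
  | empty => unfold pr; simp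
  | cons α A ih => rw [pr_cons, mul_coeff_zero, ih]; simp

/-- The reduction of the `L`-polynomial. -/
theorem lpoly_eq (ℓ : ℕ) (hℓ : ℓ.Prime) (χ : MulChar F (AlgebraicClosure ℚ))
    (hχ : orderOf χ = ℓ) {r : ℕ} (S : Set (MvPolynomial (Fin r) F)) (f : MvPolynomial (Fin r) F)
    (A QS QB Q₁ : ℤ[X]) (R : (AlgebraicClosure ℚ)[X])
    (hS : IsFrobSurface (Fintype.card F) (fun n => (points F S n).ncard) QS A)
    (hB : IsFrobOne (Fintype.card F) (fun n => (points F (insert f S) n).ncard) QB)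
    (hQ : IsFrobSurface (Fintype.card F)
      (fun n => (coverPoints F ℓ S (MvPolynomial.C 1 * f) n).ncard) Q₁ A)
    (hR : IsLPolynomial F ℓ χ S f R)
    (AO : Multiset (integralClosure ℤ (AlgebraicClosure ℚ)))
    (hAO : AO.map (algebraMap _ (AlgebraicClosure ℚ)) = R.roots)
    {κ : Type} [Field κ] [hκ : CharP κ ℓ]
    (red : integralClosure ℤ (AlgebraicClosure ℚ) →+* κ)
    (hconj : ∀ σ : AlgebraicClosure ℚ ≃ₐ[ℚ] AlgebraicClosure ℚ,
        pr ((AO.map (intAut σ)).map red) = pr (AO.map red)) :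
    pr (AO.map red) * A.reverse.map (Int.castRingHom κ) =
      QS.reverse.map (Int.castRingHom κ) * QB.reverse.map (Int.castRingHom κ) := by
  classical
  have hF := Fact.mk hℓ
  have hq : ℓ ∣ Fintype.card F - 1 := hχ ▸ MulChar.orderOf_dvd_card_sub_one F χ
  let _ : Algebra (ZMod ℓ) κ := ZMod.algebra κ ℓ
  have hσ : ∀ j : ℕ, ∃ σ : AlgebraicClosure ℚ ≃ₐ[ℚ] AlgebraicClosure ℚ, j < ℓ - 1 →
      ∀ z : AlgebraicClosure ℚ, z ^ ℓ = 1 → σ z = z ^ (j + 1) := by
    intro j
    by_cases hj : j < ℓ - 1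
    · obtain ⟨σ, hσ⟩ := exists_conj ℓ hℓ (j + 1) (by omega) (by omega)
      exact ⟨σ, fun _ => hσ⟩
    · exact ⟨AlgEquiv.refl, fun h => absurd h hj⟩
  choose σ hσ using hσ
  have h1 := count_twist F ℓ hℓ χ hχ S f A QS Q₁ R 1 one_ne_zero hS hQ hR σ hσ
  have h2 : rt QS + ∑ j ∈ Finset.range (ℓ - 1),
        R.roots.map (fun α => (χ ^ (j + 1)) 1 * σ j α) =
      rt QS + ∑ j ∈ Finset.range (ℓ - 1), R.roots.map (fun α => σ j α) := by
    congr 1
    apply Finset.sum_congr rfl
    intro j _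
    apply Multiset.map_congr rfl
    intro α _
    rw [MulChar.map_one, one_mul]
  rw [h2] at h1
  have hps : ps (rt Q₁) = ps (rt QS + ∑ j ∈ Finset.range (ℓ - 1),
      R.roots.map (fun α => σ j α)) := by
    unfold ps
    ext n
    rw [PowerSeries.coeff_mk, PowerSeries.coeff_mk]
    rcases Nat.eq_zero_or_pos n with rfl | hn
    · simp
    · rw [if_neg (by omega), if_neg (by omega), h1 n hn]
  have h3 : pr (rt Q₁) = pr (rt QS) * ∏ j ∈ Finset.range (ℓ - 1),
      pr (R.roots.map (fun α => σ j α)) := by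
    rw [← pr_sum, ← pr_add]
    exact LD_unique _ _ (pr_coeff_zero _) (pr_coeff_zero _) (ps (rt Q₁)) (LD_pr _)
      (by rw [hps]; exact LD_pr _)
  rw [← reverse_rt Q₁ hQ.1, ← reverse_rt QS hS.1] at h3
  have hinj : Function.Injective (algebraMap (integralClosure ℤ (AlgebraicClosure ℚ))
    (AlgebraicClosure ℚ)) := Subtype.val_injective
  have h4 : Q₁.reverse.map (Int.castRingHom (integralClosure ℤ (AlgebraicClosure ℚ))) =
      QS.reverse.map (Int.castRingHom (integralClosure ℤ (AlgebraicClosure ℚ))) *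
        ∏ j ∈ Finset.range (ℓ - 1), pr (AO.map (intAut (σ j))) := by
    apply map_injective _ hinj
    have hc : (algebraMap (integralClosure ℤ (AlgebraicClosure ℚ)) (AlgebraicClosure ℚ)).comp
        (Int.castRingHom (integralClosure ℤ (AlgebraicClosure ℚ))) =
        Int.castRingHom (AlgebraicClosure ℚ) := RingHom.ext_int _ _
    rw [Polynomial.map_mul, Polynomial.map_prod, Polynomial.map_map, Polynomial.map_map, hc, h3]
    congr 1
    apply Finset.prod_congr rfl
    intro j _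
    rw [pr_map, ← hAO, Multiset.map_map, Multiset.map_map]
    rfl
  have h5 := congrArg (Polynomial.map red) h4
  have hρ : red.comp (Int.castRingHom (integralClosure ℤ (AlgebraicClosure ℚ))) =
      Int.castRingHom κ := RingHom.ext_int _ _
  rw [Polynomial.map_mul, Polynomial.map_prod, Polynomial.map_map, Polynomial.map_map, hρ,
    Finset.prod_congr rfl (fun j _ => by
      rw [pr_map, hconj (σ j)]), Finset.prod_const, Finset.card_range] at h5
  have hQ' : IsFrobSurface (Fintype.card F) (fun n => (coverPoints F ℓ S f n).ncard) Q₁ A := by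
    have : MvPolynomial.C 1 * f = f := by simp
    rwa [this] at hQ
  have h8 := congrArg (Polynomial.map (algebraMap (ZMod ℓ) κ))
    (cover_poly F ℓ hℓ hq S f A QS QB Q₁ hS hB hQ')
  have hρ2 : (algebraMap (ZMod ℓ) κ).comp (Int.castRingHom (ZMod ℓ)) = Int.castRingHom κ :=
    RingHom.ext_int _ _
  rw [Polynomial.map_mul, Polynomial.map_mul, Polynomial.map_pow, Polynomial.map_pow,
    Polynomial.map_pow, Polynomial.map_map, Polynomial.map_map, Polynomial.map_map,
    Polynomial.map_map, hρ2, h5] at h8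
  have hQS0 : QS.reverse.map (Int.castRingHom κ) ≠ 0 := by
    rw [← hρ2, ← Polynomial.map_map]
    exact Polynomial.map_ne_zero (reverse_map_ne_zero ℓ QS hS.1)
  obtain ⟨l, hl⟩ : ∃ l, ℓ = l + 1 := ⟨ℓ - 1, by have := hℓ.pos; omega⟩
  have h9 : (pr (AO.map red) * A.reverse.map (Int.castRingHom κ)) ^ (ℓ - 1) =
      (QS.reverse.map (Int.castRingHom κ) * QB.reverse.map (Int.castRingHom κ)) ^ (ℓ - 1) := by
    have e1 : (QS.reverse.map (Int.castRingHom κ)) ^ ℓ =
        QS.reverse.map (Int.castRingHom κ) * (QS.reverse.map (Int.castRingHom κ)) ^ (ℓ - 1) := by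
      rw [← pow_succ']
      congr 1
      omega
    rw [e1] at h8
    rw [mul_pow, mul_pow]
    apply mul_left_cancel₀ hQS0
    linear_combination h8
  have c0 : ∀ Q : ℤ[X], Q.Monic → (Q.reverse.map (Int.castRingHom κ)).coeff 0 = 1 := by
    intro Q hQ
    rw [Polynomial.coeff_map, coeff_zero_reverse_monic Q hQ, map_one]
  apply eq_of_pow_eq _ _ _ _ (ℓ - 1) _ h9
  · rw [mul_coeff_zero, pr_coeff_zero', c0 A hS.2.1, one_mul]
  · rw [mul_coeff_zero, c0 QS hS.1, c0 QB hB.1, one_mul]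
  · rw [Nat.cast_sub hℓ.one_le, CharP.cast_eq_zero κ ℓ]
    simp

end Pool.Agent.Helper2.Tate
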