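import Pool.Agent.Helper2.Tate.Dickson

/-!
# Points of the twists of a cyclic covering
-/

set_option autoImplicit false

open MvPolynomial

namespace Pool.Agent.Helper2.Tate

variable (F : Type) [Field F] [Fintype F]

theorem cover_scale (ℓ n : ℕ) (f₁ f₂ : MvPolynomial (Fin 3) F) (b : AlgebraicClosure F)
    (hb0 : b ≠ 0) (hb : RatOver F n b)
    (h : ∀ P : Fin 3 → AlgebraicClosure F, aeval P f₂ = b ^ ℓ * aeval P f₁) :
    (coverPoints F ℓ ∅ f₂ n).ncard = (coverPoints F ℓ ∅ f₁ n).ncard := by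
  have hinj : Function.Injective (fun x : (Fin 3 → AlgebraicClosure F) × AlgebraicClosure F =>
      (x.1, b * x.2)) := by
    rintro ⟨P, x⟩ ⟨P', x'⟩ h
    simp only [Prod.mk.injEq] at h
    obtain ⟨rfl, h⟩ := h
    rw [mul_left_cancel₀ hb0 h]
  have hmul : ∀ c d : AlgebraicClosure F, RatOver F n c → RatOver F n d →
      RatOver F n (c * d) := by
    intro c d hc hd
    unfold RatOver at *
    rw [mul_pow, hc, hd]
  rw [← Set.ncard_image_of_injective (coverPoints F ℓ ∅ f₁ n) hinj]
  congr 1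
  ext ⟨P, w⟩
  simp only [Set.mem_image, coverPoints, Set.mem_ofPred_eq, Prod.mk.injEq, Prod.exists]
  constructor
  · rintro ⟨h1, h2, h3⟩
    refine ⟨P, b⁻¹ * w, ⟨h1, ?_, ?_⟩, rfl, ?_⟩
    · apply hmul _ _ _ h2
      unfold RatOver at *
      rw [inv_pow, hb]
    · rw [mul_pow, h3, h, inv_pow, ← mul_assoc, inv_mul_cancel₀ (pow_ne_zero _ hb0), one_mul]
    · rw [← mul_assoc, mul_inv_cancel₀ hb0, one_mul]
  · rintro ⟨P', w', ⟨h1, h2, h3⟩, rfl, rfl⟩
    refine ⟨h1, hmul _ _ hb h2, ?_⟩
    rw [mul_pow, h3, h]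

theorem root_ratOver (ℓ n : ℕ) (hq : ℓ ∣ Fintype.card F - 1) (hn : ℓ ∣ n) (c : F) (hc : c ≠ 0)
    (b : AlgebraicClosure F) (hb : b ^ ℓ = algebraMap F (AlgebraicClosure F) c) :
    RatOver F n b := by
  set q := Fintype.card F with hqdef
  have hq2 : 2 ≤ q := Fintype.one_lt_card
  set ζ := b ^ (q - 1) with hζ
  have hyq : b ^ q = ζ * b := by
    rw [hζ, ← pow_succ]
    congr 1
    omega
  have hζM : ζ ^ ℓ = 1 := by
    rw [hζ, ← pow_mul, mul_comm, pow_mul, hb, ← map_pow,
      FiniteField.pow_card_sub_one_eq_one c hc, map_one]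
  have hζq : ζ ^ q = ζ := by
    obtain ⟨s, hs⟩ := hq
    have h2 : q = ℓ * s + 1 := by omega
    rw [h2, pow_succ, pow_mul, hζM, one_pow, one_mul]
  have hit : ∀ j : ℕ, b ^ (q ^ j) = ζ ^ j * b := by
    intro j
    induction j with
    | zero => simp
    | succ j ih =>
      rw [pow_succ, pow_mul, ih, mul_pow, ← pow_mul, mul_comm j q, pow_mul, hζq, hyq, pow_succ]
      ring
  obtain ⟨m, rfl⟩ := hn
  unfold RatOver
  rw [hit, pow_mul, hζM, one_pow, one_mul]

/-- Over the extensions of degree divisible by `ℓ` all twists have the same number of points. -/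
theorem cover_twist_of_dvd (ℓ n : ℕ) (hℓ : ℓ.Prime) (hq : ℓ ∣ Fintype.card F - 1) (hn : ℓ ∣ n)
    (c : F) (hc : c ≠ 0) (f : MvPolynomial (Fin 3) F) :
    (coverPoints F ℓ ∅ (C c * f) n).ncard = (coverPoints F ℓ ∅ f n).ncard := by
  obtain ⟨b, hb⟩ := IsAlgClosed.exists_pow_nat_eq (algebraMap F (AlgebraicClosure F) c) hℓ.pos
  have hb0 : b ≠ 0 := by
    rintro rfl
    rw [zero_pow hℓ.ne_zero] at hb
    exact hc ((map_eq_zero _).1 hb.symm)
  apply cover_scale F ℓ n f (C c * f) b hb0 (root_ratOver F ℓ n hq hn c hc b hb)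
  intro P
  rw [map_mul, algHom_C, hb]

/-- Twists by elements of the same class have the same number of points. -/
theorem cover_twist_class (ℓ n : ℕ) (c b : F) (hb : b ≠ 0)
    (f : MvPolynomial (Fin 3) F) :
    (coverPoints F ℓ ∅ (C (c * b ^ ℓ) * f) n).ncard = (coverPoints F ℓ ∅ (C c * f) n).ncard := by
  apply cover_scale F ℓ n (C c * f) (C (c * b ^ ℓ) * f) (algebraMap F (AlgebraicClosure F) b)
    ((map_ne_zero _).2 hb)
  · unfold RatOver
    rw [← map_pow, FiniteField.pow_card_pow]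
  · intro P
    simp only [map_mul, algHom_C, map_pow]
    ring

theorem exists_bezout (ℓ q n : ℕ) (hℓ : ℓ.Prime) (hq2 : 2 ≤ q) (hq : ℓ ∣ q - 1)
    (hnℓ : ¬ ℓ ∣ n) : ∃ s e t : ℕ, (q - 1) * s = q ^ n - 1 ∧ ℓ * e = 1 + s * t := by
  have h1 : (q - 1) * (∑ i ∈ Finset.range n, q ^ i) = q ^ n - 1 := by
    have := Nat.geomSum_eq hq2 n
    rw [this]
    exact Nat.mul_div_cancel' (Nat.sub_one_dvd_pow_sub_one q n)
  set s := ∑ i ∈ Finset.range n, q ^ i with hs
  have hq1 : ((q : ℕ) : ZMod ℓ) = 1 := by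
    obtain ⟨k, hk⟩ := hq
    have h2 : q = ℓ * k + 1 := by omega
    rw [h2]; push_cast; simp
  have hsn : ((s : ℕ) : ZMod ℓ) = (n : ZMod ℓ) := by
    rw [hs]
    push_cast
    rw [hq1]
    simp
  have hcop : Nat.Coprime ℓ s := by
    rw [Nat.Prime.coprime_iff_not_dvd hℓ]
    intro h
    apply hnℓ
    rw [← ZMod.natCast_eq_zero_iff] at h ⊢
    rw [← hsn, h]
  have hs0 : 0 < s := by
    rcases Nat.eq_zero_or_pos s with h | h
    · rw [h, Nat.coprime_zero_right] at hcop
      exact absurd hcop hℓ.one_lt.ne'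
    · exact h
  rcases Nat.lt_or_ge 1 s with hs1 | hs1
  · obtain ⟨e, _, he⟩ := Nat.exists_mul_mod_eq_one_of_coprime hcop hs1
    refine ⟨s, e, ℓ * e / s, h1, ?_⟩
    have := Nat.mod_add_div (ℓ * e) s
    rw [he] at this
    exact this.symm
  · refine ⟨s, 1, ℓ - 1, h1, ?_⟩
    have : s = 1 := by omega
    rw [this]
    have := hℓ.pos
    omega

/-- The number of pairs `(c, w)` with `w ^ ℓ = c v`. -/
theorem pairs_card (ℓ n : ℕ) (hℓ : ℓ.Prime) (hq : ℓ ∣ Fintype.card F - 1)
    (hnℓ : ¬ ℓ ∣ n) (v : AlgebraicClosure F) (hv : RatOver F n v) :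
    {x : F × AlgebraicClosure F | x.1 ≠ 0 ∧ RatOver F n x.2 ∧
      x.2 ^ ℓ = algebraMap F (AlgebraicClosure F) x.1 * v}.ncard = Fintype.card F - 1 := by
  classical
  have hcard : {c : F | c ≠ 0}.ncard = Fintype.card F - 1 := by
    have : {c : F | c ≠ 0} = ((Finset.univ.erase (0 : F) : Finset F) : Set F) := by
      ext c; simp
    rw [this, Set.ncard_coe_finset, Finset.card_erase_of_mem (Finset.mem_univ _),
      Finset.card_univ]
  rw [← hcard]
  set q := Fintype.card F with hqdef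
  have hq2 : 2 ≤ q := Fintype.one_lt_card
  by_cases hv0 : v = 0
  · have hinj : Function.Injective (fun c : F => (c, (0 : AlgebraicClosure F))) := by
      intro c d h
      exact congrArg Prod.fst h
    rw [← Set.ncard_image_of_injective {c : F | c ≠ 0} hinj]
    congr 1
    ext ⟨c, w⟩
    simp only [Set.mem_image, Set.mem_ofPred_eq, Prod.mk.injEq, hv0, mul_zero]
    constructor
    · rintro ⟨h1, _, h3⟩
      exact ⟨c, h1, rfl, (eq_zero_of_pow_eq_zero h3).symm⟩
    · rintro ⟨c', h1, rfl, rfl⟩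
      exact ⟨h1, ratOver_zero F n, zero_pow hℓ.ne_zero⟩
  · obtain ⟨s, e, t, hs, he⟩ := exists_bezout ℓ q n hℓ hq2 hq hnℓ
    have hqn : 1 ≤ q ^ n := Nat.one_le_pow _ _ (by omega)
    have hpow1 : ∀ x : AlgebraicClosure F, x ≠ 0 → RatOver F n x → x ^ (q ^ n - 1) = 1 := by
      intro x hx0 hx
      unfold RatOver at hx
      have h1 : x ^ (q ^ n - 1) * x = 1 * x := by
        rw [← pow_succ, one_mul, Nat.sub_add_cancel hqn]
        exact hx
      exact mul_right_cancel₀ hx0 h1
    -- elements of `F`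
    have hF : ∀ x : AlgebraicClosure F, x ^ (q - 1) = 1 →
        ∃ b : F, b ≠ 0 ∧ algebraMap F (AlgebraicClosure F) b = x := by
      intro x hx
      have h1 : x ^ q = x := by
        have h2 : q = (q - 1) + 1 := by omega
        rw [h2, pow_succ, hx, one_mul]
      obtain ⟨b, hb⟩ := mem_range_of_pow_card F x h1
      refine ⟨b, ?_, hb⟩
      rintro rfl
      rw [map_zero] at hb
      rw [← hb, zero_pow (by omega)] at hx
      exact zero_ne_one hx
    have hvs : (v ^ s) ^ (q - 1) = 1 := by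
      rw [← pow_mul, mul_comm, hs]
      exact hpow1 v hv0 hv
    obtain ⟨c₁, hc₁0, hc₁⟩ := hF _ hvs
    -- the special solution
    set c₀ : F := c₁ ^ t with hc₀
    have hc₀0 : c₀ ≠ 0 := pow_ne_zero _ hc₁0
    set w₀ : AlgebraicClosure F := v ^ e with hw₀
    have hw₀0 : w₀ ≠ 0 := pow_ne_zero _ hv0
    have hw₀r : RatOver F n w₀ := ratOver_pow F n e v hv
    have hw₀e : w₀ ^ ℓ = algebraMap F (AlgebraicClosure F) c₀ * v := by
      rw [hw₀, ← pow_mul, mul_comm e ℓ, he, pow_add, pow_one, pow_mul, ← hc₁, hc₀, map_pow,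
        mul_comm]
    have hinj : Function.Injective (fun b : F => (c₀ * b ^ ℓ,
        algebraMap F (AlgebraicClosure F) b * w₀)) := by
      intro b d h
      have h1 := congrArg Prod.snd h
      exact (algebraMap F (AlgebraicClosure F)).injective (mul_right_cancel₀ hw₀0 h1)
    have hrF : ∀ b : F, RatOver F n (algebraMap F (AlgebraicClosure F) b) := by
      intro b
      unfold RatOver
      rw [← map_pow, FiniteField.pow_card_pow]
    have hmul : ∀ c d : AlgebraicClosure F, RatOver F n c → RatOver F n d →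
        RatOver F n (c * d) := by
      intro c d hc hd
      unfold RatOver at *
      rw [mul_pow, hc, hd]
    rw [← Set.ncard_image_of_injective {c : F | c ≠ 0} hinj]
    congr 1
    ext ⟨c, w⟩
    simp only [Set.mem_image, Set.mem_ofPred_eq, Prod.mk.injEq]
    constructor
    · rintro ⟨hc, hw, hwe⟩
      have hw0 : w ≠ 0 := by
        rintro rfl
        rw [zero_pow hℓ.ne_zero] at hwe
        exact (mul_ne_zero ((map_ne_zero _).2 hc) hv0) hwe.symm
      set x := w * w₀⁻¹ with hx
      have hx0 : x ≠ 0 := mul_ne_zero hw0 (inv_ne_zero hw₀0)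
      have hxr : RatOver F n x := by
        apply hmul _ _ hw
        unfold RatOver at *
        rw [inv_pow, hw₀r]
      have hxe : x ^ ℓ * algebraMap F (AlgebraicClosure F) c₀ =
          algebraMap F (AlgebraicClosure F) c := by
        have h1 : x ^ ℓ * w₀ ^ ℓ = w ^ ℓ := by
          rw [hx, mul_pow, inv_pow, mul_assoc, inv_mul_cancel₀ (pow_ne_zero _ hw₀0), mul_one]
        rw [hw₀e, hwe] at h1
        apply mul_right_cancel₀ hv0
        rw [← h1]; ring
      have hxl : (x ^ ℓ) ^ (q - 1) = 1 := by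
        have h1 : x ^ ℓ = algebraMap F (AlgebraicClosure F) (c / c₀) := by
          rw [map_div₀, ← hxe, mul_div_assoc, div_self ((map_ne_zero _).2 hc₀0), mul_one]
        rw [h1, ← map_pow, FiniteField.pow_card_sub_one_eq_one _ (div_ne_zero hc hc₀0), map_one]
      have hx1 : x ^ (q - 1) = 1 := by
        have h1 : (x ^ (q - 1)) ^ (1 + s * t) = 1 := by
          rw [← he, pow_mul, ← pow_mul x, mul_comm (q - 1) ℓ, pow_mul, hxl, one_pow]
        have h2 : (x ^ (q - 1)) ^ (s * t) = 1 := by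
          rw [pow_mul, ← pow_mul x, hs, hpow1 x hx0 hxr, one_pow]
        rw [pow_add, pow_one, h2, mul_one] at h1
        exact h1
      obtain ⟨b, hb0, hb⟩ := hF x hx1
      refine ⟨b, hb0, ?_, ?_⟩
      · apply (algebraMap F (AlgebraicClosure F)).injective
        have h2 : algebraMap F (AlgebraicClosure F) (b ^ ℓ) = x ^ ℓ := by rw [map_pow, hb]
        rw [map_mul, h2, ← hxe, mul_comm]
      · rw [hb, hx, mul_assoc, inv_mul_cancel₀ hw₀0, mul_one]
    · rintro ⟨b, hb0, rfl, rfl⟩
      refine ⟨mul_ne_zero hc₀0 (pow_ne_zero _ hb0), hmul _ _ (hrF b) hw₀r, ?_⟩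
      have h2 : algebraMap F (AlgebraicClosure F) (b ^ ℓ) =
          (algebraMap F (AlgebraicClosure F) b) ^ ℓ := map_pow _ _ _
      rw [mul_pow, hw₀e, map_mul, h2]
      ring

/-- The sum over all twists of the numbers of points. -/
theorem sum_twists (ℓ n : ℕ) (hℓ : ℓ.Prime) (hq : ℓ ∣ Fintype.card F - 1) (hn : 1 ≤ n)
    (hnℓ : ¬ ℓ ∣ n) (f : MvPolynomial (Fin 3) F) [DecidableEq F] :
    ∑ c ∈ Finset.univ.erase (0 : F), (coverPoints F ℓ ∅ (C c * f) n).ncard =
      (Fintype.card F - 1) * (points F (∅ : Set (MvPolynomial (Fin 3) F)) n).ncard := by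
  classical
  have hPf := points_finite F (∅ : Set (MvPolynomial (Fin 3) F)) n hn
  have hKf := Kn_finite (Ω := AlgebraicClosure F) (Fintype.card F) n Fintype.one_lt_card hn
  set PP := hPf.toFinset with hPP
  set K := hKf.toFinset with hK
  have h1 : ∀ c : F, (coverPoints F ℓ ∅ (C c * f) n).ncard =
      ∑ P ∈ PP, ∑ w ∈ K, if w ^ ℓ = algebraMap F (AlgebraicClosure F) c * aeval P f
        then 1 else 0 := by
    intro c
    have h2 : coverPoints F ℓ ∅ (C c * f) n = (((PP ×ˢ K).filter (fun x => x.2 ^ ℓ =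
        algebraMap F (AlgebraicClosure F) c * aeval x.1 f) : Finset _) : Set _) := by
      ext ⟨P, w⟩
      simp only [coverPoints, Set.mem_ofPred_eq, Finset.coe_filter, Finset.mem_product, hPP, hK,
        Set.Finite.mem_toFinset, map_mul, algHom_C]
      tauto
    rw [h2, Set.ncard_coe_finset, Finset.card_filter, Finset.sum_product]
  rw [Finset.sum_congr rfl (fun c _ => h1 c), Finset.sum_comm]
  have h3 : ∀ P ∈ PP, ∑ c ∈ Finset.univ.erase (0 : F), ∑ w ∈ K,
      (if w ^ ℓ = algebraMap F (AlgebraicClosure F) c * aeval P f then 1 else 0) =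
      Fintype.card F - 1 := by
    intro P hP
    have hPr : P ∈ points F (∅ : Set (MvPolynomial (Fin 3) F)) n := by
      simpa [hPP] using hP
    have hv : RatOver F n (aeval P f) := by
      have h5 := (Frob_fixed F 3 n P).2 hPr.2.1
      rw [ratOver_iff]
      have h6 : ∀ (k : ℕ) (P : Fin 3 → AlgebraicClosure F), aeval ((Frob F 3)^[k] P) f =
          (⇑(frob F))^[k] (aeval P f) := by
        intro k
        induction k with
        | zero => intro P; rfl
        | succ k ih =>
          intro P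
          rw [Function.iterate_succ_apply, Function.iterate_succ_apply, ih]
          congr 1
          exact frob_aeval F P f
      rw [← h6, h5]
    rw [← pairs_card F ℓ n hℓ hq hnℓ (aeval P f) hv]
    have h4 : {x : F × AlgebraicClosure F | x.1 ≠ 0 ∧ RatOver F n x.2 ∧
        x.2 ^ ℓ = algebraMap F (AlgebraicClosure F) x.1 * aeval P f} =
        ((((Finset.univ.erase (0 : F)) ×ˢ K).filter (fun x => x.2 ^ ℓ =
        algebraMap F (AlgebraicClosure F) x.1 * aeval P f) : Finset _) : Set _) := by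
      ext ⟨c, w⟩
      simp only [Set.mem_ofPred_eq, Finset.coe_filter, Finset.mem_product, hK,
        Set.Finite.mem_toFinset, Finset.mem_erase, Finset.mem_univ, and_true, and_assoc]
      rfl
    rw [h4, Set.ncard_coe_finset, Finset.card_filter, Finset.sum_product]
  rw [Finset.sum_congr rfl h3, Finset.sum_const, smul_eq_mul, mul_comm,
    Set.ncard_eq_toFinset_card _ hPf]

end Pool.Agent.Helper2.Tate
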