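import Pool.Agent.Helper2.Tate.LDefs
import Pool.Agent.Helper2.Tate.TwistCount

/-!
# Points of the covering in terms of character sums
-/

set_option autoImplicit false

open MvPolynomial

namespace Pool.Agent.Helper2.Tate

variable (F : Type) [Field F] [Fintype F]

/-- The kernel of a character of order `ℓ`. -/
theorem char_eq_one_iff (ℓ : ℕ) (hℓ : ℓ.Prime) (χ : MulChar F (AlgebraicClosure ℚ))
    (hχ : orderOf χ = ℓ) (e : ℕ) (he : Fintype.card F - 1 = ℓ * e) (a : F) (ha : a ≠ 0) :
    χ a = 1 ↔ a ^ e = 1 := by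
  classical
  have hF := Fact.mk hℓ
  have hq2 : 2 ≤ Fintype.card F := Fintype.one_lt_card
  have he0 : 0 < e := by
    rcases Nat.eq_zero_or_pos e with rfl | h
    · omega
    · exact h
  obtain ⟨g, hg⟩ := IsCyclic.exists_generator (α := Fˣ)
  obtain ⟨k, hk⟩ : ∃ k : ℕ, g ^ k = Units.mk0 a ha := by
    have := mem_powers_iff_mem_zpowers.2 (hg (Units.mk0 a ha))
    exact (Submonoid.mem_powers_iff _ _).1 this
  have horder : orderOf g = ℓ * e := by
    rw [orderOf_eq_card_of_forall_mem_zpowers hg, Nat.card_eq_fintype_card, Fintype.card_units, he]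
  have hak : a = ((g ^ k : Fˣ) : F) := by rw [hk]; rfl
  have h1 : χ g ^ ℓ = 1 := by
    rw [← MulChar.pow_apply_coe, ← hχ, pow_orderOf_eq_one, MulChar.one_apply_coe]
  have h2 : χ g ≠ 1 := by
    intro h
    have : χ = 1 := by
      rw [MulChar.eq_one_iff]
      intro b
      obtain ⟨s, hs⟩ := (Submonoid.mem_powers_iff _ _).1 (mem_powers_iff_mem_zpowers.2 (hg b))
      rw [← hs, Units.val_pow_eq_pow_val, map_pow, h, one_pow]
    rw [this, orderOf_one] at hχ
    exact hℓ.one_lt.ne hχ
  have h3 : orderOf (χ g) = ℓ := orderOf_eq_prime h1 h2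
  have h4 : χ a = 1 ↔ ℓ ∣ k := by
    rw [hak, Units.val_pow_eq_pow_val, map_pow, ← h3]
    exact orderOf_dvd_iff_pow_eq_one.symm
  have h5 : a ^ e = 1 ↔ ℓ ∣ k := by
    rw [hak, ← Units.val_pow_eq_pow_val, ← pow_mul, Units.val_eq_one,
      ← orderOf_dvd_iff_pow_eq_one, horder]
    exact Nat.mul_dvd_mul_iff_right he0
  rw [h4, h5]

/-- The number of `ℓ`-th roots. -/
theorem ncard_roots_pow (ℓ n : ℕ) (hℓ : ℓ.Prime) (hq : ℓ ∣ Fintype.card F - 1)
    (D : ℕ) (hD : Fintype.card F ^ n - 1 = ℓ * D) (x : AlgebraicClosure F) (hx0 : x ≠ 0)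
    [Decidable (x ^ D = 1)] :
    {w : AlgebraicClosure F | RatOver F n w ∧ w ^ ℓ = x}.ncard = if x ^ D = 1 then ℓ else 0 := by
  classical
  have hF := Fact.mk hℓ
  have hq2 : 2 ≤ Fintype.card F := Fintype.one_lt_card
  have hqn : 1 ≤ Fintype.card F ^ n := Nat.one_le_pow _ _ (by omega)
  have hrat : ∀ w : AlgebraicClosure F, w ^ ℓ = x → (RatOver F n w ↔ x ^ D = 1) := by
    intro w hw
    have hw0 : w ≠ 0 := by
      rintro rfl
      rw [zero_pow hℓ.ne_zero] at hw
      exact hx0 hw.symm
    unfold RatOver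
    have h1 : w ^ (Fintype.card F ^ n) = x ^ D * w := by
      rw [← hw, ← pow_mul, ← hD, ← pow_succ, Nat.sub_add_cancel hqn]
    rw [h1]
    constructor
    · intro h
      exact mul_right_cancel₀ hw0 (by rw [h, one_mul])
    · intro h
      rw [h, one_mul]
  split
  · rename_i h
    have : NeZero (ℓ : AlgebraicClosure F) := ⟨cast_ne_zero F ℓ hℓ hq⟩
    obtain ⟨ζ, hζ⟩ : ∃ ζ : AlgebraicClosure F, IsPrimitiveRoot ζ ℓ :=
      HasEnoughRootsOfUnity.exists_primitiveRoot _ ℓ
    obtain ⟨w₀, hw₀⟩ := IsAlgClosed.exists_pow_nat_eq x hℓ.pos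
    have hw₀0 : w₀ ≠ 0 := by
      rintro rfl
      rw [zero_pow hℓ.ne_zero] at hw₀
      exact hx0 hw₀.symm
    have h1 : {w : AlgebraicClosure F | RatOver F n w ∧ w ^ ℓ = x} =
        (((Finset.range ℓ).image (fun s => ζ ^ s * w₀) : Finset (AlgebraicClosure F)) :
          Set (AlgebraicClosure F)) := by
      ext w
      simp only [Set.mem_ofPred_eq, Finset.coe_image, Set.mem_image, Finset.coe_range,
        Set.mem_Iio]
      constructor
      · rintro ⟨_, hw⟩
        have h2 : (w / w₀) ^ ℓ = 1 := by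
          rw [div_pow, hw, hw₀, div_self hx0]
        have : NeZero ℓ := ⟨hℓ.ne_zero⟩
        obtain ⟨s, hs, hs'⟩ := hζ.eq_pow_of_pow_eq_one h2
        exact ⟨s, hs, by rw [hs', div_mul_cancel₀ _ hw₀0]⟩
      · rintro ⟨s, _, rfl⟩
        have h2 : (ζ ^ s * w₀) ^ ℓ = x := by
          rw [mul_pow, ← pow_mul, mul_comm s, pow_mul, hζ.pow_eq_one, one_pow, one_mul, hw₀]
        exact ⟨(hrat _ h2).2 h, h2⟩
    rw [h1, Set.ncard_coe_finset, Finset.card_image_of_injOn, Finset.card_range]
    intro s hs t ht hst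
    have := mul_right_cancel₀ hw₀0 hst
    exact hζ.pow_inj (Finset.mem_range.1 hs) (Finset.mem_range.1 ht) this
  · rename_i h
    have h1 : {w : AlgebraicClosure F | RatOver F n w ∧ w ^ ℓ = x} = ∅ := by
      ext w
      simp only [Set.mem_ofPred_eq, Set.mem_empty_iff_false, iff_false, not_and]
      intro hw hw2
      exact h ((hrat w hw2).1 hw)
    rw [h1, Set.ncard_empty]

/-- The norm of an element of the extension of degree `n` lies in the field `F`. -/
theorem norm_mem (n : ℕ) (b : AlgebraicClosure F) (hb : RatOver F n b) :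
    ∃ a : F, b ^ (∑ i ∈ Finset.range n, Fintype.card F ^ i) =
      algebraMap F (AlgebraicClosure F) a := by
  have hq2 : 2 ≤ Fintype.card F := Fintype.one_lt_card
  have hqn : 1 ≤ Fintype.card F ^ n := Nat.one_le_pow _ _ (by omega)
  set s := ∑ i ∈ Finset.range n, Fintype.card F ^ i with hs
  have h1 : (Fintype.card F - 1) * s = Fintype.card F ^ n - 1 := by
    have := Nat.geomSum_eq hq2 n
    rw [hs, this]
    exact Nat.mul_div_cancel' (Nat.sub_one_dvd_pow_sub_one _ n)
  have h2 : (b ^ s) ^ Fintype.card F = b ^ s := by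
    by_cases hb0 : b = 0
    · subst hb0
      rcases Nat.eq_zero_or_pos s with h | h
      · rw [h, pow_zero, one_pow]
      · rw [zero_pow (by omega), zero_pow (by omega)]
    · have h3 : b ^ (Fintype.card F ^ n - 1) = 1 := by
        unfold RatOver at hb
        have h4 : b ^ (Fintype.card F ^ n - 1) * b = 1 * b := by
          rw [← pow_succ, one_mul, Nat.sub_add_cancel hqn]
          exact hb
        exact mul_right_cancel₀ hb0 h4
      rw [← pow_mul]
      have h4 : s * Fintype.card F = (Fintype.card F ^ n - 1) + s := by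
        rw [← h1, mul_comm]
        have : Fintype.card F = (Fintype.card F - 1) + 1 := by omega
        conv_lhs => rw [this]
        ring
      rw [h4, pow_add, h3, one_mul]
  obtain ⟨a, ha⟩ := mem_range_of_pow_card F (b ^ s) h2
  exact ⟨a, ha.symm⟩

/-- The number of points of the fibre in terms of the character. -/
theorem fibre_count (ℓ : ℕ) (hℓ : ℓ.Prime) (χ : MulChar F (AlgebraicClosure ℚ))
    (hχ : orderOf χ = ℓ) (n : ℕ) (hn : 1 ≤ n) (c : F) (hc : c ≠ 0) (b : AlgebraicClosure F)
    (a : F) (hab : b ^ (∑ i ∈ Finset.range n, Fintype.card F ^ i) =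
      algebraMap F (AlgebraicClosure F) a) :
    (({w : AlgebraicClosure F | RatOver F n w ∧
      w ^ ℓ = algebraMap F (AlgebraicClosure F) c * b}.ncard : ℕ) : AlgebraicClosure ℚ) =
      1 + ∑ j ∈ Finset.range (ℓ - 1), ((χ ^ (j + 1)) c) ^ n * (χ ^ (j + 1)) a := by
  classical
  have hq2 : 2 ≤ Fintype.card F := Fintype.one_lt_card
  have hqn : 1 ≤ Fintype.card F ^ n := Nat.one_le_pow _ _ (by omega)
  have hq : ℓ ∣ Fintype.card F - 1 := hχ ▸ MulChar.orderOf_dvd_card_sub_one F χ
  obtain ⟨e, he⟩ := id hq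
  set s := ∑ i ∈ Finset.range n, Fintype.card F ^ i with hs
  have h1 : (Fintype.card F - 1) * s = Fintype.card F ^ n - 1 := by
    have := Nat.geomSum_eq hq2 n
    rw [hs, this]
    exact Nat.mul_div_cancel' (Nat.sub_one_dvd_pow_sub_one _ n)
  have hs0 : 0 < s := by
    rw [hs]
    apply Finset.sum_pos
    · intro i _
      exact pow_pos (by omega) i
    · rw [Finset.nonempty_range_iff]; omega
  by_cases hb : b = 0
  · have ha : a = 0 := by
      rw [hb, zero_pow (by omega)] at hab
      exact (map_eq_zero _).1 hab.symm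
    have h2 : {w : AlgebraicClosure F | RatOver F n w ∧
        w ^ ℓ = algebraMap F (AlgebraicClosure F) c * b} = {0} := by
      ext w
      simp only [hb, mul_zero, Set.mem_ofPred_eq, Set.mem_singleton_iff]
      constructor
      · rintro ⟨_, h⟩; exact eq_zero_of_pow_eq_zero h
      · rintro rfl
        exact ⟨ratOver_zero F n, zero_pow hℓ.ne_zero⟩
    rw [h2, Set.ncard_singleton, ha, Finset.sum_eq_zero]
    · simp
    · intro j _
      rw [MulChar.map_zero, mul_zero]
  · have ha : a ≠ 0 := by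
      rintro rfl
      rw [map_zero] at hab
      exact hb (eq_zero_of_pow_eq_zero hab)
    set x : AlgebraicClosure F := algebraMap F (AlgebraicClosure F) c * b with hx
    have hx0 : x ≠ 0 := mul_ne_zero ((map_ne_zero _).2 hc) hb
    have hD : Fintype.card F ^ n - 1 = ℓ * (e * s) := by
      rw [← h1, he]; ring
    have hcs : c ^ s = c ^ n := by
      have h3 : ∀ k : ℕ, c ^ (∑ i ∈ Finset.range k, Fintype.card F ^ i) = c ^ k := by
        intro k
        induction k with
        | zero => simp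
        | succ k ih =>
          rw [Finset.sum_range_succ, pow_add, ih, FiniteField.pow_card_pow, pow_succ]
      exact h3 n
    have hxD : x ^ (e * s) = algebraMap F (AlgebraicClosure F) ((c ^ n * a) ^ e) := by
      rw [mul_comm e s, pow_mul, hx, mul_pow, hab, ← map_pow, hcs, ← map_mul, ← map_pow]
    have hMne : c ^ n * a ≠ 0 := mul_ne_zero (pow_ne_zero _ hc) ha
    have hcond : x ^ (e * s) = 1 ↔ χ (c ^ n * a) = 1 := by
      rw [char_eq_one_iff F ℓ hℓ χ hχ e he _ hMne, hxD]
      rw [← map_one (algebraMap F (AlgebraicClosure F))]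
      exact (algebraMap F (AlgebraicClosure F)).injective.eq_iff
    rw [ncard_roots_pow F ℓ n hℓ hq (e * s) hD x hx0]
    have h5 : ∀ j ∈ Finset.range (ℓ - 1), ((χ ^ (j + 1)) c) ^ n * (χ ^ (j + 1)) a =
        (χ (c ^ n * a)) ^ (j + 1) := by
      intro j _
      rw [MulChar.pow_apply' _ (by omega : j + 1 ≠ 0), MulChar.pow_apply' _ (by omega : j + 1 ≠ 0),
        map_mul, map_pow]
      ring
    rw [Finset.sum_congr rfl h5]
    have h6 : (1 : AlgebraicClosure ℚ) + ∑ j ∈ Finset.range (ℓ - 1), (χ (c ^ n * a)) ^ (j + 1) =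
        ∑ j ∈ Finset.range ℓ, (χ (c ^ n * a)) ^ j := by
      obtain ⟨l, hl⟩ : ∃ l, ℓ = l + 1 := ⟨ℓ - 1, by have := hℓ.pos; omega⟩
      rw [hl, Nat.add_sub_cancel, Finset.sum_range_succ', pow_zero, add_comm]
    rw [h6]
    by_cases h7 : χ (c ^ n * a) = 1
    · rw [if_pos (hcond.2 h7), h7]
      simp
    · rw [if_neg (fun h => h7 (hcond.1 h))]
      have h8 : (χ (c ^ n * a)) ^ ℓ = 1 := by
        rw [← MulChar.pow_apply' _ hℓ.ne_zero, ← hχ, pow_orderOf_eq_one, MulChar.one_apply]
        exact IsUnit.mk0 _ hMne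
      have h9 := geom_sum_mul (χ (c ^ n * a)) ℓ
      rw [h8, sub_self] at h9
      rcases mul_eq_zero.1 h9 with h10 | h10
      · rw [h10]; simp
      · exact absurd (sub_eq_zero.1 h10) h7

theorem aeval_ratOver {r : ℕ} (n : ℕ) (f : MvPolynomial (Fin r) F)
    (P : Fin r → AlgebraicClosure F) (hP : ∀ i, RatOver F n (P i)) : RatOver F n (aeval P f) := by
  have h5 := (Frob_fixed F r n P).2 hP
  rw [ratOver_iff]
  have h6 : ∀ (k : ℕ) (P : Fin r → AlgebraicClosure F), aeval ((Frob F r)^[k] P) f =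
      (⇑(frob F))^[k] (aeval P f) := by
    intro k
    induction k with
    | zero => intro P; rfl
    | succ k ih =>
      intro P
      rw [Function.iterate_succ_apply, Function.iterate_succ_apply, ih]
      congr 1
      exact frob_aeval F P f
  rw [← h6, h5]

/-- The number of points of the covering in terms of character sums. -/
theorem cover_charSum (ℓ : ℕ) (hℓ : ℓ.Prime) (χ : MulChar F (AlgebraicClosure ℚ))
    (hχ : orderOf χ = ℓ) {r : ℕ} (S : Set (MvPolynomial (Fin r) F)) (f : MvPolynomial (Fin r) F)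
    (n : ℕ) (hn : 1 ≤ n) (c : F) (hc : c ≠ 0) :
    ((coverPoints F ℓ S (C c * f) n).ncard : AlgebraicClosure ℚ) =
      (points F S n).ncard +
        ∑ j ∈ Finset.range (ℓ - 1), ((χ ^ (j + 1)) c) ^ n * charSum F (χ ^ (j + 1)) S f n := by
  classical
  have hPf := points_finite F S n hn
  have hKf := Kn_finite (Ω := AlgebraicClosure F) (Fintype.card F) n Fintype.one_lt_card hn
  set PP := hPf.toFinset with hPP
  set K := hKf.toFinset with hK
  -- the norm
  have hnorm : ∀ P : Fin r → AlgebraicClosure F, P ∈ points F S n → ∃ a : F,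
      aeval P f ^ (∑ i ∈ Finset.range n, Fintype.card F ^ i) =
        algebraMap F (AlgebraicClosure F) a := by
    intro P hP
    exact norm_mem F n _ (aeval_ratOver F n f P hP.2.1)
  choose! N hN using hnorm
  have h2 : coverPoints F ℓ S (C c * f) n = (((PP ×ˢ K).filter (fun x => x.2 ^ ℓ =
      algebraMap F (AlgebraicClosure F) c * aeval x.1 f) : Finset _) : Set _) := by
    ext ⟨P, w⟩
    simp only [coverPoints, Set.mem_ofPred_eq, Finset.coe_filter, Finset.mem_product, hPP, hK,
      Set.Finite.mem_toFinset, map_mul, algHom_C]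
    tauto
  have h3 : (coverPoints F ℓ S (C c * f) n).ncard = ∑ P ∈ PP,
      {w : AlgebraicClosure F | RatOver F n w ∧
        w ^ ℓ = algebraMap F (AlgebraicClosure F) c * aeval P f}.ncard := by
    rw [h2, Set.ncard_coe_finset, Finset.card_filter, Finset.sum_product]
    apply Finset.sum_congr rfl
    intro P _
    have h4 : {w : AlgebraicClosure F | RatOver F n w ∧
        w ^ ℓ = algebraMap F (AlgebraicClosure F) c * aeval P f} =
        ((K.filter (fun w => w ^ ℓ = algebraMap F (AlgebraicClosure F) c * aeval P f) :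
          Finset _) : Set _) := by
      ext w
      simp only [Set.mem_ofPred_eq, Finset.coe_filter, hK, Set.Finite.mem_toFinset]
      rfl
    rw [h4, Set.ncard_coe_finset, Finset.card_filter]
  have h5 : ∀ j : ℕ, charSum F (χ ^ (j + 1)) S f n = ∑ P ∈ PP, (χ ^ (j + 1)) (N P) := by
    intro j
    unfold charSum
    have h6 : ∀ a : F, normPoints F S f n a = ((PP.filter (fun P => N P = a) : Finset _) :
        Set _) := by
      intro a
      ext P
      simp only [normPoints, Set.mem_ofPred_eq, Finset.coe_filter, hPP, Set.Finite.mem_toFinset]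
      constructor
      · rintro ⟨hP, h7⟩
        refine ⟨hP, ?_⟩
        apply (algebraMap F (AlgebraicClosure F)).injective
        rw [← hN P hP, h7]
      · rintro ⟨hP, rfl⟩
        exact ⟨hP, hN P hP⟩
    simp only [h6, Set.ncard_coe_finset]
    rw [← Finset.sum_fiberwise PP N (fun P => (χ ^ (j + 1)) (N P))]
    apply Finset.sum_congr rfl
    intro a _
    rw [Finset.sum_congr rfl (g := fun _ => (χ ^ (j + 1)) a)
      (fun P hP => by rw [(Finset.mem_filter.1 hP).2]), Finset.sum_const, nsmul_eq_mul, mul_comm]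
  rw [h3, Nat.cast_sum, Finset.sum_congr rfl (fun P hP => fibre_count F ℓ hℓ χ hχ n hn c hc
    (aeval P f) (N P) (hN P (by simpa [hPP] using hP)))]
  rw [Finset.sum_add_distrib, Finset.sum_const, nsmul_one, Finset.sum_comm]
  have h8 : (points F S n).ncard = PP.card := Set.ncard_eq_toFinset_card _ hPf
  rw [h8]
  congr 1
  apply Finset.sum_congr rfl
  intro j _
  rw [h5, Finset.mul_sum]

end Pool.Agent.Helper2.Tate
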