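import Pool.Agent.Helper2.Tate.Defs

/-!
# The `L`-function of a character of order `ℓ`: definitions
-/

set_option autoImplicit false

namespace Pool.Agent.Helper2.Tate

/-- `Q` is the characteristic polynomial of the Frobenius on the second cohomology group, and `A` is
the product of the ones on the first and on the third cohomology group, of a smooth projective
surface over the field with `q` elements having `c n` points over the extension of degree `n`: the
surface has `1 + q ^ (2 n) + (sum of the n-th powers of the roots of Q) - (the one of A)` points. -/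
def IsFrobSurface (q : ℕ) (c : ℕ → ℕ) (Q A : Polynomial ℤ) : Prop :=
  Q.Monic ∧ A.Monic ∧
    ∀ n : ℕ, 1 ≤ n → (c n : ℂ) = 1 + (q : ℂ) ^ (2 * n) + powerSum Q n - powerSum A n

/-- The multiplicity of the root `1` of `Q` modulo `ℓ`. -/
noncomputable def ordOne (ℓ : ℕ) (Q : Polynomial ℤ) : ℕ :=
  (Q.map (Int.castRingHom (ZMod ℓ))).rootMultiplicity 1

variable (F : Type) [Field F] [Fintype F]

/-- The points `P` over the extension of degree `n` of `F` of the projective set `S = 0` for which
the norm `f(P) ^ (1 + q + ... + q ^ (n - 1))` of `f(P)` is `a`. -/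
def normPoints {r : ℕ} (S : Set (MvPolynomial (Fin r) F)) (f : MvPolynomial (Fin r) F) (n : ℕ)
    (a : F) : Set (Fin r → AlgebraicClosure F) :=
  {P | P ∈ points F S n ∧
    MvPolynomial.aeval P f ^ (∑ i ∈ Finset.range n, Fintype.card F ^ i) =
      algebraMap F (AlgebraicClosure F) a}

/-- The sum of `χ(N(f(P)))` over the points `P` over the extension of degree `n` of `F` of the
projective set `S = 0`. -/
noncomputable def charSum {r : ℕ} (χ : MulChar F (AlgebraicClosure ℚ))
    (S : Set (MvPolynomial (Fin r) F)) (f : MvPolynomial (Fin r) F) (n : ℕ) :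
    AlgebraicClosure ℚ :=
  ∑ a : F, χ a * ((normPoints F S f n a).ncard : AlgebraicClosure ℚ)

/-- The `L`-function of `χ(f)` on the projective set `S = 0` is the inverse of the reversed
polynomial of `R`: the polynomial `R` is monic, its coefficients are in `ℤ[ζ_ℓ]` and the sums of
the `n`-th powers of its roots are the character sums. -/
def IsLPolynomial {r : ℕ} (ℓ : ℕ) (χ : MulChar F (AlgebraicClosure ℚ))
    (S : Set (MvPolynomial (Fin r) F)) (f : MvPolynomial (Fin r) F)
    (R : Polynomial (AlgebraicClosure ℚ)) : Prop :=
  R.Monic ∧ (∀ i, R.coeff i ∈ Subring.closure {z : AlgebraicClosure ℚ | z ^ ℓ = 1}) ∧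
    ∀ n : ℕ, 1 ≤ n → charSum F χ S f n = (R.roots.map (fun α => α ^ n)).sum

end Pool.Agent.Helper2.Tate
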