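import Pool.Agent.Helper2.Tate.LNu

/-!
# The theorem on the twists of a cyclic covering
-/

set_option autoImplicit false

open Polynomial

namespace Pool.Agent.Helper2.Tate

variable (F : Type) [Field F] [Fintype F]

/-- The fibres of `c ↦ q / χ(c)`. -/
theorem card_fibre_le (ℓ : ℕ) (hℓ : ℓ.Prime) (χ : MulChar F (AlgebraicClosure ℚ))
    (hχ : orderOf χ = ℓ) (e : ℕ) (he : Fintype.card F - 1 = ℓ * e)
    [DecidableEq F] [DecidableEq (AlgebraicClosure ℚ)] (b : AlgebraicClosure ℚ) :
    ((Finset.univ.erase (0 : F)).filter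
      (fun c => (Fintype.card F : AlgebraicClosure ℚ) * (χ c)⁻¹ = b)).card ≤ e := by
  classical
  have hq2 : 2 ≤ Fintype.card F := Fintype.one_lt_card
  have hq0 : (Fintype.card F : AlgebraicClosure ℚ) ≠ 0 := by
    have : Fintype.card F ≠ 0 := by omega
    exact_mod_cast this
  have he0 : 0 < e := by
    rcases Nat.eq_zero_or_pos e with rfl | h
    · omega
    · exact h
  set T := (Finset.univ.erase (0 : F)).filter
    (fun c => (Fintype.card F : AlgebraicClosure ℚ) * (χ c)⁻¹ = b) with hT
  rcases T.eq_empty_or_nonempty with h | ⟨a, ha⟩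
  · rw [h]; simp
  · have hmem : ∀ c ∈ T, c ≠ 0 ∧ (Fintype.card F : AlgebraicClosure ℚ) * (χ c)⁻¹ = b := by
      intro c hc
      rw [hT, Finset.mem_filter, Finset.mem_erase] at hc
      exact ⟨hc.1.1, hc.2⟩
    obtain ⟨ha0, hab⟩ := hmem a ha
    have h1 : T.image (fun c => c / a) ⊆ (nthRoots e (1 : F)).toFinset := by
      intro x hx
      obtain ⟨c, hc, rfl⟩ := Finset.mem_image.1 hx
      obtain ⟨hc0, hcb⟩ := hmem c hc
      rw [Multiset.mem_toFinset, mem_nthRoots he0]
      apply (char_eq_one_iff F ℓ hℓ χ hχ e he _ (div_ne_zero hc0 ha0)).1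
      have h2 : χ c = χ a := by
        rw [← hab] at hcb
        exact inv_injective (mul_left_cancel₀ hq0 hcb)
      have h3 : χ (c / a) * χ a = χ a := by
        rw [← map_mul, div_mul_cancel₀ _ ha0, h2]
      have h4 : χ a ≠ 0 := by
        rw [MulChar.apply_ne_zero_iff]
        exact IsUnit.mk0 _ ha0
      exact mul_right_cancel₀ h4 (by rw [h3, one_mul])
    have h5 : (T.image (fun c => c / a)).card = T.card := by
      apply Finset.card_image_of_injective
      intro x y hxy
      exact (div_left_inj' ha0).1 hxy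
    rw [← h5]
    exact (Finset.card_le_card h1).trans
      ((Multiset.toFinset_card_le _).trans (card_nthRoots e 1))

/-- The sum over the twists. -/
theorem sum_count_le (ℓ : ℕ) (hℓ : ℓ.Prime) (χ : MulChar F (AlgebraicClosure ℚ))
    (hχ : orderOf χ = ℓ) (e : ℕ) (he : Fintype.card F - 1 = ℓ * e)
    (AO : Multiset (integralClosure ℤ (AlgebraicClosure ℚ)))
    {κ : Type} [Field κ] [hκ : CharP κ ℓ] [DecidableEq κ] [DecidableEq F]
    [DecidableEq (AlgebraicClosure ℚ)]
    (red : integralClosure ℤ (AlgebraicClosure ℚ) →+* κ) :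
    ∑ c ∈ Finset.univ.erase (0 : F), (AO.map (algebraMap _ (AlgebraicClosure ℚ))).count
      ((Fintype.card F : AlgebraicClosure ℚ) * (χ c)⁻¹) ≤ e * (AO.map red).count 1 := by
  classical
  have hF := Fact.mk hℓ
  have hq2 : 2 ≤ Fintype.card F := Fintype.one_lt_card
  set B := AO.map (algebraMap (integralClosure ℤ (AlgebraicClosure ℚ)) (AlgebraicClosure ℚ))
    with hB
  rw [Finset.sum_comp (fun b => B.count b)
    (fun c : F => (Fintype.card F : AlgebraicClosure ℚ) * (χ c)⁻¹)]
  set I := (Finset.univ.erase (0 : F)).image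
    (fun c : F => (Fintype.card F : AlgebraicClosure ℚ) * (χ c)⁻¹) with hI
  calc ∑ b ∈ I, ((Finset.univ.erase (0 : F)).filter
        (fun c => (Fintype.card F : AlgebraicClosure ℚ) * (χ c)⁻¹ = b)).card • B.count b
      ≤ ∑ b ∈ I, e * B.count b := by
        apply Finset.sum_le_sum
        intro b _
        rw [smul_eq_mul]
        exact Nat.mul_le_mul_right _ (card_fibre_le F ℓ hℓ χ hχ e he b)
    _ = e * ∑ b ∈ I, B.count b := by rw [Finset.mul_sum]
    _ ≤ e * (AO.map red).count 1 := by
        apply Nat.mul_le_mul_left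
        rw [← card_filter_mem, hB, Multiset.filter_map, Multiset.card_map, Multiset.count,
          Multiset.countP_map]
        apply Multiset.card_le_card
        apply Multiset.monotone_filter_right
        intro x hx
        simp only [Function.comp] at hx
        rw [hI, Finset.mem_image] at hx
        obtain ⟨c, hc, hcx⟩ := hx
        have hc0 : c ≠ 0 := (Finset.mem_erase.1 hc).1
        have hχc : (χ c) ^ ℓ = 1 := by
          rw [← MulChar.pow_apply' _ hℓ.ne_zero, ← hχ, pow_orderOf_eq_one, MulChar.one_apply]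
          exact IsUnit.mk0 _ hc0
        have h9 : x ^ ℓ = (Fintype.card F : integralClosure ℤ (AlgebraicClosure ℚ)) ^ ℓ := by
          apply Subtype.ext
          have h10 : ((x : integralClosure ℤ (AlgebraicClosure ℚ)) : AlgebraicClosure ℚ) =
              (Fintype.card F : AlgebraicClosure ℚ) * (χ c)⁻¹ := hcx.symm
          push_cast
          rw [h10, mul_pow, inv_pow, hχc, inv_one, mul_one]
        have h11 : red (Fintype.card F : integralClosure ℤ (AlgebraicClosure ℚ)) = 1 := by
          have h1 : Fintype.card F = ℓ * e + 1 := by omega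
          rw [map_natCast, h1]
          push_cast
          rw [CharP.cast_eq_zero κ ℓ]; ring
        have h12 := congrArg red h9
        rw [map_pow, map_pow, h11, one_pow] at h12
        exact (pow_eq_one_of_char ℓ 1 (red x) (by rw [pow_one]; exact h12)).symm

theorem points_scale {r : ℕ} (S : Set (MvPolynomial (Fin r) F)) (f : MvPolynomial (Fin r) F)
    (c : F) (hc : c ≠ 0) (n : ℕ) :
    points F (insert (MvPolynomial.C c * f) S) n = points F (insert f S) n := by
  ext P
  simp only [points, Set.mem_ofPred_eq, Set.mem_insert_iff, forall_eq_or_imp, map_mul,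
    MvPolynomial.algHom_C]
  have h1 : algebraMap F (AlgebraicClosure F) c * (MvPolynomial.aeval P) f = 0 ↔
      (MvPolynomial.aeval P) f = 0 := by
    rw [mul_eq_zero, or_iff_right ((_root_.map_ne_zero _).2 hc)]
  rw [h1]

/-- The theorem on twists. -/
theorem twists_general (ℓ : ℕ) (hℓ : ℓ.Prime) (χ : MulChar F (AlgebraicClosure ℚ))
    (hχ : orderOf χ = ℓ) {r : ℕ} (S : Set (MvPolynomial (Fin r) F)) (f : MvPolynomial (Fin r) F)
    (A QS QB : ℤ[X]) (Q : F → ℤ[X]) (R : (AlgebraicClosure ℚ)[X])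
    (hS : IsFrobSurface (Fintype.card F) (fun n => (points F S n).ncard) QS A)
    (hB : IsFrobOne (Fintype.card F) (fun n => (points F (insert f S) n).ncard) QB)
    (hQ : ∀ c : F, c ≠ 0 → IsFrobSurface (Fintype.card F)
      (fun n => (coverPoints F ℓ S (MvPolynomial.C c * f) n).ncard) (Q c) A)
    (hR : IsLPolynomial F ℓ χ S f R) :
    ∃ (N : F → ℕ) (o : ℕ), o + ordOne ℓ A = ordOne ℓ QS + ordOne ℓ QB ∧
      (∀ c : F, c ≠ 0 → mult (Fintype.card F) (Q c) 1 =
        mult (Fintype.card F) QS 1 + (ℓ - 1) * N c) ∧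
      ℓ * ∑ c : F, N c ≤ (Fintype.card F - 1) * o ∧
      ℓ * {c : F | c ≠ 0 ∧ mult (Fintype.card F) (Q c) 1 ≠ mult (Fintype.card F) QS 1}.ncard ≤
        (Fintype.card F - 1) * o ∧
      ∀ c : F, c ≠ 0 → ∀ j : ℕ,
        mult (Fintype.card F) (Q c) (ℓ ^ j) ≤ ordOne ℓ QS + (ℓ - 1) * o := by
  classical
  have hF := Fact.mk hℓ
  have hq2 : 2 ≤ Fintype.card F := Fintype.one_lt_card
  have hq : ℓ ∣ Fintype.card F - 1 := hχ ▸ MulChar.orderOf_dvd_card_sub_one F χ
  obtain ⟨e, he⟩ := id hq
  obtain ⟨AO, hAO, hconj⟩ := exists_lift ℓ R hR.1 hR.2.1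
  obtain ⟨κ, _, red, hκ⟩ := exists_red ℓ
  have hnu := nu_eq F ℓ hℓ χ hχ S f A QS QB (Q 1) R hS hB (hQ 1 one_ne_zero) hR AO hAO red
    (fun σ => hconj red σ)
  have hsum := sum_count_le F ℓ hℓ χ hχ e he AO red
  rw [hAO] at hsum
  set N : F → ℕ := fun c => if c = 0 then 0 else
    R.roots.count ((Fintype.card F : AlgebraicClosure ℚ) * (χ c)⁻¹) with hN
  have hN1 : ∀ c : F, c ≠ 0 → mult (Fintype.card F) (Q c) 1 =
      mult (Fintype.card F) QS 1 + (ℓ - 1) * N c := by
    intro c hc
    rw [mult_twist F ℓ hℓ χ hχ S f A QS (Q c) R c hc hS (hQ c hc) hR, hN]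
    simp only
    rw [if_neg hc]
  have hN2 : ∑ c : F, N c = ∑ c ∈ Finset.univ.erase (0 : F),
      R.roots.count ((Fintype.card F : AlgebraicClosure ℚ) * (χ c)⁻¹) := by
    rw [← Finset.add_sum_erase Finset.univ N (Finset.mem_univ 0)]
    have : N 0 = 0 := by rw [hN]; simp
    rw [this, zero_add]
    apply Finset.sum_congr rfl
    intro c hc
    rw [hN]
    simp only
    rw [if_neg (Finset.mem_erase.1 hc).1]
  have hN3 : ℓ * ∑ c : F, N c ≤ (Fintype.card F - 1) * (AO.map red).count 1 := by
    rw [hN2, he, mul_assoc]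
    exact Nat.mul_le_mul_left _ hsum
  refine ⟨N, (AO.map red).count 1, hnu, hN1, hN3, ?_, ?_⟩
  · refine le_trans (Nat.mul_le_mul_left _ ?_) hN3
    have h1 : {c : F | c ≠ 0 ∧ mult (Fintype.card F) (Q c) 1 ≠ mult (Fintype.card F) QS 1} =
        (((Finset.univ : Finset F).filter (fun c => c ≠ 0 ∧
          mult (Fintype.card F) (Q c) 1 ≠ mult (Fintype.card F) QS 1) : Finset F) : Set F) := by
      ext c; simp
    rw [h1, Set.ncard_coe_finset, Finset.card_eq_sum_ones, Finset.sum_filter]
    apply Finset.sum_le_sum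
    intro c _
    split
    · rename_i hc
      rw [hN1 c hc.1] at hc
      by_contra h
      have h2 : N c = 0 := by omega
      rw [h2] at hc
      exact hc.2 (by ring)
    · exact Nat.zero_le _
  · intro c hc j
    refine (mult_le ℓ (Fintype.card F) (by omega) hq (Q c) (hQ c hc).1 j).trans ?_
    rw [ordOne_reverse ℓ (Q c) (hQ c hc).1]
    have h1 := ordOne_cover F ℓ hℓ hq S (MvPolynomial.C c * f) A QS QB (Q c) hS
      (by simpa only [points_scale F S f c hc] using hB) (hQ c hc)
    have h11 : ∀ o : ℕ, ℓ * o = (ℓ - 1) * o + o := by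
      intro o
      have := hℓ.pos
      calc ℓ * o = ((ℓ - 1) + 1) * o := by congr 1; omega
        _ = (ℓ - 1) * o + o := by ring
    rw [h11] at h1
    have h2 : (ℓ - 1) * ((AO.map red).count 1 + ordOne ℓ A) =
        (ℓ - 1) * (ordOne ℓ QS + ordOne ℓ QB) := by rw [hnu]
    rw [mul_add, mul_add] at h2
    omega

end Pool.Agent.Helper2.Tate
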