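import Pool.Agent.Helper2.Tate.LCount
import Pool.Agent.Helper2.Tate.LGalois
import Pool.Agent.Helper2.Tate.Conj

/-!
# The multiplicity of `q` for the twists of a cyclic covering of a surface
-/

set_option autoImplicit false

open Polynomial

namespace Pool.Agent.Helper2.Tate

/-- the roots over the algebraic numbers -/
noncomputable def rt (Q : ℤ[X]) : Multiset (AlgebraicClosure ℚ) :=
  (Q.map (Int.castRingHom (AlgebraicClosure ℚ))).roots

theorem exists_embedding : Nonempty (AlgebraicClosure ℚ →+* ℂ) := by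
  have := isAlgQ
  have ι : AlgebraicClosure ℚ →ₐ[ℚ] ℂ := IsAlgClosed.lift
  exact ⟨ι⟩

theorem roots_rt (ι : AlgebraicClosure ℚ →+* ℂ) (Q : ℤ[X]) :
    (Q.map (Int.castRingHom ℂ)).roots = (rt Q).map ι := by
  have h : Q.map (Int.castRingHom ℂ) =
      (Q.map (Int.castRingHom (AlgebraicClosure ℚ))).map ι := by
    rw [Polynomial.map_map]
    congr 1
    exact RingHom.ext_int _ _
  rw [h]
  exact (IsAlgClosed.splits _).roots_map ι

theorem powerSum_rt (ι : AlgebraicClosure ℚ →+* ℂ) (Q : ℤ[X]) (n : ℕ) :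
    powerSum Q n = ι ((rt Q).map (fun α => α ^ n)).sum := by
  unfold powerSum
  rw [roots_rt ι, Multiset.map_map, map_multiset_sum, Multiset.map_map]
  congr 2
  funext α
  simp

theorem mult_rt (q : ℕ) (Q : ℤ[X]) [DecidableEq (AlgebraicClosure ℚ)] :
    mult q Q 1 = (rt Q).count (q : AlgebraicClosure ℚ) := by
  classical
  obtain ⟨ι⟩ := exists_embedding
  have : (q : ℂ) = ι (q : AlgebraicClosure ℚ) := by simp
  rw [mult_one, roots_rt ι, this, Multiset.count_map_eq_count' _ _ ι.injective]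

theorem reverse_rt (Q : ℤ[X]) (hQ : Q.Monic) :
    Q.reverse.map (Int.castRingHom (AlgebraicClosure ℚ)) = pr (rt Q) := by
  rw [← map_reverse' _ (RingHom.injective_int (Int.castRingHom (AlgebraicClosure ℚ))),
    reverse_eq_pr _ (hQ.map _)]
  rfl

theorem pr_sum {R ι : Type*} [CommRing R] (s : Finset ι) (A : ι → Multiset R) :
    pr (∑ j ∈ s, A j) = ∏ j ∈ s, pr (A j) := by
  classical
  induction s using Finset.induction_on with
  | empty => unfold pr; simp
  | insert j s hj ih => rw [Finset.sum_insert hj, Finset.prod_insert hj, pr_add, ih]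

variable (F : Type) [Field F] [Fintype F]

theorem sums_eq (ℓ : ℕ) (hℓ : ℓ.Prime) (χ : MulChar F (AlgebraicClosure ℚ))
    (hχ : orderOf χ = ℓ) {r : ℕ} (S : Set (MvPolynomial (Fin r) F)) (f : MvPolynomial (Fin r) F)
    (A QS Qc : ℤ[X]) (c : F) (hc : c ≠ 0)
    (hS : IsFrobSurface (Fintype.card F) (fun n => (points F S n).ncard) QS A)
    (hQ : IsFrobSurface (Fintype.card F)
      (fun n => (coverPoints F ℓ S (MvPolynomial.C c * f) n).ncard) Qc A) (n : ℕ) (hn : 1 ≤ n) :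
    ((rt Qc).map (fun α => α ^ n)).sum = ((rt QS).map (fun α => α ^ n)).sum +
      ∑ j ∈ Finset.range (ℓ - 1), ((χ ^ (j + 1)) c) ^ n * charSum F (χ ^ (j + 1)) S f n := by
  obtain ⟨ι⟩ := exists_embedding
  apply ι.injective
  rw [map_add, ← powerSum_rt, ← powerSum_rt]
  have h1 := hS.2.2 n hn
  have h2 := hQ.2.2 n hn
  have h3 := congrArg ι (cover_charSum F ℓ hℓ χ hχ S f n hn c hc)
  rw [map_add, map_natCast, map_natCast] at h3
  simp only at h1 h2
  linear_combination h1 + h3 - h2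

theorem conj_charSum (ℓ : ℕ) (hℓ : ℓ.Prime) (χ : MulChar F (AlgebraicClosure ℚ))
    (hχ : orderOf χ = ℓ) {r : ℕ} (S : Set (MvPolynomial (Fin r) F)) (f : MvPolynomial (Fin r) F)
    (n j : ℕ) (σ : AlgebraicClosure ℚ ≃ₐ[ℚ] AlgebraicClosure ℚ)
    (hσ : ∀ z : AlgebraicClosure ℚ, z ^ ℓ = 1 → σ z = z ^ (j + 1)) :
    charSum F (χ ^ (j + 1)) S f n = σ (charSum F χ S f n) := by
  unfold charSum
  rw [map_sum]
  apply Finset.sum_congr rfl
  intro a _
  rw [map_mul, map_natCast]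
  congr 1
  rw [MulChar.pow_apply' _ (by omega : j + 1 ≠ 0)]
  by_cases ha : a = 0
  · rw [ha, MulChar.map_zero, map_zero, zero_pow (by omega)]
  · rw [hσ]
    rw [← MulChar.pow_apply' _ hℓ.ne_zero, ← hχ, pow_orderOf_eq_one, MulChar.one_apply]
    exact IsUnit.mk0 _ ha

/-- The eigenvalues for a twist. -/
theorem count_twist (ℓ : ℕ) (hℓ : ℓ.Prime) (χ : MulChar F (AlgebraicClosure ℚ))
    (hχ : orderOf χ = ℓ) {r : ℕ} (S : Set (MvPolynomial (Fin r) F)) (f : MvPolynomial (Fin r) F)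
    (A QS Qc : ℤ[X]) (R : (AlgebraicClosure ℚ)[X]) (c : F) (hc : c ≠ 0)
    (hS : IsFrobSurface (Fintype.card F) (fun n => (points F S n).ncard) QS A)
    (hQ : IsFrobSurface (Fintype.card F)
      (fun n => (coverPoints F ℓ S (MvPolynomial.C c * f) n).ncard) Qc A)
    (hR : IsLPolynomial F ℓ χ S f R) (σ : ℕ → AlgebraicClosure ℚ ≃ₐ[ℚ] AlgebraicClosure ℚ)
    (hσ : ∀ j < ℓ - 1, ∀ z : AlgebraicClosure ℚ, z ^ ℓ = 1 → σ j z = z ^ (j + 1)) :
    ∀ n : ℕ, 1 ≤ n → ((rt Qc).map (fun α => α ^ n)).sum =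
      ((rt QS + ∑ j ∈ Finset.range (ℓ - 1),
        R.roots.map (fun α => (χ ^ (j + 1)) c * σ j α)).map (fun α => α ^ n)).sum := by
  intro n hn
  rw [sums_eq F ℓ hℓ χ hχ S f A QS Qc c hc hS hQ n hn, Multiset.map_add, Multiset.sum_add]
  congr 1
  have h1 : ∀ (s : Finset ℕ) (B : ℕ → Multiset (AlgebraicClosure ℚ)),
      ((∑ j ∈ s, B j).map (fun α => α ^ n)).sum = ∑ j ∈ s, ((B j).map (fun α => α ^ n)).sum := by
    intro s B
    induction s using Finset.induction_on with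
    | empty => simp
    | insert j s hj ih =>
      rw [Finset.sum_insert hj, Finset.sum_insert hj, Multiset.map_add, Multiset.sum_add, ih]
  rw [h1]
  apply Finset.sum_congr rfl
  intro j hj
  rw [conj_charSum F ℓ hℓ χ hχ S f n j (σ j) (hσ j (Finset.mem_range.1 hj)), hR.2.2 n hn,
    map_multiset_sum, Multiset.map_map, Multiset.map_map, ← Multiset.sum_map_mul_left]
  congr 1
  apply Multiset.map_congr rfl
  intro α _
  simp [mul_pow]

/-- The multiplicity of `q` for a twist. -/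
theorem mult_twist (ℓ : ℕ) (hℓ : ℓ.Prime) (χ : MulChar F (AlgebraicClosure ℚ))
    (hχ : orderOf χ = ℓ) {r : ℕ} (S : Set (MvPolynomial (Fin r) F)) (f : MvPolynomial (Fin r) F)
    (A QS Qc : ℤ[X]) (R : (AlgebraicClosure ℚ)[X]) (c : F) (hc : c ≠ 0)
    (hS : IsFrobSurface (Fintype.card F) (fun n => (points F S n).ncard) QS A)
    (hQ : IsFrobSurface (Fintype.card F)
      (fun n => (coverPoints F ℓ S (MvPolynomial.C c * f) n).ncard) Qc A)
    (hR : IsLPolynomial F ℓ χ S f R) [DecidableEq (AlgebraicClosure ℚ)] :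
    mult (Fintype.card F) Qc 1 = mult (Fintype.card F) QS 1 +
      (ℓ - 1) * R.roots.count ((Fintype.card F : AlgebraicClosure ℚ) * (χ c)⁻¹) := by
  have hσ : ∀ j : ℕ, ∃ σ : AlgebraicClosure ℚ ≃ₐ[ℚ] AlgebraicClosure ℚ, j < ℓ - 1 →
      ∀ z : AlgebraicClosure ℚ, z ^ ℓ = 1 → σ z = z ^ (j + 1) := by
    intro j
    by_cases hj : j < ℓ - 1
    · obtain ⟨σ, hσ⟩ := exists_conj ℓ hℓ (j + 1) (by omega) (by omega)
      exact ⟨σ, fun _ => hσ⟩
    · exact ⟨AlgEquiv.refl, fun h => absurd h hj⟩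
  choose σ hσ using hσ
  have hq2 : 2 ≤ Fintype.card F := Fintype.one_lt_card
  have hq0 : (Fintype.card F : AlgebraicClosure ℚ) ≠ 0 := by
    have : Fintype.card F ≠ 0 := by omega
    exact_mod_cast this
  have h1 := ps_count _ _ (count_twist F ℓ hℓ χ hχ S f A QS Qc R c hc hS hQ hR σ hσ)
    (Fintype.card F : AlgebraicClosure ℚ) hq0
  rw [mult_rt, mult_rt, h1, Multiset.count_add, Multiset.count_sum']
  congr 1
  have hχc : (χ c) ^ ℓ = 1 := by
    rw [← MulChar.pow_apply' _ hℓ.ne_zero, ← hχ, pow_orderOf_eq_one, MulChar.one_apply]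
    exact IsUnit.mk0 _ hc
  have hχ0 : χ c ≠ 0 := by
    intro h
    rw [h, zero_pow hℓ.ne_zero] at hχc
    exact zero_ne_one hχc
  have h2 : ∀ j ∈ Finset.range (ℓ - 1), Multiset.count (Fintype.card F : AlgebraicClosure ℚ)
      (R.roots.map (fun α => (χ ^ (j + 1)) c * σ j α)) =
      R.roots.count ((Fintype.card F : AlgebraicClosure ℚ) * (χ c)⁻¹) := by
    intro j hj
    have hne : (χ ^ (j + 1)) c ≠ 0 := by
      rw [MulChar.pow_apply' _ (by omega : j + 1 ≠ 0)]
      exact pow_ne_zero _ hχ0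
    have hinj : Function.Injective (fun α : AlgebraicClosure ℚ => (χ ^ (j + 1)) c * σ j α) := by
      intro α β h
      exact (σ j).injective (mul_left_cancel₀ hne h)
    have h3 : (Fintype.card F : AlgebraicClosure ℚ) = (fun α : AlgebraicClosure ℚ =>
        (χ ^ (j + 1)) c * σ j α) ((Fintype.card F : AlgebraicClosure ℚ) * (χ c)⁻¹) := by
      change _ = (χ ^ (j + 1)) c * σ j ((Fintype.card F : AlgebraicClosure ℚ) * (χ c)⁻¹)
      rw [map_mul, map_natCast, map_inv₀, hσ j (Finset.mem_range.1 hj) _ hχc,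
        MulChar.pow_apply' _ (by omega : j + 1 ≠ 0)]
      field_simp
    conv_lhs => rw [h3]
    exact Multiset.count_map_eq_count' _ _ hinj _
  rw [Finset.sum_congr rfl h2, Finset.sum_const, Finset.card_range, smul_eq_mul]

end Pool.Agent.Helper2.Tate
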