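import Pool.Agent.Helper2.Tate.Cong
import Pool.Agent.Helper2.Tate.Count

/-!
# Cyclic coverings of projective surfaces
-/

set_option autoImplicit false

open Function MvPolynomial

namespace Pool.Agent.Helper2.Tate

section Facts

variable (F : Type) [Field F] [Fintype F]

theorem exists_charP : ∃ p : ℕ, p.Prime ∧ p ∣ Fintype.card F ∧ CharP (AlgebraicClosure F) p := by
  obtain ⟨p, hp⟩ := CharP.exists F
  have hpprime : Fact p.Prime := ⟨CharP.char_is_prime F p⟩
  refine ⟨p, hpprime.out, ?_, charP_of_injective_algebraMap' F p⟩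
  obtain ⟨k, hk⟩ := FiniteField.card F p
  rw [hk.2]
  exact dvd_pow_self p k.pos.ne'

theorem cast_ne_zero (ℓ : ℕ) (hℓ : ℓ.Prime) (hq : ℓ ∣ Fintype.card F - 1) :
    (ℓ : AlgebraicClosure F) ≠ 0 := by
  obtain ⟨p, hp, hpq, hpΩ⟩ := exists_charP F
  have hq2 : 2 ≤ Fintype.card F := Fintype.one_lt_card
  intro h
  rw [CharP.cast_eq_zero_iff (AlgebraicClosure F) p] at h
  have h1 : p = ℓ := (Nat.prime_dvd_prime_iff_eq hp hℓ).1 h
  rw [← h1] at hq
  have h2 : p ∣ 1 := by
    have := (Nat.dvd_sub hpq hq)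
    have h3 : Fintype.card F - (Fintype.card F - 1) = 1 := by omega
    rwa [h3] at this
  exact hp.one_lt.ne' (Nat.dvd_one.1 h2)

/-- the Frobenius of the algebraic closure -/
noncomputable def frob : AlgebraicClosure F →+* AlgebraicClosure F :=
  (FiniteField.frobeniusAlgHom F (AlgebraicClosure F)).toRingHom

theorem frob_apply (c : AlgebraicClosure F) : frob F c = c ^ Fintype.card F := rfl

theorem frob_aeval {r : ℕ} (P : Fin r → AlgebraicClosure F) (f : MvPolynomial (Fin r) F) :
    aeval (fun i => frob F (P i)) f = frob F (aeval P f) :=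
  (MvPolynomial.comp_aeval_apply P (FiniteField.frobeniusAlgHom F (AlgebraicClosure F)) f).symm

/-- the Frobenius on vectors -/
noncomputable def Frob (r : ℕ) (P : Fin r → AlgebraicClosure F) : Fin r → AlgebraicClosure F :=
  fun i => frob F (P i)

theorem Frob_iterate (r : ℕ) (n : ℕ) (P : Fin r → AlgebraicClosure F) (i : Fin r) :
    ((Frob F r)^[n] P) i = (P i) ^ (Fintype.card F ^ n) := by
  induction n generalizing P with
  | zero => simp
  | succ n ih =>
    rw [iterate_succ_apply, ih]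
    change (frob F (P i)) ^ (Fintype.card F ^ n) = _
    rw [frob_apply, ← pow_mul, pow_succ']

theorem Frob_fixed (r : ℕ) (n : ℕ) (P : Fin r → AlgebraicClosure F) :
    (Frob F r)^[n] P = P ↔ ∀ i, RatOver F n (P i) := by
  constructor
  · intro h i
    unfold RatOver
    rw [← Frob_iterate, h]
  · intro h
    funext i
    rw [Frob_iterate]; exact h i

theorem normalized_Frob (r : ℕ) (P : Fin r → AlgebraicClosure F) (h : Normalized P) :
    Normalized (Frob F r P) := by
  obtain ⟨i, hi, hj⟩ := h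
  refine ⟨i, ?_, fun j hij => ?_⟩
  · change frob F (P i) = 1
    rw [hi, map_one]
  · change frob F (P j) = 0
    rw [hj j hij, map_zero]

theorem points_finite {r : ℕ} (S : Set (MvPolynomial (Fin r) F)) (n : ℕ) (hn : 1 ≤ n) :
    (points F S n).Finite := by
  have hq2 : 2 ≤ Fintype.card F := Fintype.one_lt_card
  have h1 := Kn_finite (Ω := AlgebraicClosure F) (Fintype.card F) n hq2 hn
  have h2 : (Set.pi Set.univ (fun _ : Fin r => Kn (AlgebraicClosure F) (Fintype.card F) n)).Finite :=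
    Set.Finite.pi (fun _ => h1)
  apply h2.subset
  rintro P ⟨_, hP, _⟩ i _
  exact hP i

end Facts

variable (F : Type) [Field F] [Fintype F]

/-- Counting points of a cyclic covering. -/
theorem count_cover (ℓ : ℕ) (hℓ : ℓ.Prime) (hq : ℓ ∣ Fintype.card F - 1) {r : ℕ}
    (S : Set (MvPolynomial (Fin r) F)) (f : MvPolynomial (Fin r) F) (n : ℕ) (hn : 1 ≤ n) :
    ∃ t : ℕ, ℓ ^ padicValNat ℓ n ∣ t ∧
      ((coverPoints F ℓ S f n).ncard : ℤ) = ((points F (insert f S) n).ncard : ℤ) +
        ℓ * (((points F S n).ncard : ℤ) - ((points F (insert f S) n).ncard : ℤ)) - ℓ * t := by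
  have hq2 : 2 ≤ Fintype.card F := Fintype.one_lt_card
  set V : Set (Fin r → AlgebraicClosure F) := {P | Normalized P ∧ ∀ g ∈ S, aeval P g = 0} with hV
  have e0 : {P | P ∈ V ∧ (Frob F r)^[n] P = P} = points F S n := by
    ext P
    simp only [hV, points, Set.mem_ofPred_eq, Frob_fixed]
    tauto
  have hVs : ∀ P ∈ V, Frob F r P ∈ V := by
    rintro P ⟨h1, h2⟩
    refine ⟨normalized_Frob F r P h1, fun g hg => ?_⟩
    have h3 := frob_aeval F P g
    rw [h2 g hg, map_zero] at h3
    exact h3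
  obtain ⟨t, ht, hc⟩ := kummer ℓ (Fintype.card F) hℓ hq2 hq (cast_ne_zero F ℓ hℓ hq) (frob F)
    (frob_apply F) (Frob F r) V hVs (fun P => aeval P f) (fun P _ => frob_aeval F P f) n hn
    (by rw [e0]; exact points_finite F S n hn)
  refine ⟨t, ht, ?_⟩
  have e1 : coverPoints F ℓ S f n = {x : (Fin r → AlgebraicClosure F) × AlgebraicClosure F |
      (x.1 ∈ V ∧ (Frob F r)^[n] x.1 = x.1) ∧
      x.2 ∈ Kn (AlgebraicClosure F) (Fintype.card F) n ∧ x.2 ^ ℓ = aeval x.1 f} := by
    ext x
    have h1 := Set.ext_iff.1 e0 x.1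
    simp only [Set.mem_ofPred_eq] at h1
    simp only [coverPoints, Set.mem_ofPred_eq, h1, RatOver, Kn]
  have e2 : points F (insert f S) n = {P | (P ∈ V ∧ (Frob F r)^[n] P = P) ∧ aeval P f = 0} := by
    ext P
    have h1 := Set.ext_iff.1 e0 P
    simp only [Set.mem_ofPred_eq] at h1
    simp only [Set.mem_ofPred_eq, h1, points, Set.mem_insert_iff, forall_eq_or_imp]
    tauto
  rw [e0] at hc
  rw [e1, e2, hc]

/-- The congruence of the characteristic polynomials of the Frobenius, and the bound for the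
multiplicity of `q`. -/
theorem cover_congruence (ℓ : ℕ) (hℓ : ℓ.Prime) (hq : ℓ ∣ Fintype.card F - 1) {r : ℕ}
    (S : Set (MvPolynomial (Fin r) F)) (f : MvPolynomial (Fin r) F) (QX QB QY : Polynomial ℤ)
    (hX : IsFrobTwo (Fintype.card F) (fun n => (points F S n).ncard) QX)
    (hB : IsFrobOne (Fintype.card F) (fun n => (points F (insert f S) n).ncard) QB)
    (hY : IsFrobTwo (Fintype.card F) (fun n => (coverPoints F ℓ S f n).ncard) QY) :
    QY.reverse.map (Int.castRingHom (ZMod ℓ)) =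
      (QX.reverse.map (Int.castRingHom (ZMod ℓ))) ^ ℓ *
        (QB.reverse.map (Int.castRingHom (ZMod ℓ))) ^ (ℓ - 1) := by
  have hF := Fact.mk hℓ
  have hq2 : 2 ≤ Fintype.card F := Fintype.one_lt_card
  obtain ⟨hXm, hXc⟩ := hX
  obtain ⟨hBm, hBc⟩ := hB
  obtain ⟨hYm, hYc⟩ := hY
  have hcount := count_cover F ℓ hℓ hq S f
  choose! t ht hct using hcount
  set q := Fintype.card F with hqdef
  refine congruence ℓ q (by omega) hq QX QB QY hXm hBm hYm
    (fun n => ((points F S n).ncard : ℤ) - 1 - (q : ℤ) ^ (2 * n))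
    (fun n => 1 + (q : ℤ) ^ n - ((points F (insert f S) n).ncard : ℤ))
    (fun n => ((coverPoints F ℓ S f n).ncard : ℤ) - 1 - (q : ℤ) ^ (2 * n))
    (fun n => (t n : ℤ)) ?_ ?_ ?_ ?_ ?_
  · intro n hn
    have := hXc n hn
    push_cast
    rw [this]; ring
  · intro n hn
    have := hBc n hn
    push_cast
    rw [this]; ring
  · intro n hn
    have := hYc n hn
    push_cast
    rw [this]; ring
  · intro n hn
    exact_mod_cast ht n hn
  · intro n hn
    rw [hct n hn]
    ring

theorem cover_mult_le (ℓ : ℕ) (hℓ : ℓ.Prime) (hq : ℓ ∣ Fintype.card F - 1) {r : ℕ}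
    (S : Set (MvPolynomial (Fin r) F)) (f : MvPolynomial (Fin r) F) (QX QB QY : Polynomial ℤ)
    (hX : IsFrobTwo (Fintype.card F) (fun n => (points F S n).ncard) QX)
    (hB : IsFrobOne (Fintype.card F) (fun n => (points F (insert f S) n).ncard) QB)
    (hY : IsFrobTwo (Fintype.card F) (fun n => (coverPoints F ℓ S f n).ncard) QY)
    (hJ : ¬ (ℓ : ℤ) ∣ QB.eval 1) (j : ℕ) :
    mult (Fintype.card F) QY (ℓ ^ j) ≤
      ℓ * (QX.map (Int.castRingHom (ZMod ℓ))).rootMultiplicity 1 := by
  have hF := Fact.mk hℓ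
  have hq2 : 2 ≤ Fintype.card F := Fintype.one_lt_card
  refine (mult_le ℓ (Fintype.card F) (by omega) hq QY hY.1 j).trans ?_
  rw [cover_congruence F ℓ hℓ hq S f QX QB QY hX hB hY]
  have hne : ∀ Q : Polynomial ℤ, Q.Monic → Q.reverse.map (Int.castRingHom (ZMod ℓ)) ≠ 0 := by
    intro Q hQ h
    have h1 := congrArg (fun p => Polynomial.coeff p 0) h
    simp only [Polynomial.coeff_map, coeff_zero_reverse_monic Q hQ, map_one,
      Polynomial.coeff_zero] at h1
    exact one_ne_zero h1
  have hev : (QB.reverse.map (Int.castRingHom (ZMod ℓ))).eval 1 ≠ 0 := by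
    rw [Polynomial.eval_one_map, reverse_eval_one, eq_intCast, Ne,
      ZMod.intCast_zmod_eq_zero_iff_dvd]
    exact hJ
  rw [Polynomial.rootMultiplicity_mul (mul_ne_zero (pow_ne_zero _ (hne QX hX.1))
    (pow_ne_zero _ (hne QB hB.1))), ← Polynomial.count_roots, ← Polynomial.count_roots,
    Polynomial.roots_pow, Polynomial.roots_pow, Multiset.count_nsmul, Multiset.count_nsmul,
    Polynomial.count_roots, Polynomial.count_roots, Polynomial.rootMultiplicity_eq_zero hev,
    rootMultiplicity_reverse ℓ QX hX.1]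
  simp

end Pool.Agent.Helper2.Tate
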