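import Pool.Agent.Helper2.Tate.LMain
import Pool.Agent.Helper2.Tate.Surface

/-!
# The reduction modulo `ℓ` of the `L`-polynomial
-/

set_option autoImplicit false

open Polynomial

namespace Pool.Agent.Helper2.Tate

theorem rootMultiplicity_pow' {κ : Type*} [Field κ] (p : κ[X]) (z : κ) (k : ℕ) :
    (p ^ k).rootMultiplicity z = k * p.rootMultiplicity z := by
  classical
  rw [← count_roots, roots_pow, Multiset.count_nsmul, count_roots]

theorem reverse_map_ne_zero (ℓ : ℕ) [hℓ : Fact ℓ.Prime] (Q : ℤ[X]) (hQ : Q.Monic) :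
    Q.reverse.map (Int.castRingHom (ZMod ℓ)) ≠ 0 := by
  intro h
  have h1 := congrArg (fun p => Polynomial.coeff p 0) h
  simp only [Polynomial.coeff_map, coeff_zero_reverse_monic Q hQ, map_one,
    Polynomial.coeff_zero] at h1
  exact one_ne_zero h1

theorem ordOne_reverse (ℓ : ℕ) [hℓ : Fact ℓ.Prime] (Q : ℤ[X]) (hQ : Q.Monic) :
    (Q.reverse.map (Int.castRingHom (ZMod ℓ))).rootMultiplicity 1 = ordOne ℓ Q :=
  rootMultiplicity_reverse ℓ Q hQ

/-- The sums of powers of the roots of a monic integral polynomial are integers. -/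
theorem exists_int_powerSum (A : ℤ[X]) (hA : A.Monic) :
    ∃ s : ℕ → ℤ, ∀ n, 1 ≤ n → powerSum A n = s n := by
  set G : PowerSeries ℤ := ((A.reverse : ℤ[X]) : PowerSeries ℤ) with hG
  obtain ⟨G', hG'⟩ : ∃ G' : PowerSeries ℤ, G * G' = 1 := by
    have : IsUnit G := by
      rw [PowerSeries.isUnit_iff_constantCoeff, ← PowerSeries.coeff_zero_eq_constantCoeff_apply,
        hG, Polynomial.coeff_coe, coeff_zero_reverse_monic A hA]
      exact isUnit_one
    exact this.exists_right_inv
  set P : PowerSeries ℤ := - (PowerSeries.X * PowerSeries.derivative ℤ G) * G' with hP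
  refine ⟨fun n => PowerSeries.coeff n P, fun n hn => ?_⟩
  have h1 := LD_pr (A.map (Int.castRingHom ℂ)).roots
  rw [← reverse_map A hA] at h1
  unfold LD at h1
  have h2 : PowerSeries.map (Int.castRingHom ℂ) (PowerSeries.derivative ℤ G) =
      PowerSeries.derivative ℂ ((A.reverse.map (Int.castRingHom ℂ) : ℂ[X]) : PowerSeries ℂ) := by
    ext n
    rw [PowerSeries.coeff_map, PowerSeries.coeff_derivative, PowerSeries.coeff_derivative, hG,
      Polynomial.coeff_coe, Polynomial.coeff_coe, coeff_map]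
    simp
  have h3 : PowerSeries.map (Int.castRingHom ℂ) G =
      ((A.reverse.map (Int.castRingHom ℂ) : ℂ[X]) : PowerSeries ℂ) := by
    ext n
    rw [PowerSeries.coeff_map, hG, Polynomial.coeff_coe, Polynomial.coeff_coe, coeff_map]
  rw [← h2, ← h3] at h1
  have h4 : ps (A.map (Int.castRingHom ℂ)).roots = PowerSeries.map (Int.castRingHom ℂ) P := by
    have h5 := congrArg (PowerSeries.map (Int.castRingHom ℂ)) hG'
    rw [map_mul, map_one] at h5
    rw [hP, map_mul, map_neg, map_mul, PowerSeries.map_X, h1, neg_neg]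
    calc ps (A.map (Int.castRingHom ℂ)).roots =
        ps (A.map (Int.castRingHom ℂ)).roots * (PowerSeries.map (Int.castRingHom ℂ) G *
          PowerSeries.map (Int.castRingHom ℂ) G') := by rw [h5, mul_one]
      _ = _ := by ring
  have h5 := congrArg (PowerSeries.coeff n) h4
  unfold ps at h5
  rw [PowerSeries.coeff_mk, if_neg (by omega), PowerSeries.coeff_map] at h5
  exact h5

variable (F : Type) [Field F] [Fintype F]

/-- The order at `1` of the characteristic polynomial of the Frobenius on the second cohomology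
group of the covering. -/
theorem ordOne_cover (ℓ : ℕ) (hℓ : ℓ.Prime) (hq : ℓ ∣ Fintype.card F - 1) {r : ℕ}
    (S : Set (MvPolynomial (Fin r) F)) (f : MvPolynomial (Fin r) F) (A QS QB QY : ℤ[X])
    (hS : IsFrobSurface (Fintype.card F) (fun n => (points F S n).ncard) QS A)
    (hB : IsFrobOne (Fintype.card F) (fun n => (points F (insert f S) n).ncard) QB)
    (hY : IsFrobSurface (Fintype.card F) (fun n => (coverPoints F ℓ S f n).ncard) QY A) :
    ordOne ℓ QY + (ℓ - 1) * ordOne ℓ A = ℓ * ordOne ℓ QS + (ℓ - 1) * ordOne ℓ QB := by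
  have hF := Fact.mk hℓ
  have hq2 : 2 ≤ Fintype.card F := Fintype.one_lt_card
  obtain ⟨hSm, hAm, hSc⟩ := hS
  obtain ⟨hBm, hBc⟩ := hB
  obtain ⟨hYm, _, hYc⟩ := hY
  have hcount := count_cover F ℓ hℓ hq S f
  choose! t ht hct using hcount
  set q := Fintype.card F with hqdef
  have hApow : (A ^ (ℓ - 1)).Monic := hAm.pow _
  -- power sums of a product
  have hprod : ∀ n, powerSum (QY * A ^ (ℓ - 1)) n = powerSum QY n + (ℓ - 1) * powerSum A n := by
    intro n
    unfold powerSum
    rw [Polynomial.map_mul, roots_mul ((hYm.map _).mul (hApow.map _)).ne_zero,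
      Polynomial.map_pow, roots_pow, Multiset.map_add, Multiset.sum_add, Multiset.map_nsmul,
      Multiset.sum_nsmul, nsmul_eq_mul, Nat.cast_sub hℓ.one_le]
    push_cast
    ring
  obtain ⟨sA, hsA⟩ := exists_int_powerSum A hAm
  have key := congruence ℓ q (by omega) hq QS QB (QY * A ^ (ℓ - 1)) hSm hBm (hYm.mul hApow)
    (fun n => ((points F S n).ncard : ℤ) - 1 - (q : ℤ) ^ (2 * n) + sA n)
    (fun n => 1 + (q : ℤ) ^ n - ((points F (insert f S) n).ncard : ℤ))
    (fun n => ((coverPoints F ℓ S f n).ncard : ℤ) - 1 - (q : ℤ) ^ (2 * n) + ℓ * sA n)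
    (fun n => (t n : ℤ)) (by
      intro n hn
      have := hSc n hn
      simp only at this
      push_cast
      rw [this, hsA n hn]; ring) (by
      intro n hn
      have := hBc n hn
      simp only at this
      push_cast
      rw [this]; ring) (by
      intro n hn
      have := hYc n hn
      simp only at this
      push_cast
      rw [hprod, this, hsA n hn]; ring) (by
      intro n hn
      exact_mod_cast ht n hn) (by
      intro n hn
      rw [hct n hn]
      ring)
  have h1 := congrArg (fun p => Polynomial.rootMultiplicity 1 p) key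
  rw [reverse_mul_of_domain, Polynomial.map_mul] at h1
  have hrevpow : ∀ k : ℕ, (A ^ k).reverse = A.reverse ^ k := by
    intro k
    induction k with
    | zero => simpa using reverse_C (1 : ℤ)
    | succ k ih => rw [pow_succ, reverse_mul_of_domain, ih, pow_succ]
  rw [hrevpow, Polynomial.map_pow, rootMultiplicity_mul (mul_ne_zero (reverse_map_ne_zero ℓ QY hYm)
      (pow_ne_zero _ (reverse_map_ne_zero ℓ A hAm))),
    rootMultiplicity_mul (mul_ne_zero (pow_ne_zero _ (reverse_map_ne_zero ℓ QS hSm))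
      (pow_ne_zero _ (reverse_map_ne_zero ℓ QB hBm))), rootMultiplicity_pow',
    rootMultiplicity_pow', rootMultiplicity_pow', ordOne_reverse ℓ QY hYm,
    ordOne_reverse ℓ A hAm, ordOne_reverse ℓ QS hSm, ordOne_reverse ℓ QB hBm] at h1
  exact h1

/-- The number of roots of the `L`-polynomial which are `1` modulo `ℓ`. -/
theorem nu_eq (ℓ : ℕ) (hℓ : ℓ.Prime) (χ : MulChar F (AlgebraicClosure ℚ))
    (hχ : orderOf χ = ℓ) {r : ℕ} (S : Set (MvPolynomial (Fin r) F)) (f : MvPolynomial (Fin r) F)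
    (A QS QB Q₁ : ℤ[X]) (R : (AlgebraicClosure ℚ)[X])
    (hS : IsFrobSurface (Fintype.card F) (fun n => (points F S n).ncard) QS A)
    (hB : IsFrobOne (Fintype.card F) (fun n => (points F (insert f S) n).ncard) QB)
    (hQ : IsFrobSurface (Fintype.card F)
      (fun n => (coverPoints F ℓ S (MvPolynomial.C 1 * f) n).ncard) Q₁ A)
    (hR : IsLPolynomial F ℓ χ S f R)
    (AO : Multiset (integralClosure ℤ (AlgebraicClosure ℚ)))
    (hAO : AO.map (algebraMap _ (AlgebraicClosure ℚ)) = R.roots)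
    {κ : Type} [Field κ] [hκ : CharP κ ℓ] [DecidableEq κ]
    (red : integralClosure ℤ (AlgebraicClosure ℚ) →+* κ)
    (hconj : ∀ σ : AlgebraicClosure ℚ ≃ₐ[ℚ] AlgebraicClosure ℚ,
        pr ((AO.map (intAut σ)).map red) = pr (AO.map red)) :
    (AO.map red).count 1 + ordOne ℓ A = ordOne ℓ QS + ordOne ℓ QB := by
  classical
  have hF := Fact.mk hℓ
  have hq : ℓ ∣ Fintype.card F - 1 := hχ ▸ MulChar.orderOf_dvd_card_sub_one F χ
  let _ : Algebra (ZMod ℓ) κ := ZMod.algebra κ ℓ
  have hσ : ∀ j : ℕ, ∃ σ : AlgebraicClosure ℚ ≃ₐ[ℚ] AlgebraicClosure ℚ, j < ℓ - 1 →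
      ∀ z : AlgebraicClosure ℚ, z ^ ℓ = 1 → σ z = z ^ (j + 1) := by
    intro j
    by_cases hj : j < ℓ - 1
    · obtain ⟨σ, hσ⟩ := exists_conj ℓ hℓ (j + 1) (by omega) (by omega)
      exact ⟨σ, fun _ => hσ⟩
    · exact ⟨AlgEquiv.refl, fun h => absurd h hj⟩
  choose σ hσ using hσ
  have h1 := count_twist F ℓ hℓ χ hχ S f A QS Q₁ R 1 one_ne_zero hS hQ hR σ hσ
  have h2 : rt QS + ∑ j ∈ Finset.range (ℓ - 1),
        R.roots.map (fun α => (χ ^ (j + 1)) 1 * σ j α) =
      rt QS + ∑ j ∈ Finset.range (ℓ - 1), R.roots.map (fun α => σ j α) := by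
    congr 1
    apply Finset.sum_congr rfl
    intro j _
    apply Multiset.map_congr rfl
    intro α _
    rw [MulChar.map_one, one_mul]
  rw [h2] at h1
  have hps : ps (rt Q₁) = ps (rt QS + ∑ j ∈ Finset.range (ℓ - 1),
      R.roots.map (fun α => σ j α)) := by
    unfold ps
    ext n
    rw [PowerSeries.coeff_mk, PowerSeries.coeff_mk]
    rcases Nat.eq_zero_or_pos n with rfl | hn
    · simp
    · rw [if_neg (by omega), if_neg (by omega), h1 n hn]
  have h3 : pr (rt Q₁) = pr (rt QS) * ∏ j ∈ Finset.range (ℓ - 1),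
      pr (R.roots.map (fun α => σ j α)) := by
    rw [← pr_sum, ← pr_add]
    exact LD_unique _ _ (pr_coeff_zero _) (pr_coeff_zero _) (ps (rt Q₁)) (LD_pr _)
      (by rw [hps]; exact LD_pr _)
  rw [← reverse_rt Q₁ hQ.1, ← reverse_rt QS hS.1] at h3
  have hinj : Function.Injective (algebraMap (integralClosure ℤ (AlgebraicClosure ℚ))
    (AlgebraicClosure ℚ)) := Subtype.val_injective
  have h4 : Q₁.reverse.map (Int.castRingHom (integralClosure ℤ (AlgebraicClosure ℚ))) =
      QS.reverse.map (Int.castRingHom (integralClosure ℤ (AlgebraicClosure ℚ))) *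
        ∏ j ∈ Finset.range (ℓ - 1), pr (AO.map (intAut (σ j))) := by
    apply map_injective _ hinj
    have hc : (algebraMap (integralClosure ℤ (AlgebraicClosure ℚ)) (AlgebraicClosure ℚ)).comp
        (Int.castRingHom (integralClosure ℤ (AlgebraicClosure ℚ))) =
        Int.castRingHom (AlgebraicClosure ℚ) := RingHom.ext_int _ _
    rw [Polynomial.map_mul, Polynomial.map_prod, Polynomial.map_map, Polynomial.map_map, hc, h3]
    congr 1
    apply Finset.prod_congr rfl
    intro j _
    rw [pr_map, ← hAO, Multiset.map_map, Multiset.map_map]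
    rfl
  have h5 := congrArg (Polynomial.map red) h4
  have hρ : red.comp (Int.castRingHom (integralClosure ℤ (AlgebraicClosure ℚ))) =
      (algebraMap (ZMod ℓ) κ).comp (Int.castRingHom (ZMod ℓ)) := RingHom.ext_int _ _
  rw [Polynomial.map_mul, Polynomial.map_prod, Polynomial.map_map, Polynomial.map_map, hρ,
    ← Polynomial.map_map, ← Polynomial.map_map, Finset.prod_congr rfl (fun j _ => by
      rw [pr_map, hconj (σ j)]), Finset.prod_const, Finset.card_range] at h5
  have h6 := congrArg (fun p => Polynomial.rootMultiplicity 1 p) h5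
  have hne : (QS.reverse.map (Int.castRingHom (ZMod ℓ))).map (algebraMap (ZMod ℓ) κ) ≠ 0 :=
    Polynomial.map_ne_zero (reverse_map_ne_zero ℓ QS hS.1)
  have h7 := rootMultiplicity_pr (AO.map red)
  have hmap : ∀ Q : ℤ[X], Q.Monic →
      ((Q.reverse.map (Int.castRingHom (ZMod ℓ))).map (algebraMap (ZMod ℓ) κ)).rootMultiplicity 1 =
        ordOne ℓ Q := by
    intro Q hQ
    rw [← ordOne_reverse ℓ Q hQ,
      Polynomial.eq_rootMultiplicity_map (algebraMap (ZMod ℓ) κ).injective, map_one]
  rw [rootMultiplicity_mul (mul_ne_zero hne (pow_ne_zero _ h7.2)), rootMultiplicity_pow', h7.1,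
    hmap Q₁ hQ.1, hmap QS hS.1] at h6
  have hQ' : IsFrobSurface (Fintype.card F) (fun n => (coverPoints F ℓ S f n).ncard) Q₁ A := by
    have : MvPolynomial.C 1 * f = f := by simp
    rwa [this] at hQ
  have h8 := ordOne_cover F ℓ hℓ hq S f A QS QB Q₁ hS hB hQ'
  have hl1 : 0 < ℓ - 1 := by have := hℓ.two_le; omega
  obtain ⟨l, hl⟩ : ∃ l, ℓ = l + 1 := ⟨ℓ - 1, by omega⟩
  have h9 : (ℓ - 1) * (Multiset.count 1 (AO.map red) + ordOne ℓ A) =
      (ℓ - 1) * (ordOne ℓ QS + ordOne ℓ QB) := by
    rw [h6] at h8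
    have h11 : ∀ o : ℕ, ℓ * o = (ℓ - 1) * o + o := by
      intro o
      calc ℓ * o = ((ℓ - 1) + 1) * o := by congr 1; omega
        _ = (ℓ - 1) * o + o := by ring
    have h10 := h11 (ordOne ℓ QS)
    rw [h10] at h8
    rw [mul_add, mul_add]
    omega
  exact Nat.eq_of_mul_eq_mul_left hl1 h9

end Pool.Agent.Helper2.Tate
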