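import Pool.Agent.Helper2.Tate.LAll2
import Pool.Agent.Helper2.Tate.AllExt
import Pool.Agent.Helper2.Tate.Divisors

/-!
# Cyclic planes over all extensions of the base field
-/

set_option autoImplicit false

open Polynomial

namespace Pool.Agent.Helper2.Tate

variable (F : Type) [Field F] [Fintype F]

/-- The bound for cyclic planes over all extensions: it suffices that no cyclotomic polynomial
divides the characteristic polynomial of the Frobenius of the branch curve modulo `ℓ`. -/
theorem plane_bound_all (ℓ : ℕ) (hℓ : ℓ.Prime) (hq : ℓ ∣ Fintype.card F - 1)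
    (f : MvPolynomial (Fin 3) F) (QB QY : Polynomial ℤ)
    (hB : IsFrobOne (Fintype.card F) (fun n => (points F {f} n).ncard) QB)
    (hY : IsFrobTwo (Fintype.card F) (fun n => (coverPoints F ℓ ∅ f n).ncard) QY)
    (hcyc : ∀ n : ℕ, 1 ≤ n → ¬ ℓ ∣ n →
      ¬ cyclotomic n (ZMod ℓ) ∣ QB.map (Int.castRingHom (ZMod ℓ)))
    (m : ℕ) (hm : 1 ≤ m) : mult (Fintype.card F) QY m ≤ ℓ := by
  classical
  have hF := Fact.mk hℓ
  have hq2 : 2 ≤ Fintype.card F := Fintype.one_lt_card
  have hinj : Function.Injective (algebraMap (integralClosure ℤ (AlgebraicClosure ℚ))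
    (AlgebraicClosure ℚ)) := Subtype.val_injective
  set R : (AlgebraicClosure ℚ)[X] := QY.map (Int.castRingHom (AlgebraicClosure ℚ)) with hRdef
  have hRm : R.Monic := hY.1.map _
  have hRc : ∀ i, R.coeff i ∈ Subring.closure {z : AlgebraicClosure ℚ | z ^ ℓ = 1} := by
    intro i
    rw [hRdef, coeff_map]
    exact intCast_mem _ _
  obtain ⟨AO, hAO, _⟩ := exists_lift ℓ R hRm hRc
  obtain ⟨κ, _, red, hκ⟩ := exists_red ℓ
  let _ : Algebra (ZMod ℓ) κ := ZMod.algebra κ ℓ
  have hqκ : (Fintype.card F : κ) = 1 := by
    obtain ⟨e, he⟩ := hq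
    have h1 : Fintype.card F = ℓ * e + 1 := by omega
    rw [h1]
    push_cast
    rw [CharP.cast_eq_zero κ ℓ]; ring
  have hρ2 : (algebraMap (ZMod ℓ) κ).comp (Int.castRingHom (ZMod ℓ)) = Int.castRingHom κ :=
    RingHom.ext_int _ _
  -- the reduction of the characteristic polynomial
  have hpr : pr (AO.map red) = QY.reverse.map (Int.castRingHom κ) := by
    have h1 : pr AO = QY.reverse.map (Int.castRingHom _) := by
      apply map_injective _ hinj
      rw [pr_map, hAO, Polynomial.map_map]
      have hc : (algebraMap (integralClosure ℤ (AlgebraicClosure ℚ)) (AlgebraicClosure ℚ)).comp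
        (Int.castRingHom (integralClosure ℤ (AlgebraicClosure ℚ))) =
        Int.castRingHom (AlgebraicClosure ℚ) := RingHom.ext_int _ _
      rw [hc, ← reverse_eq_pr R hRm, hRdef,
        map_reverse' _ (RingHom.injective_int (Int.castRingHom (AlgebraicClosure ℚ)))]
    have h2 := congrArg (Polynomial.map red) h1
    rw [pr_map, Polynomial.map_map] at h2
    rw [h2]
    congr 1
    exact RingHom.ext_int _ _
  have hcong := congrArg (Polynomial.map (algebraMap (ZMod ℓ) κ))
    (plane_congruence F ℓ hℓ hq f QB QY hB hY)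
  rw [Polynomial.map_map, hρ2, Polynomial.map_mul, Polynomial.map_pow, Polynomial.map_pow,
    Polynomial.map_sub, Polynomial.map_one, Polynomial.map_X, Polynomial.map_map, hρ2,
    ← hpr] at hcong
  -- roots
  have hredroots : ∀ x ∈ AO, (x : AlgebraicClosure ℚ) ^ m =
      (Fintype.card F : AlgebraicClosure ℚ) ^ m → red x = 1 := by
    intro x hx hxm
    rcases cyclotomic_dvd ℓ red (Fintype.card F) (by omega) hqκ R hRm hRc AO hAO x hx m hm hxm
      with h | ⟨n, hn2, hnℓ, hdvd⟩
    · exact h
    · exfalso
      apply hcyc n (by omega) hnℓ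
      have hn0 : 0 < n := by omega
      have hnκ : NeZero (n : κ) := ⟨by
        intro h
        rw [CharP.cast_eq_zero_iff κ ℓ] at h
        exact hnℓ h⟩
      -- the reduced element is a primitive root of unity after a suitable extension
      set L := AlgebraicClosure κ with hL
      have hnL : NeZero (n : L) := ⟨by
        intro h
        apply hnκ.out
        apply (algebraMap κ L).injective
        rw [map_natCast, map_zero]
        exact h⟩
      have : NeZero n := ⟨hn0.ne'⟩
      obtain ⟨z, hz⟩ := HasEnoughRootsOfUnity.exists_primitiveRoot L n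
      have hdvdL : ∀ μ ∈ primitiveRoots n L,
          (QB.map (Int.castRingHom L)).IsRoot μ := by
        intro μ hμ
        rw [mem_primitiveRoots hn0] at hμ
        have hμi : IsPrimitiveRoot μ⁻¹ n := hμ.inv
        have hμ0 : μ ≠ 0 := hμ.ne_zero hn0.ne'
        have h1 : (cyclotomic n L).IsRoot μ⁻¹ := (isRoot_cyclotomic_iff).2 hμi
        obtain ⟨s, hs⟩ := hdvd
        have h2 := congrArg (Polynomial.map (algebraMap κ L)) hs
        rw [Polynomial.map_mul, map_cyclotomic] at h2
        have h3 := congrArg (Polynomial.eval μ⁻¹) h2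
        rw [eval_mul, h1.eq_zero, zero_mul, hcong, Polynomial.map_mul, Polynomial.map_pow,
          Polynomial.map_pow, Polynomial.map_sub, Polynomial.map_one, Polynomial.map_X,
          Polynomial.map_map, eval_mul, eval_pow, eval_pow, eval_sub, eval_one, eval_X] at h3
        have h4 : (algebraMap κ L).comp (Int.castRingHom κ) = Int.castRingHom L :=
          RingHom.ext_int _ _
        rw [h4] at h3
        have h5 : (1 : L) - μ⁻¹ ≠ 0 := by
          intro h
          have h6 : μ⁻¹ = 1 := (sub_eq_zero.1 h).symm
          rw [h6] at hμi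
          have := hμi.unique (IsPrimitiveRoot.one)
          omega
        have h6 : (QB.reverse.map (Int.castRingHom L)).eval μ⁻¹ = 0 := by
          rcases mul_eq_zero.1 h3 with h | h
          · exact absurd (eq_zero_of_pow_eq_zero h) h5
          · exact eq_zero_of_pow_eq_zero h
        rw [IsRoot, eval_map]
        rw [eval_map] at h6
        let _ := invertibleOfNonzero hμ0
        rw [← eval₂_reverse_eq_zero_iff, invOf_eq_inv]
        exact h6
      have hQBL : QB.map (Int.castRingHom L) ≠ 0 := (hB.1.map _).ne_zero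
      have h3 : (primitiveRoots n L).val ≤ (QB.map (Int.castRingHom L)).roots :=
        (Multiset.le_iff_subset (primitiveRoots n L).nodup).2
          (fun μ hμ => (mem_roots hQBL).2 (hdvdL μ hμ))
      have h4 := (Multiset.prod_X_sub_C_dvd_iff_le_roots hQBL _).2 h3
      have h5 : cyclotomic n L ∣ QB.map (Int.castRingHom L) := by
        rw [cyclotomic_eq_prod_X_sub_primitiveRoots hz]
        exact h4
      have hρ3 : ((algebraMap κ L).comp (algebraMap (ZMod ℓ) κ)).comp (Int.castRingHom (ZMod ℓ)) =
          Int.castRingHom L := RingHom.ext_int _ _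
      rw [← map_dvd_map' ((algebraMap κ L).comp (algebraMap (ZMod ℓ) κ)), map_cyclotomic,
        Polynomial.map_map, hρ3]
      exact h5
  -- the count
  have hbound : mult (Fintype.card F) QY m ≤ (AO.map red).count 1 := by
    rw [mult_rt_card]
    have h1 : rt QY = AO.map (algebraMap _ (AlgebraicClosure ℚ)) := hAO.symm
    rw [h1, Multiset.filter_map, Multiset.card_map, Multiset.count, Multiset.countP_map]
    apply Multiset.card_le_card
    rw [Multiset.le_filter]
    refine ⟨Multiset.filter_le _ _, ?_⟩
    intro x hx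
    rw [Multiset.mem_filter] at hx
    exact (hredroots x hx.1 hx.2).symm
  refine hbound.trans ?_
  have h1 := (rootMultiplicity_pr (AO.map red)).1
  rw [← h1, hpr, ← hρ2, ← Polynomial.map_map]
  have h2 : ((QY.reverse.map (Int.castRingHom (ZMod ℓ))).map
      (algebraMap (ZMod ℓ) κ)).rootMultiplicity 1 = ordOne ℓ QY := by
    rw [← ordOne_reverse ℓ QY hY.1,
      Polynomial.eq_rootMultiplicity_map (algebraMap (ZMod ℓ) κ).injective, map_one]
  rw [h2, ← ordOne_reverse ℓ QY hY.1, plane_order F ℓ hℓ hq f QB QY hB hY]
  have h3 : (QB.map (Int.castRingHom (ZMod ℓ))).rootMultiplicity 1 = 0 := by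
    rw [rootMultiplicity_eq_zero]
    intro h
    apply hcyc 1 le_rfl (by
      intro h1
      exact hℓ.one_lt.ne' (Nat.dvd_one.1 h1))
    rw [cyclotomic_one]
    have := dvd_iff_isRoot.2 h
    rwa [C_1] at this
  rw [h3]
  simp

end Pool.Agent.Helper2.Tate
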