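import Pool.Agent.Helper2.Tate.Poly

/-!
# Multisets of complex numbers are determined by their power sums
-/

set_option autoImplicit false

open Polynomial

namespace Pool.Agent.Helper2.Tate

/-- uniqueness of the solution of the logarithmic differential equation -/
theorem LD_unique {κ : Type*} [Field κ] [CharZero κ] (F G : κ[X]) (hF0 : F.coeff 0 = 1)
    (hG0 : G.coeff 0 = 1) (a : PowerSeries κ) (hF : LD (F : PowerSeries κ) a)
    (hG : LD (G : PowerSeries κ) a) : F = G := by
  have hGc : PowerSeries.constantCoeff (G : PowerSeries κ) = 1 := by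
    rw [← PowerSeries.coeff_zero_eq_constantCoeff_apply, Polynomial.coeff_coe, hG0]
  have hFc : PowerSeries.constantCoeff (F : PowerSeries κ) = 1 := by
    rw [← PowerSeries.coeff_zero_eq_constantCoeff_apply, Polynomial.coeff_coe, hF0]
  obtain ⟨G', hG'⟩ : ∃ G' : PowerSeries κ, (G : PowerSeries κ) * G' = 1 := by
    have : IsUnit (G : PowerSeries κ) := by
      rw [PowerSeries.isUnit_iff_constantCoeff, hGc]
      exact isUnit_one
    exact this.exists_right_inv
  set H : PowerSeries κ := (F : PowerSeries κ) * G' with hH
  have hFH : (F : PowerSeries κ) = H * G := by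
    rw [hH, mul_assoc, mul_comm G', hG', mul_one]
  have hHd : PowerSeries.X * PowerSeries.derivative κ H = 0 := by
    unfold LD at hF hG
    rw [hFH, Derivation.leibniz, smul_eq_mul, smul_eq_mul] at hF
    have h1 : PowerSeries.X * PowerSeries.derivative κ H * (G : PowerSeries κ) = 0 := by
      linear_combination hF - H * hG
    calc PowerSeries.X * PowerSeries.derivative κ H =
        PowerSeries.X * PowerSeries.derivative κ H * ((G : PowerSeries κ) * G') := by
          rw [hG', mul_one]
      _ = (PowerSeries.X * PowerSeries.derivative κ H * (G : PowerSeries κ)) * G' := by ring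
      _ = 0 := by rw [h1, zero_mul]
  have hH1 : H = 1 := by
    ext n
    rcases n with _ | n
    · have h1 := congrArg PowerSeries.constantCoeff hFH
      rw [map_mul, hFc, hGc, mul_one] at h1
      rw [PowerSeries.coeff_zero_eq_constantCoeff_apply, ← h1]
      simp
    · have h1 := congrArg (PowerSeries.coeff (n + 1)) hHd
      rw [PowerSeries.coeff_succ_X_mul, PowerSeries.coeff_derivative, map_zero] at h1
      have h2 : ((n : κ) + 1) ≠ 0 := by exact_mod_cast Nat.succ_ne_zero n
      rcases mul_eq_zero.1 h1 with h3 | h3
      · rw [h3, PowerSeries.coeff_one, if_neg (Nat.succ_ne_zero n)]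
      · exact absurd h3 h2
  rw [hH1, one_mul] at hFH
  exact Polynomial.coe_injective κ hFH

theorem pr_coeff_zero {κ : Type*} [Field κ] (A : Multiset κ) : (pr A).coeff 0 = 1 := by
  induction A using Multiset.induction_on with
  | empty => unfold pr; simp
  | cons α A ih => rw [pr_cons, mul_coeff_zero, ih]; simp

theorem rootMultiplicity_pr_inv {κ : Type*} [Field κ] (A : Multiset κ) [DecidableEq κ] (z : κ)
    (hz : z ≠ 0) : (pr A).rootMultiplicity z⁻¹ = A.count z ∧ pr A ≠ 0 := by
  induction A using Multiset.induction_on with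
  | empty =>
    have h1 : pr (0 : Multiset κ) = 1 := by unfold pr; simp
    rw [h1]
    refine ⟨?_, one_ne_zero⟩
    simp
  | cons α A ih =>
    obtain ⟨ih1, ih2⟩ := ih
    have h0 : (1 - C α * X : κ[X]) ≠ 0 := by
      intro h
      have := congrArg (fun p => coeff p 0) h
      simp at this
    rw [pr_cons]
    refine ⟨?_, mul_ne_zero h0 ih2⟩
    rw [rootMultiplicity_mul (mul_ne_zero h0 ih2), ih1]
    by_cases hα : α = z
    · subst hα
      have h1 : (1 - C α * X : κ[X]) = C (-α) * (X - C α⁻¹) := by
        rw [mul_sub, ← C_mul, neg_mul, mul_inv_cancel₀ hz]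
        simp
        ring
      rw [h1, rootMultiplicity_mul (by rw [← h1]; exact h0), rootMultiplicity_X_sub_C_self,
        rootMultiplicity_C, Multiset.count_cons_self]
      ring
    · rw [Multiset.count_cons_of_ne (Ne.symm hα), rootMultiplicity_eq_zero, zero_add]
      rw [IsRoot]
      simp only [eval_sub, eval_one, eval_mul, eval_C, eval_X]
      intro h
      apply hα
      have h1 := sub_eq_zero.1 h
      field_simp at h1
      exact h1.symm

theorem ps_count {κ : Type*} [Field κ] [CharZero κ] [DecidableEq κ] (A B : Multiset κ)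
    (h : ∀ n : ℕ, 1 ≤ n → (A.map (fun α => α ^ n)).sum = (B.map (fun α => α ^ n)).sum) (z : κ)
    (hz : z ≠ 0) : A.count z = B.count z := by
  have h1 : ps A = ps B := by
    unfold ps
    ext n
    rw [PowerSeries.coeff_mk, PowerSeries.coeff_mk]
    rcases Nat.eq_zero_or_pos n with rfl | hn
    · simp
    · rw [if_neg (by omega), if_neg (by omega), h n hn]
  have h2 := LD_unique (pr A) (pr B) (pr_coeff_zero A) (pr_coeff_zero B) (ps A) (LD_pr A)
    (by rw [h1]; exact LD_pr B)
  rw [← (rootMultiplicity_pr_inv A z hz).1, h2, (rootMultiplicity_pr_inv B z hz).1]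

end Pool.Agent.Helper2.Tate
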