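import Pool.Agent.Helper2.Tate.Plane

/-!
# The points of the curves `(x ^ (ℓ ^ j) + A) ^ ℓ = δ` over the line
-/

set_option autoImplicit false

open Function MvPolynomial

namespace Pool.Agent.Helper2.Tate

variable (F : Type) [Field F] [Fintype F]

theorem ratOver_iff (n : ℕ) (c : AlgebraicClosure F) : RatOver F n c ↔ (⇑(frob F))^[n] c = c := by
  rw [iterate_frob (frob F) (frob_apply F) n c]
  rfl

theorem ratOver_sub (n : ℕ) (c d : AlgebraicClosure F) (hc : RatOver F n c)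
    (hd : RatOver F n d) : RatOver F n (c - d) := by
  rw [ratOver_iff] at *
  rw [iterate_map_sub, hc, hd]

theorem ratOver_add (n : ℕ) (c d : AlgebraicClosure F) (hc : RatOver F n c)
    (hd : RatOver F n d) : RatOver F n (c + d) := by
  rw [ratOver_iff] at *
  rw [iterate_map_add, hc, hd]

theorem ratOver_pow (n k : ℕ) (c : AlgebraicClosure F) (hc : RatOver F n c) :
    RatOver F n (c ^ k) := by
  rw [ratOver_iff] at *
  rw [iterate_map_pow, hc]

theorem ratOver_zero (n : ℕ) : RatOver F n 0 := by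
  rw [ratOver_iff, iterate_map_zero]

/-- equivariant functions -/
def Equi (A : (Fin 2 → AlgebraicClosure F) → AlgebraicClosure F) : Prop :=
  ∀ P, A (Frob F 2 P) = frob F (A P)

theorem Equi.iterate {A : (Fin 2 → AlgebraicClosure F) → AlgebraicClosure F} (hA : Equi F A)
    (n : ℕ) (P : Fin 2 → AlgebraicClosure F) :
    A ((Frob F 2)^[n] P) = (⇑(frob F))^[n] (A P) := by
  induction n generalizing P with
  | zero => rfl
  | succ n ih => rw [iterate_succ_apply, iterate_succ_apply, ih, hA]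

theorem Equi.ratOver {A : (Fin 2 → AlgebraicClosure F) → AlgebraicClosure F} (hA : Equi F A)
    (n : ℕ) (P : Fin 2 → AlgebraicClosure F) (hP : ∀ i, RatOver F n (P i)) :
    RatOver F n (A P) := by
  rw [ratOver_iff, ← hA.iterate, (Frob_fixed F 2 n P).2 hP]

/-- the Frobenius of the plane over the line -/
noncomputable def Frob' (x : (Fin 2 → AlgebraicClosure F) × AlgebraicClosure F) :
    (Fin 2 → AlgebraicClosure F) × AlgebraicClosure F := (Frob F 2 x.1, frob F x.2)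

theorem Frob'_iterate (n : ℕ) (x : (Fin 2 → AlgebraicClosure F) × AlgebraicClosure F) :
    (Frob' F)^[n] x = ((Frob F 2)^[n] x.1, (⇑(frob F))^[n] x.2) := by
  induction n generalizing x with
  | zero => rfl
  | succ n ih => rw [iterate_succ_apply, iterate_succ_apply, iterate_succ_apply, ih]; rfl

theorem Frob'_fixed (n : ℕ) (x : (Fin 2 → AlgebraicClosure F) × AlgebraicClosure F) :
    (Frob' F)^[n] x = x ↔ (∀ i, RatOver F n (x.1 i)) ∧ RatOver F n x.2 := by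
  rw [Frob'_iterate, ← Frob_fixed, ratOver_iff]
  constructor
  · intro h
    exact ⟨congrArg Prod.fst h, congrArg Prod.snd h⟩
  · rintro ⟨h1, h2⟩
    exact Prod.ext h1 h2

variable (ℓ : ℕ) (A δ : (Fin 2 → AlgebraicClosure F) → AlgebraicClosure F)

/-- the points of the `j`-th curve of the tower -/
def curve (j n : ℕ) : Set ((Fin 2 → AlgebraicClosure F) × AlgebraicClosure F) :=
  {x | Normalized x.1 ∧ (∀ i, RatOver F n (x.1 i)) ∧ RatOver F n x.2 ∧
    (x.2 ^ (ℓ ^ j) + A x.1) ^ ℓ = δ x.1}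

/-- the zeros of `δ` on the line -/
def zer (δ : (Fin 2 → AlgebraicClosure F) → AlgebraicClosure F) (n : ℕ) :
    Set (Fin 2 → AlgebraicClosure F) :=
  {P | Normalized P ∧ (∀ i, RatOver F n (P i)) ∧ δ P = 0}

theorem line_finite (n : ℕ) (hn : 1 ≤ n) :
    {P : Fin 2 → AlgebraicClosure F | Normalized P ∧ ∀ i, RatOver F n (P i)}.Finite ∧
    {P : Fin 2 → AlgebraicClosure F | Normalized P ∧ ∀ i, RatOver F n (P i)}.ncard =
      1 + Fintype.card F ^ n := by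
  obtain ⟨p, hp, hpq, hpΩ⟩ := exists_charP F
  have h := ncard_line (Ω := AlgebraicClosure F) p (Fintype.card F) n Fintype.one_lt_card hpq hn
  exact ⟨h.2, h.1⟩

theorem curve_finite (j n : ℕ) (hn : 1 ≤ n) : (curve F ℓ A δ j n).Finite := by
  have h1 := (line_finite F n hn).1
  have h2 := Kn_finite (Ω := AlgebraicClosure F) (Fintype.card F) n Fintype.one_lt_card hn
  apply (h1.prod h2).subset
  rintro x ⟨h1, h2, h3, _⟩
  exact ⟨⟨h1, h2⟩, h3⟩

theorem curve_base (hℓ : ℓ.Prime) (hq : ℓ ∣ Fintype.card F - 1) (hA : Equi F A)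
    (hδ : Equi F δ) (n : ℕ) (hn : 1 ≤ n) :
    ∃ t : ℕ, ℓ ^ padicValNat ℓ n ∣ t ∧ ((curve F ℓ A δ 0 n).ncard : ℤ) =
      ℓ * (1 + (Fintype.card F : ℤ) ^ n) - (ℓ - 1) * (zer F δ n).ncard - ℓ * t := by
  have hfin := line_finite F n hn
  have e0 : {P : Fin 2 → AlgebraicClosure F | P ∈ {P : Fin 2 → AlgebraicClosure F |
      Normalized P} ∧ (Frob F 2)^[n] P = P} =
      {P : Fin 2 → AlgebraicClosure F | Normalized P ∧ ∀ i, RatOver F n (P i)} := by
    ext P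
    simp only [Set.mem_ofPred_eq, Frob_fixed]
  obtain ⟨t, ht, hc⟩ := kummer ℓ (Fintype.card F) hℓ Fintype.one_lt_card hq
    (cast_ne_zero F ℓ hℓ hq) (frob F) (frob_apply F) (Frob F 2)
    {P : Fin 2 → AlgebraicClosure F | Normalized P} (fun P hP => normalized_Frob F 2 P hP)
    δ (fun P _ => hδ P) n hn (by rw [e0]; exact hfin.1)
  refine ⟨t, ht, ?_⟩
  have e1 : (fun x : (Fin 2 → AlgebraicClosure F) × AlgebraicClosure F => (x.1, x.2 + A x.1)) ''
      (curve F ℓ A δ 0 n) = {x : (Fin 2 → AlgebraicClosure F) × AlgebraicClosure F |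
      (x.1 ∈ {P : Fin 2 → AlgebraicClosure F | Normalized P} ∧ (Frob F 2)^[n] x.1 = x.1) ∧
      x.2 ∈ Kn (AlgebraicClosure F) (Fintype.card F) n ∧ x.2 ^ ℓ = δ x.1} := by
    ext ⟨P, w⟩
    simp only [Set.mem_image, curve, Set.mem_ofPred_eq, Frob_fixed, Prod.mk.injEq, Prod.exists,
      pow_zero, pow_one]
    constructor
    · rintro ⟨P', x, ⟨h1, h2, h3, h4⟩, rfl, rfl⟩
      exact ⟨⟨h1, h2⟩, ratOver_add F n _ _ h3 (hA.ratOver F n P' h2), h4⟩
    · rintro ⟨⟨h1, h2⟩, h3, h4⟩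
      refine ⟨P, w - A P, ⟨h1, h2, ratOver_sub F n _ _ h3 (hA.ratOver F n P h2), ?_⟩, rfl, ?_⟩
      · rw [sub_add_cancel]; exact h4
      · ring
  have hinj : Injective
      (fun x : (Fin 2 → AlgebraicClosure F) × AlgebraicClosure F => (x.1, x.2 + A x.1)) := by
    rintro ⟨P, x⟩ ⟨P', x'⟩ h
    simp only [Prod.mk.injEq] at h
    obtain ⟨rfl, h⟩ := h
    rw [add_left_inj] at h
    rw [h]
  have e2 : {P : Fin 2 → AlgebraicClosure F | (P ∈ {P : Fin 2 → AlgebraicClosure F |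
      Normalized P} ∧ (Frob F 2)^[n] P = P) ∧ δ P = 0} = zer F δ n := by
    ext P
    simp only [zer, Set.mem_ofPred_eq, Frob_fixed]
    tauto
  rw [← e1, Set.ncard_image_of_injective _ hinj, e0, e2, hfin.2] at hc
  rw [hc]
  push_cast
  ring

theorem curve_step (hℓ : ℓ.Prime) (hq : ℓ ∣ Fintype.card F - 1) (hA : Equi F A)
    (hδ : Equi F δ) (j n : ℕ) (hn : 1 ≤ n) :
    ∃ t : ℕ, ℓ ^ padicValNat ℓ n ∣ t ∧ ((curve F ℓ A δ (j + 1) n).ncard : ℤ) =
      ℓ * (curve F ℓ A δ j n).ncard -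
        (ℓ - 1) * (zer F (fun P => A P ^ ℓ - δ P) n).ncard - ℓ * t := by
  set V : Set ((Fin 2 → AlgebraicClosure F) × AlgebraicClosure F) :=
    {x | Normalized x.1 ∧ (x.2 ^ (ℓ ^ j) + A x.1) ^ ℓ = δ x.1} with hV
  have hVs : ∀ x ∈ V, Frob' F x ∈ V := by
    rintro x ⟨h1, h2⟩
    refine ⟨normalized_Frob F 2 x.1 h1, ?_⟩
    change ((frob F x.2) ^ (ℓ ^ j) + A (Frob F 2 x.1)) ^ ℓ = δ (Frob F 2 x.1)
    rw [hA, hδ, ← h2]
    simp only [map_pow, map_add]
  have e0 : {x | x ∈ V ∧ (Frob' F)^[n] x = x} = curve F ℓ A δ j n := by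
    ext x
    simp only [hV, curve, Set.mem_ofPred_eq, Frob'_fixed]
    tauto
  have hfin := curve_finite F ℓ A δ j n hn
  obtain ⟨t, ht, hc⟩ := kummer ℓ (Fintype.card F) hℓ Fintype.one_lt_card hq
    (cast_ne_zero F ℓ hℓ hq) (frob F) (frob_apply F) (Frob' F) V hVs
    (fun x => x.2) (fun x _ => rfl) n hn (by rw [e0]; exact hfin)
  refine ⟨t, ht, ?_⟩
  have e1 : (fun x : (Fin 2 → AlgebraicClosure F) × AlgebraicClosure F => ((x.1, x.2 ^ ℓ), x.2)) ''
      (curve F ℓ A δ (j + 1) n) =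
      {x : ((Fin 2 → AlgebraicClosure F) × AlgebraicClosure F) × AlgebraicClosure F |
      (x.1 ∈ V ∧ (Frob' F)^[n] x.1 = x.1) ∧
      x.2 ∈ Kn (AlgebraicClosure F) (Fintype.card F) n ∧ x.2 ^ ℓ = x.1.2} := by
    ext ⟨⟨P, x⟩, w⟩
    simp only [Set.mem_image, curve, hV, Set.mem_ofPred_eq, Frob'_fixed, Prod.mk.injEq,
      Prod.exists]
    constructor
    · rintro ⟨P', x', ⟨h1, h2, h3, h4⟩, ⟨rfl, rfl⟩, rfl⟩
      refine ⟨⟨⟨h1, ?_⟩, h2, ratOver_pow F n ℓ _ h3⟩, h3, rfl⟩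
      rw [← pow_mul, ← pow_succ']
      exact h4
    · rintro ⟨⟨⟨h1, h2⟩, h3, h4⟩, h5, rfl⟩
      refine ⟨P, w, ⟨h1, h3, h5, ?_⟩, ⟨rfl, rfl⟩, rfl⟩
      rw [← pow_mul, ← pow_succ'] at h2
      exact h2
  have hinj : Injective (fun x : (Fin 2 → AlgebraicClosure F) × AlgebraicClosure F =>
      ((x.1, x.2 ^ ℓ), x.2)) := by
    rintro ⟨P, x⟩ ⟨P', x'⟩ h
    simp only [Prod.mk.injEq] at h
    obtain ⟨⟨rfl, _⟩, rfl⟩ := h
    rfl
  have e2 : (fun P : Fin 2 → AlgebraicClosure F => (P, (0 : AlgebraicClosure F))) ''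
      (zer F (fun P => A P ^ ℓ - δ P) n) =
      {x | (x ∈ V ∧ (Frob' F)^[n] x = x) ∧ x.2 = 0} := by
    ext ⟨P, x⟩
    simp only [zer, hV, Set.mem_image, Set.mem_ofPred_eq, Frob'_fixed, Prod.mk.injEq]
    constructor
    · rintro ⟨P', ⟨h1, h2, h3⟩, rfl, rfl⟩
      refine ⟨⟨⟨h1, ?_⟩, h2, ratOver_zero F n⟩, rfl⟩
      rw [zero_pow (pow_ne_zero j hℓ.ne_zero), zero_add]
      exact sub_eq_zero.1 h3
    · rintro ⟨⟨⟨h1, h2⟩, h3, _⟩, rfl⟩
      rw [zero_pow (pow_ne_zero j hℓ.ne_zero), zero_add] at h2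
      exact ⟨P, ⟨h1, h3, sub_eq_zero.2 h2⟩, rfl, rfl⟩
  have hinj2 : Injective
      (fun P : Fin 2 → AlgebraicClosure F => (P, (0 : AlgebraicClosure F))) := by
    intro P P' h
    exact congrArg Prod.fst h
  rw [← e1, ← e2, Set.ncard_image_of_injective _ hinj, Set.ncard_image_of_injective _ hinj2,
    e0] at hc
  rw [hc]
  ring

theorem curve_count (hℓ : ℓ.Prime) (hq : ℓ ∣ Fintype.card F - 1) (hA : Equi F A)
    (hδ : Equi F δ) (k n : ℕ) (hn : 1 ≤ n) :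
    ∃ t : ℤ, (ℓ : ℤ) ^ padicValNat ℓ n ∣ t ∧ ((curve F ℓ A δ k n).ncard : ℤ) =
      ℓ ^ k * (ℓ * (1 + (Fintype.card F : ℤ) ^ n) - (ℓ - 1) * (zer F δ n).ncard) -
        (ℓ ^ k - 1) * (zer F (fun P => A P ^ ℓ - δ P) n).ncard - ℓ * t := by
  induction k with
  | zero =>
    obtain ⟨t, ht, hc⟩ := curve_base F ℓ A δ hℓ hq hA hδ n hn
    refine ⟨t, by exact_mod_cast ht, ?_⟩
    rw [hc]
    ring
  | succ k ih =>
    obtain ⟨t, ht, hc⟩ := ih
    obtain ⟨s, hs, hd⟩ := curve_step F ℓ A δ hℓ hq hA hδ k n hn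
    refine ⟨ℓ * t + s, dvd_add (dvd_mul_of_dvd_right ht _) (by exact_mod_cast hs), ?_⟩
    rw [hd, hc]
    ring

end Pool.Agent.Helper2.Tate
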