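import Pool.Agent.Helper2.Tate.Family

/-!
# Twin irreducible polynomials give members of the explicit family
-/

set_option autoImplicit false

open Polynomial

namespace Pool.Agent.Helper2.Tate

section Reverse

variable {F : Type} [Field F]

theorem natDegree_reverse (P : F[X]) (h0 : P.coeff 0 ≠ 0) :
    P.reverse.natDegree = P.natDegree := by
  rw [reverse_natDegree, natTrailingDegree_eq_zero_of_constantCoeff_ne_zero, Nat.sub_zero]
  exact h0

theorem reverse_reverse (P : F[X]) (h0 : P.coeff 0 ≠ 0) : P.reverse.reverse = P := by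
  unfold reverse
  have h1 := natDegree_reverse P h0
  unfold reverse at h1
  rw [h1, reflect_reflect]

theorem irreducible_reverse (P : F[X]) (hP : Irreducible P) (h0 : P.coeff 0 ≠ 0) :
    Irreducible P.reverse := by
  constructor
  · intro hu
    have h1 := natDegree_eq_zero_of_isUnit hu
    rw [natDegree_reverse P h0] at h1
    exact hP.natDegree_pos.ne' h1
  · intro a b hab
    have hc : a.coeff 0 ≠ 0 ∧ b.coeff 0 ≠ 0 := by
      have h1 : P.reverse.coeff 0 = P.leadingCoeff := coeff_zero_reverse P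
      rw [hab, mul_coeff_zero] at h1
      have h2 : a.coeff 0 * b.coeff 0 ≠ 0 := by
        rw [h1]; exact leadingCoeff_ne_zero.2 hP.ne_zero
      exact ⟨left_ne_zero_of_mul h2, right_ne_zero_of_mul h2⟩
    have h3 : P = a.reverse * b.reverse := by
      rw [← reverse_mul_of_domain, ← hab, reverse_reverse P h0]
    have key : ∀ a : F[X], a.coeff 0 ≠ 0 → IsUnit a.reverse → IsUnit a := by
      intro a ha hu
      have h1 := natDegree_eq_zero_of_isUnit hu
      rw [natDegree_reverse a ha] at h1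
      rw [eq_C_of_natDegree_eq_zero h1]
      exact isUnit_C.2 (isUnit_iff_ne_zero.2 ha)
    rcases hP.isUnit_or_isUnit h3 with h | h
    · exact Or.inl (key a hc.1 h)
    · exact Or.inr (key b hc.2 h)

theorem coeff_zero_ne_zero (P : F[X]) (hP : Irreducible P) (hd : 2 ≤ P.natDegree) :
    P.coeff 0 ≠ 0 := by
  intro h
  have h1 : X ∣ P := X_dvd_iff.2 h
  have h2 := (irreducible_X.associated_of_dvd hP h1)
  have h3 := natDegree_eq_of_degree_eq (degree_eq_degree_of_associated h2)
  rw [natDegree_X] at h3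
  omega

/-- Twin irreducible polynomials `P, P + 1` of degree `ℓ ^ (k + 1) - 1` give admissible data. -/
theorem admissible_twin (ℓ k : ℕ) (hℓ : ℓ.Prime) (hk : 1 ≤ k) (P : F[X])
    (hd : P.natDegree = ℓ ^ (k + 1) - 1) (h1 : Irreducible P) (h2 : Irreducible (P + 1)) :
    Admissible ℓ k (X ^ (ℓ ^ k)) (-X) P.reverse X (P + 1).reverse := by
  have hbig : 4 ≤ ℓ ^ (k + 1) := by
    calc 4 = 2 ^ 2 := rfl
      _ ≤ 2 ^ (k + 1) := Nat.pow_le_pow_right (by norm_num) (by omega)
      _ ≤ ℓ ^ (k + 1) := Nat.pow_le_pow_left hℓ.two_le _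
  have hd1 : (P + 1).natDegree = P.natDegree := by
    have : (1 : F[X]) = C 1 := (C_1).symm
    rw [this, natDegree_add_C]
  have c1 := coeff_zero_ne_zero P h1 (by omega)
  have c2 := coeff_zero_ne_zero (P + 1) h2 (by omega)
  have n1 := natDegree_reverse P c1
  have n2 := natDegree_reverse (P + 1) c2
  have hnd : ¬ ℓ ∣ ℓ ^ (k + 1) - 1 := by
    intro h
    have h3 : ℓ ∣ ℓ ^ (k + 1) := dvd_pow_self _ (by omega)
    have h4 := (Nat.dvd_sub h3 h)
    have h5 : ℓ ^ (k + 1) - (ℓ ^ (k + 1) - 1) = 1 := by omega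
    rw [h5] at h4
    exact hℓ.one_lt.ne' (Nat.dvd_one.1 h4)
  have hnd1 : ¬ ℓ ∣ 1 := fun h => hℓ.one_lt.ne' (Nat.dvd_one.1 h)
  refine ⟨?_, irreducible_of_degree_eq_one (by rw [degree_neg, degree_X]),
    irreducible_reverse P h1 c1, irreducible_X,
    irreducible_reverse _ h2 c2, ?_, ?_, ?_, ?_, ?_, ?_, ?_, ?_, ?_⟩
  · rw [natDegree_X_pow]
  · rw [natDegree_neg, natDegree_X]; exact hnd1
  · rw [n1, hd]; exact hnd
  · rw [natDegree_X]; exact hnd1
  · rw [n2, hd1, hd]; exact hnd
  · rw [natDegree_neg, natDegree_X, n1, hd]; omega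
  · rw [natDegree_X, n2, hd1, hd]; omega
  · intro h
    have h3 := natDegree_eq_of_degree_eq (degree_eq_degree_of_associated h)
    rw [natDegree_neg, natDegree_X, n1, hd] at h3
    omega
  · intro h
    have h3 := natDegree_eq_of_degree_eq (degree_eq_degree_of_associated h)
    rw [natDegree_X, n2, hd1, hd] at h3
    omega
  · have h3 : (P + 1).reverse = P.reverse + X ^ P.natDegree := by
      unfold reverse
      rw [hd1, reflect_add, reflect_one]
    rw [h3, ← pow_mul, hd]
    have h4 : ℓ ^ k * ℓ = (ℓ ^ (k + 1) - 1) + 1 := by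
      rw [← pow_succ]; omega
    rw [h4, pow_succ]
    ring

end Reverse

end Pool.Agent.Helper2.Tate
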