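import Pool.Agent.Helper2.Tate.TwistCount
import Pool.Agent.Helper2.Tate.Conj

/-!
# The multiplicities for the twists of a cyclic plane
-/

set_option autoImplicit false

open Polynomial

namespace Pool.Agent.Helper2.Tate

theorem geom_primitive (ℓ n : ℕ) (hℓ : ℓ.Prime) (ζ : ℂ) (hζ : IsPrimitiveRoot ζ ℓ) :
    ∑ s ∈ Finset.range ℓ, (ζ ^ s) ^ n = if ℓ ∣ n then (ℓ : ℂ) else 0 := by
  have h1 : ∀ s, (ζ ^ s) ^ n = (ζ ^ n) ^ s := by
    intro s
    rw [← pow_mul, ← pow_mul, mul_comm]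
  simp only [h1]
  split
  · rename_i h
    obtain ⟨m, rfl⟩ := h
    rw [pow_mul, hζ.pow_eq_one, one_pow]
    simp
  · rename_i h
    have h2 : IsPrimitiveRoot (ζ ^ n) ℓ := by
      apply hζ.pow_of_coprime
      exact ((Nat.Prime.coprime_iff_not_dvd hℓ).2 h).symm
    exact h2.geom_sum_eq_zero hℓ.one_lt

variable (F : Type) [Field F] [Fintype F] [DecidableEq F]

/-- The sum of the multiplicities of `q` over all twists. -/
theorem sum_mult (ℓ : ℕ) (hℓ : ℓ.Prime) (hq : ℓ ∣ Fintype.card F - 1)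
    (f : MvPolynomial (Fin 3) F) (Q : F → ℤ[X])
    (hQ : ∀ c : F, c ≠ 0 → IsFrobTwo (Fintype.card F)
      (fun n => (coverPoints F ℓ ∅ (MvPolynomial.C c * f) n).ncard) (Q c)) (e : ℕ)
    (he : Fintype.card F - 1 = ℓ * e) :
    ∑ c ∈ Finset.univ.erase (0 : F), mult (Fintype.card F) (Q c) 1 + e =
      (Fintype.card F - 1) + e * mult (Fintype.card F) (Q 1) ℓ := by
  classical
  set q := Fintype.card F with hqdef
  have hq2 : 2 ≤ q := Fintype.one_lt_card
  have hq0 : (q : ℂ) ≠ 0 := by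
    have : q ≠ 0 := by omega
    exact_mod_cast this
  obtain ⟨ζ, hζ⟩ : ∃ ζ : ℂ, IsPrimitiveRoot ζ ℓ :=
    ⟨_, Complex.isPrimitiveRoot_exp ℓ hℓ.ne_zero⟩
  have hζ0 : ζ ≠ 0 := hζ.ne_zero hℓ.ne_zero
  set R : F → Multiset ℂ := fun c => ((Q c).map (Int.castRingHom ℂ)).roots with hR
  set Z : Multiset ℂ := (Multiset.range ℓ).map (fun s => (q : ℂ) * ζ ^ s) with hZ
  set ML : Multiset ℂ := ∑ c ∈ Finset.univ.erase (0 : F), R c + e • Z with hML
  set MR : Multiset ℂ := (q - 1) • {(q : ℂ)} +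
    e • ∑ s ∈ Finset.range ℓ, (R 1).map (fun α => (ζ⁻¹) ^ s * α) with hMR
  have hps : ∀ c : F, c ≠ 0 → ∀ n, 1 ≤ n → ((R c).map (fun α => α ^ n)).sum =
      ((coverPoints F ℓ ∅ (MvPolynomial.C c * f) n).ncard : ℂ) - 1 - (q : ℂ) ^ (2 * n) := by
    intro c hc n hn
    have h1 := (hQ c hc).2 n hn
    unfold powerSum at h1
    simp only at h1
    rw [h1]; ring
  have hsums : ∀ n, 1 ≤ n → (ML.map (fun α => α ^ n)).sum = (MR.map (fun α => α ^ n)).sum := by
    intro n hn
    have hZs : (Z.map (fun α => α ^ n)).sum = (q : ℂ) ^ n * (if ℓ ∣ n then (ℓ : ℂ) else 0) := by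
      rw [← geom_primitive ℓ n hℓ ζ hζ, hZ, Multiset.map_map, Finset.mul_sum]
      simp only [Function.comp_def, mul_pow]
      rfl
    have hL : (ML.map (fun α => α ^ n)).sum = ∑ c ∈ Finset.univ.erase (0 : F),
        ((R c).map (fun α => α ^ n)).sum + e * ((q : ℂ) ^ n * (if ℓ ∣ n then (ℓ : ℂ) else 0)) := by
      rw [hML, Multiset.map_add, Multiset.sum_add, Multiset.map_nsmul, Multiset.sum_nsmul, hZs,
        nsmul_eq_mul]
      congr 1
      rw [← Multiset.coe_mapAddMonoidHom, map_sum, ← Multiset.coe_sumAddMonoidHom, map_sum]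
    have hRr : (MR.map (fun α => α ^ n)).sum = ((q - 1 : ℕ) : ℂ) * (q : ℂ) ^ n +
        e * ((if ℓ ∣ n then (ℓ : ℂ) else 0) * ((R 1).map (fun α => α ^ n)).sum) := by
      rw [hMR, Multiset.map_add, Multiset.sum_add, Multiset.map_nsmul, Multiset.sum_nsmul,
        Multiset.map_nsmul, Multiset.sum_nsmul, nsmul_eq_mul, nsmul_eq_mul]
      congr 1
      · simp
      · congr 1
        rw [← geom_primitive ℓ n hℓ ζ⁻¹ hζ.inv, ← Multiset.coe_mapAddMonoidHom, map_sum,
          ← Multiset.coe_sumAddMonoidHom, map_sum, Finset.sum_mul]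
        apply Finset.sum_congr rfl
        intro s _
        simp only [Multiset.coe_mapAddMonoidHom, Multiset.coe_sumAddMonoidHom, Multiset.map_map,
          Function.comp_def, mul_pow]
        rw [Multiset.sum_map_mul_left]
    rw [hL, hRr]
    by_cases hdvd : ℓ ∣ n
    · rw [if_pos hdvd]
      have h1 : ∀ c ∈ Finset.univ.erase (0 : F), ((R c).map (fun α => α ^ n)).sum =
          ((R 1).map (fun α => α ^ n)).sum := by
        intro c hc
        have hc0 := Finset.ne_of_mem_erase hc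
        rw [hps c hc0 n hn, hps 1 one_ne_zero n hn,
          cover_twist_of_dvd F ℓ n hℓ hq hdvd c hc0 f,
          cover_twist_of_dvd F ℓ n hℓ hq hdvd 1 one_ne_zero f]
      rw [Finset.sum_congr rfl h1, Finset.sum_const, Finset.card_erase_of_mem (Finset.mem_univ _),
        Finset.card_univ, nsmul_eq_mul, ← hqdef, he]
      push_cast
      ring
    · rw [if_neg hdvd]
      rw [Finset.sum_congr rfl (fun c hc => hps c (Finset.ne_of_mem_erase hc) n hn)]
      have h1 := sum_twists F ℓ n hℓ hq hn hdvd f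
      have h2 : (∑ c ∈ Finset.univ.erase (0 : F),
          ((coverPoints F ℓ ∅ (MvPolynomial.C c * f) n).ncard : ℂ)) =
          ((q - 1 : ℕ) : ℂ) * (1 + (q : ℂ) ^ n + (q : ℂ) ^ (2 * n)) := by
        rw [ncard_points_empty F n hn] at h1
        exact_mod_cast h1
      rw [Finset.sum_sub_distrib, Finset.sum_sub_distrib, h2, Finset.sum_const, Finset.sum_const,
        Finset.card_erase_of_mem (Finset.mem_univ _), Finset.card_univ, nsmul_eq_mul,
        nsmul_eq_mul, ← hqdef]
      ring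
  have hcount := ps_count ML MR hsums (q : ℂ) hq0
  have hcL : ML.count (q : ℂ) = ∑ c ∈ Finset.univ.erase (0 : F), mult q (Q c) 1 + e := by
    rw [hML, Multiset.count_add, Multiset.count_nsmul, Multiset.count_sum']
    congr 1
    · apply Finset.sum_congr rfl
      intro c _
      rw [mult_one]
    · have h1 : Z.count (q : ℂ) = 1 := by
        have hnd : Z.Nodup := by
          rw [hZ]
          apply Multiset.Nodup.map_on _ (Multiset.nodup_range ℓ)
          intro s hs t ht hst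
          exact hζ.pow_inj (Multiset.mem_range.1 hs) (Multiset.mem_range.1 ht)
            (mul_left_cancel₀ hq0 hst)
        apply Multiset.count_eq_one_of_mem hnd
        rw [hZ, Multiset.mem_map]
        exact ⟨0, Multiset.mem_range.2 hℓ.pos, by simp⟩
      rw [h1, mul_one]
  have hcR : MR.count (q : ℂ) = (q - 1) + e * mult q (Q 1) ℓ := by
    rw [hMR, Multiset.count_add, Multiset.count_nsmul, Multiset.count_nsmul,
      Multiset.count_singleton_self, mul_one, Multiset.count_sum',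
      mult_eq_sum ℓ q hℓ (by omega) (Q 1) ζ hζ]
    congr 2
    apply Finset.sum_congr rfl
    intro s _
    have hinj : Function.Injective (fun α : ℂ => (ζ⁻¹) ^ s * α) :=
      mul_right_injective₀ (pow_ne_zero _ (inv_ne_zero hζ0))
    have h1 : (q : ℂ) = (fun α : ℂ => (ζ⁻¹) ^ s * α) ((q : ℂ) * ζ ^ s) := by
      simp only
      rw [inv_pow]
      field_simp
    conv_lhs => rw [h1]
    rw [Multiset.count_map_eq_count' _ _ hinj]
  rw [← hcL, hcount, hcR]

/-- The multiplicity over the extension of degree `ℓ` is the same for all twists. -/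
theorem mult_twist_ell (ℓ : ℕ) (hℓ : ℓ.Prime) (hq : ℓ ∣ Fintype.card F - 1)
    (f : MvPolynomial (Fin 3) F) (Q : F → ℤ[X])
    (hQ : ∀ c : F, c ≠ 0 → IsFrobTwo (Fintype.card F)
      (fun n => (coverPoints F ℓ ∅ (MvPolynomial.C c * f) n).ncard) (Q c)) (c : F) (hc : c ≠ 0) :
    mult (Fintype.card F) (Q c) ℓ = mult (Fintype.card F) (Q 1) ℓ := by
  classical
  set q := Fintype.card F with hqdef
  have hq2 : 2 ≤ q := Fintype.one_lt_card
  have hq0 : (q : ℂ) ≠ 0 := by
    have : q ≠ 0 := by omega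
    exact_mod_cast this
  have hps : ∀ c : F, c ≠ 0 → ∀ n, 1 ≤ n →
      ((((Q c).map (Int.castRingHom ℂ)).roots).map (fun α => α ^ n)).sum =
      ((coverPoints F ℓ ∅ (MvPolynomial.C c * f) n).ncard : ℂ) - 1 - (q : ℂ) ^ (2 * n) := by
    intro c hc n hn
    have h1 := (hQ c hc).2 n hn
    unfold powerSum at h1
    simp only at h1
    rw [h1]; ring
  have hm : ∀ c : F, mult q (Q c) ℓ =
      ((((Q c).map (Int.castRingHom ℂ)).roots).map (fun α => α ^ ℓ)).count ((q : ℂ) ^ ℓ) := by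
    intro c
    unfold mult
    rw [Multiset.count_map]
    congr 1
    apply Multiset.filter_congr
    intro α _
    exact eq_comm
  rw [hm, hm]
  apply ps_count
  · intro n hn
    rw [Multiset.map_map, Multiset.map_map]
    simp only [Function.comp_def, ← pow_mul]
    have hn' : 1 ≤ ℓ * n := Nat.mul_pos hℓ.pos hn
    rw [hps c hc _ hn', hps 1 one_ne_zero _ hn',
      cover_twist_of_dvd F ℓ _ hℓ hq (dvd_mul_right ℓ n) c hc f,
      cover_twist_of_dvd F ℓ _ hℓ hq (dvd_mul_right ℓ n) 1 one_ne_zero f]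
  · exact pow_ne_zero _ hq0

/-- The multiplicity depends only on the class modulo `ℓ`-th powers. -/
theorem mult_twist_class (ℓ : ℕ) (f : MvPolynomial (Fin 3) F) (Q : F → ℤ[X])
    (hQ : ∀ c : F, c ≠ 0 → IsFrobTwo (Fintype.card F)
      (fun n => (coverPoints F ℓ ∅ (MvPolynomial.C c * f) n).ncard) (Q c)) (c b : F) (hc : c ≠ 0)
    (hb : b ≠ 0) :
    mult (Fintype.card F) (Q (c * b ^ ℓ)) 1 = mult (Fintype.card F) (Q c) 1 := by
  classical
  set q := Fintype.card F with hqdef
  have hq2 : 2 ≤ q := Fintype.one_lt_card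
  have hq0 : (q : ℂ) ≠ 0 := by
    have : q ≠ 0 := by omega
    exact_mod_cast this
  rw [mult_one, mult_one]
  apply ps_count _ _ _ _ hq0
  intro n hn
  have h1 := (hQ (c * b ^ ℓ) (mul_ne_zero hc (pow_ne_zero _ hb))).2 n hn
  have h2 := (hQ c hc).2 n hn
  unfold powerSum at h1 h2
  simp only at h1 h2
  rw [cover_twist_class F ℓ n c b hb f, h2] at h1
  exact (add_left_cancel h1).symm

theorem card_class (ℓ : ℕ) (hℓ : ℓ.Prime) (e : ℕ) (he : Fintype.card F - 1 = ℓ * e) (c : F)
    (hc : c ≠ 0) : e ≤ ((Finset.univ.erase (0 : F)).image (fun b => c * b ^ ℓ)).card := by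
  classical
  have h1 : (Finset.univ.erase (0 : F)).card ≤
      ℓ * ((Finset.univ.erase (0 : F)).image (fun b => c * b ^ ℓ)).card := by
    apply Finset.card_le_mul_card_image
    intro y _
    have h2 : ((Finset.univ.erase (0 : F)).filter (fun b => c * b ^ ℓ = y)) ⊆
        (nthRoots ℓ (y / c)).toFinset := by
      intro b hb
      rw [Finset.mem_filter] at hb
      rw [Multiset.mem_toFinset, mem_nthRoots hℓ.pos, ← hb.2]
      field_simp
    exact (Finset.card_le_card h2).trans ((Multiset.toFinset_card_le _).trans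
      (card_nthRoots ℓ (y / c)))
  rw [Finset.card_erase_of_mem (Finset.mem_univ _), Finset.card_univ, he] at h1
  exact Nat.le_of_mul_le_mul_left h1 hℓ.pos

/-- The multiplicities for the twists. -/
theorem twists (ℓ : ℕ) (hℓ : ℓ.Prime) (hq : ℓ ∣ Fintype.card F - 1)
    (f : MvPolynomial (Fin 3) F) (Q : F → ℤ[X])
    (hQ : ∀ c : F, c ≠ 0 → IsFrobTwo (Fintype.card F)
      (fun n => (coverPoints F ℓ ∅ (MvPolynomial.C c * f) n).ncard) (Q c))
    (hroot : ∀ c : F, c ≠ 0 → (Q c).eval (Fintype.card F : ℤ) = 0)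
    (hle : ∀ c : F, c ≠ 0 → mult (Fintype.card F) (Q c) ℓ ≤ ℓ) :
    (∀ c : F, c ≠ 0 → mult (Fintype.card F) (Q c) 1 = 1 ∨
      mult (Fintype.card F) (Q c) 1 = ℓ) ∧
    ∀ c₁ c₂ : F, c₁ ≠ 0 → c₂ ≠ 0 → mult (Fintype.card F) (Q c₁) 1 ≠ 1 →
      mult (Fintype.card F) (Q c₂) 1 ≠ 1 → ∃ b : F, c₂ = c₁ * b ^ ℓ := by
  classical
  obtain ⟨e, he⟩ := hq
  have hq' : ℓ ∣ Fintype.card F - 1 := ⟨e, he⟩
  have hsum := sum_mult F ℓ hℓ hq' f Q hQ e he
  have hq2 : 2 ≤ Fintype.card F := Fintype.one_lt_card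
  have hℓ2 := hℓ.two_le
  have he0 : 1 ≤ e := by
    rcases Nat.eq_zero_or_pos e with rfl | h
    · omega
    · exact h
  set q := Fintype.card F with hqdef
  set τ := mult q (Q 1) ℓ with hτ
  have hτle : τ ≤ ℓ := hle 1 one_ne_zero
  have hone : ∀ c : F, c ≠ 0 → 1 ≤ mult q (Q c) 1 := by
    intro c hc
    rw [mult_one, Nat.one_le_iff_ne_zero, Ne, Multiset.count_eq_zero, not_not,
      mem_roots ((hQ c hc).1.map _).ne_zero, IsRoot, eval_map]
    have h1 := hroot c hc
    have h2 : eval₂ (Int.castRingHom ℂ) (q : ℂ) (Q c) = ((eval (q : ℤ) (Q c) : ℤ) : ℂ) := by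
      have h3 : (q : ℂ) = Int.castRingHom ℂ (q : ℤ) := by simp
      rw [h3, eval₂_at_apply]
      simp
    rw [h2, h1, Int.cast_zero]
  have hcases : ∀ c : F, c ≠ 0 → mult q (Q c) 1 = τ ∨ (τ = ℓ ∧ mult q (Q c) 1 = 1) := by
    intro c hc
    obtain ⟨M, hM⟩ := mult_conj ℓ q hℓ (by omega) (Q c) (hQ c hc).1
    rw [mult_twist_ell F ℓ hℓ hq' f Q hQ c hc, ← hqdef, ← hτ] at hM
    have h1 := hone c hc
    rcases M with _ | M
    · left; omega
    · right
      have h2 : (ℓ - 1) * 1 ≤ (ℓ - 1) * (M + 1) := Nat.mul_le_mul_left _ (by omega)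
      omega
  have hcard : (Finset.univ.erase (0 : F)).card = q - 1 := by
    rw [Finset.card_erase_of_mem (Finset.mem_univ _), Finset.card_univ]
  rcases Nat.lt_or_ge τ ℓ with hlt | hge
  · -- all multiplicities are equal to one
    have hall : ∀ c : F, c ≠ 0 → mult q (Q c) 1 = τ := by
      intro c hc
      rcases hcases c hc with h | h
      · exact h
      · omega
    have h1 : ∑ c ∈ Finset.univ.erase (0 : F), mult q (Q c) 1 = (q - 1) * τ := by
      rw [Finset.sum_congr rfl (fun c hc => hall c (Finset.ne_of_mem_erase hc)), Finset.sum_const,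
        hcard, smul_eq_mul]
    rw [h1, he] at hsum
    have h2 : τ = 1 := by
      have h3 : e * (ℓ * τ + 1) = e * (ℓ + τ) := by
        calc e * (ℓ * τ + 1) = ℓ * e * τ + e := by ring
          _ = ℓ * e + e * τ := hsum
          _ = e * (ℓ + τ) := by ring
      have h4 := Nat.eq_of_mul_eq_mul_left he0 h3
      obtain ⟨l, rfl⟩ : ∃ l, ℓ = l + 2 := ⟨ℓ - 2, by omega⟩
      have h5 : (l + 1) * τ = (l + 1) * 1 := by
        have : (l + 2) * τ = (l + 1) * τ + τ := by ring
        omega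
      exact Nat.eq_of_mul_eq_mul_left (by omega) h5
    refine ⟨fun c hc => Or.inl (by rw [hall c hc, h2]), ?_⟩
    intro c₁ c₂ hc₁ _ h _
    exact absurd (by rw [hall c₁ hc₁, h2]) h
  · have hτℓ : τ = ℓ := le_antisymm hτle hge
    have hcases' : ∀ c : F, c ≠ 0 → mult q (Q c) 1 = 1 ∨ mult q (Q c) 1 = ℓ := by
      intro c hc
      rcases hcases c hc with h | h
      · right; omega
      · left; exact h.2
    refine ⟨hcases', ?_⟩
    intro c₁ c₂ hc₁ hc₂ h₁ h₂
    -- the exceptional set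
    set A := (Finset.univ.erase (0 : F)).filter (fun c => mult q (Q c) 1 = ℓ) with hA
    have hsumA : ∑ c ∈ Finset.univ.erase (0 : F), mult q (Q c) 1 =
        (q - 1) + A.card * (ℓ - 1) := by
      have h3 : ∀ c ∈ Finset.univ.erase (0 : F), mult q (Q c) 1 =
          1 + (if mult q (Q c) 1 = ℓ then (ℓ - 1) else 0) := by
        intro c hc
        rcases hcases' c (Finset.ne_of_mem_erase hc) with h | h
        · rw [h, if_neg (by omega)]
        · rw [h, if_pos rfl]; omega
      rw [Finset.sum_congr rfl h3, Finset.sum_add_distrib, Finset.sum_const, hcard,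
        smul_eq_mul, mul_one, ← Finset.sum_filter, Finset.sum_const, smul_eq_mul]
    have hAe : A.card = e := by
      rw [hsumA, hτℓ] at hsum
      have h3 : A.card * (ℓ - 1) + e = e * ℓ := by omega
      obtain ⟨l, rfl⟩ : ∃ l, ℓ = l + 2 := ⟨ℓ - 2, by omega⟩
      have h4 : A.card * (l + 1) = e * (l + 1) := by
        have h5 : l + 2 - 1 = l + 1 := by omega
        rw [h5] at h3
        have h6 : e * (l + 2) = e * (l + 1) + e := by ring
        omega
      exact Nat.eq_of_mul_eq_mul_right (by omega) h4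
    have hm : ∀ c : F, c ≠ 0 → mult q (Q c) 1 ≠ 1 → c ∈ A := by
      intro c hc h
      rw [hA, Finset.mem_filter]
      refine ⟨Finset.mem_erase.2 ⟨hc, Finset.mem_univ _⟩, ?_⟩
      rcases hcases' c hc with h' | h'
      · exact absurd h' h
      · exact h'
    have hsub : (Finset.univ.erase (0 : F)).image (fun b => c₁ * b ^ ℓ) ⊆ A := by
      intro y hy
      rw [Finset.mem_image] at hy
      obtain ⟨b, hb, rfl⟩ := hy
      have hb0 := Finset.ne_of_mem_erase hb
      apply hm _ (mul_ne_zero hc₁ (pow_ne_zero _ hb0))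
      rw [mult_twist_class F ℓ f Q hQ c₁ b hc₁ hb0]
      exact h₁
    have heq : (Finset.univ.erase (0 : F)).image (fun b => c₁ * b ^ ℓ) = A := by
      apply Finset.eq_of_subset_of_card_le hsub
      rw [hAe]
      exact card_class F ℓ hℓ e he c₁ hc₁
    have h4 := hm c₂ hc₂ h₂
    rw [← heq, Finset.mem_image] at h4
    obtain ⟨b, _, hb⟩ := h4
    exact ⟨b, hb.symm⟩

end Pool.Agent.Helper2.Tate
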