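import Pool.Agent.Helper2.Tate.GFinal

/-!
# The number of eigenvalues which are roots of unity times a power of `q`
-/

set_option autoImplicit false

open Polynomial

namespace Pool.Agent.Helper2.Tate

/-- The multiplicities of the roots of `pr A`. -/
theorem count_roots_pr {κ : Type*} [Field κ] [DecidableEq κ] (A : Multiset κ) (μ : κ)
    (hμ : μ ≠ 0) : (pr A).roots.count μ = A.count μ⁻¹ := by
  have hne : ∀ A : Multiset κ, pr A ≠ 0 := by
    intro A h
    have := pr_coeff_zero' A
    rw [h, coeff_zero] at this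
    exact zero_ne_one this
  induction A using Multiset.induction_on with
  | empty => unfold pr; simp
  | cons α A ih =>
    have h1 : (1 - C α * X : κ[X]) ≠ 0 := by
      intro h
      have h2 := congrArg (fun p => Polynomial.coeff p 0) h
      simp at h2
    rw [pr_cons, roots_mul (mul_ne_zero h1 (hne A)), Multiset.count_add, ih, Multiset.count_cons]
    have h2 : (1 - C α * X : κ[X]).roots.count μ = if μ⁻¹ = α then 1 else 0 := by
      by_cases hα : α = 0
      · rw [hα, if_neg (inv_ne_zero hμ)]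
        simp
      · have h3 : (1 - C α * X : κ[X]) = C (-α) * (X - C α⁻¹) := by
          rw [mul_sub, ← C_mul, neg_mul, mul_inv_cancel₀ hα, C_neg, C_neg, C_1]
          ring
        rw [h3, roots_C_mul _ (neg_ne_zero.2 hα), roots_X_sub_C, Multiset.count_singleton]
        congr 1
        rw [eq_iff_iff]
        constructor
        · intro h; rw [h, inv_inv]
        · intro h; rw [← h, inv_inv]
    rw [h2]
    ring

/-- Conjugation over `ℤ[ζ_ℓ]` permutes the roots. -/
theorem roots_map_conj (ℓ : ℕ) (R : (AlgebraicClosure ℚ)[X])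
    (hc : ∀ i, R.coeff i ∈ Subring.closure {z : AlgebraicClosure ℚ | z ^ ℓ = 1})
    (σ : AlgebraicClosure ℚ ≃ₐ[ℚ] AlgebraicClosure ℚ)
    (hσ : ∀ z : AlgebraicClosure ℚ, z ^ ℓ = 1 → σ z = z) :
    R.roots.map (fun z => σ z) = R.roots := by
  have h1 : Set.EqOn (σ : AlgebraicClosure ℚ →+* AlgebraicClosure ℚ)
      (RingHom.id (AlgebraicClosure ℚ)) {z : AlgebraicClosure ℚ | z ^ ℓ = 1} := by
    intro z hz
    exact hσ z hz
  have h2 : R.map (σ : AlgebraicClosure ℚ →+* AlgebraicClosure ℚ) = R := by
    ext i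
    rw [coeff_map]
    exact RingHom.eqOn_set_closure h1 (hc i)
  conv_rhs => rw [← h2, (IsAlgClosed.splits R).roots_map]
  rfl

theorem map_intAut_eq (ℓ : ℕ) (R : (AlgebraicClosure ℚ)[X])
    (hc : ∀ i, R.coeff i ∈ Subring.closure {z : AlgebraicClosure ℚ | z ^ ℓ = 1})
    (AO : Multiset (integralClosure ℤ (AlgebraicClosure ℚ)))
    (hAO : AO.map (algebraMap _ (AlgebraicClosure ℚ)) = R.roots)
    (σ : AlgebraicClosure ℚ ≃ₐ[ℚ] AlgebraicClosure ℚ)
    (hσ : ∀ z : AlgebraicClosure ℚ, z ^ ℓ = 1 → σ z = z) :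
    AO.map (intAut σ) = AO := by
  have hinj : Function.Injective (algebraMap (integralClosure ℤ (AlgebraicClosure ℚ))
    (AlgebraicClosure ℚ)) := Subtype.val_injective
  apply Multiset.map_injective hinj
  rw [Multiset.map_map, hAO]
  conv_rhs => rw [← roots_map_conj ℓ R hc σ hσ, ← hAO, Multiset.map_map]
  rfl

/-- The number of roots with a given reduction. -/
noncomputable def redCount {κ : Type} [Field κ] [DecidableEq κ]
    [DecidableEq (integralClosure ℤ (AlgebraicClosure ℚ))]
    (red : integralClosure ℤ (AlgebraicClosure ℚ) →+* κ)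
    (AO : Multiset (integralClosure ℤ (AlgebraicClosure ℚ))) (u M : ℕ) (z : κ) : ℕ :=
  (AO.filter (fun x => x ^ M = (u : integralClosure ℤ (AlgebraicClosure ℚ)) ^ M ∧ red x = z)).card

theorem redCount_le (ℓ : ℕ) [hℓ : Fact ℓ.Prime] {κ : Type} [Field κ] [CharP κ ℓ] [DecidableEq κ]
    [DecidableEq (integralClosure ℤ (AlgebraicClosure ℚ))]
    (red : integralClosure ℤ (AlgebraicClosure ℚ) →+* κ) (u : ℕ) (hu0 : u ≠ 0)
    (hu : (u : κ) = 1) (R : (AlgebraicClosure ℚ)[X])
    (hc : ∀ i, R.coeff i ∈ Subring.closure {z : AlgebraicClosure ℚ | z ^ ℓ = 1})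
    (AO : Multiset (integralClosure ℤ (AlgebraicClosure ℚ)))
    (hAO : AO.map (algebraMap _ (AlgebraicClosure ℚ)) = R.roots)
    (M : ℕ) (hM : 0 < M) (n : ℕ) (hn : ¬ ℓ ∣ n) (z z' : κ) (hz : IsPrimitiveRoot z n)
    (hz' : IsPrimitiveRoot z' n) : redCount red AO u M z ≤ redCount red AO u M z' := by
  classical
  have hn0 : 0 < n := by
    rcases Nat.eq_zero_or_pos n with rfl | h
    · exact absurd (dvd_zero _) hn
    · exact h
  rcases Nat.eq_zero_or_pos (redCount red AO u M z) with h0 | h0
  · rw [h0]; exact Nat.zero_le _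
  have huQ : (u : AlgebraicClosure ℚ) ≠ 0 := by exact_mod_cast hu0
  obtain ⟨x0, hx0⟩ := Multiset.card_pos_iff_exists_mem.1 h0
  rw [Multiset.mem_filter] at hx0
  have hzM : z ^ M = 1 := by
    rw [← hx0.2.2, ← map_pow, hx0.2.1, map_pow, map_natCast, hu, one_pow]
  have hnM : n ∣ M := hz.dvd_of_pow_eq_one M hzM
  have : NeZero n := ⟨hn0.ne'⟩
  obtain ⟨k, _, hk, hzk⟩ := (hz.isPrimitiveRoot_iff).1 hz'
  obtain ⟨t, ht1, ht2, ht3⟩ := exists_exponent ℓ n (ℓ * M) k hℓ.out hn
    (Nat.mul_pos hℓ.out.pos hM) (Nat.mul_dvd_mul_left ℓ hnM) hk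
  obtain ⟨σ, hσ⟩ := exists_conj_pow (ℓ * M) (Nat.mul_pos hℓ.out.pos hM) t ht1
  have hσℓ : ∀ w : AlgebraicClosure ℚ, w ^ ℓ = 1 → σ w = w := by
    intro w hw
    rw [hσ w (by rw [pow_mul, hw, one_pow])]
    rw [pow_modEq w ℓ t 1 hw ht2, pow_one]
  have hmap := map_intAut_eq ℓ R hc AO hAO σ hσℓ
  have hkey : ∀ x : integralClosure ℤ (AlgebraicClosure ℚ),
      x ^ M = (u : integralClosure ℤ (AlgebraicClosure ℚ)) ^ M → red x = z →
      (intAut σ x) ^ M = (u : integralClosure ℤ (AlgebraicClosure ℚ)) ^ M ∧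
        red (intAut σ x) = z' := by
    intro x hx hxz
    refine ⟨by rw [← map_pow, hx, map_pow, map_natCast], ?_⟩
    have hxM : (x : AlgebraicClosure ℚ) ^ M = (u : AlgebraicClosure ℚ) ^ M := by
      have := congrArg (fun y : integralClosure ℤ (AlgebraicClosure ℚ) => (y : AlgebraicClosure ℚ)) hx
      simpa using this
    set ζ : AlgebraicClosure ℚ := (x : AlgebraicClosure ℚ) / u with hζ
    have hζM : ζ ^ M = 1 := by
      rw [hζ, div_pow, hxM, div_self (pow_ne_zero _ huQ)]
    have hζint : IsIntegral ℤ ζ := by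
      refine ⟨X ^ M - 1, monic_X_pow_sub_C 1 hM.ne', ?_⟩
      simp only [eval₂_sub, eval₂_pow, eval₂_X, eval₂_one]
      rw [hζM, sub_self]
    have hxζ : (x : AlgebraicClosure ℚ) = u * ζ := by
      rw [hζ, mul_div_cancel₀ _ huQ]
    set ζO : integralClosure ℤ (AlgebraicClosure ℚ) := ⟨ζ, hζint⟩ with hζO
    have hxO : x = (u : integralClosure ℤ (AlgebraicClosure ℚ)) * ζO := by
      apply Subtype.ext
      push_cast
      exact hxζ
    have hredζ : red ζO = z := by
      rw [hxO, map_mul, map_natCast, hu, one_mul] at hxz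
      exact hxz
    have hyO : intAut σ x = (u : integralClosure ℤ (AlgebraicClosure ℚ)) * ζO ^ t := by
      apply Subtype.ext
      push_cast
      rw [coe_intAut, hxζ, map_mul, map_natCast, hσ ζ (by
        rw [mul_comm, pow_mul, hζM, one_pow])]
    rw [hyO, map_mul, map_natCast, hu, one_mul, map_pow, hredζ, ← hzk]
    exact pow_modEq z n t k hz.pow_eq_one ht3
  unfold redCount
  conv_rhs => rw [← hmap]
  rw [Multiset.filter_map, Multiset.card_map]
  apply Multiset.card_le_card
  apply Multiset.monotone_filter_right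
  intro x hx
  exact hkey x hx.1 hx.2

/-- The number of roots whose reduction has order `n`. -/
theorem card_order_le (ℓ : ℕ) [hℓ : Fact ℓ.Prime] {κ : Type} [Field κ] [CharP κ ℓ] [DecidableEq κ]
    [DecidableEq (integralClosure ℤ (AlgebraicClosure ℚ))]
    (red : integralClosure ℤ (AlgebraicClosure ℚ) →+* κ) (u : ℕ) (hu0 : u ≠ 0)
    (hu : (u : κ) = 1) (R : (AlgebraicClosure ℚ)[X])
    (hc : ∀ i, R.coeff i ∈ Subring.closure {z : AlgebraicClosure ℚ | z ^ ℓ = 1})
    (AO : Multiset (integralClosure ℤ (AlgebraicClosure ℚ)))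
    (hAO : AO.map (algebraMap _ (AlgebraicClosure ℚ)) = R.roots)
    (M : ℕ) (hM : 0 < M) (n : ℕ) (hn0 : 0 < n) (hn : ¬ ℓ ∣ n) :
    ∃ k : ℕ, cyclotomic n κ ^ k ∣ pr (AO.map red) ∧
      (AO.filter (fun x => x ^ M = (u : integralClosure ℤ (AlgebraicClosure ℚ)) ^ M ∧
        orderOf (red x) = n)).card = n.totient * k := by
  classical
  by_cases hex : ∃ z : κ, IsPrimitiveRoot z n
  · obtain ⟨z, hz⟩ := hex
    refine ⟨redCount red AO u M z, ?_, ?_⟩
    · have hp0 : pr (AO.map red) ≠ 0 := by
        intro h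
        have := pr_coeff_zero' (AO.map red)
        rw [h, coeff_zero] at this
        exact zero_ne_one this
      rw [cyclotomic_eq_prod_X_sub_primitiveRoots hz]
      have h1 : (∏ μ ∈ primitiveRoots n κ, (X - C μ)) ^ (redCount red AO u M z) =
          (((redCount red AO u M z) • (primitiveRoots n κ).val).map (fun μ => X - C μ)).prod := by
        rw [Multiset.map_nsmul, Multiset.prod_nsmul]
        rfl
      rw [h1]
      refine (Multiset.prod_X_sub_C_dvd_iff_le_roots hp0 _).2 ?_
      rw [Multiset.le_iff_count]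
      intro μ
      rw [Multiset.count_nsmul]
      by_cases hμ : μ ∈ primitiveRoots n κ
      · rw [Multiset.count_eq_one_of_mem (primitiveRoots n κ).nodup hμ, mul_one]
        rw [mem_primitiveRoots hn0] at hμ
        rw [count_roots_pr _ _ (hμ.ne_zero hn0.ne')]
        refine (redCount_le ℓ red u hu0 hu R hc AO hAO M hM n hn z μ⁻¹ hz hμ.inv).trans ?_
        unfold redCount
        rw [Multiset.count, Multiset.countP_map]
        apply Multiset.card_le_card
        apply Multiset.monotone_filter_right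
        intro x hx
        exact hx.2.symm
      · rw [Multiset.count_eq_zero_of_notMem hμ, mul_zero]
        exact Nat.zero_le _
    · have h2 : (AO.filter (fun x => x ^ M = (u : integralClosure ℤ (AlgebraicClosure ℚ)) ^ M ∧
          orderOf (red x) = n)).card = ∑ μ ∈ primitiveRoots n κ, redCount red AO u M μ := by
        have h3 := card_filter_mem (primitiveRoots n κ) ((AO.filter (fun x =>
          x ^ M = (u : integralClosure ℤ (AlgebraicClosure ℚ)) ^ M)).map red)
        rw [Multiset.filter_map, Multiset.card_map, Multiset.filter_filter] at h3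
        have h4 : ∀ μ, ((AO.filter (fun x =>
            x ^ M = (u : integralClosure ℤ (AlgebraicClosure ℚ)) ^ M)).map red).count μ =
            redCount red AO u M μ := by
          intro μ
          unfold redCount
          rw [Multiset.count, Multiset.countP_map, Multiset.filter_filter]
          congr 1
          apply Multiset.filter_congr
          intro x _
          rw [and_comm, eq_comm (a := μ)]
        rw [Finset.sum_congr rfl (fun μ _ => (h4 μ).symm), ← h3]
        congr 1
        apply Multiset.filter_congr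
        intro x _
        simp only [Function.comp]
        rw [mem_primitiveRoots hn0, and_comm, IsPrimitiveRoot.iff_orderOf]
      rw [h2, Finset.sum_congr rfl (fun μ hμ => ?_), Finset.sum_const, smul_eq_mul,
        hz.card_primitiveRoots]
      rw [mem_primitiveRoots hn0] at hμ
      exact le_antisymm (redCount_le ℓ red u hu0 hu R hc AO hAO M hM n hn μ z hμ hz)
        (redCount_le ℓ red u hu0 hu R hc AO hAO M hM n hn z μ hz hμ)
  · refine ⟨0, by rw [pow_zero]; exact one_dvd _, ?_⟩
    rw [mul_zero, Multiset.card_eq_zero, Multiset.filter_eq_nil]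
    rintro x _ ⟨_, hx⟩
    exact hex ⟨red x, hx ▸ IsPrimitiveRoot.orderOf (red x)⟩

end Pool.Agent.Helper2.Tate
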