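import Pool.Agent.Helper2.Tate.UCount

/-!
# The eigenvalues on the cohomology of the twists, over all extensions
-/

set_option autoImplicit false

open Polynomial

namespace Pool.Agent.Helper2.Tate

/-- The roots of which the reduction is a root of unity of order dividing `m`. -/
theorem card_torsion_le (ℓ : ℕ) [hℓ : Fact ℓ.Prime] {κ : Type} [Field κ] [CharP κ ℓ]
    [DecidableEq κ] [DecidableEq (integralClosure ℤ (AlgebraicClosure ℚ))]
    (red : integralClosure ℤ (AlgebraicClosure ℚ) →+* κ) (u : ℕ)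
    (AO : Multiset (integralClosure ℤ (AlgebraicClosure ℚ)))
    (M m : ℕ) (hm : 0 < m) (hred : ∀ x : integralClosure ℤ (AlgebraicClosure ℚ),
      x ^ M = (u : integralClosure ℤ (AlgebraicClosure ℚ)) ^ M → red x ^ m = 1) :
    (AO.filter (fun x => x ^ M = (u : integralClosure ℤ (AlgebraicClosure ℚ)) ^ M)).card ≤
      ∑ n ∈ m.divisors.filter (fun n => ¬ ℓ ∣ n),
        (AO.filter (fun x => x ^ M = (u : integralClosure ℤ (AlgebraicClosure ℚ)) ^ M ∧
        orderOf (red x) = n)).card := by
  classical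
  have h3 := card_filter_mem (m.divisors.filter (fun n => ¬ ℓ ∣ n)) ((AO.filter (fun x =>
    x ^ M = (u : integralClosure ℤ (AlgebraicClosure ℚ)) ^ M)).map (fun x => orderOf (red x)))
  have h4 : ∀ n, ((AO.filter (fun x =>
      x ^ M = (u : integralClosure ℤ (AlgebraicClosure ℚ)) ^ M)).map
        (fun x => orderOf (red x))).count n =
      (AO.filter (fun x => x ^ M = (u : integralClosure ℤ (AlgebraicClosure ℚ)) ^ M ∧
        orderOf (red x) = n)).card := by
    intro n
    rw [Multiset.count, Multiset.countP_map, Multiset.filter_filter]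
    congr 1
    apply Multiset.filter_congr
    intro x _
    rw [and_comm, eq_comm (a := n)]
  rw [Finset.sum_congr rfl (fun n _ => (h4 n).symm), ← h3, Multiset.filter_map, Multiset.card_map]
  apply Multiset.card_le_card
  rw [Multiset.le_filter]
  refine ⟨le_rfl, ?_⟩
  intro x hx
  rw [Multiset.mem_filter] at hx
  simp only [Function.comp]
  have h1 : orderOf (red x) ∣ m := orderOf_dvd_of_pow_eq_one (hred x hx.2)
  have h2 : ¬ ℓ ∣ orderOf (red x) := by
    rintro ⟨s, hs⟩
    have h5 : (red x ^ s) ^ (ℓ ^ 1) = 1 := by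
      rw [pow_one, ← pow_mul, mul_comm, ← hs, pow_orderOf_eq_one]
    have h6 := pow_eq_one_of_char ℓ 1 (red x ^ s) h5
    have h0 : 0 < orderOf (red x) := Nat.pos_of_dvd_of_pos h1 hm
    have hs0 : 0 < s := by
      rcases Nat.eq_zero_or_pos s with h | h
      · rw [h, mul_zero] at hs; omega
      · exact h
    have h7 := Nat.le_of_dvd hs0 (orderOf_dvd_of_pow_eq_one h6)
    rw [hs] at h7
    have h8 := hℓ.out.two_le
    have h9 : 2 * s ≤ ℓ * s := Nat.mul_le_mul_right s h8
    omega
  rw [Finset.mem_filter, Nat.mem_divisors]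
  exact ⟨⟨h1, hm.ne'⟩, h2⟩

theorem sum_card_filter {α β : Type*} (s : Finset α) (A : Multiset β) (P : α → β → Prop)
    [∀ a, DecidablePred (P a)] [∀ b, DecidablePred (fun a => P a b)] :
    ∑ a ∈ s, (A.filter (P a)).card = (A.map (fun b => (s.filter (fun a => P a b)).card)).sum := by
  classical
  induction A using Multiset.induction_on with
  | empty => simp
  | cons b A ih =>
    rw [Multiset.map_cons, Multiset.sum_cons, ← ih, Finset.card_filter, ← Finset.sum_add_distrib]
    apply Finset.sum_congr rfl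
    intro a _
    by_cases h : P a b
    · rw [Multiset.filter_cons_of_pos _ h, Multiset.card_cons, if_pos h, add_comm]
    · rw [Multiset.filter_cons_of_neg _ h, if_neg h, zero_add]

theorem sum_map_le {β : Type*} (A : Multiset β) (g : β → ℕ) (T : β → Prop) [DecidablePred T]
    (s : ℕ) (h1 : ∀ b, T b → g b ≤ s) (h2 : ∀ b, ¬ T b → g b = 0) :
    (A.map g).sum ≤ s * (A.filter T).card := by
  induction A using Multiset.induction_on with
  | empty => simp
  | cons b A ih =>
    rw [Multiset.map_cons, Multiset.sum_cons]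
    by_cases h : T b
    · rw [Multiset.filter_cons_of_pos _ h, Multiset.card_cons, mul_add, mul_one]
      have := h1 b h
      omega
    · rw [Multiset.filter_cons_of_neg _ h, h2 b h, zero_add]
      exact ih

variable (F : Type) [Field F] [Fintype F]

/-- The sum over the twists, over an extension of degree prime to `ℓ`. -/
theorem u_sum_le (ℓ : ℕ) (hℓ : ℓ.Prime) (χ : MulChar F (AlgebraicClosure ℚ))
    (hχ : orderOf χ = ℓ) (s : ℕ) (hs : Fintype.card F - 1 = ℓ * s) (u : ℕ) (hu : u ≠ 0)
    (A : Multiset (AlgebraicClosure ℚ)) [DecidableEq F] [DecidableEq (AlgebraicClosure ℚ)]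
    (m : ℕ) (hm : 0 < m) (hmℓ : ¬ ℓ ∣ m) :
    ∑ c ∈ Finset.univ.erase (0 : F),
      (A.filter (fun α => (χ c * α) ^ m = (u : AlgebraicClosure ℚ) ^ m)).card ≤
      s * (A.filter (fun α => α ^ (m * ℓ) = (u : AlgebraicClosure ℚ) ^ (m * ℓ))).card := by
  classical
  have hχm : orderOf (χ ^ m) = ℓ := by
    have h1 : Nat.Coprime (orderOf χ) m := by
      rw [hχ]
      exact (Nat.Prime.coprime_iff_not_dvd hℓ).2 hmℓ
    rw [h1.orderOf_pow, hχ]
  have hchar : ∀ c : F, c ≠ 0 → (χ c) ^ ℓ = 1 := by
    intro c hc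
    rw [← MulChar.pow_apply' _ hℓ.ne_zero, ← hχ, pow_orderOf_eq_one, MulChar.one_apply]
    exact IsUnit.mk0 _ hc
  rw [sum_card_filter]
  apply sum_map_le
  · intro α _
    refine le_trans (Finset.card_le_card ?_) (g_card_fibre_le F ℓ hℓ (χ ^ m) hχm s hs (u ^ m)
      (pow_ne_zero _ hu) (α ^ m))
    intro c hc
    rw [Finset.mem_filter] at hc ⊢
    refine ⟨hc.1, ?_⟩
    have hc0 : c ≠ 0 := (Finset.mem_erase.1 hc.1).1
    have h0 : χ c ≠ 0 := by
      intro h
      have := hchar c hc0
      rw [h, zero_pow hℓ.ne_zero] at this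
      exact zero_ne_one this
    rw [MulChar.pow_apply' _ hm.ne', Nat.cast_pow, ← hc.2, mul_pow]
    field_simp
  · intro α hα
    rw [Finset.card_eq_zero, Finset.filter_eq_empty_iff]
    intro c hc h
    apply hα
    have hc0 : c ≠ 0 := (Finset.mem_erase.1 hc).1
    rw [pow_mul, pow_mul, ← h, mul_pow, mul_pow, ← pow_mul (χ c), mul_comm m ℓ, pow_mul (χ c),
      hchar c hc0, one_pow, one_mul]

/-- The theorem on all twists and all extensions. -/
theorem u_main (ℓ : ℕ) (hℓ : ℓ.Prime) (χ : MulChar F (AlgebraicClosure ℚ))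
    (hχ : orderOf χ = ℓ) {r : ℕ} (S : Set (MvPolynomial (Fin r) F)) (f : MvPolynomial (Fin r) F)
    (E₁ E₂ QS : ℤ[X]) (Q : F → ℤ[X]) (R : (AlgebraicClosure ℚ)[X])
    (hU : IsVirtualFrob (openCount F S f) E₁ E₂)
    (hQ : ∀ c : F, c ≠ 0 → IsVirtualFrob (newCount F ℓ S (MvPolynomial.C c * f)) (Q c) QS)
    (hR : IsLPolynomial F ℓ χ S f R) (e : ℕ) :
    ∃ (k : ℕ → ℕ) (N : F → ℕ → ℕ),
      (∀ n : ℕ, 1 ≤ n → ∀ j : ℕ,
        cyclotomic n (ZMod ℓ) ^ j * E₂.reverse.map (Int.castRingHom (ZMod ℓ)) ∣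
          E₁.reverse.map (Int.castRingHom (ZMod ℓ)) ↔ j ≤ k n) ∧
      ∀ m : ℕ, 1 ≤ m →
        (∀ c : F, c ≠ 0 →
          mult (Fintype.card F ^ e) (Q c) m =
            mult (Fintype.card F ^ e) QS m + (ℓ - 1) * N c m ∧
          N c m ≤ ∑ n ∈ m.divisors.filter (fun n => ¬ ℓ ∣ n), n.totient * k n) ∧
        (¬ ℓ ∣ m → ℓ * ∑ c : F, N c m ≤
          (Fintype.card F - 1) * ∑ n ∈ m.divisors, n.totient * k n) := by
  classical
  have hF := Fact.mk hℓ
  have hq2 : 2 ≤ Fintype.card F := Fintype.one_lt_card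
  have hq : ℓ ∣ Fintype.card F - 1 := hχ ▸ MulChar.orderOf_dvd_card_sub_one F χ
  have hu1 : 1 ≤ Fintype.card F ^ e := Nat.one_le_pow _ _ (by omega)
  set u := Fintype.card F ^ e with hu
  have hu0 : (u : AlgebraicClosure ℚ) ≠ 0 := by
    have : u ≠ 0 := by omega
    exact_mod_cast this
  obtain ⟨s, hs⟩ := id hq
  obtain ⟨AO, hAO, hconj⟩ := exists_lift ℓ R hR.1 hR.2.1
  obtain ⟨κ, _, red, hκ⟩ := exists_red ℓ
  let _ : Algebra (ZMod ℓ) κ := ZMod.algebra κ ℓ
  have hlp := g_lpoly_eq F ℓ hℓ χ hχ S f E₁ E₂ QS (Q 1) R hU (hQ 1 one_ne_zero) hR AO hAO red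
    (fun σ => hconj red σ)
  have huκ : (u : κ) = 1 := pow_cast_one F ℓ hq e
  obtain ⟨σ, hσ⟩ := exists_sigma ℓ hℓ
  have hchar : ∀ c : F, c ≠ 0 → (χ c) ^ ℓ = 1 := by
    intro c hc
    rw [← MulChar.pow_apply' _ hℓ.ne_zero, ← hχ, pow_orderOf_eq_one, MulChar.one_apply]
    exact IsUnit.mk0 _ hc
  -- the quotient polynomial
  have hρ2 : (algebraMap (ZMod ℓ) κ).comp (Int.castRingHom (ZMod ℓ)) = Int.castRingHom κ :=
    RingHom.ext_int _ _
  have hE20 := reverse_map_ne_zero ℓ E₂ hU.2.1
  obtain ⟨G, hG⟩ : E₂.reverse.map (Int.castRingHom (ZMod ℓ)) ∣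
      E₁.reverse.map (Int.castRingHom (ZMod ℓ)) := by
    rw [← map_dvd_map' (algebraMap (ZMod ℓ) κ), Polynomial.map_map, Polynomial.map_map, hρ2, ← hlp]
    exact Dvd.intro_left _ rfl
  have hG0 : G ≠ 0 := by
    rintro rfl
    rw [mul_zero] at hG
    exact reverse_map_ne_zero ℓ E₁ hU.1 hG
  have hGκ : G.map (algebraMap (ZMod ℓ) κ) = pr (AO.map red) := by
    have h1 := congrArg (Polynomial.map (algebraMap (ZMod ℓ) κ)) hG
    rw [Polynomial.map_mul, Polynomial.map_map, Polynomial.map_map, hρ2, ← hlp,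
      mul_comm (Polynomial.map (Int.castRingHom κ) E₂.reverse)] at h1
    have h2 : E₂.reverse.map (Int.castRingHom κ) ≠ 0 := by
      rw [← hρ2, ← Polynomial.map_map]
      exact Polynomial.map_ne_zero hE20
    exact (mul_right_cancel₀ h2 h1).symm
  have hfin : ∀ n : ℕ, 1 ≤ n → FiniteMultiplicity (cyclotomic n (ZMod ℓ)) G := by
    intro n hn
    refine FiniteMultiplicity.of_not_isUnit ?_ hG0
    intro h
    have h1 := natDegree_eq_zero_of_isUnit h
    rw [natDegree_cyclotomic] at h1
    exact (Nat.totient_pos.2 hn).ne' h1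
  -- the torsion eigenvalues
  set T : ℕ → ℕ := fun m => (R.roots.filter
    (fun α => α ^ (m * ℓ) = (u : AlgebraicClosure ℚ) ^ (m * ℓ))).card with hT
  have hTle : ∀ m : ℕ, 1 ≤ m → T m ≤ ∑ n ∈ m.divisors.filter (fun n => ¬ ℓ ∣ n),
      n.totient * multiplicity (cyclotomic n (ZMod ℓ)) G := by
    intro m hm
    have h1 : T m = (AO.filter (fun x => x ^ (m * ℓ) =
        (u : integralClosure ℤ (AlgebraicClosure ℚ)) ^ (m * ℓ))).card := by
      rw [hT]
      simp only
      rw [← hAO, Multiset.filter_map, Multiset.card_map]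
      congr 1
      apply Multiset.filter_congr
      intro x _
      simp only [Function.comp]
      constructor
      · intro h
        apply Subtype.ext
        push_cast
        exact h
      · intro h
        have := congrArg (algebraMap (integralClosure ℤ (AlgebraicClosure ℚ))
          (AlgebraicClosure ℚ)) h
        simpa using this
    rw [h1]
    refine (card_torsion_le ℓ red u AO (m * ℓ) m hm ?_).trans ?_
    · intro x hx
      have h2 := congrArg red hx
      rw [map_pow, map_pow, map_natCast, huκ, one_pow, pow_mul] at h2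
      exact pow_eq_one_of_char ℓ 1 _ (by rw [pow_one]; exact h2)
    · apply Finset.sum_le_sum
      intro n hn
      rw [Finset.mem_filter, Nat.mem_divisors] at hn
      have hn0 : 0 < n := Nat.pos_of_dvd_of_pos hn.1.1 hm
      obtain ⟨k, hk1, hk2⟩ := card_order_le ℓ red u (by omega) huκ R hR.2.1 AO hAO (m * ℓ)
        (Nat.mul_pos hm hℓ.pos) n hn0 hn.2
      rw [hk2]
      apply Nat.mul_le_mul_left
      rw [← (hfin n hn0).pow_dvd_iff_le_multiplicity, ← map_dvd_map' (algebraMap (ZMod ℓ) κ),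
        Polynomial.map_pow, map_cyclotomic, hGκ]
      exact hk1
  -- the number of new eigenvalues
  set N : F → ℕ → ℕ := fun c m => if c = 0 then 0 else
    (R.roots.filter (fun α => (χ c * α) ^ m = (u : AlgebraicClosure ℚ) ^ m)).card with hN
  refine ⟨fun n => multiplicity (cyclotomic n (ZMod ℓ)) G, N, ?_, ?_⟩
  · intro n hn j
    rw [← (hfin n hn).pow_dvd_iff_le_multiplicity, hG, mul_comm (_ ^ j), mul_dvd_mul_iff_left hE20]
  intro m hm
  have hNT : ∀ c : F, c ≠ 0 → N c m ≤ T m := by
    intro c hc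
    rw [hN, hT]
    simp only
    rw [if_neg hc]
    apply Multiset.card_le_card
    apply Multiset.monotone_filter_right
    intro α hα
    rw [pow_mul, pow_mul, ← hα, mul_pow, mul_pow, ← pow_mul (χ c), mul_comm m ℓ, pow_mul (χ c),
      hchar c hc, one_pow, one_mul]
  refine ⟨?_, ?_⟩
  · intro c hc
    refine ⟨?_, (hNT c hc).trans (hTle m hm)⟩
    rw [mult_rt_card, mult_rt_card]
    have h1 : (rt (Q c)).filter (fun α => α ^ m = (u : AlgebraicClosure ℚ) ^ m) =
        (rt QS + ∑ j ∈ Finset.range (ℓ - 1),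
          R.roots.map (fun α => (χ ^ (j + 1)) c * σ j α)).filter
            (fun α => α ^ m = (u : AlgebraicClosure ℚ) ^ m) := by
      ext z
      rw [Multiset.count_filter, Multiset.count_filter]
      split
      · rename_i hz
        apply ps_count _ _ (g_count_twist F ℓ hℓ χ hχ S f QS (Q c) R c hc (hQ c hc) hR σ hσ)
        rintro rfl
        rw [zero_pow (by omega)] at hz
        exact pow_ne_zero _ hu0 hz.symm
      · rfl
    have hsumf : ∀ (s : Finset ℕ) (B : ℕ → Multiset (AlgebraicClosure ℚ)),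
        ((∑ j ∈ s, B j).filter (fun α => α ^ m = (u : AlgebraicClosure ℚ) ^ m)).card =
        ∑ j ∈ s, ((B j).filter (fun α => α ^ m = (u : AlgebraicClosure ℚ) ^ m)).card := by
      intro s B
      induction s using Finset.induction_on with
      | empty => simp
      | insert j s hj ih =>
        rw [Finset.sum_insert hj, Finset.sum_insert hj, Multiset.filter_add, Multiset.card_add, ih]
    rw [h1, Multiset.filter_add, Multiset.card_add, hsumf]
    congr 1
    have h2 : ∀ j ∈ Finset.range (ℓ - 1),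
        ((R.roots.map (fun α => (χ ^ (j + 1)) c * σ j α)).filter
          (fun α => α ^ m = (u : AlgebraicClosure ℚ) ^ m)).card = N c m := by
      intro j hj
      rw [hN]
      simp only
      rw [if_neg hc, Multiset.filter_map, Multiset.card_map]
      congr 1
      apply Multiset.filter_congr
      intro α _
      simp only [Function.comp]
      have h3 : (χ ^ (j + 1)) c * σ j α = σ j (χ c * α) := by
        rw [map_mul, hσ j (Finset.mem_range.1 hj) _ (hchar c hc),
          MulChar.pow_apply' _ (by omega : j + 1 ≠ 0)]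
      rw [h3]
      have h4 : ((u : AlgebraicClosure ℚ) ^ m) = σ j ((u : AlgebraicClosure ℚ) ^ m) := by
        rw [map_pow, map_natCast]
      constructor
      · intro h
        rw [h4, ← map_pow] at h
        exact (σ j).injective h
      · intro h
        rw [← map_pow, h, ← h4]
    rw [Finset.sum_congr rfl h2, Finset.sum_const, Finset.card_range, smul_eq_mul]
  · intro hmℓ
    have hfil : m.divisors.filter (fun n => ¬ ℓ ∣ n) = m.divisors := by
      apply Finset.filter_true_of_mem
      intro n hn h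
      exact hmℓ (h.trans (Nat.mem_divisors.1 hn).1)
    have h1 := hTle m hm
    rw [hfil] at h1
    have h2 : ∑ c : F, N c m = ∑ c ∈ Finset.univ.erase (0 : F),
        (R.roots.filter (fun α => (χ c * α) ^ m = (u : AlgebraicClosure ℚ) ^ m)).card := by
      rw [← Finset.add_sum_erase Finset.univ (fun c => N c m) (Finset.mem_univ 0)]
      have h0 : N 0 m = 0 := by rw [hN]; simp
      rw [h0, zero_add]
      apply Finset.sum_congr rfl
      intro c hc
      rw [hN]
      simp only
      rw [if_neg (Finset.mem_erase.1 hc).1]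
    rw [h2, hs, mul_assoc]
    apply Nat.mul_le_mul_left
    refine (u_sum_le F ℓ hℓ χ hχ s hs u (by omega) R.roots m hm hmℓ).trans ?_
    exact Nat.mul_le_mul_left _ h1

end Pool.Agent.Helper2.Tate
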